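import Pool.Agent.Lib.MP_c37a72_al.NR.Base

/-!
# MP_c37a72_al, block NR (the non-reduced case): Specs

Plan: `/team-store/MP_c37a72_CK.md`, section NR. Part 1 (THM .. YDX): the constancy package and, in the
non-reduced case, a Galois extension `Y ≠ Z` of `Z` inside `Q` (`IsYD`). Part 2 (DDK .. NID): `IsYD`
implies that finiteness over the centre for `H` follows from the one for `H_1 = C_H(Y)`.

Module `XXX` is the file `Pool/Agent/Lib/MP_c37a72_al/NR/XXX.lean`, which imports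
`Pool.Agent.Lib.MP_c37a72_al.NR.Spec`, with `theorem specXXX (hYYY : SpecYYY) .. : SpecXXX` in the namespace
`Pool.Agent.Lib.MP_c37a72_al.NR`; every Spec of this file and of `EG`, `CO`, `LB`, `SpecH.lean` may be taken as
a hypothesis; own lemmas in the namespace `Pool.Agent.Lib.MP_c37a72_al.NR.XXXM`.

Notation: `Δ h = h₁ ⊗ h₂`, `h ▷ q = adlQ h q`, `q ◁ h = adrQ h q`; `A = AA`, `m = dim A = [O'' : Z]`,
`(u) = algebraMap`. Products of automorphisms: `(s * t) x = s (t x)`.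
-/

set_option autoImplicit false

open scoped TensorProduct
open Coalgebra HopfAlgebra
open Pool.Agent.Lib.MP_c37a72_al.EG Pool.Agent.Lib.MP_c37a72_al.CO

namespace Pool.Agent.Lib.MP_c37a72_al.NR

universe u v w

/-! ## Part 1: regularity of `A`, the field `Y` -/

/-- **THM** (100 lines). `θ` is determined by `ψ` and is an anti-homomorphism.

PROOF. If `(τ ⊗ 1) ψ(x) = (τ' ⊗ 1) ψ(x)` for all `x` then `τ ⊗ 1 = τ' ⊗ 1` on the products
`ψ(x)(1 ⊗ p)`, which span `A ⊗ P` (`CPkg.span`), so `τ a ⊗ 1 = τ' a ⊗ 1` and `τ a = τ' a`. `θ(1) = 1`: `thP` for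
`γ = 1`. `(1 ⊗ γ γ') ψ(x) = (1 ⊗ γ)(θ(γ') ⊗ 1) ψ(x) = (θ(γ') ⊗ 1)(1 ⊗ γ) ψ(x)
= (θ(γ') θ(γ) ⊗ 1) ψ(x)`. -/
def SpecTHM : Prop :=
  ∀ (k : Type u) (H Z Q : Type v) [Field k] [Ring H] [HopfAlgebra k H] [Field Z] [Algebra k Z]
    [DivisionRing Q] [Algebra k Q] [Algebra Z Q] [IsScalarTower k Z Q] (ι : H →ₐ[k] Q)
    (AA : Type w) (P : Type v) [Ring AA] [Algebra k AA] [Field P] [Algebra k P] [Algebra Z P]
    [IsScalarTower k Z P] (ρ : H →ₗ[k] Module.End k AA) (ψ : ↥(Opp k Z ι) →ₐ[k] AA ⊗[k] P)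
    (θ : (P ≃ₐ[Z] P) → (AA ≃ₐ[k] AA)), CPkg k Z ι ρ ψ θ →
    (∀ τ τ' : AA ≃ₐ[k] AA,
      (∀ x, Algebra.TensorProduct.map τ.toAlgHom (AlgHom.id k P) (ψ x) =
        Algebra.TensorProduct.map τ'.toAlgHom (AlgHom.id k P) (ψ x)) → τ = τ') ∧
    θ 1 = 1 ∧ ∀ γ γ' : P ≃ₐ[Z] P, θ (γ * γ') = θ γ' * θ γ

/-- **DSC** (200 lines). Descent: a nonzero `θ`-stable subspace `V` of `A` has a nonzero `x ∈ O''` with
`ψ(x) ∈ V ⊗ P`.

PROOF. Let `o_i` be a `Z`-basis of `O''`. `ψ(o_i)` is a `P`-basis of `A ⊗ P` (it spans by `CPkg.span`,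
`psiZ`, and `dim_P (A ⊗ P) = dim A = [O'' : Z]`). `s_γ := θ(γ)⁻¹ ⊗ γ` fixes `ψ(O'')` (`thP`), so for
`v = ∑ ψ(o_i)(1 ⊗ p_i)` one has `∑_γ s_γ(v) = ∑ ψ(o_i)(1 ⊗ Tr(p_i)) = ψ(∑ Tr(p_i) o_i)` (`psiZ`; the sum over
the Galois group is the trace). Take `0 ≠ v₀ ∈ V`, `v = v₀ ⊗ q = (v₀ ⊗ 1)(1 ⊗ q)`, so `p_i = p⁰_i q`, not all
`p⁰_i = 0`, and `q` with `Tr(p⁰_i q) ≠ 0` for one `i` (the trace form is nondegenerate,
`traceForm_nondegenerate`). `s_γ(V ⊗ P) ⊆ V ⊗ P`: `θ(γ) V ⊆ V` is injective on the finite-dimensional `V`,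
so `θ(γ) V = V`. -/
def SpecDSC : Prop :=
  ∀ (k : Type u) (H Z Q : Type v) [Field k] [Ring H] [HopfAlgebra k H] [Field Z] [Algebra k Z]
    [DivisionRing Q] [Algebra k Q] [Algebra Z Q] [IsScalarTower k Z Q] (ι : H →ₐ[k] Q)
    (AA : Type w) (P : Type v) [Ring AA] [Algebra k AA] [Field P] [Algebra k P] [Algebra Z P]
    [IsScalarTower k Z P] (ρ : H →ₗ[k] Module.End k AA) (ψ : ↥(Opp k Z ι) →ₐ[k] AA ⊗[k] P)
    (θ : (P ≃ₐ[Z] P) → (AA ≃ₐ[k] AA)), IsCQ k H Z Q ι → CPkg k Z ι ρ ψ θ →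
    ∀ V : Submodule k AA, V ≠ ⊥ → (∀ γ, ∀ v ∈ V, θ γ v ∈ V) →
      ∃ x : ↥(Opp k Z ι), x ≠ 0 ∧ ψ x ∈ LinearMap.range (V.subtype.rTensor P)

/-- **GBM** (200 lines). `dim A ≤ |θ(Gal)|`.

PROOF. (1) Let `V ≠ 0` be a right ideal of `A` with `θ(γ) V ⊆ V`. DSC: `0 ≠ x ∈ O''`, `ψ(x) ∈ V ⊗ P`. `O''` is a
division ring (centralizer of `O_l` in a division ring): `1 = ψ(x) ψ(x⁻¹) ∈ (V ⊗ P)(A ⊗ P) ⊆ V ⊗ P`, so
`1 ∈ V` (apply `id ⊗ f`, `f(1) = 1`, `f : P → k` linear) and `V = A`. (2) Let `S ⊆ End_k(A)` be the span of the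
`a ↦ τ(a) c`, `τ ∈ θ(Gal)`, `c ∈ A`: a subalgebra (`θ(Gal)` is a finite group by THM;
`τ(τ'(a) c') c = (τ τ')(a) (τ(c') c)`), of dimension at most `|θ(Gal)| dim A`. A subspace stable under `S` is
a `θ`-stable right ideal. By Burnside (`CO.NCXM.burnside`, file `CO/NCX.lean`) `S = End_k(A)`, so
`(dim A)² ≤ |θ(Gal)| dim A`; `A ≠ 0` because `[O'' : Z] ≥ 1`. -/
def SpecGBM : Prop :=
  ∀ (k : Type u) (H Z Q : Type v) [Field k] [IsAlgClosed k] [Ring H] [HopfAlgebra k H] [Field Z]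
    [Algebra k Z] [DivisionRing Q] [Algebra k Q] [Algebra Z Q] [IsScalarTower k Z Q]
    (ι : H →ₐ[k] Q)
    (AA : Type w) (P : Type v) [Ring AA] [Algebra k AA] [Field P] [Algebra k P] [Algebra Z P]
    [IsScalarTower k Z P] (ρ : H →ₗ[k] Module.End k AA) (ψ : ↥(Opp k Z ι) →ₐ[k] AA ⊗[k] P)
    (θ : (P ≃ₐ[Z] P) → (AA ≃ₐ[k] AA)), IsCQ k H Z Q ι → CPkg k Z ι ρ ψ θ →
    Module.finrank k AA ≤ Nat.card (Set.range θ)

/-- **IDA** (120 lines). Independence of `H`-linear automorphisms, with coefficients in `A`.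

PROOF. (1) The different `τ_s` are `k`-independent: otherwise there is (minimal relation) an independent
subfamily `τ_i`, `i ∈ I`, and `j ∉ I` with `τ_j = ∑_{i ∈ I} μ_i τ_i`. Then
`∑ μ_i τ_i(a) τ_i(b) = τ_j(a b) = ∑ μ_i τ_i(a) τ_j(b)`, so `∑_i τ_i(a) · μ_i (τ_i(b) - τ_j(b)) = 0` for all `a`,
and by `CO.THEM.indep` (file `CO/THE.lean`; its hypothesis `cop` is SpecCOP of CO, with `CPre` made from the
fields of `CPkg`) `μ_i (τ_i(b) - τ_j(b)) = 0` for all `i, b`. Some `μ_i ≠ 0` (`τ_j(1) = 1 ≠ 0`), so `τ_i = τ_j`,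
a contradiction. (2) `CO.THEM.indep` for the family `τ`. -/
def SpecIDA : Prop :=
  ∀ (k : Type u) (H Z Q : Type v) [Field k] [Ring H] [HopfAlgebra k H] [Field Z] [Algebra k Z]
    [DivisionRing Q] [Algebra k Q] [Algebra Z Q] [IsScalarTower k Z Q] (ι : H →ₐ[k] Q)
    (AA : Type w) (P : Type v) [Ring AA] [Algebra k AA] [Field P] [Algebra k P] [Algebra Z P]
    [IsScalarTower k Z P] (ρ : H →ₗ[k] Module.End k AA) (ψ : ↥(Opp k Z ι) →ₐ[k] AA ⊗[k] P)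
    (θ : (P ≃ₐ[Z] P) → (AA ≃ₐ[k] AA)), IsCQ k H Z Q ι → CPkg k Z ι ρ ψ θ →
    ∀ (n : ℕ) (τ : Fin n → (AA ≃ₐ[k] AA)), Function.Injective τ →
      (∀ s h a, τ s (ρ h a) = ρ h (τ s a)) →
      ∀ c : Fin n → AA, (∀ a, ∑ s, τ s a * c s = 0) → ∀ s, c s = 0

/-- **RGU** (100 lines). Regularity: `|θ(Gal)| = dim A`, and every `H`-linear automorphism of `A` is in
`θ(Gal)`.

PROOF. `n` different `H`-linear automorphisms: `(c_s) ↦ (a ↦ ∑ τ_s(a) c_s)`, `A^n → End_k(A)`, is injective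
(IDA), so `n dim A ≤ (dim A)²`, `n ≤ dim A` (`A ≠ 0`). With GBM: `θ(Gal)` (which is `H`-linear by `thH`) has
exactly `dim A` elements, and there is no further `H`-linear automorphism. -/
def SpecRGU : Prop :=
  ∀ (k : Type u) (H Z Q : Type v) [Field k] [IsAlgClosed k] [Ring H] [HopfAlgebra k H] [Field Z]
    [Algebra k Z] [DivisionRing Q] [Algebra k Q] [Algebra Z Q] [IsScalarTower k Z Q]
    (ι : H →ₐ[k] Q)
    (AA : Type w) (P : Type v) [Ring AA] [Algebra k AA] [Field P] [Algebra k P] [Algebra Z P]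
    [IsScalarTower k Z P] (ρ : H →ₗ[k] Module.End k AA) (ψ : ↥(Opp k Z ι) →ₐ[k] AA ⊗[k] P)
    (θ : (P ≃ₐ[Z] P) → (AA ≃ₐ[k] AA)), IsCQ k H Z Q ι → CPkg k Z ι ρ ψ θ →
    Nat.card (Set.range θ) = Module.finrank k AA ∧
      ∀ τ : AA ≃ₐ[k] AA, (∀ h a, τ (ρ h a) = ρ h (τ a)) → τ ∈ Set.range θ

/-- **FXD** (200 lines). Dimension of the invariants of a subgroup.

PROOF. `F := {a : n a = a for n ∈ N}`. Let `R ⊆ T` be representatives of the right cosets `N τ`,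
`|T| = |N| |R|`. `J : A^R → Hom_k(A, F)`, `J(c)(a) = ∑_{τ ∈ R} ∑_{n ∈ N} n(τ(a) c_τ)` (values are `N`-invariant).
`J(c)(a) = ∑_{τ, n} (n τ)(a) n(c_τ)`, and `(n, τ) ↦ n τ` is a bijection `N × R → T`, so by the hypothesis
`J(c) = 0` implies `n(c_τ) = 0`, `c_τ = 0`. So `|R| dim A ≤ dim A dim F`, `|R| ≤ dim F` (`A ≠ 0`; if
`dim A = 0` the statement is trivial), `dim A ≤ |T| = |N| |R| ≤ |N| dim F`. -/
def SpecFXD : Prop :=
  ∀ (k : Type u) (AA : Type w) [Field k] [Ring AA] [Algebra k AA] [Module.Finite k AA]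
    (T N : Subgroup (AA ≃ₐ[k] AA)) [Fintype ↥T], N ≤ T →
    (∀ c : ↥T → AA, (∀ a, ∑ τ : ↥T, (τ : AA ≃ₐ[k] AA) a * c τ = 0) → c = 0) →
    Module.finrank k AA ≤ Nat.card ↥T →
    ∀ F : Submodule k AA, (∀ a, a ∈ F ↔ ∀ n ∈ N, n a = a) →
      Module.finrank k AA ≤ Nat.card ↥N * Module.finrank k ↥F

/-- **THX** (150 lines). The action `θ_x` (or `θ_y`) of `Gal(L / Z)` on `A`.

PROOF. For `s ∈ Gal(L / Z)` the homomorphisms `s ∘ e` and `e` from `P` to `L` agree on `Z`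
(`s` fixes `Z`), and `P / Z` is normal: `s ∘ e = e ∘ γ` for a unique `γ ∈ Gal(P / Z)`. (For Lean: give `L` the
`P`-algebra structure by `e`, and the `Z`-algebra structure `z ↦ (σ z)`; `AlgHom.restrictNormal`,
`Normal`.) `T s := θ γ`. `s ↦ γ` is a homomorphism of groups, surjective because `L / Z` is normal (lift `e ∘ γ`
to `L`: `AlgHom.liftNormal` or `IsAlgClosed`-free version for the intermediate field `e(P)`); THM: `θ` is an
anti-homomorphism. -/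
def SpecTHX : Prop :=
  ∀ (k : Type u) (H Z Q : Type v) [Field k] [Ring H] [HopfAlgebra k H] [Field Z] [Algebra k Z]
    [DivisionRing Q] [Algebra k Q] [Algebra Z Q] [IsScalarTower k Z Q] (ι : H →ₐ[k] Q)
    (AA : Type w) (P : Type v) [Ring AA] [Algebra k AA] [Field P] [Algebra k P] [Algebra Z P]
    [IsScalarTower k Z P] (ρ : H →ₗ[k] Module.End k AA) (ψ : ↥(Opp k Z ι) →ₐ[k] AA ⊗[k] P)
    (θ : (P ≃ₐ[Z] P) → (AA ≃ₐ[k] AA)), CPkg k Z ι ρ ψ θ →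
    ∀ (L : Type v) [Field L] [Algebra k L] [Algebra Z L] [IsScalarTower k Z L] [Module.Finite Z L]
      [IsGalois Z L] (e : P →ₐ[k] L) (σ : Z ≃ₐ[k] Z),
      (∀ z, e (algebraMap Z P z) = algebraMap Z L (σ z)) →
      ∃ T : (L ≃ₐ[Z] L) → (AA ≃ₐ[k] AA),
        (∀ s (γ : P ≃ₐ[Z] P), (∀ p, s (e p) = e (γ p)) → T s = θ γ) ∧
        (∀ s, ∃ γ : P ≃ₐ[Z] P, (∀ p, s (e p) = e (γ p)) ∧ T s = θ γ) ∧
        T 1 = 1 ∧ (∀ s t, T (s * t) = T t * T s) ∧ Set.range T = Set.range θ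

/-- **NDM** (120 lines). `[G : N] ≤ dim A^N` for a normal subgroup `N` of `G = Gal(L / Z)` which contains
`ker T`.

PROOF. FXD for the group `θ(Gal)` (a subgroup by THM; it is `T(G)`) and its subgroup `T(N)`; the independence
is IDA (`thH`), `dim A ≤ |θ(Gal)|` is RGU. So `dim A ≤ |T(N)| dim F`. `|T(G)| = dim A`, and, `T` being an
anti-homomorphism with kernel `K ⊆ N`, `|G| = |K| |T(G)|`, `|N| = |K| |T(N)|`. Multiply by `|K|`. -/
def SpecNDM : Prop :=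
  ∀ (k : Type u) (H Z Q : Type v) [Field k] [IsAlgClosed k] [Ring H] [HopfAlgebra k H] [Field Z]
    [Algebra k Z] [DivisionRing Q] [Algebra k Q] [Algebra Z Q] [IsScalarTower k Z Q]
    (ι : H →ₐ[k] Q)
    (AA : Type w) (P : Type v) [Ring AA] [Algebra k AA] [Field P] [Algebra k P] [Algebra Z P]
    [IsScalarTower k Z P] (ρ : H →ₗ[k] Module.End k AA) (ψ : ↥(Opp k Z ι) →ₐ[k] AA ⊗[k] P)
    (θ : (P ≃ₐ[Z] P) → (AA ≃ₐ[k] AA)), IsCQ k H Z Q ι → CPkg k Z ι ρ ψ θ →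
    ∀ (L : Type v) [Field L] [Algebra Z L] [Module.Finite Z L]
      (T : (L ≃ₐ[Z] L) → (AA ≃ₐ[k] AA)), T 1 = 1 → (∀ s t, T (s * t) = T t * T s) →
      Set.range T = Set.range θ → ∀ N : Subgroup (L ≃ₐ[Z] L), (∀ s, T s = 1 → s ∈ N) →
      ∀ F : Submodule k AA, (∀ a, a ∈ F ↔ ∀ s ∈ N, T s a = a) →
        Nat.card (L ≃ₐ[Z] L) ≤ Nat.card ↥N * Module.finrank k ↥F

/-- **EMB** (200 lines). The embedding of `A` into `Q ⊗_Z L`, general form.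

PROOF. Let `b_i` be a `Z`-basis of `B`. `φ(b_i)` is an `L`-basis of `A ⊗_k L` (spans, right dimension). Let
`g : A ⊗_k L → Q ⊗_Z L` be the `L`-linear map (`L` acts on the right factors) with `g(φ(b_i)) = b_i ⊗ 1`; it
is injective, because the `b_i` are `Z`-independent in `Q` and so the `b_i ⊗ 1` are `L`-independent in
`Q ⊗_Z L` (`Module.Basis.baseChange` for a `Z`-basis of `Q` extending the `b_i`, or flatness of `L`). Then
`g(φ(b)) = b ⊗ 1` for `b ∈ B`. Put `f(a) := g(a ⊗ 1)`; `g(a ⊗ l) = g(a ⊗ 1)(1 ⊗ l)`, so `lf f = g`.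
Functoriality: both `(T ⊗ s) ∘ g` and `g ∘ (TA ⊗ s)` are `s`-semilinear over `L`, and on `φ(b)`, `b ∈ B`, they
are `T(b) ⊗ 1` and `g(φ(b')) = b' ⊗ 1`. Apply to `a ⊗ 1`. -/
def SpecEMB : Prop :=
  ∀ (k : Type u) (Z Q L : Type v) (AA : Type w) [Field k] [Field Z] [Algebra k Z]
    [DivisionRing Q] [Algebra k Q] [Algebra Z Q] [IsScalarTower k Z Q] [Field L] [Algebra k L]
    [Algebra Z L] [IsScalarTower k Z L] [Ring AA] [Algebra k AA] [Module.Finite k AA]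
    (B : Submodule Z Q) [Module.Finite Z ↥B] (φ : ↥B →ₗ[k] AA ⊗[k] L),
    (∀ (z : Z) (b : ↥B), φ (z • b) = φ b * (1 ⊗ₜ[k] algebraMap Z L z)) →
    Submodule.span k {y : AA ⊗[k] L | ∃ b l, y = φ b * (1 ⊗ₜ[k] l)} = ⊤ →
    Module.finrank k AA = Module.finrank Z ↥B →
    ∃ f : AA →ₗ[k] Q ⊗[Z] L, Function.Injective (lf f) ∧
      (∀ b : ↥B, lf f (φ b) = (b : Q) ⊗ₜ[Z] 1) ∧
      ∀ (T : Q →ₗ[Z] Q) (TA : AA →ₗ[k] AA) (s : L ≃ₐ[Z] L),
        (∀ b : ↥B, ∃ b' : ↥B, (b' : Q) = T b ∧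
          φ b' = TensorProduct.map TA ((s : L ≃ₐ[Z] L).toAlgHom.toLinearMap.restrictScalars k)
            (φ b)) →
        ∀ a, TensorProduct.map T s.toAlgHom.toLinearMap (f a) = f (TA a)

/-- **AXX** (200 lines). The copy of `A` in `O'' ⊗_Z L`.

PROOF. EMB for `B = O''`, `φ = Pa ψ e`: `psiZ` and `e = (u)` on `Z`; the span condition from `CPkg.span`: every
element of `A ⊗ L` is a sum of `a ⊗ l = (a ⊗ 1)(1 ⊗ l)`, `a ⊗ 1 ∈ A ⊗ P` is a sum of `ψ(x)(1 ⊗ p)`; `dim`.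
`f = ax`. `one`, `mul`: `lf f` is multiplicative on products of elements `Pa(x)(1 ⊗ l)` (these span), because
`lf f (Pa(x)(1 ⊗ l) Pa(x')(1 ⊗ l')) = lf f (Pa(x x')(1 ⊗ l l')) = x x' ⊗ l l'`; so `lf f` is a homomorphism.
`gal`: EMB with `T = id`, `s`, `TA = θ(γ)⁻¹`: `(θ(γ)⁻¹ ⊗ s) Pa(x) = (θ(γ)⁻¹ ⊗ 1)(1 ⊗ e)(1 ⊗ γ) ψ(x)
= (1 ⊗ e) ψ(x)` (`thP`). `act`: `T = adrQ h`, `TA = ρ h`, `s = 1` (`psiH`; `x ◁ h ∈ O''` by EG.OPP). -/
def SpecAXX : Prop :=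
  ∀ (k : Type u) (H Z Q : Type v) [Field k] [Ring H] [HopfAlgebra k H] [Field Z] [Algebra k Z]
    [DivisionRing Q] [Algebra k Q] [Algebra Z Q] [IsScalarTower k Z Q] (ι : H →ₐ[k] Q)
    (AA : Type w) (P : Type v) [Ring AA] [Algebra k AA] [Field P] [Algebra k P] [Algebra Z P]
    [IsScalarTower k Z P] (ρ : H →ₗ[k] Module.End k AA) (ψ : ↥(Opp k Z ι) →ₐ[k] AA ⊗[k] P)
    (θ : (P ≃ₐ[Z] P) → (AA ≃ₐ[k] AA)), IsCQ k H Z Q ι → CPkg k Z ι ρ ψ θ →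
    ∀ (L : Type v) [Field L] [Algebra k L] [Algebra Z L] [IsScalarTower k Z L] [Module.Finite Z L]
      [IsGalois Z L] (e : P →ₐ[k] L), (∀ z, e (algebraMap Z P z) = algebraMap Z L z) →
      ∃ ax : AA →ₗ[k] Q ⊗[Z] L, IsAX ψ ρ θ e ax

/-- **AYY** (200 lines). The copy of `A^op` in `O' ⊗_Z L`, `O' = sQ(O'')`.

PROOF. EMB for `B = O' = Op`, `φ(sQ x) = Pa ψ e' x` (`sQ` is a bijection `O'' → O'`, CO.ADS), for which
`φ(z • sQ x) = φ(sQ(sZ⁻¹(z) x)) = Pa(sZ⁻¹(z) x) = Pa(x)(1 ⊗ e'(sZ⁻¹ z)) = φ(sQ x)(1 ⊗ z)`. Span and dimension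
as in AXX (`dim_Z O' = dim_Z O''`: `sQ` is semilinear along `sZ`). `φ(b b') = φ(b') φ(b)`. `gal`: `TA = θ(γ)⁻¹`. `act`:
`T = adlQ (S h)`, `TA = ρ h`: `S(h) ▷ sQ(x) = sQ(x ◁ h)` (CO.ADS). -/
def SpecAYY : Prop :=
  ∀ (k : Type u) (H Z Q : Type v) [Field k] [Ring H] [HopfAlgebra k H] [Field Z] [Algebra k Z]
    [DivisionRing Q] [Algebra k Q] [Algebra Z Q] [IsScalarTower k Z Q] (ι : H →ₐ[k] Q)
    (AA : Type w) (P : Type v) [Ring AA] [Algebra k AA] [Field P] [Algebra k P] [Algebra Z P]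
    [IsScalarTower k Z P] (ρ : H →ₗ[k] Module.End k AA) (ψ : ↥(Opp k Z ι) →ₐ[k] AA ⊗[k] P)
    (θ : (P ≃ₐ[Z] P) → (AA ≃ₐ[k] AA)) (sQ : Q →ₗ[k] Q) (sZ : Z ≃ₐ[k] Z), IsCQ k H Z Q ι →
    Function.Bijective (antipode k (A := H)) → IsSQ k Z ι sQ sZ → CPkg k Z ι ρ ψ θ →
    ∀ (L : Type v) [Field L] [Algebra k L] [Algebra Z L] [IsScalarTower k Z L] [Module.Finite Z L]
      [IsGalois Z L] (e' : P →ₐ[k] L), (∀ z, e' (algebraMap Z P z) = algebraMap Z L (sZ z)) →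
      ∃ ay : AA →ₗ[k] Q ⊗[Z] L, IsAY sQ ψ ρ θ e' ay

/-- **AXC** (100 lines). The two copies commute.

PROOF. (1) `O'' ⊆ O_r`: by CO.DIM the operators `x ↦ x ◁ h` on `O''` form a finite-dimensional space, so every
`x ∈ O''` is locally finite for `◁` (EG.OLF). So `O' = C(O_r)` commutes with `O''`. (2) `ax(a) = lf ax (a ⊗ 1)`, and
`a ⊗ 1` is a sum of `Pa e x (1 ⊗ l)` (span), so `ax(a)` is a sum of `x ⊗ l`, `x ∈ O''`; the same for `ay(b)`: a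
sum of `sQ x ⊗ l`, `sQ x ∈ O'` (CO.ADS). These commute. -/
def SpecAXC : Prop :=
  ∀ (k : Type u) (H Z Q : Type v) [Field k] [Ring H] [HopfAlgebra k H] [Field Z] [Algebra k Z]
    [DivisionRing Q] [Algebra k Q] [Algebra Z Q] [IsScalarTower k Z Q] (ι : H →ₐ[k] Q)
    (AA : Type w) (P : Type v) [Ring AA] [Algebra k AA] [Field P] [Algebra k P] [Algebra Z P]
    [IsScalarTower k Z P] (ρ : H →ₗ[k] Module.End k AA) (ψ : ↥(Opp k Z ι) →ₐ[k] AA ⊗[k] P)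
    (θ : (P ≃ₐ[Z] P) → (AA ≃ₐ[k] AA)) (sQ : Q →ₗ[k] Q) (sZ : Z ≃ₐ[k] Z), IsCQ k H Z Q ι →
    Function.Bijective (antipode k (A := H)) → IsSQ k Z ι sQ sZ → CPkg k Z ι ρ ψ θ →
    ∀ (L : Type v) [Field L] [Algebra k L] [Algebra Z L] [IsScalarTower k Z L]
      (e e' : P →ₐ[k] L) (ax ay : AA →ₗ[k] Q ⊗[Z] L), IsAX ψ ρ θ e ax → IsAY sQ ψ ρ θ e' ay →
      ∀ a b, ax a * ay b = ay b * ax a

/-- **CCS** (250 lines). A finite-dimensional Galois-stable subalgebra `C` of `Q ⊗_Z L`: invariants,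
semisimplicity.

PROOF. (1) The elements of `Q ⊗_Z L` fixed by all `gs s` are the `q ⊗ 1` (write with a `Z`-basis of `Q`;
`L^G = Z`). `C ∩ (Q ⊗ 1)` is a finite-dimensional `k`-algebra without zero divisors (`Q` is a division ring,
`q ↦ q ⊗ 1` is injective), so it is `k` (`k` algebraically closed: an element is algebraic over `k`, its minimal
polynomial is irreducible). (2) Let `J` be a `G`-stable subspace of `C` with `J J ⊆ J` and `J^N = 0` (products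
of `N` elements). Then `J = 0`: let `0 ≠ v ∈ J`. `w_f := ∑_s gs s (v (1 ⊗ f)) = ∑_s gs s (v) (1 ⊗ s(f))`. If
`w_f = 0` for all `f ∈ L` then `v = 0` by Dedekind (coordinates in a `Z`-basis of `Q`: `∑_s s(f) l_s = 0` for all
`f` implies `l_s = 0`). So some `w_f ≠ 0` is fixed by `G`, `w_f = q ⊗ 1`, and `w_f` is a sum of elements of `J`
times elements of `1 ⊗ L`, so `q^N = 0`, `q = 0`, a contradiction. (3) The Jacobson radical of the finite-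
dimensional algebra `C` is nilpotent and stable under the automorphisms `gs s`, so it is `0`; an Artinian ring
with radical `0` is semisimple (`IsArtinianRing.isSemisimpleRing_iff_jacobson`). -/
def SpecCCS : Prop :=
  ∀ (k : Type u) (Z Q L : Type v) [Field k] [IsAlgClosed k] [CharZero k] [Field Z] [Algebra k Z]
    [DivisionRing Q] [Algebra k Q] [Algebra Z Q] [IsScalarTower k Z Q] [Field L] [Algebra k L]
    [Algebra Z L] [IsScalarTower k Z L] [Module.Finite Z L] [IsGalois Z L]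
    (C : Subalgebra k (Q ⊗[Z] L)), Module.Finite k ↥C →
    (∀ s : L ≃ₐ[Z] L, ∀ c ∈ C, gs Q s c ∈ C) →
    (∀ c : Q ⊗[Z] L, (∀ s, gs Q s c = c) ↔ ∃ q : Q, c = q ⊗ₜ[Z] 1) ∧
    (∀ c ∈ C, (∀ s, gs Q s c = c) → ∃ a : k, algebraMap k (Q ⊗[Z] L) a = c) ∧
    IsSemisimpleRing ↥C

/-- **CCM** (150 lines). `C` has no `G`-stable left ideals except `0`, `C`.

PROOF. (Maschke.) `C` is semisimple (CCS), `J` has a complement left ideal, `1 = e₀ + e₁`, and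
`x e₀ = x` for `x ∈ J` (`x e₁ = x - x e₀` lies in `J` and in the complement). `e := |G|⁻¹ ∑_s gs s (e₀) ∈ J`. For
`x ∈ J`: `x · gs s (e₀) = gs s (gs s⁻¹(x) e₀) = x`, so `x e = x`. `e` is fixed by `G`, so `e ∈ k` (CCS); if `e = 0`
then `J = 0`, otherwise `1 ∈ J`. (`|G| ≠ 0` in `k`, `char k = 0`.) -/
def SpecCCM : Prop :=
  ∀ (k : Type u) (Z Q L : Type v) [Field k] [IsAlgClosed k] [CharZero k] [Field Z] [Algebra k Z]
    [DivisionRing Q] [Algebra k Q] [Algebra Z Q] [IsScalarTower k Z Q] [Field L] [Algebra k L]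
    [Algebra Z L] [IsScalarTower k Z L] [Module.Finite Z L] [IsGalois Z L]
    (C : Subalgebra k (Q ⊗[Z] L)), Module.Finite k ↥C →
    (∀ s : L ≃ₐ[Z] L, ∀ c ∈ C, gs Q s c ∈ C) →
    ∀ J : Submodule k (Q ⊗[Z] L), (∀ x ∈ J, x ∈ C) → (∀ c ∈ C, ∀ x ∈ J, c * x ∈ J) →
      (∀ s, ∀ x ∈ J, gs Q s x ∈ J) → J = ⊥ ∨ ∀ c ∈ C, c ∈ J

/-- **CCD** (150 lines). `|N| dim C ≤ |G|` if `N` acts trivially on `C`.

PROOF. Let `S ⊆ End_k(C)` be the span of the `x ↦ c · gs s (x)`, `c ∈ C`, `s ∈ G`: a subalgebra; the operator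
depends only on the coset `s N`, so `dim S ≤ dim C · [G : N]`. The `S`-stable subspaces of `C` are `0` and `C`
(CCM), so `S = End_k(C)` (Burnside, `CO.NCXM.burnside` in `CO/NCX.lean`): `(dim C)² ≤ dim C [G : N]`, `C ≠ 0`. -/
def SpecCCD : Prop :=
  ∀ (k : Type u) (Z Q L : Type v) [Field k] [IsAlgClosed k] [CharZero k] [Field Z] [Algebra k Z]
    [DivisionRing Q] [Algebra k Q] [Algebra Z Q] [IsScalarTower k Z Q] [Field L] [Algebra k L]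
    [Algebra Z L] [IsScalarTower k Z L] [Module.Finite Z L] [IsGalois Z L]
    (C : Subalgebra k (Q ⊗[Z] L)), Module.Finite k ↥C →
    (∀ s : L ≃ₐ[Z] L, ∀ c ∈ C, gs Q s c ∈ C) → ∀ N : Subgroup (L ≃ₐ[Z] L),
    (∀ s ∈ N, ∀ c ∈ C, gs Q s c = c) →
      Nat.card ↥N * Module.finrank k ↥C ≤ Nat.card (L ≃ₐ[Z] L)

/-- **CCB** (250 lines). Two commuting subalgebras which are large enough are equal, and are `k^{G/N}`.

PROOF. (1) `C := B B'` = the `k`-span of the products `b b'`; a subalgebra (they commute) of finite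
dimension, `G`-stable, `N` acts trivially. CCD: `|N| dim C ≤ |G| ≤ |N| dim B`, so `dim C ≤ dim B`, and `B ⊆ C`
gives `B = C`; the same `B' = C`. So `B = B' = C` is commutative, `|N| dim B = |G|`. (2) `B` is a nonzero
finite-dimensional commutative algebra over the algebraically closed `k`: there is a homomorphism
`χ : B → k`. `χ_s(b) := χ(gs s b)` depends only on `s N` (`gs (s n) b = gs s b`). The common kernel of the `χ_s`
is a `G`-stable ideal which does not contain `1`, so it is `0` (CCM). So `b ↦ (χ_s(b))_{sN ∈ G/N}`,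
`B → k^{G/N}`, is an injective homomorphism of algebras, `dim B = [G : N]`, so it is bijective. Let `ε ∈ B` be
the element with `χ_s(ε) = 1` for `s ∈ N`, `0` otherwise. `χ_s(gs t ε) = χ_{s t}(ε)`, which is `1` iff `s t ∈ N`. So
`gs t ε = ε` for `t ∈ N`, `ε gs t ε = 0` for `t ∉ N` (`s, s t ∈ N` implies `t ∈ N`), `∑_{t ∈ G} gs t ε = |N|` (each
`χ_s` takes the value `|N|`), and for `b ∈ B`: `b = ∑_{tN} χ_{t⁻¹}(b) gs t ε`, that is
`b = ∑_{t ∈ G} |N|⁻¹ χ_{t⁻¹}(b) gs t ε` (`χ_s` of the right side: the `t` with `s t ∈ N`, `t ∈ s⁻¹ N`,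
`χ_{t⁻¹}(b) = χ(gs (n⁻¹ s) b) = χ_s(b)`: `n⁻¹ s = s n'` because `N` is normal). -/
def SpecCCB : Prop :=
  ∀ (k : Type u) (Z Q L : Type v) [Field k] [IsAlgClosed k] [CharZero k] [Field Z] [Algebra k Z]
    [DivisionRing Q] [Algebra k Q] [Algebra Z Q] [IsScalarTower k Z Q] [Field L] [Algebra k L]
    [Algebra Z L] [IsScalarTower k Z L] [Module.Finite Z L] [IsGalois Z L]
    [Fintype (L ≃ₐ[Z] L)] (N : Subgroup (L ≃ₐ[Z] L)) [N.Normal] (B B' : Subalgebra k (Q ⊗[Z] L)),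
    Module.Finite k ↥B → Module.Finite k ↥B' → (∀ b ∈ B, ∀ b' ∈ B', b * b' = b' * b) →
    (∀ s : L ≃ₐ[Z] L, ∀ c ∈ B, gs Q s c ∈ B) → (∀ s : L ≃ₐ[Z] L, ∀ c ∈ B', gs Q s c ∈ B') →
    (∀ s ∈ N, ∀ c ∈ B, gs Q s c = c) → (∀ s ∈ N, ∀ c ∈ B', gs Q s c = c) →
    Nat.card (L ≃ₐ[Z] L) ≤ Nat.card ↥N * Module.finrank k ↥B →
    Nat.card (L ≃ₐ[Z] L) ≤ Nat.card ↥N * Module.finrank k ↥B' →
    B = B' ∧ ∃ ε ∈ B, ε * ε = ε ∧ (∀ s ∈ N, gs Q s ε = ε) ∧ (∀ s, s ∉ N → ε * gs Q s ε = 0) ∧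
      (∑ s, gs Q s ε = (Nat.card ↥N : Q ⊗[Z] L)) ∧
      ∀ b ∈ B, ∃ c : (L ≃ₐ[Z] L) → k, b = ∑ s, c s • gs Q s ε

/-- **PHI** (300 lines). The field `Y` and `Φ : Y → Q`, abstract version.

PROOF. `Y :=` the fixed field of `N` in `L` (`IntermediateField.fixedField N`), Galois over `Z` because `N` is
normal (`IsGalois.of_fixedField_normal_subgroup` or similar), `[Y : Z] = [G : N] > 1`. For `f ∈ Y` put
`Φ'(f) := |N|⁻¹ ∑_{s ∈ G} gs s (ε) (1 ⊗ s f) ∈ Q ⊗_Z L`. It is fixed by `G`, so `Φ'(f) = Φ(f) ⊗ 1` (CCS part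
one, which needs only `G`). `Φ(1) = 1`; `Z`-linear; multiplicative:
`Φ'(f) Φ'(f') = |N|⁻² ∑_{s, t} gs s (ε) gs t (ε) (1 ⊗ s f · t f')`, and `gs s (ε) gs t (ε) = gs s (ε gs (s⁻¹ t) ε)` is `0`
unless `s⁻¹ t ∈ N`, when it is `gs s ε` and `t f' = s f'`. Restriction of `s ∈ G` to `Y`: `s|Y` (`N` normal). Let
`T : Q → Q` be `Z`-linear with `(T ⊗ 1) ε = ∑_r c_r gs r ε` (this is the hypothesis `hT`, `T = adrQ h`,
`adlQ h`). `T ⊗ 1` commutes with `gs s` and with `1 ⊗ l`, so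
`T(Φ f) ⊗ 1 = |N|⁻¹ ∑_s gs s ((T ⊗ 1) ε)(1 ⊗ s f) = ∑_r c_r |N|⁻¹ ∑_s gs (s r) ε (1 ⊗ s f) = ∑_r c_r Φ'(r⁻¹ f)`. -/
def SpecPHI : Prop :=
  ∀ (k : Type u) (Z Q L : Type v) [Field k] [IsAlgClosed k] [CharZero k] [Field Z] [Algebra k Z]
    [DivisionRing Q] [Algebra k Q] [Algebra Z Q] [IsScalarTower k Z Q] [Field L] [Algebra k L]
    [Algebra Z L] [IsScalarTower k Z L] [Module.Finite Z L] [IsGalois Z L]
    [Fintype (L ≃ₐ[Z] L)] (N : Subgroup (L ≃ₐ[Z] L)) [N.Normal], N ≠ ⊤ → ∀ ε : Q ⊗[Z] L,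
    ε * ε = ε → (∀ s ∈ N, gs Q s ε = ε) → (∀ s, s ∉ N → ε * gs Q s ε = 0) →
    (∑ s, gs Q s ε = (Nat.card ↥N : Q ⊗[Z] L)) →
    ∃ (Y : Type v) (_ : Field Y) (_ : Algebra k Y) (_ : Algebra Z Y) (_ : IsScalarTower k Z Y)
      (Φ : Y →ₐ[Z] Q), Module.Finite Z Y ∧ IsGalois Z Y ∧ 1 < Module.finrank Z Y ∧
      ∀ T : Q →ₗ[Z] Q,
        (∃ c : (L ≃ₐ[Z] L) → k, T.rTensor L ε = ∑ s, c s • gs Q s ε) →
        ∃ (n : ℕ) (s : Fin n → (Y ≃ₐ[Z] Y)) (c : Fin n → k), ∀ y : Y,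
          T (Φ y) = ∑ i, c i • Φ (s i y)

/-- **YDX** (250 lines). Assembly of part 1: the field `Y` in the non-reduced case.

PROOF. `T_x, T_y` from THX (for `e`, `σ = 1`, and `e'`, `σ = sZ`); `NX θ e s ↔ T_x s = 1`, the same for `y`.
`N := {s : NP θ e e' s} = ker T_x · ker T_y` is a normal subgroup, `N ≠ G`. `F_x := {a : T_x s a = a, s ∈ N}`, a
subalgebra, `F_y` the same; NDM: `|G| ≤ |N| dim F_x`, `|N| dim F_y`. `B := ax(F_x)`, `B' := ay(F_y)` (AXX, AYY),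
subalgebras of `Q ⊗_Z L` (`ay` is an anti-homomorphism), `dim B = dim F_x` (`ax` is injective), they commute
(AXC). `gs s (ax a) = ax(T_x(s)⁻¹ a)` (`IsAX.gal`), so `N` acts trivially on `B` and `B` is `G`-stable (`N` is
normal, so `F_x` is stable under `T_x(G)`). CCB, PHI. For `T = adrQ h`: `(T ⊗ 1) ε ∈ B`, because `ε = ax(a)`,
`(adrQ h ⊗ 1) ax(a) = ax(ρ h a)`, `ρ h a ∈ F_x` (`thH`). For `T = adlQ h`, `h = S(h')`: `ε ∈ B' = B`, `ε = ay(a)`,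
`(adlQ (S h') ⊗ 1) ay(a) = ay(ρ h' a) ∈ B' = B`. -/
def SpecYDX : Prop :=
  ∀ (k : Type u) (H Z Q : Type v) [Field k] [IsAlgClosed k] [CharZero k] [Ring H]
    [HopfAlgebra k H] [Field Z] [Algebra k Z] [DivisionRing Q] [Algebra k Q] [Algebra Z Q]
    [IsScalarTower k Z Q] (ι : H →ₐ[k] Q)
    (AA : Type w) (P : Type v) [Ring AA] [Algebra k AA] [Field P] [Algebra k P] [Algebra Z P]
    [IsScalarTower k Z P] (ρ : H →ₗ[k] Module.End k AA) (ψ : ↥(Opp k Z ι) →ₐ[k] AA ⊗[k] P)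
    (θ : (P ≃ₐ[Z] P) → (AA ≃ₐ[k] AA)) (sQ : Q →ₗ[k] Q) (sZ : Z ≃ₐ[k] Z), IsCQ k H Z Q ι →
    Function.Bijective (antipode k (A := H)) → IsSQ k Z ι sQ sZ → CPkg k Z ι ρ ψ θ →
    ∀ (L : Type v) [Field L] [Algebra k L] [Algebra Z L] [IsScalarTower k Z L] [Module.Finite Z L]
      [IsGalois Z L] (e e' : P →ₐ[k] L), (∀ z, e (algebraMap Z P z) = algebraMap Z L z) →
      (∀ z, e' (algebraMap Z P z) = algebraMap Z L (sZ z)) → ¬ RED θ e e' →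
      ∃ (Y : Type v) (_ : Field Y) (_ : Algebra k Y) (_ : Algebra Z Y) (_ : IsScalarTower k Z Y)
        (Φ : Y →ₐ[Z] Q), IsYD k Z ι Φ

/-- **LEX** (150 lines). Existence of `L`, `e`, `e'`.

PROOF. Let `F` be an algebraic closure of `Z`. `e₀ : P → F` over `Z` (`IsAlgClosed.lift`), `e₀' : P → F` over
`z ↦ (sZ z)` (`IsAlgClosed.lift` for the `Z`-algebra structure `z ↦ (sZ z)` on `F`). `L ⊆ F`: the normal closure
over `Z` of the finite extension generated by `e₀(P)` and `e₀'(P)` (both are finite over `Z`; char 0, so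
separable: Galois). -/
def SpecLEX : Prop :=
  ∀ (k : Type u) (Z P : Type v) [Field k] [CharZero k] [Field Z] [Algebra k Z] [Field P]
    [Algebra k P] [Algebra Z P] [IsScalarTower k Z P] [Module.Finite Z P] (sZ : Z ≃ₐ[k] Z),
    ∃ (L : Type v) (_ : Field L) (_ : Algebra k L) (_ : Algebra Z L) (_ : IsScalarTower k Z L)
      (e e' : P →ₐ[k] L), Module.Finite Z L ∧ IsGalois Z L ∧
      (∀ z, e (algebraMap Z P z) = algebraMap Z L z) ∧
      ∀ z, e' (algebraMap Z P z) = algebraMap Z L (sZ z)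

/-! ## Part 2: from `H` to `H_1 = C_H(Y)` -/

/-- **DDK** (80 lines). Dedekind independence over a division ring.

PROOF. Induction on `n`. Replace `y` by `y' y` in `∑ q_i Φ(s_i y) = 0` and subtract the relation multiplied on
the right by `Φ(s_n y')` (`Φ(Y)` is commutative): `∑_{i < n} q_i (Φ(s_i y') - Φ(s_n y')) Φ(s_i y) = 0` for all `y`; by
induction `q_i (Φ(s_i y') - Φ(s_n y')) = 0`, and for given `i < n` there is `y'` with `s_i y' ≠ s_n y'`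
(`Φ` is injective). So `q_i = 0` for `i < n`, then `q_n = 0` (`y = 1`). The second statement is the mirror. -/
def SpecDDK : Prop :=
  ∀ (Z Y Q : Type v) [Field Z] [Field Y] [Algebra Z Y] [DivisionRing Q] [Algebra Z Q]
    (Φ : Y →ₐ[Z] Q) (n : ℕ) (s : Fin n → (Y ≃ₐ[Z] Y)), Function.Injective s → ∀ q : Fin n → Q,
    ((∀ y, ∑ i, q i * Φ (s i y) = 0) → ∀ i, q i = 0) ∧
    ((∀ y, ∑ i, Φ (s i y) * q i = 0) → ∀ i, q i = 0)

/-- **LMX** (120 lines). The coefficients of the actions on `Y` are linear functionals on `H`.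

PROOF. Collect the terms of `IsYD.right` with the same `s i`: `Φ(y) ◁ h = ∑_s c_s Φ(s y)`, sum over the Galois
group; the `c_s ∈ k` are unique by DDK (`c_s` in `Q` is central; `k → Q` injective), so they are linear in `h`
(`adrQ` is linear in `h`). The same for `▷`. -/
def SpecLMX : Prop :=
  ∀ (k : Type u) (H Z Q Y : Type v) [Field k] [Ring H] [HopfAlgebra k H] [Field Z] [Algebra k Z]
    [DivisionRing Q] [Algebra k Q] [Algebra Z Q] [IsScalarTower k Z Q] (ι : H →ₐ[k] Q) [Field Y]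
    [Algebra k Y] [Algebra Z Y] [IsScalarTower k Z Y] [Fintype (Y ≃ₐ[Z] Y)] (Φ : Y →ₐ[Z] Q),
    IsYD k Z ι Φ →
    ∃ lr ll : (Y ≃ₐ[Z] Y) → (H →ₗ[k] k), ∀ (h : H) (y : Y),
      adrQ k Z ι h (Φ y) = ∑ s, lr s h • Φ (s y) ∧ adlQ k Z ι h (Φ y) = ∑ s, ll s h • Φ (s y)

/-- **HSM** (200 lines). `H = ⊕ H_s`.

PROOF. With LMX put `P_s(h) := ∑_i lr_s(y_i) x_i` (`Δ h = ∑ x_i ⊗ y_i`). By ADB (2)
`Φ(y) ι(h) = ∑_i ι(x_i) (Φ(y) ◁ y_i) = ∑_s ι(P_s h) Φ(s y)` (*). `y = 1`: `h = ∑_s P_s(h)`. Replace `y` by `y' y`: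
`∑_s Φ(y') ι(P_s h) Φ(s y) = Φ(y') Φ(y) ι(h) = ∑_s ι(P_s h) Φ(s y') Φ(s y)`, so by DDK
`Φ(y') ι(P_s h) = ι(P_s h) Φ(s y')`: `P_s(h) ∈ H_s`. Directness: if `∑ p_s = 0`, `p_s ∈ H_s`, then
`0 = Φ(y) ι(∑ p_s) = ∑ ι(p_s) Φ(s y)`, DDK. -/
def SpecHSM : Prop :=
  ∀ (k : Type u) (H Z Q Y : Type v) [Field k] [Ring H] [HopfAlgebra k H] [Field Z] [Algebra k Z]
    [DivisionRing Q] [Algebra k Q] [Algebra Z Q] [IsScalarTower k Z Q] (ι : H →ₐ[k] Q) [Field Y]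
    [Algebra k Y] [Algebra Z Y] [IsScalarTower k Z Y] [Fintype (Y ≃ₐ[Z] Y)] (Φ : Y →ₐ[Z] Q),
    IsCQ k H Z Q ι → IsYD k Z ι Φ →
    (∀ h : H, ∃ p : (Y ≃ₐ[Z] Y) → H, (∀ s, p s ∈ Hs ι Φ s) ∧ h = ∑ s, p s) ∧
    (∀ p : (Y ≃ₐ[Z] Y) → H, (∀ s, p s ∈ Hs ι Φ s) → ∑ s, p s = 0 → ∀ s, p s = 0) ∧
    (∀ s t, ∀ a ∈ Hs ι Φ s, ∀ b ∈ Hs ι Φ t, a * b ∈ Hs ι Φ (t * s)) ∧ (1 : H) ∈ Hs ι Φ 1

/-- **HSC** (200 lines). `Δ(H_s) ⊆ H_s ⊗ H_s`.

PROOF. `P_s : H → H` as in HSM, linear, `P_s(H) ⊆ H_s`, and `P_s(h) = h`, `P_t(h) = 0` (`t ≠ s`) for `h ∈ H_s`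
(directness: `h = ∑ P_t(h)`). `Δ(P_s h) = ∑ lr_s(h₃) h₁ ⊗ h₂ = (1 ⊗ P_s) Δ(h)` (coassociativity). So for
`h ∈ H_s`: `Δ h = (1 ⊗ P_s) Δ h`. Mirror: `P'_s(h) := ∑ ll_s(x_i) y_i`; ADB (1): `ι(h) Φ(y) = ∑ (x_i ▷ Φ(y)) ι(y_i) =
∑_s Φ(s y) ι(P'_s h)`; as in HSM (DDK, second part) `ι(P'_s h) Φ(y') = Φ(s y') ι(P'_s h)`, that is
`P'_s(h) ∈ H_{s⁻¹}`, and `Δ(P'_s h) = (P'_s ⊗ 1) Δ(h)`; for `h ∈ H_s`: `P'_{s⁻¹}(h) = h`. So
`Δ h = (P'_{s⁻¹} ⊗ P_s) Δ h ∈ H_s ⊗ H_s`. -/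
def SpecHSC : Prop :=
  ∀ (k : Type u) (H Z Q Y : Type v) [Field k] [Ring H] [HopfAlgebra k H] [Field Z] [Algebra k Z]
    [DivisionRing Q] [Algebra k Q] [Algebra Z Q] [IsScalarTower k Z Q] (ι : H →ₐ[k] Q) [Field Y]
    [Algebra k Y] [Algebra Z Y] [IsScalarTower k Z Y] (Φ : Y →ₐ[Z] Q),
    IsCQ k H Z Q ι → IsYD k Z ι Φ → ∀ s, ∀ h ∈ Hs ι Φ s, comul (R := k) h ∈
      LinearMap.range (TensorProduct.map (Hs ι Φ s).subtype (Hs ι Φ s).subtype)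

/-- **ALS** (200 lines). All `H_s ≠ 0`; `H ∩ Φ(Y)` is stable under the Galois group.

PROOF. (1) `S := {s : H_s ≠ 0}` is closed under products (HSM; `H ⊆ Q` has no zero divisors), contains `1`, and is
finite, so it is a subgroup. Let `y ∈ Y` be fixed by `S`. For `h = ∑ p_s`: `Φ(y) ι(p_s) = ι(p_s) Φ(s y) =
ι(p_s) Φ(y)` if `s ∈ S`, and `p_s = 0` otherwise, so `Φ(y)` commutes with `ι(H)`, hence with `Q` (`IsCQ.frac`), so
`Φ(y) = (z) = Φ((z))` (`IsCQ.cent`), `y = (z)`. By the Galois correspondence `S` is everything. (2) The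
functionals `lr_s` (LMX) are independent: if `∑ c_s lr_s = 0` then `∑ c_s P_s = 0` (`P_s` as in HSM), apply this
to `0 ≠ h ∈ H_t`: `c_t h = 0`. So for given `t` there are `h_j ∈ H`, `d_j ∈ k` with `∑_j d_j lr_s(h_j) = δ_st`, and
`∑_j d_j (Φ(y) ◁ h_j) = Φ(t y)`. If `Φ(y) = ι(g)` then `Φ(y) ◁ h_j = ι(adRH h_j g)`. -/
def SpecALS : Prop :=
  ∀ (k : Type u) (H Z Q Y : Type v) [Field k] [Ring H] [HopfAlgebra k H] [Field Z] [Algebra k Z]
    [DivisionRing Q] [Algebra k Q] [Algebra Z Q] [IsScalarTower k Z Q] (ι : H →ₐ[k] Q) [Field Y]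
    [Algebra k Y] [Algebra Z Y] [IsScalarTower k Z Y] (Φ : Y →ₐ[Z] Q),
    IsCQ k H Z Q ι → IsYD k Z ι Φ →
    (∀ s, ∃ h ∈ Hs ι Φ s, h ≠ 0) ∧
    ∀ y, (∃ g : H, ι g = Φ y) → ∀ s : Y ≃ₐ[Z] Y, ∃ g : H, ι g = Φ (s y)

/-- **SUB** (250 lines). Hopf subalgebras.

PROOF. `H1 := K` (as a type), `i` the inclusion. `i ⊗ i : K ⊗ K → H ⊗ H` is injective (vector spaces), so the
comultiplication of `H` restricts to `Δ₁ : K → K ⊗ K`, a homomorphism of algebras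
(`AlgHom.codRestrict`-like: `Δ₁ = (i ⊗ i)⁻¹ ∘ Δ ∘ i` through `AlgEquiv.ofInjective` of `i ⊗ i`), `ε₁ = ε ∘ i`,
`S₁` the restriction of `S`. All identities hold after `i`, `i ⊗ i`, `i ⊗ i ⊗ i` (injective). Build with
`Bialgebra.ofAlgHom` and `HopfAlgebra`. -/
def SpecSUB : Prop :=
  ∀ (k : Type u) (H : Type v) [Field k] [Ring H] [HopfAlgebra k H] (K : Subalgebra k H),
    (∀ h ∈ K, comul (R := k) h ∈
      LinearMap.range (TensorProduct.map K.val.toLinearMap K.val.toLinearMap)) →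
    (∀ h ∈ K, antipode k h ∈ K) →
    ∃ (H1 : Type v) (_ : Ring H1) (_ : HopfAlgebra k H1) (i : H1 →ₐ[k] H),
      Function.Injective i ∧ (∀ h : H, h ∈ K ↔ ∃ x, i x = h) ∧
      (∀ x : H1, TensorProduct.map i.toLinearMap i.toLinearMap (comul (R := k) x) =
        comul (R := k) (i x)) ∧
      (∀ x : H1, counit (R := k) (i x) = counit (R := k) x) ∧
      ∀ x : H1, i (antipode k x) = antipode k (i x)

/-- **SH1** (120 lines). `H_1 = C_H(Y)` is stable under `S` and `S⁻¹`.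

PROOF. (a) If `Δ x = ∑ a_i ⊗ b_i` with `b_i ∈ H_1` then `Φ(y) ◁ x = ∑ S(a_i) Φ(y) b_i = ∑ S(a_i) b_i Φ(y) = ε(x) Φ(y)`. For
`h ∈ H_1`: `Δ h = ∑ x_i ⊗ y_i` with `x_i, y_i ∈ H_1` (HSC), and `Δ x_i ∈ H_1 ⊗ H_1`. ADB (4):
`ι(S h) Φ(y) = ∑ (Φ(y) ◁ x_i) ι(S y_i) = ∑ ε(x_i) Φ(y) ι(S y_i) = Φ(y) ι(S h)`. (b) Let `S(g) ∈ H_1`. By (HSC)
`Δ(S g) = S(g₂) ⊗ S(g₁) ∈ H_1 ⊗ H_1` (SpecHAN), so `Δ g = ∑ x_i ⊗ y_i` with `S(x_i), S(y_i) ∈ H_1` (`S` is
bijective: apply `S⁻¹ ⊗ S⁻¹` and flip). For `x` with `S(x) ∈ H_1` the same holds for the legs of `Δ x`, so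
`x ▷ Φ(y) = x₁ Φ(y) S(x₂) = x₁ S(x₂) Φ(y) = ε(x) Φ(y)`. ADB (1):
`ι(g) Φ(y) = ∑ (x_i ▷ Φ(y)) ι(y_i) = Φ(y) ι(g)`. -/
def SpecSH1 : Prop :=
  ∀ (k : Type u) (H Z Q Y : Type v) [Field k] [Ring H] [HopfAlgebra k H] [Field Z] [Algebra k Z]
    [DivisionRing Q] [Algebra k Q] [Algebra Z Q] [IsScalarTower k Z Q] (ι : H →ₐ[k] Q) [Field Y]
    [Algebra k Y] [Algebra Z Y] [IsScalarTower k Z Y] (Φ : Y →ₐ[Z] Q),
    IsCQ k H Z Q ι → Function.Bijective (antipode k (A := H)) → IsYD k Z ι Φ →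
    (∀ h ∈ Hs ι Φ 1, antipode k h ∈ Hs ι Φ 1) ∧ ∀ g : H, antipode k g ∈ Hs ι Φ 1 → g ∈ Hs ι Φ 1

/-- **HX1** (100 lines). Existence of `H_1` as a Hopf algebra.

PROOF. `K :=` the subalgebra with carrier `H_1 = Hs ι Φ 1` (it is the set of the `h` which commute with
`Φ(Y)`), HSC, SH1, SUB. The antipode of `H1` is injective (`i` is), and surjective: for `x ∈ H1` let
`S(g) = i(x)`, then `g ∈ H_1` (SH1). -/
def SpecHX1 : Prop :=
  ∀ (k : Type u) (H Z Q Y : Type v) [Field k] [Ring H] [HopfAlgebra k H] [Field Z] [Algebra k Z]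
    [DivisionRing Q] [Algebra k Q] [Algebra Z Q] [IsScalarTower k Z Q] (ι : H →ₐ[k] Q) [Field Y]
    [Algebra k Y] [Algebra Z Y] [IsScalarTower k Z Y] (Φ : Y →ₐ[Z] Q),
    IsCQ k H Z Q ι → Function.Bijective (antipode k (A := H)) → IsYD k Z ι Φ →
    ∃ (H1 : Type v) (_ : Ring H1) (_ : HopfAlgebra k H1) (i : H1 →ₐ[k] H),
      IsH1 ι Φ i ∧ Function.Bijective (antipode k (A := H1))

/-- **NTH** (120 lines). `H_1` is Noetherian.

PROOF. For a left ideal `J` of `H1` let `J^e` be the left ideal of `H` generated by `i(J)`. `i(x) ∈ J^e` implies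
`x ∈ J`: `i(x) = ∑ h_j i(a_j)`, `h_j = ∑_s p_js` (HSM), `p_js i(a_j) ∈ H_s`; the component of degree `1`:
`i(x) = ∑ p_j1 i(a_j)`, `p_j1 ∈ H_1 = i(H1)`. So `J ↦ J^e` is injective and monotone, strictly; `H` is
Noetherian (`StrictMono` + well-foundedness, `isNoetherian_iff`). -/
def SpecNTH : Prop :=
  ∀ (k : Type u) (H Z Q Y H1 : Type v) [Field k] [Ring H] [HopfAlgebra k H] [Field Z]
    [Algebra k Z] [DivisionRing Q] [Algebra k Q] [Algebra Z Q] [IsScalarTower k Z Q]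
    (ι : H →ₐ[k] Q) [Field Y] [Algebra k Y] [Algebra Z Y] [IsScalarTower k Z Y] (Φ : Y →ₐ[Z] Q)
    [Ring H1] [HopfAlgebra k H1] (i : H1 →ₐ[k] H),
    IsCQ k H Z Q ι → IsYD k Z ι Φ → IsH1 ι Φ i → IsNoetherianRing H → IsNoetherianRing H1

/-- **QCE** (300 lines). The central quotient division ring of `H_1` is `Q_1 = C_Q(Φ(Y))`, with centre `Y`.

PROOF. `Q1 :=` the centralizer of `Φ(Y)` in `Q`, closed under inverses, a division ring (as a type; e.g. from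
`Subalgebra.centralizer k (Set.range Φ)`), `c : Q1 → Q` the inclusion, `Y → Q1` through `Φ` (central in `Q1`; the
structure `Algebra Y Q1`: `RingHom.toAlgebra'`), `ι₁` with `c ∘ ι₁ = ι ∘ i`. `IsCQ k H1 Y Q1 ι₁`: injective.
`cent`: `Q1` is the centralizer of the subfield `Φ(Y) ⊇ Z` of the central simple `Z`-algebra `Q`; its centre is
`Φ(Y)` by LB.SpecDCT (`K = Φ.range`). `fin`: `Q` is finite over `Z`. `frac`: `q ∈ Q1`, `c q = h` with `0 ≠ c ∈ H`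
central (`IsCQ.frac`); `c` commutes with everything in `Q` (fractions), so `c ∈ H_1`, central in `H_1`, and
`ι h = ι(c) q` commutes with `Φ(Y)`: `h ∈ H_1`. Degree: `[Q1 : Y] [Y : Z] = [Q1 : Z] ≤ [Q : Z]` and
`[Y : Z] > 1`, `[Q1 : Y] ≥ 1`. -/
def SpecQCE : Prop :=
  ∀ (k : Type u) (H Z Q Y H1 : Type v) [Field k] [Ring H] [HopfAlgebra k H] [Field Z]
    [Algebra k Z] [DivisionRing Q] [Algebra k Q] [Algebra Z Q] [IsScalarTower k Z Q]
    (ι : H →ₐ[k] Q) [Field Y] [Algebra k Y] [Algebra Z Y] [IsScalarTower k Z Y] (Φ : Y →ₐ[Z] Q)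
    [Ring H1] [HopfAlgebra k H1] (i : H1 →ₐ[k] H),
    IsCQ k H Z Q ι → IsYD k Z ι Φ → IsH1 ι Φ i →
    ∃ (Q1 : Type v) (_ : DivisionRing Q1) (_ : Algebra k Q1) (_ : Algebra Y Q1)
      (_ : IsScalarTower k Y Q1) (ι1 : H1 →ₐ[k] Q1) (c : Q1 →ₐ[k] Q), IsCQ k H1 Y Q1 ι1 ∧
      Module.finrank Y Q1 < Module.finrank Z Q ∧ (∀ y, c (algebraMap Y Q1 y) = Φ y) ∧
      ∀ x, c (ι1 x) = ι (i x)

/-- **EKN** (250 lines). Eakin–Nagata for a Noetherian ring which is finite over a central subring.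

PROOF (Formanek). `R` is a faithful finitely generated `C`-module. Claim: if a finitely generated module `M`
over a commutative ring `C` has the ascending chain condition for submodules `I M`, `I` an ideal, then `M` is
Noetherian; a faithful Noetherian module `M = ∑_{i ≤ n} C m_i` gives `C ↪ M^n`, so `C` is Noetherian. For
`M = R` the condition holds: `I R` is a left ideal of the left Noetherian ring `R`. Proof of the claim: suppose
`M` is not Noetherian. Choose `I M` maximal among those with `M / I M` not Noetherian; replace `M` by `M / I M`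
and `C` by `C / Ann`: so `M` is faithful, not Noetherian, and `M / a M` is Noetherian for every `a ≠ 0` in `C`
(`a M ≠ 0`). `Γ := {N ⊆ M : M / N faithful}` contains `0` and is inductive: `M / N` is faithful iff for every
`0 ≠ a` some `a m_i ∉ N` (finitely many `m_i`), so Zorn gives a maximal `N ∈ Γ`. If `M / N` is Noetherian then
`C` is Noetherian (faithful) and so is `M`, contradiction. So `M' := M / N` is not Noetherian, faithful, and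
`M' / N'` is not faithful for every submodule `N' ≠ 0`. Let `N' ⊆ M'` be not finitely generated; `N' ≠ 0`, so
`a M' ⊆ N'` for some `a ≠ 0`. `M' / a M'` is Noetherian (quotient of `M / a M`), so `N' / a M'` is finitely
generated, and so is `a M'`, so `N'` is finitely generated, a contradiction. -/
def SpecEKN : Prop :=
  ∀ (C R : Type v) [CommRing C] [Ring R] [Algebra C R] [Module.Finite C R] [IsNoetherianRing R],
    Function.Injective (algebraMap C R) → IsNoetherianRing C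

/-- **RYN** (200 lines). `C` is finite over its Galois invariants.

PROOF. `D := {z ∈ Z : (z) ∈ C}`, a `k`-subalgebra of `Z`. (a) `D` is Noetherian: for an ideal `I` of `D`,
`I C ∩ D = I` (if `d = ∑ i_j c_j`, `i_j ∈ I`, apply `|G|⁻¹ ∑_s s`: `d = ∑ i_j |G|⁻¹ Tr(c_j)`, `Tr(c_j) ∈ D`; `k ⊆ D` and
`char k = 0`), and `C` is Noetherian. (b) There is a `Z`-basis `r_1, .., r_m` of `Y` in `C` (clear
denominators). `c ↦ (Tr(c r_i))_i`, `C → D^m`, is `D`-linear, injective (trace form), so `C` is isomorphic to a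
`D`-submodule of the Noetherian `D`-module `D^m`: `C` is finitely generated over `D`. -/
def SpecRYN : Prop :=
  ∀ (k : Type u) (Z Y : Type v) [Field k] [CharZero k] [Field Z] [Algebra k Z] [Field Y]
    [Algebra k Y] [Algebra Z Y] [IsScalarTower k Z Y] [Module.Finite Z Y] [IsGalois Z Y]
    (C : Subalgebra k Y), IsNoetherianRing ↥C → (∀ s : Y ≃ₐ[Z] Y, ∀ c ∈ C, s c ∈ C) →
    (∀ y : Y, ∃ z : Z, z ≠ 0 ∧ algebraMap Z Y z ∈ C ∧ algebraMap Z Y z * y ∈ C) →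
    ∃ (n : ℕ) (r : Fin n → Y), (∀ i, r i ∈ C) ∧ ∀ c ∈ C, ∃ d : Fin n → Z,
      (∀ i, algebraMap Z Y (d i) ∈ C) ∧ c = ∑ i, algebraMap Z Y (d i) * r i

/-- **FGH** (150 lines). `H` is finitely generated as a left `H_1`-module.

PROOF. It suffices to generate each `H_s` (HSM, finite sum). Let `0 ≠ g ∈ H_{s⁻¹}` (ALS). `h ↦ h g` maps `H_s`
injectively to `H_1` (HSM: `H_s H_{s⁻¹} ⊆ H_1`; no zero divisors), and `J = {x ∈ H1 : i(x) ∈ H_s g}` is a left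
ideal of `H1` (`i(x') h ∈ H_s`), so it is generated by `x_1, .., x_n`, `i(x_j) = h_j g`. For `h ∈ H_s`:
`h g = i(∑ a_j x_j) = (∑ i(a_j) h_j) g`, so `h = ∑ i(a_j) h_j`. -/
def SpecFGH : Prop :=
  ∀ (k : Type u) (H Z Q Y H1 : Type v) [Field k] [Ring H] [HopfAlgebra k H] [Field Z]
    [Algebra k Z] [DivisionRing Q] [Algebra k Q] [Algebra Z Q] [IsScalarTower k Z Q]
    (ι : H →ₐ[k] Q) [Field Y] [Algebra k Y] [Algebra Z Y] [IsScalarTower k Z Y] (Φ : Y →ₐ[Z] Q)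
    [Ring H1] [HopfAlgebra k H1] (i : H1 →ₐ[k] H),
    IsCQ k H Z Q ι → IsYD k Z ι Φ → IsH1 ι Φ i → IsNoetherianRing H1 →
    ∃ (n : ℕ) (g : Fin n → H), ∀ h : H, ∃ x : Fin n → H1, h = ∑ j, i (x j) * g j

/-- **NFG** (250 lines). If `H_1` is finite over its centre then so is `H`.

PROOF. `C := {y ∈ Y : ∃ h ∈ H, ι h = Φ y}`, a `k`-subalgebra of `Y`. It is isomorphic to the centre `C1` of `H1`:
`x ∈ C1` is central in `Q1` (QCE, fractions), so `ι1 x = (y)`, `ι(i x) = Φ(y)`; conversely `ι h = Φ(y)` commutes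
with `Φ(Y)`, so `h = i(x)`, and `x` commutes with `H1` because `ι(i(H1))` commutes with `Φ(Y)`. By EKN
(`H1` is Noetherian, NTH, and finite over `C1`) `C` is Noetherian. RYN: `C` is Galois stable by ALS; for
`y ∈ Y`: `c Φ(y) = h`, `0 ≠ c ∈ H` central, `ι c = (z)`, `z ≠ 0` (`IsCQ.frac`, `cent`), so
`(z) ∈ C`, `(z) y ∈ C`. So `C` is finite over `D = {z : (z) ∈ C}`, which corresponds to the centre of `H`
(`ι h = (z)` iff `h` is central). `H` is finite over `H1` (FGH), `H1` over `C1`, `C1` over the centre of `H`: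
generators `i(b_l) i(r_m) g_j`, coefficients in the centre of `H` (they commute with everything). -/
def SpecNFG : Prop :=
  ∀ (k : Type u) (H Z Q Y H1 : Type v) [Field k] [CharZero k] [Ring H] [HopfAlgebra k H] [Field Z]
    [Algebra k Z] [DivisionRing Q] [Algebra k Q] [Algebra Z Q] [IsScalarTower k Z Q]
    (ι : H →ₐ[k] Q) [Field Y] [Algebra k Y] [Algebra Z Y] [IsScalarTower k Z Y] (Φ : Y →ₐ[Z] Q)
    [Ring H1] [HopfAlgebra k H1] (i : H1 →ₐ[k] H),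
    IsCQ k H Z Q ι → IsYD k Z ι Φ → IsH1 ι Φ i → IsNoetherianRing H →
    Module.Finite (Subalgebra.center k H1) H1 → Module.Finite (Subalgebra.center k H) H

/-- **NID** (120 lines). Induction on `[Q : Z]`.

PROOF. Strong induction on `finrank Z Q` over all the data. If the first alternative does not hold then there
is `Y`; HX1, NTH, QCE give `H1` (a domain, as a subring of `H`; bijective antipode), `IsCQ k H1 Y Q1 ι1` with
`finrank Y Q1 < finrank Z Q`; by induction `H1` is finite over its centre; NFG. -/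
def SpecNID : Prop :=
  (∀ (k : Type u) (H Z Q : Type v) [Field k] [IsAlgClosed k] [CharZero k] [Ring H] [IsDomain H]
    [IsNoetherianRing H] [HopfAlgebra k H] [Field Z] [Algebra k Z] [DivisionRing Q] [Algebra k Q]
    [Algebra Z Q] [IsScalarTower k Z Q] (ι : H →ₐ[k] Q), IsCQ k H Z Q ι →
    Function.Bijective (antipode k (A := H)) →
      Module.Finite (Subalgebra.center k H) H ∨
      ∃ (Y : Type v) (_ : Field Y) (_ : Algebra k Y) (_ : Algebra Z Y) (_ : IsScalarTower k Z Y)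
        (Φ : Y →ₐ[Z] Q), IsYD k Z ι Φ) →
  ∀ (k : Type u) (H Z Q : Type v) [Field k] [IsAlgClosed k] [CharZero k] [Ring H] [IsDomain H]
    [IsNoetherianRing H] [HopfAlgebra k H] [Field Z] [Algebra k Z] [DivisionRing Q] [Algebra k Q]
    [Algebra Z Q] [IsScalarTower k Z Q] (ι : H →ₐ[k] Q), IsCQ k H Z Q ι →
    Function.Bijective (antipode k (A := H)) → Module.Finite (Subalgebra.center k H) H

/-- `HF0` in the REDUCED case (from KC, LP, PU, NI; not a module of this block). -/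
def SpecRHF : Prop :=
  ∀ (k : Type u) (H Z Q : Type v) [Field k] [IsAlgClosed k] [CharZero k] [Ring H] [IsDomain H]
    [IsNoetherianRing H] [HopfAlgebra k H] [Field Z] [Algebra k Z] [DivisionRing Q] [Algebra k Q]
    [Algebra Z Q] [IsScalarTower k Z Q] (ι : H →ₐ[k] Q), IsCQ k H Z Q ι →
    Function.Bijective (antipode k (A := H)) →
    ∀ (AA : Type (max u v)) (P : Type v) [Ring AA] [Algebra k AA] [Field P] [Algebra k P]
      [Algebra Z P] [IsScalarTower k Z P] (ρ : H →ₗ[k] Module.End k AA)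
      (ψ : ↥(Opp k Z ι) →ₐ[k] AA ⊗[k] P) (θ : (P ≃ₐ[Z] P) → (AA ≃ₐ[k] AA))
      (sQ : Q →ₗ[k] Q) (sZ : Z ≃ₐ[k] Z), IsSQ k Z ι sQ sZ → CPkg k Z ι ρ ψ θ →
    ∀ (L : Type v) [Field L] [Algebra k L] [Algebra Z L] [IsScalarTower k Z L] [Module.Finite Z L]
      [IsGalois Z L] (e e' : P →ₐ[k] L), (∀ z, e (algebraMap Z P z) = algebraMap Z L z) →
      (∀ z, e' (algebraMap Z P z) = algebraMap Z L (sZ z)) → RED θ e e' → EG.HF0 k Z ι

end Pool.Agent.Lib.MP_c37a72_al.NR
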