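import Pool.Agent.Lib.MP_c37a72_al.SpecP
import Pool.Agent.Lib.MP_c37a72_al.CO.Spec
import Pool.Agent.Lib.MP_c37a72_al.KC.Spec
import Pool.Agent.Lib.MP_c37a72_al.NR.Spec

section
/-!
# MP_c37a72_al, module AWL: the lemma of Amitsur
-/
set_option autoImplicit false

namespace Pool.Agent.Lib.MP_c37a72_al

namespace AWLM

open scoped Classical

universe v

theorem aux {Q : Type v} [DivisionRing Q] (X : Subring Q)
    (hX : ∀ c : Q, (∀ x ∈ X, x * c = c * x) → c ∈ Subring.center Q)
    (n : ℕ) (x : Fin n → Q) (hx : LinearIndependent (Subring.center Q) x) :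
    ∀ (m : ℕ) (g : Fin n → Q), (Finset.univ.filter (fun j => g j ≠ 0)).card ≤ m →
      (∀ j, g j ∈ X) → (∀ y ∈ X, ∑ j, x j * y * g j = 0) → ∀ j, g j = 0 := by
  intro m
  induction m with
  | zero =>
    intro g hc _ _ j
    by_contra hj
    have h0 : (Finset.univ.filter (fun j => g j ≠ 0)).card = 0 := by omega
    rw [Finset.card_eq_zero] at h0
    have : j ∈ Finset.univ.filter (fun j => g j ≠ 0) := by simp [hj]
    rw [h0] at this
    simp at this
  | succ m ih =>
    intro g hc hg hrel
    by_contra hne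
    push Not at hne
    obtain ⟨i, hi⟩ := hne
    -- the commutation relations
    have hcomm : ∀ u ∈ X, ∀ j, g i * u * g j = g j * u * g i := by
      intro u hu j
      have h1 : ∀ j, (fun j => g i * u * g j - g j * u * g i) j = 0 := by
        apply ih
        · have hsub : Finset.univ.filter (fun j => (g i * u * g j - g j * u * g i) ≠ 0) ⊆
              (Finset.univ.filter (fun j => g j ≠ 0)).erase i := by
            intro l hl
            simp only [Finset.mem_filter, Finset.mem_univ, true_and] at hl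
            rw [Finset.mem_erase]
            refine ⟨?_, ?_⟩
            · intro hli
              apply hl
              rw [hli]
              simp
            · simp only [Finset.mem_filter, Finset.mem_univ, true_and]
              intro hl0
              apply hl
              rw [hl0]
              simp
          have hmem : i ∈ Finset.univ.filter (fun j => g j ≠ 0) := by simp [hi]
          have h2 := Finset.card_le_card hsub
          rw [Finset.card_erase_of_mem hmem] at h2
          omega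
        · intro l
          exact X.sub_mem (X.mul_mem (X.mul_mem (hg i) hu) (hg l))
            (X.mul_mem (X.mul_mem (hg l) hu) (hg i))
        · intro y hy
          have e1 : ∀ l, x l * y * (g i * u * g l - g l * u * g i) =
              x l * (y * g i * u) * g l - x l * y * g l * (u * g i) := by
            intro l
            noncomm_ring
          simp only [e1]
          rw [Finset.sum_sub_distrib, ← Finset.sum_mul, hrel y hy,
            hrel (y * g i * u) (X.mul_mem (X.mul_mem hy (hg i)) hu)]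
          simp
      have := h1 j
      exact sub_eq_zero.mp this
    have hc1 : ∀ j, g i * g j = g j * g i := by
      intro j
      have := hcomm 1 X.one_mem j
      simpa using this
    have hcent : ∀ j, (g i)⁻¹ * g j ∈ Subring.center Q := by
      intro j
      apply hX
      intro u hu
      have h1 := hcomm u hu j
      have h2 : (g i)⁻¹ * (g i * u * g j) * (g i)⁻¹ = (g i)⁻¹ * (g j * u * g i) * (g i)⁻¹ := by
        rw [h1]
      have h3 : (g i)⁻¹ * (g i * u * g j) * (g i)⁻¹ = u * (g j * (g i)⁻¹) := by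
        rw [← mul_assoc, ← mul_assoc, inv_mul_cancel₀ hi, one_mul, mul_assoc]
      have h4 : (g i)⁻¹ * (g j * u * g i) * (g i)⁻¹ = (g i)⁻¹ * g j * u := by
        rw [mul_assoc, mul_assoc (g j * u), mul_inv_cancel₀ hi, mul_one, ← mul_assoc]
      have h5 : g j * (g i)⁻¹ = (g i)⁻¹ * g j := by
        have : (g i)⁻¹ * (g i * g j) * (g i)⁻¹ = (g i)⁻¹ * (g j * g i) * (g i)⁻¹ := by
          rw [hc1 j]
        rw [← mul_assoc, inv_mul_cancel₀ hi, one_mul] at this
        rw [this, mul_assoc, mul_assoc, mul_inv_cancel₀ hi, mul_one]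
      rw [h3, h4, h5] at h2
      exact h2
    let c : Fin n → Subring.center Q := fun j => ⟨(g i)⁻¹ * g j, hcent j⟩
    have hsum : ∑ j, c j • x j = 0 := by
      have h1 := hrel 1 X.one_mem
      have h2 : ∀ j, x j * 1 * g j = (c j • x j) * g i := by
        intro j
        have hcj : (c j • x j) = ((g i)⁻¹ * g j) * x j := rfl
        rw [hcj, mul_one]
        have hz := Subring.mem_center_iff.mp (hcent j)
        rw [← hz (x j)]
        rw [mul_assoc, ← hz (g i)]
        rw [← mul_assoc (g i), mul_inv_cancel₀ hi, one_mul]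
      simp only [h2] at h1
      rw [← Finset.sum_mul] at h1
      exact (mul_eq_zero.mp h1).resolve_right hi
    have hci := (Fintype.linearIndependent_iff.mp hx) c hsum i
    have : (g i)⁻¹ * g i = 0 := congrArg Subtype.val hci
    rw [inv_mul_cancel₀ hi] at this
    exact one_ne_zero this

end AWLM

universe v

/-- **AWL**. -/
theorem specAWL : SpecAWL.{v} := by
  intro Q _ X hX n x g hx hg hrel
  exact AWLM.aux X hX n x hx _ g le_rfl hg hrel

end Pool.Agent.Lib.MP_c37a72_al
end

section
/-!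
# CAP: Capelli sums
-/
set_option autoImplicit false

namespace Pool.Agent.Lib.MP_c37a72_al

universe u v w

open Module

namespace CAPM

/-- expansion along the first letter -/
theorem expand {Q : Type v} [Ring Q] (n : ℕ) (x : Fin (n + 1) → Q) (y0 : Q) (y : Fin n → Q) :
    capelli (n + 1) x (Fin.cons y0 y) = ∑ p : Fin (n + 1), x p * y0 *
      (((if p = 0 then (1 : ℤˣ) else -1 : ℤˣ) : ℤ) •
        capelli n (fun i => x (Equiv.swap 0 p i.succ)) y) := by
  unfold capelli
  rw [← Equiv.sum_comp (Equiv.Perm.decomposeFin (n := n)).symm, Fintype.sum_prod_type]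
  apply Finset.sum_congr rfl
  intro p _
  rw [Finset.smul_sum, Finset.mul_sum]
  apply Finset.sum_congr rfl
  intro e _
  rw [Equiv.Perm.decomposeFin.symm_sign, List.ofFn_succ, List.prod_cons,
    Equiv.Perm.decomposeFin_symm_apply_zero, Fin.cons_zero]
  have h1 : (List.ofFn fun i : Fin n => x ((Equiv.Perm.decomposeFin.symm (p, e)) i.succ) *
      (Fin.cons y0 y : Fin (n + 1) → Q) i.succ).prod =
      (List.ofFn fun i : Fin n => x (Equiv.swap 0 p (e i).succ) * y i).prod := by
    congr 1
    congr 1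
    funext i
    rw [Equiv.Perm.decomposeFin_symm_apply_succ, Fin.cons_succ]
  rw [h1]
  push_cast
  rw [mul_smul, mul_smul_comm, mul_smul_comm]

theorem capelli_mem {Q : Type v} [Ring Q] (X : Subring Q) (n : ℕ) (x y : Fin n → Q)
    (hx : ∀ j, x j ∈ X) (hy : ∀ j, y j ∈ X) : capelli n x y ∈ X := by
  unfold capelli
  apply Subring.sum_mem
  intro σ _
  apply Subring.zsmul_mem
  apply Subring.list_prod_mem
  intro z hz
  rw [List.mem_ofFn] at hz
  obtain ⟨i, rfl⟩ := hz
  exact X.mul_mem (hx _) (hy _)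

/-- the Capelli sum as an alternating map -/
noncomputable def alt (Q : Type v) [DivisionRing Q] (n : ℕ) (y : Fin n → Q) :
    Q [⋀^Fin n]→ₗ[Subring.center Q] Q :=
  MultilinearMap.alternatization
    ((MultilinearMap.mkPiAlgebraFin (Subring.center Q) n Q).compLinearMap
      (fun i => LinearMap.mulRight (Subring.center Q) (y i)))

theorem alt_apply (Q : Type v) [DivisionRing Q] (n : ℕ) (y x : Fin n → Q) :
    alt Q n y x = capelli n x y := by
  unfold alt capelli
  rw [MultilinearMap.alternatization_apply]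
  apply Finset.sum_congr rfl
  intro σ _
  rw [MultilinearMap.domDomCongr_apply, MultilinearMap.compLinearMap_apply,
    MultilinearMap.mkPiAlgebraFin_apply]
  rfl

theorem alt_eq {K V : Type*} [Field K] [AddCommGroup V] [Module K V] {n : ℕ}
    (e : Basis (Fin n) K V) (f : V [⋀^Fin n]→ₗ[K] V) (x : Fin n → V) :
    f x = e.det x • f e := by
  have h : f = (LinearMap.toSpanSingleton K V (f e)).compAlternatingMap e.det := by
    apply Basis.ext_alternating e
    intro v hv
    have hv' : Function.Bijective v := Finite.injective_iff_bijective.1 hv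
    set σ : Equiv.Perm (Fin n) := Equiv.ofBijective v hv' with hσ
    have h1 : (fun i => e (v i)) = (e : Fin n → V) ∘ σ := rfl
    rw [h1, AlternatingMap.map_perm, LinearMap.compAlternatingMap_apply, AlternatingMap.map_perm,
      Basis.det_self, LinearMap.toSpanSingleton_apply]
    rcases Int.units_eq_one_or (Equiv.Perm.sign σ) with h2 | h2 <;> rw [h2] <;> simp
  conv_lhs => rw [h]
  rw [LinearMap.compAlternatingMap_apply, LinearMap.toSpanSingleton_apply]

end CAPM

open CAPM in
theorem specCAP (hAWL : SpecAWL.{v}) : SpecCAP.{v} := by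
  constructor
  · intro Q _ X hX n
    induction n with
    | zero =>
      intro x _ _
      refine ⟨Fin.elim0, fun j => j.elim0, ?_⟩
      unfold capelli
      simp
    | succ n ih =>
      intro x hx hxX
      by_contra hcon
      push Not at hcon
      -- the family without the first element
      have hx' : LinearIndependent (Subring.center Q) (fun i : Fin n => x i.succ) :=
        hx.comp Fin.succ (Fin.succ_injective n)
      obtain ⟨y, hy, hne⟩ := ih (fun i => x i.succ) hx' (fun i => hxX _)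
      have h0 := hAWL Q X hX (n + 1) x (fun p => (((if p = 0 then (1 : ℤˣ) else -1 : ℤˣ) : ℤ) •
        capelli n (fun i => x (Equiv.swap 0 p i.succ)) y)) hx (fun p => by
          apply Subring.zsmul_mem
          exact capelli_mem X n _ _ (fun j => hxX _) hy) (fun y0 hy0 => by
          rw [← expand]
          apply hcon
          intro j
          refine Fin.cases ?_ ?_ j
          · rw [Fin.cons_zero]; exact hy0
          · intro i; rw [Fin.cons_succ]; exact hy i)
      have h1 := h0 0
      simp only [if_true, Units.val_one, one_smul, Equiv.swap_self, Equiv.refl_apply] at h1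
      exact hne h1
  · intro Q _ _ φ x y
    have e := Module.finBasis (Subring.center Q) Q
    rw [← alt_apply, ← alt_apply, alt_eq e _ (fun i => φ (x i)), alt_eq e _ x, smul_smul]
    congr 1
    exact Basis.det_comp e φ x

end Pool.Agent.Lib.MP_c37a72_al
end

section
/-!
# MP_c37a72_al, module CFR: assembly of block PI
-/
set_option autoImplicit false

namespace Pool.Agent.Lib.MP_c37a72_al

universe u v w

theorem specCFR (hML : SpecML.{u, v}) (hORE : SpecORE.{u, v}) (hFRC : SpecFRC.{u, v})
    (hKAP : SpecKAP.{u, v}) (hCEN : SpecCEN.{u, v}) : SpecCFR.{u, v} := by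
  intro k H _ _ _ _ _ hPI
  have hN := hML k H hPI
  obtain ⟨Q, _, _, ι, hι⟩ := hFRC k H (hORE k H hN)
  have hfin := hKAP k H Q ι hι hN
  have hcen := hCEN k H Q ι hι hfin
  -- the centre
  let Z := Subring.center Q
  let algkZ : Algebra k Z :=
    { smul := fun c z => ⟨algebraMap k Q c * z, by
        refine Subring.mem_center_iff.2 fun g => ?_
        have h1 := Subring.mem_center_iff.1 z.2 g
        rw [← mul_assoc, ← Algebra.commutes c g, mul_assoc, h1, mul_assoc]⟩
      algebraMap :=
        { toFun := fun c => ⟨algebraMap k Q c, Subring.mem_center_iff.2 fun g =>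
            (Algebra.commutes c g).symm⟩
          map_one' := by ext; simp
          map_mul' := fun a b => by ext; simp
          map_zero' := by ext; simp
          map_add' := fun a b => by ext; simp }
      commutes' := fun c z => mul_comm _ _
      smul_def' := fun c z => rfl }
  have htow : IsScalarTower k Z Q := ⟨fun c z q => by
    change (algebraMap k Q c * (z : Q)) * q = c • ((z : Q) * q)
    rw [Algebra.smul_def, mul_assoc]⟩
  refine ⟨Z, Q, inferInstance, algkZ, inferInstance, inferInstance, inferInstance, htow, ι,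
    ⟨hι.inj, ?_, hfin, ?_⟩⟩
  · intro q hq
    exact ⟨⟨q, Subring.mem_center_iff.2 hq⟩, rfl⟩
  · intro q
    obtain ⟨s, h, hs, hsq⟩ := hι.left q
    obtain ⟨b, c, hbc, hc0, hc⟩ := hcen s hs
    -- `s b = c` central, so `b s = c`
    have hb0 : b ≠ 0 := by
      rintro rfl
      apply hc0
      rw [← hbc, mul_zero]
    have hbs : b * s = c := by
      have h1 : b * s * b = c * b := by
        rw [mul_assoc, hbc, hc b]
      exact mul_right_cancel₀ hb0 h1
    refine ⟨c, b * h, hc0, hc, ?_⟩
    rw [← hbs, map_mul, map_mul, mul_assoc, hsq]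

end Pool.Agent.Lib.MP_c37a72_al
end

section
/-!
# MP_c37a72_al, module TAU: the action of `Q ⊗_k Q` on `F ⊗_Z Q`
-/
set_option autoImplicit false

open scoped TensorProduct
open Coalgebra HopfAlgebra
open Pool.Agent.Lib.MP_c37a72_al.EG

namespace Pool.Agent.Lib.MP_c37a72_al.CO

universe u v w

namespace TAUM

section

variable (k : Type u) {H : Type v} (Z : Type v) {Q : Type v} [Field k] [Ring H] [HopfAlgebra k H]
  [Field Z] [Algebra k Z] [DivisionRing Q] [Algebra k Q] [Algebra Z Q] [IsScalarTower k Z Q]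
  {ι : H →ₐ[k] Q} {sQ : Q →ₗ[k] Q} {sZ : Z ≃ₐ[k] Z}

omit [IsScalarTower k Z Q] in
theorem sQ_smul (hs : IsSQ k Z ι sQ sZ) (z : Z) (q : Q) : sQ (z • q) = sZ z • sQ q := by
  rw [Algebra.smul_def, hs.mul, hs.zz, Algebra.smul_def, Algebra.commutes]

omit [IsScalarTower k Z Q] in
theorem sQ_one (hs : IsSQ k Z ι sQ sZ) : sQ 1 = 1 := by
  have h := hs.zz 1
  rwa [map_one (algebraMap Z Q), map_one sZ, map_one (algebraMap Z Q)] at h

/-- left multiplications -/
def lm : Q →ₐ[k] Module.End Z Q where
  toFun a :=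
    { toFun := fun q => a * q
      map_add' := fun x y => mul_add a x y
      map_smul' := fun z x => by rw [RingHom.id_apply, mul_smul_comm] }
  map_one' := LinearMap.ext fun q => one_mul q
  map_mul' a b := LinearMap.ext fun q => mul_assoc a b q
  map_zero' := LinearMap.ext fun q => zero_mul q
  map_add' a b := LinearMap.ext fun q => add_mul a b q
  commutes' c := LinearMap.ext fun q => by
    change algebraMap k Q c * q = c • q
    rw [Algebra.smul_def]

/-- right multiplications by `sQ b` -/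
def rm (hs : IsSQ k Z ι sQ sZ) : Q →ₐ[k] Module.End Z Q where
  toFun b :=
    { toFun := fun q => q * sQ b
      map_add' := fun x y => add_mul x y _
      map_smul' := fun z x => by rw [RingHom.id_apply, smul_mul_assoc] }
  map_one' := LinearMap.ext fun q => by
    change q * sQ 1 = q
    rw [sQ_one k Z hs, mul_one]
  map_mul' a b := LinearMap.ext fun q => by
    change q * sQ (a * b) = q * sQ b * sQ a
    rw [hs.mul, mul_assoc]
  map_zero' := LinearMap.ext fun q => by
    change q * sQ 0 = 0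
    rw [map_zero, mul_zero]
  map_add' a b := LinearMap.ext fun q => by
    change q * sQ (a + b) = q * sQ a + q * sQ b
    rw [map_add, mul_add]
  commutes' c := LinearMap.ext fun q => by
    change q * sQ (algebraMap k Q c) = c • q
    rw [Algebra.algebraMap_eq_smul_one, map_smul, sQ_one k Z hs, mul_smul_comm, mul_one]

theorem cm (hs : IsSQ k Z ι sQ sZ) (a b : Q) : Commute (lm k Z a) (rm k Z hs b) :=
  LinearMap.ext fun q => by
    change a * (q * sQ b) = a * q * sQ b
    rw [mul_assoc]

/-- `a ⊗ b ↦ (q ↦ a q sQ(b))` -/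
noncomputable def sg (hs : IsSQ k Z ι sQ sZ) : Q ⊗[k] Q →ₐ[k] Module.End Z Q :=
  Algebra.TensorProduct.lift (lm k Z) (rm k Z hs) (cm k Z hs)

theorem sg_tmul (hs : IsSQ k Z ι sQ sZ) (a b q : Q) : sg k Z hs (a ⊗ₜ[k] b) q = a * q * sQ b := by
  rw [sg, Algebra.TensorProduct.lift_tmul]
  change a * (q * sQ b) = a * q * sQ b
  rw [mul_assoc]

theorem indep0 (hQ : IsCQ k H Z Q ι) (hs : IsSQ k Z ι sQ sZ) (N : ℕ) (s : Module.Basis (Fin N) Z Q)
    (c : Fin N × Fin N → Z) (h : ∀ q : Q, ∑ p, c p • (s p.1 * q * sQ (s p.2)) = 0) :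
    ∀ p, c p = 0 := by
  have hinj : Function.Injective (algebraMap Z Q) := (algebraMap Z Q).injective
  have hcen : ∀ z : Subring.center Q, ∃ z' : Z, algebraMap Z Q z' = z := by
    intro z
    exact hQ.cent z (Subring.mem_center_iff.1 z.2)
  have hlin : LinearIndependent (Subring.center Q) (s : Fin N → Q) := by
    rw [Fintype.linearIndependent_iff]
    intro g hg i
    choose z hz using fun i => hcen (g i)
    have h1 : ∑ i, z i • s i = 0 := by
      rw [← hg]
      refine Finset.sum_congr rfl fun i _ => ?_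
      rw [Algebra.smul_def, hz, Subring.smul_def, smul_eq_mul]
    have h2 := Fintype.linearIndependent_iff.1 s.linearIndependent z h1 i
    apply Subtype.ext
    rw [← hz, h2, map_zero]
    rfl
  have hg : ∀ i, ∑ j, c (i, j) • sQ (s j) = 0 := by
    refine specAWL.{v} Q ⊤ (fun a ha => Subring.mem_center_iff.2 fun x => ha x trivial) N s
      (fun i => ∑ j, c (i, j) • sQ (s j)) hlin (fun _ => trivial) fun q _ => ?_
    have h1 := h q
    rw [Fintype.sum_prod_type] at h1
    rw [← h1]
    refine Finset.sum_congr rfl fun i _ => ?_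
    rw [Finset.mul_sum]
    refine Finset.sum_congr rfl fun j _ => ?_
    rw [mul_smul_comm]
  rintro ⟨i, j⟩
  have h1 : sQ (∑ j, sZ.symm (c (i, j)) • s j) = 0 := by
    rw [map_sum, ← hg i]
    refine Finset.sum_congr rfl fun j _ => ?_
    rw [sQ_smul k Z hs, AlgEquiv.apply_symm_apply]
  have h2 : ∑ j, sZ.symm (c (i, j)) • s j = 0 := hs.bij.1 (by rw [h1, map_zero])
  have h3 := Fintype.linearIndependent_iff.1 s.linearIndependent _ h2 j
  exact (map_eq_zero_iff _ sZ.symm.injective).1 h3

end

end TAUM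

open TAUM in
theorem specTAU : SpecTAU.{u, v} := by
  intro k H Z Q _ _ _ _ _ _ _ _ _ ι sQ sZ hQ hs F _ _
  set τ : Q ⊗[k] Q →+* Module.End F (F ⊗[Z] Q) :=
    ((Module.End.baseChangeHom Z F Q : Module.End Z Q →ₐ[Z] Module.End F (F ⊗[Z] Q)) :
      Module.End Z Q →+* Module.End F (F ⊗[Z] Q)).comp (sg k Z hs : Q ⊗[k] Q →+* Module.End Z Q)
    with hτ
  have hτ0 : ∀ (y : Q ⊗[k] Q) (f : F) (q : Q), τ y (f ⊗ₜ[Z] q) = f ⊗ₜ[Z] (sg k Z hs y q) :=
    fun y f q => rfl
  have hτ1 : ∀ (a b q : Q) (f : F), τ (a ⊗ₜ[k] b) (f ⊗ₜ[Z] q) = f ⊗ₜ[Z] (a * q * sQ b) := by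
    intro a b q f
    rw [hτ0, sg_tmul]
  refine ⟨τ, hτ1, ?_, ?_⟩
  · intro z z' y
    refine LinearMap.ext fun w => ?_
    induction w using TensorProduct.induction_on with
    | zero => rw [map_zero, map_zero]
    | add w₁ w₂ h₁ h₂ => rw [map_add, map_add, h₁, h₂]
    | tmul f q =>
      rw [LinearMap.smul_apply, hτ0, hτ0, map_mul, Module.End.mul_apply]
      generalize sg k Z hs y q = x
      rw [zz_tmul, sg_tmul, hs.zz, ← Algebra.commutes (sZ z'), ← mul_assoc, ← map_mul,
        TensorProduct.smul_tmul', smul_eq_mul, mul_comm z, ← Algebra.smul_def, ← Algebra.smul_def,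
        TensorProduct.tmul_smul, TensorProduct.smul_tmul']
  · intro N s
    rw [Fintype.linearIndependent_iff]
    intro φ hφ
    have h1 : ∀ q : Q, ∑ p, φ p ⊗ₜ[Z] (s p.1 * q * sQ (s p.2)) = (0 : F ⊗[Z] Q) := by
      intro q
      have h2 := LinearMap.congr_fun hφ (1 ⊗ₜ[Z] q)
      rw [LinearMap.zero_apply, LinearMap.sum_apply] at h2
      rw [← h2]
      refine Finset.sum_congr rfl fun p _ => ?_
      rw [LinearMap.smul_apply, hτ1, TensorProduct.smul_tmul', smul_eq_mul, mul_one]
    set β := Module.Basis.ofVectorSpace Z F with hβ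
    have h3 : ∀ t p, β.coord t (φ p) = 0 := by
      intro t
      refine indep0 k Z hQ hs N s (fun p => β.coord t (φ p)) fun q => ?_
      have h4 := congrArg (fun w => TensorProduct.lid Z Q ((β.coord t).rTensor Q w)) (h1 q)
      simp only [map_sum, LinearMap.rTensor_tmul, TensorProduct.lid_tmul, map_zero] at h4
      exact h4
    intro p
    exact (β.forall_coord_eq_zero_iff).1 fun t => h3 t p

end Pool.Agent.Lib.MP_c37a72_al.CO
end

section
/-!
# MP_c37a72_al, block CO: module THE (helper20)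
-/
set_option autoImplicit false
set_option linter.all false

open scoped TensorProduct
open Coalgebra HopfAlgebra
open Pool.Agent.Lib.MP_c37a72_al.EG

namespace Pool.Agent.Lib.MP_c37a72_al.CO

universe u v w

namespace THEM

section Hopf

variable {k : Type u} {H : Type v} [Field k] [Ring H] [HopfAlgebra k H]

/-- `x ⊗ (y ⊗ z) ↦ S(x) y ⊗ z` -/
noncomputable def MM (k : Type u) (H : Type v) [Field k] [Ring H] [HopfAlgebra k H] :
    H ⊗[k] (H ⊗[k] H) →ₗ[k] H ⊗[k] H :=
  ((LinearMap.mul' k H) ∘ₗ (antipode k (A := H)).rTensor H).rTensor H ∘ₗ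
    (TensorProduct.assoc k H H H).symm.toLinearMap

theorem MM_tmul (x : H) (t : H ⊗[k] H) :
    MM k H (x ⊗ₜ[k] t) = ((antipode k x) ⊗ₜ[k] (1 : H)) * t := by
  induction t using TensorProduct.induction_on with
  | zero => simp
  | tmul y z => simp [MM]
  | add x y hx hy => rw [TensorProduct.tmul_add, map_add, hx, hy, mul_add]

theorem hopf_id (h : H) {n : ℕ} {x y : Fin n → H}
    (e : comul (R := k) h = ∑ i, x i ⊗ₜ[k] y i) :
    ∑ i, ((antipode k (x i)) ⊗ₜ[k] (1 : H)) * comul (R := k) (y i) = (1 : H) ⊗ₜ[k] h := by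
  have h1 : MM k H ((comul (R := k)).lTensor H (comul (R := k) h)) =
      ∑ i, ((antipode k (x i)) ⊗ₜ[k] (1 : H)) * comul (R := k) (y i) := by
    rw [e, map_sum, map_sum]
    refine Finset.sum_congr rfl fun i _ => ?_
    rw [LinearMap.lTensor_tmul, MM_tmul]
  rw [← h1, MM, LinearMap.comp_apply]
  have h2 : (TensorProduct.assoc k H H H).symm.toLinearMap
      ((comul (R := k)).lTensor H (comul (R := k) h)) =
      (comul (R := k)).rTensor H (comul (R := k) h) := Coalgebra.coassoc_symm_apply h
  rw [h2, ← LinearMap.comp_apply, ← LinearMap.rTensor_comp]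
  have h3 : ((LinearMap.mul' k H) ∘ₗ (antipode k (A := H)).rTensor H) ∘ₗ comul (R := k) =
      (Algebra.linearMap k H) ∘ₗ counit (R := k) := by
    rw [LinearMap.comp_assoc]
    exact HopfAlgebra.mul_antipode_rTensor_comul
  rw [h3, LinearMap.rTensor_comp, LinearMap.comp_apply, Coalgebra.rTensor_counit_comul]
  simp

theorem exists_fin (t : H ⊗[k] H) : ∃ (n : ℕ) (x y : Fin n → H), t = ∑ i, x i ⊗ₜ[k] y i := by
  obtain ⟨S, hS⟩ := TensorProduct.exists_finset t
  refine ⟨S.card, fun i => (S.equivFin.symm i).1.1, fun i => (S.equivFin.symm i).1.2, ?_⟩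
  rw [hS, ← Finset.sum_coe_sort S (fun p : H × H => p.1 ⊗ₜ[k] p.2)]
  exact (Equiv.sum_comp S.equivFin.symm (fun p : S => p.1.1 ⊗ₜ[k] p.1.2)).symm

end Hopf

section Ind

variable {k : Type u} {H : Type v} [Field k] [Ring H] [HopfAlgebra k H]
  {AA : Type w} [Ring AA] [Algebra k AA] {ρ : H →ₗ[k] Module.End k AA}

/-- the bilinear map `(x, y) ↦ ∑ e_s(ρ(x) a) ρ(y) c_s` -/
noncomputable def Kt (ρ : H →ₗ[k] Module.End k AA) {r : ℕ} (e : Fin r → (AA →ₗ[k] AA))
    (c : Fin r → AA) (a : AA) : H ⊗[k] H →ₗ[k] AA :=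
  TensorProduct.lift (LinearMap.mk₂ k (fun x y => ∑ s, e s (ρ x a) * ρ y (c s))
    (fun x x' y => by simp [add_mul, Finset.sum_add_distrib])
    (fun t x y => by simp [Finset.smul_sum])
    (fun x y y' => by simp [mul_add, Finset.sum_add_distrib])
    (fun t x y => by simp [Finset.smul_sum]))

theorem Kt_tmul {r : ℕ} (e : Fin r → (AA →ₗ[k] AA)) (c : Fin r → AA) (a : AA) (x y : H) :
    Kt ρ e c a (x ⊗ₜ[k] y) = ∑ s, e s (ρ x a) * ρ y (c s) := by
  simp [Kt]

theorem stab (rone : ρ 1 = 1) (rmul : ∀ g h : H, ρ (g * h) = ρ h * ρ g)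
    (ralg : ∀ (h : H) (n : ℕ) (x y : Fin n → H), comul (R := k) h = ∑ i, x i ⊗ₜ[k] y i →
      ∀ a b : AA, ρ h (a * b) = ∑ i, ρ (x i) a * ρ (y i) b)
    {r : ℕ} (e : Fin r → (AA →ₗ[k] AA)) (he : ∀ s h a, e s (ρ h a) = ρ h (e s a))
    (c : Fin r → AA) (hc : ∀ a, ∑ s, e s a * c s = 0) (h : H) (a : AA) :
    ∑ s, e s a * ρ h (c s) = 0 := by
  have key : ∀ u g : H, Kt ρ e c a ((u ⊗ₜ[k] (1 : H)) * comul (R := k) g) = 0 := by
    intro u g
    obtain ⟨n, x, y, hxy⟩ := exists_fin (comul (R := k) g)
    rw [hxy, Finset.mul_sum, map_sum]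
    have h1 : ∀ i, Kt ρ e c a ((u ⊗ₜ[k] (1 : H)) * (x i ⊗ₜ[k] y i)) =
        ∑ s, ρ (x i) (e s (ρ u a)) * ρ (y i) (c s) := by
      intro i
      rw [Algebra.TensorProduct.tmul_mul_tmul, one_mul, Kt_tmul]
      refine Finset.sum_congr rfl fun s _ => ?_
      congr 1
      rw [rmul, Module.End.mul_apply, he]
    simp only [h1]
    rw [Finset.sum_comm]
    have h2 : ∀ s, ∑ i, ρ (x i) (e s (ρ u a)) * ρ (y i) (c s) = ρ g (e s (ρ u a) * c s) := by
      intro s
      rw [ralg g n x y hxy]
    simp only [h2]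
    rw [← map_sum, hc, map_zero]
  obtain ⟨n, x, y, hxy⟩ := exists_fin (comul (R := k) h)
  have h3 : Kt ρ e c a ((1 : H) ⊗ₜ[k] h) = 0 := by
    rw [← hopf_id h hxy, map_sum]
    exact Finset.sum_eq_zero fun i _ => key _ _
  rw [Kt_tmul, rone] at h3
  simpa using h3

theorem indep (rone : ρ 1 = 1) (rmul : ∀ g h : H, ρ (g * h) = ρ h * ρ g)
    (ralg : ∀ (h : H) (n : ℕ) (x y : Fin n → H), comul (R := k) h = ∑ i, x i ⊗ₜ[k] y i →
      ∀ a b : AA, ρ h (a * b) = ∑ i, ρ (x i) a * ρ (y i) b)
    (cop : ∀ φ : AA →ₗ[k] AA, ∃ (n : ℕ) (h : Fin n → H) (b : Fin n → AA), ∀ a : AA,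
      φ a = ∑ j, ρ (h j) a * b j)
    {r : ℕ} (e : Fin r → (AA →ₗ[k] AA)) (he : ∀ s h a, e s (ρ h a) = ρ h (e s a))
    (hli : ∀ g : Fin r → k, (∀ a, ∑ s, g s • e s a = 0) → ∀ s, g s = 0)
    (c : Fin r → AA) (hc : ∀ a, ∑ s, e s a * c s = 0) : ∀ s, c s = 0 := by
  intro t
  by_contra hct
  obtain ⟨f, hf⟩ : ∃ f : AA →ₗ[k] k, f (c t) ≠ 0 := by
    by_contra hcon
    simp only [not_exists, ne_eq, not_not] at hcon
    exact hct ((Module.forall_dual_apply_eq_zero_iff k (c t)).1 hcon)
  let φ : AA →ₗ[k] AA := f.smulRight (1 : AA)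
  obtain ⟨n, h, b, hb⟩ := cop φ
  have h1 : ∀ a, ∑ s, e s a * φ (c s) = 0 := by
    intro a
    simp only [hb, Finset.mul_sum, ← mul_assoc]
    rw [Finset.sum_comm]
    refine Finset.sum_eq_zero fun j _ => ?_
    rw [← Finset.sum_mul, stab rone rmul ralg e he c hc (h j) a, zero_mul]
  have h2 : ∀ a, ∑ s, f (c s) • e s a = 0 := by
    intro a
    have := h1 a
    simpa [φ] using this
  exact hf (hli (fun s => f (c s)) h2 t)

end Ind

section Main

variable {k : Type u} [Field k] {H : Type v} [AddCommGroup H] [Module k H]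
  {AA : Type w} [Ring AA] [Algebra k AA] {P : Type v} [Field P] [Algebra k P]
  {ρ : H →ₗ[k] Module.End k AA}

theorem comp_lT {I : Type*} [DecidableEq I] (π : Module.Basis I k P) (g : Module.End k AA) (u : P ⊗[k] AA) (i : I) :
    TensorProduct.equivFinsuppOfBasisLeft π (g.lTensor P u) i =
      g (TensorProduct.equivFinsuppOfBasisLeft π u i) := by
  induction u using TensorProduct.induction_on with
  | zero => simp
  | tmul p a =>
    rw [LinearMap.lTensor_tmul, TensorProduct.equivFinsuppOfBasisLeft_apply_tmul_apply,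
      TensorProduct.equivFinsuppOfBasisLeft_apply_tmul_apply, map_smul]
  | add x y hx hy => rw [map_add, map_add, map_add, Finsupp.add_apply, Finsupp.add_apply, hx, hy,
      map_add]

theorem exb0 {V : Type*} [AddCommGroup V] [Module k V] [Module.Finite k V] (C : Submodule k V) :
    ∃ (r : ℕ) (e : Fin r → V), (∀ s, e s ∈ C) ∧
      (∀ g : Fin r → k, ∑ s, g s • e s = 0 → ∀ s, g s = 0) ∧
      ∀ f ∈ C, ∃ g : Fin r → k, f = ∑ s, g s • e s := by
  let bC : Module.Basis (Fin (Module.finrank k ↥C)) k ↥C := Module.finBasis k ↥C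
  refine ⟨Module.finrank k ↥C, fun s => (bC s : V), fun s => (bC s).2, ?_, ?_⟩
  · intro g hg
    have h1 : ∑ s, g s • bC s = 0 := by
      apply Subtype.ext
      simpa using hg
    exact (Fintype.linearIndependent_iff.1 bC.linearIndependent) g h1
  · intro f hf
    refine ⟨fun s => bC.repr ⟨f, hf⟩ s, ?_⟩
    have h3 := congrArg (fun c : ↥C => (c : V)) (bC.sum_repr ⟨f, hf⟩)
    simp only [] at h3
    have h4 : ((∑ i, bC.repr ⟨f, hf⟩ i • bC i : ↥C) : V) =
        ∑ s, bC.repr ⟨f, hf⟩ s • (bC s : V) := by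
      rw [AddSubmonoidClass.coe_finsetSum]; rfl
    exact h3.symm.trans h4

theorem exb [Module.Finite k AA] (p : (AA →ₗ[k] AA) → Prop) (hp0 : p 0)
    (hpa : ∀ x y, p x → p y → p (x + y)) (hps : ∀ (c : k) x, p x → p (c • x)) :
    ∃ (r : ℕ) (e : Fin r → (AA →ₗ[k] AA)), (∀ s, p (e s)) ∧
      (∀ g : Fin r → k, (∀ a, ∑ s, g s • e s a = 0) → ∀ s, g s = 0) ∧
      ∀ f, p f → ∃ g : Fin r → k, ∀ a, f a = ∑ s, g s • e s a := by
  let B := Module.finBasis k AA
  let C : Submodule k (Fin (Module.finrank k AA) → AA) :=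
    { carrier := {v | p (B.constr k v)}
      add_mem' := fun {a b} ha hb => by
        show p (B.constr k (a + b))
        rw [map_add]; exact hpa _ _ ha hb
      zero_mem' := by
        show p (B.constr k 0)
        rw [map_zero]; exact hp0
      smul_mem' := fun c a ha => by
        show p (B.constr k (c • a))
        rw [map_smul]; exact hps _ _ ha }
  obtain ⟨r, e, h1, h2, h3⟩ := exb0 C
  refine ⟨r, fun s => B.constr k (e s), fun s => h1 s, ?_, ?_⟩
  · intro g hg
    apply h2 g
    funext l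
    have := hg (B l)
    simpa using this
  · intro f hf
    have h4 : (fun l => f (B l)) ∈ C := by
      show p (B.constr k (fun l => f (B l)))
      have : B.constr k (fun l => f (B l)) = f := by
        refine B.ext fun l => ?_
        rw [B.constr_basis]
      rw [this]; exact hf
    obtain ⟨g, hg⟩ := h3 _ h4
    refine ⟨g, fun a => ?_⟩
    have h5 : f = ∑ s, g s • B.constr k (e s) := by
      refine B.ext fun l => ?_
      have := congrFun hg l
      rw [LinearMap.sum_apply]
      simpa using this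
    conv_lhs => rw [h5]
    rw [LinearMap.sum_apply]
    rfl

theorem coords [Module.Finite k AA] (β : P ⊗[k] AA →ₗ[k] P ⊗[k] AA)
    (hβ : ∀ (h : H) (u : P ⊗[k] AA), β ((ρ h).lTensor P u) = (ρ h).lTensor P (β u)) :
    ∃ (r : ℕ) (e : Fin r → (AA →ₗ[k] AA)) (q : Fin r → P),
      (∀ s h a, e s (ρ h a) = ρ h (e s a)) ∧
      (∀ g : Fin r → k, (∀ a, ∑ s, g s • e s a = 0) → ∀ s, g s = 0) ∧
      ∀ a, β (1 ⊗ₜ[k] a) = ∑ s, q s ⊗ₜ[k] e s a := by
  classical
  let π := Module.Basis.ofVectorSpace k P
  let B := Module.finBasis k AA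
  let ev : Module.Basis.ofVectorSpaceIndex k P → (AA →ₗ[k] AA) := fun i =>
    Finsupp.lapply i ∘ₗ (TensorProduct.equivFinsuppOfBasisLeft π (N := AA)).toLinearMap ∘ₗ β ∘ₗ
      (TensorProduct.mk k P AA 1)
  have hev : ∀ i a, ev i a = TensorProduct.equivFinsuppOfBasisLeft π (β (1 ⊗ₜ[k] a)) i :=
    fun i a => rfl
  have hcm : ∀ i h a, ev i (ρ h a) = ρ h (ev i a) := by
    intro i h a
    rw [hev, hev, ← comp_lT, ← hβ, LinearMap.lTensor_tmul]
  let S : Finset (Module.Basis.ofVectorSpaceIndex k P) :=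
    Finset.univ.biUnion fun l =>
      (TensorProduct.equivFinsuppOfBasisLeft π (β ((1 : P) ⊗ₜ[k] (B l : AA)))).support
  have hS : ∀ i, i ∉ S → ev i = 0 := by
    intro i hi
    refine B.ext fun l => ?_
    rw [hev, LinearMap.zero_apply]
    by_contra h0
    exact hi (Finset.mem_biUnion.2 ⟨l, Finset.mem_univ _, Finsupp.mem_support_iff.2 h0⟩)
  have hsum : ∀ a, β (1 ⊗ₜ[k] a) = ∑ i ∈ S, π i ⊗ₜ[k] ev i a := by
    intro a
    have h1 := TensorProduct.equivFinsuppOfBasisLeft_symm_apply π
      (TensorProduct.equivFinsuppOfBasisLeft π (β (1 ⊗ₜ[k] a)))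
    rw [LinearEquiv.symm_apply_apply] at h1
    rw [h1, Finsupp.sum]
    refine Finset.sum_subset_zero_on_sdiff ?_ ?_ (fun i _ => rfl)
    · intro i hi
      by_contra h0
      have := hS i h0
      rw [Finsupp.mem_support_iff] at hi
      apply hi
      rw [← hev, this, LinearMap.zero_apply]
    · intro i hi
      rw [Finset.mem_sdiff, Finsupp.notMem_support_iff] at hi
      rw [hev, hi.2, TensorProduct.tmul_zero]
  obtain ⟨r, e, he1, he2, he3⟩ := exb (k := k) (AA := AA)
    (fun e => ∀ h a, e (ρ h a) = ρ h (e a))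
    (fun h a => by simp)
    (fun x y hx hy h a => by
      rw [LinearMap.add_apply, LinearMap.add_apply, map_add, hx h, hy h])
    (fun c x hx h a => by
      rw [LinearMap.smul_apply, LinearMap.smul_apply, map_smul, hx h])
  choose lam hlam using fun i => he3 (ev i) (hcm i)
  refine ⟨r, e, fun s => ∑ i ∈ S, lam i s • π i, he1, he2, ?_⟩
  · intro a
    rw [hsum a]
    have h2 : ∀ i, ev i a = ∑ s, lam i s • e s a := fun i => hlam i a
    simp only [TensorProduct.sum_tmul]
    rw [Finset.sum_comm]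
    refine Finset.sum_congr rfl fun i _ => ?_
    conv_lhs => rw [h2 i, TensorProduct.tmul_sum]
    refine Finset.sum_congr rfl fun s _ => ?_
    rw [TensorProduct.smul_tmul]

theorem mem_range [IsAlgClosed k] (T : Submodule k P) (hfg : T.FG) (h0 : T ≠ ⊥)
    (hm : ∀ x ∈ T, ∀ y ∈ T, x * y ∈ T) (x : P) (hx : x ∈ T) : ∃ c : k, algebraMap k P c = x := by
  have hi : IsIntegral k x := isIntegral_of_smul_mem_submodule T h0 hfg x (fun n hn => hm x hx n hn)
  have hirr := minpoly.irreducible hi
  have hd := IsAlgClosed.degree_eq_one_of_irreducible k hirr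
  exact minpoly.mem_range_of_degree_eq_one k x hd

theorem scal [IsAlgClosed k] [Nontrivial AA] (β : P ⊗[k] AA →ₗ[k] P ⊗[k] AA)
    (hβm : ∀ u v, β (u * v) = β u * β v) (hβ1 : β 1 = 1)
    {r : ℕ} (e : Fin r → (AA →ₗ[k] AA)) (q : Fin r → P)
    (hli : ∀ g : Fin r → k, (∀ a, ∑ s, g s • e s a = 0) → ∀ s, g s = 0)
    (hind : ∀ c : Fin r → AA, (∀ a, ∑ s, e s a * c s = 0) → ∀ s, c s = 0)
    (hq : ∀ a, β (1 ⊗ₜ[k] a) = ∑ s, q s ⊗ₜ[k] e s a) : ∀ s, ∃ c : k, algebraMap k P c = q s := by
  set T : Submodule k P := Submodule.span k (Set.range q) with hT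
  have hfg : T.FG := Submodule.fg_span (Set.finite_range q)
  have h0 : T ≠ ⊥ := by
    intro h
    have h1 : ∀ s, q s = 0 := by
      intro s
      have : q s ∈ T := Submodule.subset_span ⟨s, rfl⟩
      rw [h] at this
      simpa using this
    have h2 := hq 1
    simp only [h1, TensorProduct.zero_tmul, Finset.sum_const_zero] at h2
    have h3 : (1 : P) ⊗ₜ[k] (1 : AA) = 1 := rfl
    rw [h3, hβ1] at h2
    exact one_ne_zero h2
  have hqq : ∀ s t, q s * q t ∈ T := by
    intro s0 t0
    by_contra hst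
    obtain ⟨f, hf1, hf2⟩ := Submodule.exists_le_ker_of_notMem hst
    have hfq : ∀ s, f (q s) = 0 := fun s => hf2 (Submodule.subset_span ⟨s, rfl⟩)
    let F : P ⊗[k] AA →ₗ[k] AA := (TensorProduct.lid k AA).toLinearMap ∘ₗ f.rTensor AA
    have hF : ∀ p a, F (p ⊗ₜ[k] a) = f p • a := by
      intro p a
      simp [F]
    have h1 : ∀ a b, ∑ s, ∑ t, f (q s * q t) • (e s a * e t b) = 0 := by
      intro a b
      have h2 : β (1 ⊗ₜ[k] (a * b)) = β (1 ⊗ₜ[k] a) * β (1 ⊗ₜ[k] b) := by
        rw [← hβm, Algebra.TensorProduct.tmul_mul_tmul, one_mul]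
      have h3 := congrArg F h2
      rw [hq, hq, hq, map_sum, Finset.sum_mul_sum, map_sum] at h3
      simp only [map_sum, Algebra.TensorProduct.tmul_mul_tmul, hF, hfq, zero_smul,
        Finset.sum_const_zero] at h3
      exact h3.symm
    have h4 : ∀ s b, ∑ t, f (q s * q t) • e t b = 0 := by
      intro s b
      have := hind (fun s => ∑ t, f (q s * q t) • e t b) (fun a => by
        rw [← h1 a b]
        refine Finset.sum_congr rfl fun s _ => ?_
        rw [Finset.mul_sum]
        refine Finset.sum_congr rfl fun t _ => ?_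
        rw [mul_smul_comm]) s
      exact this
    exact hf1 (hli (fun t => f (q s0 * q t)) (h4 s0) t0)
  have hm : ∀ x ∈ T, ∀ y ∈ T, x * y ∈ T := by
    intro x hx y hy
    have h6 : T * T ≤ T := by
      rw [hT, Submodule.span_mul_span]
      refine Submodule.span_le.2 ?_
      rintro z ⟨x, ⟨s, rfl⟩, y, ⟨t, rfl⟩, rfl⟩
      exact hqq s t
    exact h6 (Submodule.mul_mem_mul hx hy)
  intro s
  exact mem_range T hfg h0 hm _ (Submodule.subset_span ⟨s, rfl⟩)

end Main

end THEM

open THEM in
theorem specTHE (hOPP : SpecOPP.{u, v}) (hCOP : SpecCOP.{u, v, w}) : SpecTHE.{u, v, w} := by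
  intro k H Z Q _ _ _ _ _ _ _ _ _ _ ι AA P _ _ _ _ _ _ ρ ψ hQ hc hspan
  have := hQ.fin
  have := hc.finA
  have := hc.finP
  obtain ⟨hstab, -, -⟩ := hOPP k H Z Q ι hQ
  have hfO : Module.Finite Z ↥(Opp k Z ι) :=
    inferInstanceAs (Module.Finite Z ↥(Subalgebra.toSubmodule (Opp k Z ι)))
  -- `AA` is not zero
  have hnt : Nontrivial AA := by
    have h1 : 0 < Module.finrank Z ↥(Opp k Z ι) := Module.finrank_pos
    rw [← hc.dim] at h1
    exact Module.nontrivial_of_finrank_pos h1
  -- the map with the factors exchanged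
  let cm : AA ⊗[k] P ≃ₐ[k] P ⊗[k] AA := Algebra.TensorProduct.comm k AA P
  let ψ' : ↥(Opp k Z ι) →ₐ[k] P ⊗[k] AA := cm.toAlgHom.comp ψ
  have hψ' : ∀ x, ψ' x = cm (ψ x) := fun x => rfl
  have cm_tmul : ∀ (a : AA) (p : P), cm (a ⊗ₜ[k] p) = p ⊗ₜ[k] a := fun a p => rfl
  have cm_mul1 : ∀ (u : AA ⊗[k] P) (p : P), cm (u * (1 ⊗ₜ[k] p)) = p • cm u := by
    intro u p
    rw [map_mul, cm_tmul]
    induction cm u using TensorProduct.induction_on with
    | zero => simp
    | tmul q a => simp [TensorProduct.smul_tmul', mul_comm]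
    | add x y hx hy => rw [add_mul, hx, hy, smul_add]
  have hz : ∀ (z : Z) x, ψ' (z • x) = algebraMap Z P z • ψ' x := by
    intro z x
    rw [Algebra.smul_def, map_mul, hψ' (algebraMap Z _ z), hc.psiZ, cm_tmul, Algebra.smul_def,
      Algebra.TensorProduct.algebraMap_apply]
    rfl
  have hsp : Submodule.span P (Set.range ψ') = ⊤ := by
    rw [eq_top_iff]
    intro y _
    obtain ⟨u, rfl⟩ := cm.surjective y
    have hu : u ∈ Submodule.span k {y : AA ⊗[k] P | ∃ x p, y = ψ x * (1 ⊗ₜ[k] p)} := by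
      rw [hspan]; exact Submodule.mem_top
    induction hu using Submodule.span_induction with
    | mem u h =>
      obtain ⟨x, p, rfl⟩ := h
      rw [cm_mul1]
      exact Submodule.smul_mem _ _ (Submodule.subset_span ⟨x, rfl⟩)
    | zero => rw [map_zero]; exact Submodule.zero_mem _
    | add x y _ _ hx hy => rw [map_add]; exact Submodule.add_mem _ (hx trivial) (hy trivial)
    | smul c x _ hx =>
      rw [map_smul, ← algebraMap_smul P c (cm x)]
      exact Submodule.smul_mem _ _ (hx trivial)
  let X := Module.finBasis Z ↥(Opp k Z ι)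
  have hX : ∀ x, ψ' x = ∑ i, algebraMap Z P (X.repr x i) • ψ' (X i) := by
    intro x
    conv_lhs => rw [← X.sum_repr x, map_sum]
    exact Finset.sum_congr rfl fun i _ => hz _ _
  have hsp2 : ⊤ ≤ Submodule.span P (Set.range fun i => ψ' (X i)) := by
    rw [← hsp]
    refine Submodule.span_le.2 ?_
    rintro _ ⟨x, rfl⟩
    rw [hX x]
    exact Submodule.sum_mem _ fun i _ => Submodule.smul_mem _ _ (Submodule.subset_span ⟨i, rfl⟩)
  have hcard : Fintype.card (Fin (Module.finrank Z ↥(Opp k Z ι))) =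
      Module.finrank P (P ⊗[k] AA) := by
    rw [Module.finrank_baseChange, Fintype.card_fin, hc.dim]
  let bb := basisOfTopLeSpanOfCardEqFinrank (fun i => ψ' (X i)) hsp2 hcard
  have hbb : ∀ i, bb i = ψ' (X i) := fun i => by
    simp [bb]
  have hmain : ∀ γ : P ≃ₐ[Z] P, ∃ th : AA ≃ₐ[k] AA,
      (∀ (h : H) (a : AA), th (ρ h a) = ρ h (th a)) ∧
      ∀ x : ↥(Opp k Z ι),
        Algebra.TensorProduct.map (AlgHom.id k AA) (γ.toAlgHom.restrictScalars k) (ψ x) =
          Algebra.TensorProduct.map (th.toAlgHom) (AlgHom.id k P) (ψ x) := by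
    intro γ
    let G : P ⊗[k] AA →ₐ[k] P ⊗[k] AA :=
      Algebra.TensorProduct.map (γ.toAlgHom.restrictScalars k) (AlgHom.id k AA)
    have hG : ∀ p a, G (p ⊗ₜ[k] a) = γ p ⊗ₜ[k] a := fun p a => rfl
    have hGs : ∀ (p : P) u, G (p • u) = γ p • G u := by
      intro p u
      induction u using TensorProduct.induction_on with
      | zero => simp
      | tmul q a => rw [TensorProduct.smul_tmul', hG, hG, TensorProduct.smul_tmul', smul_eq_mul,
          smul_eq_mul, map_mul]
      | add x y hx hy => rw [smul_add, map_add, hx, hy, map_add, smul_add]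
    let β : P ⊗[k] AA →ₗ[P] P ⊗[k] AA := bb.constr P (fun i => G (ψ' (X i)))
    have hβX : ∀ i, β (ψ' (X i)) = G (ψ' (X i)) := by
      intro i
      rw [← hbb i]
      exact (bb.constr_basis P _ i).trans (by rw [hbb i])
    have hβ : ∀ x, β (ψ' x) = G (ψ' x) := by
      intro x
      rw [hX x, map_sum, map_sum]
      refine Finset.sum_congr rfl fun i _ => ?_
      rw [map_smul, hGs, hβX, γ.commutes]
    have hβm1 : ∀ x v, β (ψ' x * v) = β (ψ' x) * β v := by
      intro x v
      have h1 : β ∘ₗ LinearMap.mulLeft P (ψ' x) = LinearMap.mulLeft P (β (ψ' x)) ∘ₗ β := by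
        refine LinearMap.ext_on hsp ?_
        rintro _ ⟨y, rfl⟩
        show β (ψ' x * ψ' y) = β (ψ' x) * β (ψ' y)
        rw [← map_mul, hβ, hβ, hβ, map_mul, map_mul]
      exact LinearMap.congr_fun h1 v
    have hβm : ∀ u v, β (u * v) = β u * β v := by
      intro u v
      have h1 : β ∘ₗ LinearMap.mulRight P v = LinearMap.mulRight P (β v) ∘ₗ β := by
        refine LinearMap.ext_on hsp ?_
        rintro _ ⟨y, rfl⟩
        exact hβm1 y v
      exact LinearMap.congr_fun h1 u
    have hβ1 : β 1 = 1 := by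
      have h1 := hβ 1
      rw [map_one ψ', map_one G] at h1
      exact h1
    have hbc : ∀ (h : H) (u : P ⊗[k] AA), (ρ h).baseChange P u = (ρ h).lTensor P u :=
      fun h u => rfl
    have hGb : ∀ (h : H) (u : P ⊗[k] AA), G ((ρ h).lTensor P u) = (ρ h).lTensor P (G u) := by
      intro h u
      induction u using TensorProduct.induction_on with
      | zero => simp
      | tmul q a => rw [LinearMap.lTensor_tmul, hG, hG, LinearMap.lTensor_tmul]
      | add x y hx hy => rw [map_add, map_add, hx, hy, map_add, map_add]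
    have hcmρ : ∀ (h : H) (u : AA ⊗[k] P),
        cm (TensorProduct.map (ρ h) (LinearMap.id : P →ₗ[k] P) u) = (ρ h).lTensor P (cm u) := by
      intro h u
      induction u using TensorProduct.induction_on with
      | zero => simp
      | tmul a q => rw [TensorProduct.map_tmul, cm_tmul, cm_tmul, LinearMap.lTensor_tmul]; rfl
      | add x y hx hy => rw [map_add, map_add, hx, hy, map_add, map_add]
    have hβρ : ∀ (h : H) (u : P ⊗[k] AA), β ((ρ h).lTensor P u) = (ρ h).lTensor P (β u) := by
      intro h u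
      have h1 : β ∘ₗ (ρ h).baseChange P = (ρ h).baseChange P ∘ₗ β := by
        refine LinearMap.ext_on hsp ?_
        rintro _ ⟨x, rfl⟩
        show β ((ρ h).lTensor P (ψ' x)) = (ρ h).lTensor P (β (ψ' x))
        have h2 : (ρ h).lTensor P (ψ' x) = ψ' ⟨adrQ k Z ι h x, hstab h x x.2⟩ := by
          rw [hψ', hψ', hc.psiH h x ⟨adrQ k Z ι h x, hstab h x x.2⟩ rfl, hcmρ]
        rw [h2, hβ, ← h2, hβ, hGb]
      exact LinearMap.congr_fun h1 u
    have hsurj : Function.Surjective β := by
      rw [← LinearMap.range_eq_top, eq_top_iff]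
      intro y _
      have hGG : ∃ y', G y' = y := by
        refine ⟨Algebra.TensorProduct.map (γ.symm.toAlgHom.restrictScalars k) (AlgHom.id k AA) y,
          ?_⟩
        induction y using TensorProduct.induction_on with
        | zero => simp
        | tmul q a =>
          rw [Algebra.TensorProduct.map_tmul, hG]
          show γ (γ.symm q) ⊗ₜ[k] a = q ⊗ₜ[k] a
          rw [AlgEquiv.apply_symm_apply]
        | add x y hx hy => rw [map_add, map_add, hx trivial, hy trivial]
      obtain ⟨y', rfl⟩ := hGG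
      have hy' : y' ∈ Submodule.span P (Set.range ψ') := by rw [hsp]; exact Submodule.mem_top
      induction hy' using Submodule.span_induction with
      | mem u h =>
        obtain ⟨x, rfl⟩ := h
        exact ⟨ψ' x, hβ x⟩
      | zero => rw [map_zero]; exact Submodule.zero_mem _
      | add x y _ _ hx hy => rw [map_add]; exact Submodule.add_mem _ (hx trivial) (hy trivial)
      | smul c x _ hx => rw [hGs]; exact Submodule.smul_mem _ _ (hx trivial)
    have hinj : Function.Injective β := LinearMap.injective_iff_surjective.2 hsurj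
    obtain ⟨r, e, q, he1, he2, hq⟩ := coords (ρ := ρ) (β.restrictScalars k)
      (fun h u => hβρ h u)
    have hq' : ∀ a, β (1 ⊗ₜ[k] a) = ∑ s, q s ⊗ₜ[k] e s a := hq
    have hcop := hCOP k H Z Q ι AA P ρ ψ hQ hc hspan
    have hind := indep hc.rone hc.rmul hc.ralg hcop e he1 he2
    choose c hcq using scal (β.restrictScalars k) hβm hβ1 e q he2 hind hq'
    let th0 : AA →ₗ[k] AA := ∑ s, c s • e s
    have hth0 : ∀ a, th0 a = ∑ s, c s • e s a := by
      intro a
      show (∑ s, c s • e s : AA →ₗ[k] AA) a = _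
      rw [LinearMap.sum_apply]
      rfl
    have hβth : ∀ a, β ((1 : P) ⊗ₜ[k] a) = (1 : P) ⊗ₜ[k] th0 a := by
      intro a
      rw [hq', hth0, TensorProduct.tmul_sum]
      refine Finset.sum_congr rfl fun s _ => ?_
      rw [← hcq s, Algebra.algebraMap_eq_smul_one, TensorProduct.smul_tmul]
    have hti : ∀ a b : AA, (1 : P) ⊗ₜ[k] a = (1 : P) ⊗ₜ[k] b → a = b := by
      intro a b hab
      exact Algebra.TensorProduct.includeRight_injective (R := k) (A := P) (B := AA)
        (algebraMap k P).injective hab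
    have h1 : th0 1 = 1 := by
      apply hti
      rw [← hβth]
      exact hβ1
    have hmul : ∀ a b, th0 (a * b) = th0 a * th0 b := by
      intro a b
      apply hti
      rw [← hβth]
      have h2 : (1 : P) ⊗ₜ[k] (a * b) = ((1 : P) ⊗ₜ[k] a) * ((1 : P) ⊗ₜ[k] b) := by
        rw [Algebra.TensorProduct.tmul_mul_tmul, one_mul]
      rw [h2, hβm, hβth, hβth, Algebra.TensorProduct.tmul_mul_tmul, one_mul]
    have hi0 : Function.Injective th0 := by
      intro a b hab
      apply hti
      apply hinj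
      rw [hβth, hβth, hab]
    have hb0 : Function.Bijective th0 := ⟨hi0, LinearMap.injective_iff_surjective.1 hi0⟩
    let th : AA ≃ₐ[k] AA := AlgEquiv.ofBijective (AlgHom.ofLinearMap th0 h1 hmul) hb0
    have hth : ∀ a, th a = th0 a := fun a => rfl
    refine ⟨th, ?_, ?_⟩
    · intro h a
      rw [hth, hth, hth0, hth0, map_sum]
      refine Finset.sum_congr rfl fun s _ => ?_
      rw [he1, map_smul]
    · intro x
      have hβp : ∀ (p : P) (a : AA), β (p ⊗ₜ[k] a) = p ⊗ₜ[k] th0 a := by
        intro p a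
        have h2 : p ⊗ₜ[k] a = p • ((1 : P) ⊗ₜ[k] a) := by
          rw [TensorProduct.smul_tmul', smul_eq_mul, mul_one]
        rw [h2, map_smul, hβth, TensorProduct.smul_tmul', smul_eq_mul, mul_one]
      have hL : ∀ u : AA ⊗[k] P,
          cm (Algebra.TensorProduct.map (AlgHom.id k AA) (γ.toAlgHom.restrictScalars k) u) =
            G (cm u) := by
        intro u
        induction u using TensorProduct.induction_on with
        | zero => simp
        | tmul a q => rfl
        | add x y hx hy => rw [map_add, map_add, hx, hy, map_add, map_add]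
      have hR : ∀ u : AA ⊗[k] P,
          cm (Algebra.TensorProduct.map (th.toAlgHom) (AlgHom.id k P) u) = β (cm u) := by
        intro u
        induction u using TensorProduct.induction_on with
        | zero => simp
        | tmul a q => rw [cm_tmul, hβp]; rfl
        | add x y hx hy => rw [map_add, map_add, hx, hy, map_add, map_add]
      apply cm.injective
      rw [hL, hR]
      exact (hβ x).symm
  choose θ hθ1 hθ2 using hmain
  exact ⟨θ, hθ1, hθ2⟩

end Pool.Agent.Lib.MP_c37a72_al.CO
end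

section
/-!
# XIK: relations between the operators `x ↦ (x ◁ h) p` are formal
-/
set_option autoImplicit false

open scoped TensorProduct
open Coalgebra HopfAlgebra
open Pool.Agent.Lib.MP_c37a72_al.EG

namespace Pool.Agent.Lib.MP_c37a72_al.CO

universe u v w

namespace XIKM

section

/-- generators of the space of operators -/
theorem gens {k : Type u} {H E : Type v} [Field k] [AddCommGroup H] [Module k H]
    [AddCommGroup E] [Module k E] (R : H →ₗ[k] E) (n : ℕ)
    (hd : ∀ h : Fin (n + 1) → H, ∃ c : Fin (n + 1) → k, (∃ i, c i ≠ 0) ∧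
      ∑ i, c i • R (h i) = 0) :
    ∃ (e : ℕ) (g : Fin e → H), e ≤ n ∧ ∀ t : H, ∃ l : Fin e → k, R t = ∑ a, l a • R (g a) := by
  classical
  have hrk : Module.rank k ↥(LinearMap.range R) ≤ (n : ℕ) := by
    refine rank_le fun s hs => ?_
    by_contra hlt
    rw [not_le] at hlt
    have hcard : Fintype.card (Fin (n + 1)) ≤ Fintype.card ↥s := by
      rw [Fintype.card_fin, Fintype.card_coe]; exact hlt
    obtain ⟨e⟩ := Function.Embedding.nonempty_of_card_le hcard
    have hli := hs.comp e e.injective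
    choose g hg using fun i : Fin (n + 1) => ((e i : ↥s) : ↥(LinearMap.range R)).2
    obtain ⟨c, ⟨i, hi⟩, hc⟩ := hd g
    refine hi (Fintype.linearIndependent_iff.1 hli c ?_ i)
    apply Subtype.ext
    rw [Submodule.coe_sum]
    simp only [Function.comp_apply, SetLike.val_smul, ← hg]
    rw [hc]
    rfl
  have hfR : Module.Finite k ↥(LinearMap.range R) :=
    Module.rank_lt_aleph0_iff.1 (lt_of_le_of_lt hrk Cardinal.natCast_lt_aleph0)
  have hfr : Module.finrank k ↥(LinearMap.range R) ≤ n := by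
    have := hrk
    rw [← Module.finrank_eq_rank] at this
    exact_mod_cast this
  let b := Module.finBasis k ↥(LinearMap.range R)
  choose g hg using fun a : Fin (Module.finrank k ↥(LinearMap.range R)) => (b a).2
  refine ⟨_, g, hfr, ?_⟩
  intro t
  have hmem : R t ∈ LinearMap.range R := LinearMap.mem_range_self R t
  refine ⟨fun a => b.repr ⟨R t, hmem⟩ a, ?_⟩
  have h1 := b.sum_repr ⟨R t, hmem⟩
  have h2 := congrArg (LinearMap.range R).subtype h1
  rw [map_sum] at h2
  refine Eq.trans h2.symm ?_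
  refine Finset.sum_congr rfl fun a _ => ?_
  rw [hg]; rfl

variable {k : Type u} {Z : Type v} {H O : Type v} [Field k] [AddCommGroup H] [Module k H]
  [Field Z] [Algebra k Z] [Ring O] [Algebra k O] [Algebra Z O] [IsScalarTower k Z O]

theorem gen [Module.Finite Z O] (R : H →ₗ[k] Module.End Z O)
    (hd : ∀ h : Fin (Module.finrank Z O + 1) → H, ∃ c : Fin (Module.finrank Z O + 1) → k,
      (∃ i, c i ≠ 0) ∧ ∑ i, c i • R (h i) = 0)
    (hD : ∀ φ : Module.End Z O, ∃ (n : ℕ) (h : Fin n → H) (b : Fin n → O), ∀ x : O,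
      φ x = ∑ j, R (h j) x * b j)
    (n : ℕ) (h : Fin n → H) (p : Fin n → O) (hx : ∀ x, ∑ j, R (h j) x * p j = 0) (c : O) :
    ∑ j, p j ⊗ₜ[k] R (h j) c = 0 := by
  classical
  obtain ⟨e, g, hfr, hexp⟩ := gens R _ hd
  choose l hl using hexp
  -- the `Z`-linear map
  let Φ : (Fin e → O) →ₗ[Z] Module.End Z O :=
    ∑ a, (LinearMap.llcomp Z _ _ _).flip (R (g a)) ∘ₗ (LinearMap.mul Z O).flip ∘ₗ
      LinearMap.proj a
  have hΦ : ∀ q x, Φ q x = ∑ a, R (g a) x * q a := by
    intro q x
    simp only [Φ, LinearMap.sum_apply]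
    exact Finset.sum_congr rfl fun a _ => rfl
  have hre : ∀ (N : ℕ) (t : Fin N → H) (d : Fin N → O) (x : O),
      (∑ a, R (g a) x * ∑ j, l (t j) a • d j) = ∑ j, R (t j) x * d j := by
    intro N t d x
    simp only [Finset.mul_sum]
    rw [Finset.sum_comm]
    refine Finset.sum_congr rfl fun j _ => ?_
    rw [hl (t j), LinearMap.sum_apply, Finset.sum_mul]
    refine Finset.sum_congr rfl fun a _ => ?_
    rw [LinearMap.smul_apply, mul_smul_comm, smul_mul_assoc]
  have hsurj : Function.Surjective Φ := by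
    intro φ
    obtain ⟨N, t, d, ht⟩ := hD φ
    refine ⟨fun a => ∑ j, l (t j) a • d j, ?_⟩
    apply LinearMap.ext
    intro x
    rw [ht x, hΦ, hre]
  have hfin1 : Module.finrank Z (Fin e → O) = e * Module.finrank Z O := by
    rw [Module.finrank_pi_fintype]
    simp
  have hfin2 : Module.finrank Z (Module.End Z O) = Module.finrank Z O * Module.finrank Z O :=
    Module.finrank_linearMap Z Z _ _
  have heq : Module.finrank Z (Fin e → O) = Module.finrank Z (Module.End Z O) := by
    apply le_antisymm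
    · rw [hfin1, hfin2]
      exact Nat.mul_le_mul_right _ hfr
    · exact LinearMap.finrank_le_finrank_of_surjective hsurj
  have hinj : Function.Injective Φ :=
    (LinearMap.injective_iff_surjective_of_finrank_eq_finrank heq).2 hsurj
  have hzero : (fun a => ∑ j, l (h j) a • p j) = 0 := by
    apply hinj
    rw [map_zero]
    apply LinearMap.ext
    intro x
    rw [hΦ, LinearMap.zero_apply, hre, hx]
  have hz2 : ∀ a, ∑ j, l (h j) a • p j = 0 := fun a => congrFun hzero a
  have h3 : ∀ j, R (h j) c = ∑ a, l (h j) a • R (g a) c := by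
    intro j
    rw [hl (h j), LinearMap.sum_apply]
    rfl
  simp only [h3, TensorProduct.tmul_sum]
  rw [Finset.sum_comm]
  apply Finset.sum_eq_zero
  intro a _
  have h5 : ∀ j, p j ⊗ₜ[k] (l (h j) a • R (g a) c) = (l (h j) a • p j) ⊗ₜ[k] R (g a) c := by
    intro j
    rw [TensorProduct.tmul_smul, TensorProduct.smul_tmul']
  simp only [h5]
  rw [← TensorProduct.sum_tmul, hz2, TensorProduct.zero_tmul]

end

end XIKM

/-- **XIK**. -/
theorem specXIK (hDIM : SpecDIM.{u, v}) (hRES : SpecRES.{u, v}) (hDNS : SpecDNS.{u, v}) :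
    SpecXIK.{u, v} := by
  classical
  intro k H Z Q _ _ _ _ _ _ _ _ _ ι hQ hS n h p hp hx c hc
  obtain ⟨R, hR⟩ := hRES k H Z Q ι hQ
  have hcoe := hR.coe
  have hfQ : Module.Finite Z Q := hQ.fin
  have hfO : Module.Finite Z ↥(Opp k Z ι) :=
    Module.Finite.of_injective (Opp k Z ι).val.toLinearMap Subtype.val_injective
  have key := XIKM.gen R (fun t => by
    obtain ⟨d, hd0, hd⟩ := hDIM k H Z Q ι hQ hS t
    refine ⟨d, hd0, ?_⟩
    apply LinearMap.ext
    intro x
    apply Subtype.ext
    have h1 := hd x x.2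
    refine Eq.trans ?_ h1
    rw [LinearMap.sum_apply]
    refine Eq.trans (map_sum ((Opp k Z ι).val) _ _) ?_
    refine Finset.sum_congr rfl fun i _ => ?_
    rw [← hcoe]
    rfl) (fun φ => by
    obtain ⟨N, t, d, ht⟩ := hDNS k H Z Q ι hQ φ
    refine ⟨N, t, d, fun x => ?_⟩
    apply Subtype.ext
    refine (ht x).trans ?_
    refine Eq.trans ?_ (map_sum ((Opp k Z ι).val) _ _).symm
    refine Finset.sum_congr rfl fun i _ => ?_
    rw [← hcoe]
    rfl) n h (fun j => ⟨p j, hp j⟩) (fun x => by
      apply Subtype.ext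
      refine Eq.trans ?_ (hx x x.2)
      refine Eq.trans (map_sum ((Opp k Z ι).val) _ _) ?_
      refine Finset.sum_congr rfl fun i _ => ?_
      rw [← hcoe]
      rfl) ⟨c, hc⟩
  have h6 := congrArg (TensorProduct.map ((Opp k Z ι).val.toLinearMap.restrictScalars k)
    ((Opp k Z ι).val.toLinearMap.restrictScalars k)) key
  rw [map_sum, map_zero] at h6
  refine Eq.trans ?_ h6
  refine Finset.sum_congr rfl fun j _ => ?_
  have h7 : adrQ k Z ι (h j) c = (Opp k Z ι).val (R (h j) ⟨c, hc⟩) := (hcoe (h j) ⟨c, hc⟩).symm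
  rw [TensorProduct.map_tmul, h7]
  rfl

end Pool.Agent.Lib.MP_c37a72_al.CO
end

section
set_option autoImplicit false

open scoped TensorProduct
open Coalgebra HopfAlgebra
open Pool.Agent.Lib.MP_c37a72_al.EG Pool.Agent.Lib.MP_c37a72_al.CO Pool.Agent.Lib.MP_c37a72_al.LB

namespace Pool.Agent.Lib.MP_c37a72_al.KC

universe u v w

/-- **BET**: `H`-equivariant `Ω`-algebra endomorphisms of `A ⊗ Ω` are defined over `k`. -/
theorem specBET (hCOO : EG.SpecCOO.{u, v, w}) :
    SpecBET.{u, v, w} := by
  intro k H Z Q _ _ _ _ _ _ _ _ _ _ ι AA P _ _ _ _ _ _ ρ ψ θ hQ hc Ω _ _ β hβΩ hβm0 hβ10 hβρ0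
  have := hQ.fin
  have := hc.finA
  have := hc.finP
  have hfO : Module.Finite Z ↥(Opp k Z ι) :=
    inferInstanceAs (Module.Finite Z ↥(Subalgebra.toSubmodule (Opp k Z ι)))
  -- `AA` is not zero
  have hnt : Nontrivial AA := by
    have h1 : 0 < Module.finrank Z ↥(Opp k Z ι) := Module.finrank_pos
    rw [← hc.dim] at h1
    exact Module.nontrivial_of_finrank_pos h1
  -- the map with the factors exchanged
  let cm : AA ⊗[k] Ω ≃ₐ[k] Ω ⊗[k] AA := Algebra.TensorProduct.comm k AA Ω
  have cm_tmul : ∀ (a : AA) (p : Ω), cm (a ⊗ₜ[k] p) = p ⊗ₜ[k] a := fun a p => rfl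
  let β' : Ω ⊗[k] AA →ₗ[k] Ω ⊗[k] AA :=
    cm.toLinearMap ∘ₗ β ∘ₗ cm.symm.toLinearMap
  have hβ' : ∀ u, β' u = cm (β (cm.symm u)) := fun u => rfl
  have hcmρ : ∀ (h : H) (u : AA ⊗[k] Ω), cm (rX ρ Ω h u) = (ρ h).lTensor Ω (cm u) := by
    intro h u
    induction u using TensorProduct.induction_on with
    | zero => simp
    | tmul a q => rw [rX_tmul, cm_tmul, cm_tmul, LinearMap.lTensor_tmul]
    | add x y hx hy => rw [map_add, map_add, hx, hy, map_add, map_add]
  have hβρ : ∀ (h : H) (u : Ω ⊗[k] AA), β' ((ρ h).lTensor Ω u) = (ρ h).lTensor Ω (β' u) := by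
    intro h u
    obtain ⟨v, rfl⟩ := cm.surjective u
    rw [← hcmρ, hβ', hβ', AlgEquiv.symm_apply_apply, AlgEquiv.symm_apply_apply, hβρ0, hcmρ]
  have hβm : ∀ u v, β' (u * v) = β' u * β' v := by
    intro u v
    rw [hβ', hβ', hβ', map_mul, hβm0, map_mul]
  have hβ1 : β' 1 = 1 := by
    rw [hβ', map_one, hβ10, map_one]
  obtain ⟨r, e, q, he1, he2, hq⟩ := THEM.coords (ρ := ρ) β' hβρ
  have hcop := hCOO k H Z Q ι hQ AA P ρ ψ θ hc
  have hind := THEM.indep hc.rone hc.rmul hc.ralg hcop e he1 he2
  choose c hcq using THEM.scal β' hβm hβ1 e q he2 hind hq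
  let th0 : AA →ₗ[k] AA := ∑ s, c s • e s
  have hth0 : ∀ a, th0 a = ∑ s, c s • e s a := by
    intro a
    show (∑ s, c s • e s : AA →ₗ[k] AA) a = _
    rw [LinearMap.sum_apply]
    rfl
  have hβth : ∀ a, β' ((1 : Ω) ⊗ₜ[k] a) = (1 : Ω) ⊗ₜ[k] th0 a := by
    intro a
    rw [hq, hth0, TensorProduct.tmul_sum]
    refine Finset.sum_congr rfl fun s _ => ?_
    rw [← hcq s, Algebra.algebraMap_eq_smul_one, TensorProduct.smul_tmul]
  have hti : ∀ a b : AA, (1 : Ω) ⊗ₜ[k] a = (1 : Ω) ⊗ₜ[k] b → a = b := by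
    intro a b hab
    exact Algebra.TensorProduct.includeRight_injective (R := k) (A := Ω) (B := AA)
      (algebraMap k Ω).injective hab
  have h1 : th0 1 = 1 := by
    apply hti
    rw [← hβth]
    exact hβ1
  have hmul : ∀ a b, th0 (a * b) = th0 a * th0 b := by
    intro a b
    apply hti
    rw [← hβth]
    have h2 : (1 : Ω) ⊗ₜ[k] (a * b) = ((1 : Ω) ⊗ₜ[k] a) * ((1 : Ω) ⊗ₜ[k] b) := by
      rw [Algebra.TensorProduct.tmul_mul_tmul, one_mul]
    rw [h2, hβm, hβth, hβth, Algebra.TensorProduct.tmul_mul_tmul, one_mul]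
  have hβth2 : ∀ a : AA, β (a ⊗ₜ[k] (1 : Ω)) = th0 a ⊗ₜ[k] (1 : Ω) := by
    intro a
    apply cm.injective
    have h2 := hβth a
    rw [hβ'] at h2
    exact h2
  refine ⟨AlgHom.ofLinearMap th0 h1 hmul, ?_, ?_⟩
  · intro h a
    show th0 (ρ h a) = ρ h (th0 a)
    rw [hth0, hth0, map_sum]
    refine Finset.sum_congr rfl fun s _ => ?_
    rw [he1, map_smul]
  · intro v
    induction v using TensorProduct.induction_on with
    | zero => rw [map_zero, map_zero]
    | tmul a ω =>
      have h2 : a ⊗ₜ[k] ω = (a ⊗ₜ[k] (1 : Ω)) * ((1 : AA) ⊗ₜ[k] ω) := by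
        rw [Algebra.TensorProduct.tmul_mul_tmul, one_mul, mul_one]
      rw [h2, hβΩ, hβth2, map_mul, eX_tmul, eX_tmul, map_one]
      rfl
    | add x y hx hy => rw [map_add, map_add, hx, hy]

end Pool.Agent.Lib.MP_c37a72_al.KC
end

section
/-!
# MP_c37a72_al, block KC: module IND
-/
set_option autoImplicit false
set_option linter.all false

open scoped TensorProduct
open Coalgebra HopfAlgebra
open Pool.Agent.Lib.MP_c37a72_al.EG Pool.Agent.Lib.MP_c37a72_al.CO Pool.Agent.Lib.MP_c37a72_al.LB

namespace Pool.Agent.Lib.MP_c37a72_al.KC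

universe u v w

/-- **IND** -/
theorem specIND (hAIV : SpecAIV.{u, v, w}) (hCOP : CO.SpecCOP.{u, v, w}) : SpecIND.{u, v, w} := by
  intro k H Z Q _ _ _ _ _ _ _ _ _ ι AA P _ _ _ _ _ _ ρ ψ θ hQ hC
  have hpre : CO.CPre k Z ι ρ ψ :=
    ⟨hC.finA, hC.finP, hC.rone, hC.rmul, hC.ralg, hC.psiZ, hC.psiH, hC.dim⟩
  have hcop := hCOP k H Z Q ι AA P ρ ψ hQ hpre hC.span
  obtain ⟨-, hnt, -, -⟩ := hAIV k H Z Q ι AA P ρ ψ θ hQ hC
  -- independence over `A` follows from independence over `k`
  have key : ∀ (r : ℕ) (e : Fin r → (AA →ₐ[k] AA)), (∀ i h a, e i (ρ h a) = ρ h (e i a)) →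
      (∀ g : Fin r → k, (∀ a, ∑ s, g s • e s a = 0) → ∀ s, g s = 0) →
      ∀ c : Fin r → AA, (∀ a, ∑ s, e s a * c s = 0) → ∀ s, c s = 0 := by
    intro r e he hli c hc
    exact CO.THEM.indep (ρ := ρ) hC.rone hC.rmul hC.ralg hcop (fun s => (e s).toLinearMap)
      (fun s h a => he s h a) hli c hc
  have main : ∀ (r : ℕ) (e : Fin r → (AA →ₐ[k] AA)), (∀ i h a, e i (ρ h a) = ρ h (e i a)) →
      Function.Injective e → ∀ g : Fin r → k, (∀ a, ∑ s, g s • e s a = 0) → ∀ s, g s = 0 := by
    intro r
    induction r with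
    | zero => exact fun e _ _ g _ s => s.elim0
    | succ r ih =>
      intro e he hinj g hg
      have he' : ∀ (i : Fin r) (h : H) (a : AA), e i.castSucc (ρ h a) = ρ h (e i.castSucc a) :=
        fun i => he i.castSucc
      have hinj' : Function.Injective fun i : Fin r => e i.castSucc := fun i i' h =>
        Fin.castSucc_injective r (hinj h)
      have h1 : ∀ b : AA, ∀ s : Fin r,
          g s.castSucc • (e s.castSucc b - e (Fin.last r) b) = 0 := by
        intro b
        refine key r (fun i => e i.castSucc) he' (ih _ he' hinj') _ fun a => ?_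
        have h2 := hg (a * b)
        have h3 := congrArg (fun x => x * e (Fin.last r) b) (hg a)
        rw [Fin.sum_univ_castSucc] at h2 h3
        simp only [map_mul, zero_mul, add_mul, Finset.sum_mul, smul_mul_assoc] at h2 h3
        have h4 : ∑ s : Fin r, e s.castSucc a *
            (g s.castSucc • (e s.castSucc b - e (Fin.last r) b)) =
            ∑ s : Fin r, g s.castSucc • (e s.castSucc a * e s.castSucc b) -
              ∑ s : Fin r, g s.castSucc • (e s.castSucc a * e (Fin.last r) b) := by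
          rw [← Finset.sum_sub_distrib]
          refine Finset.sum_congr rfl fun s _ => ?_
          rw [mul_smul_comm, mul_sub, smul_sub]
        rw [h4]
        have h5 := h2.trans h3.symm
        exact sub_eq_zero.2 (add_right_cancel h5)
      have h2 : ∀ s : Fin r, g s.castSucc = 0 := by
        intro s
        by_contra hs
        have h3 : e s.castSucc = e (Fin.last r) := by
          refine AlgHom.ext fun b => ?_
          rcases smul_eq_zero.1 (h1 b s) with h4 | h4
          · exact absurd h4 hs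
          · exact sub_eq_zero.1 h4
        exact (Fin.castSucc_lt_last s).ne (hinj h3)
      intro s
      refine Fin.lastCases ?_ h2 s
      have h3 := hg 1
      rw [Fin.sum_univ_castSucc] at h3
      rw [Finset.sum_eq_zero (fun s _ => by rw [h2 s, zero_smul]), zero_add, map_one] at h3
      rcases smul_eq_zero.1 h3 with h4 | h4
      · exact h4
      · exact absurd h4 one_ne_zero
  intro r e he hinj c hc
  exact key r e he (main r e he hinj) c hc

end Pool.Agent.Lib.MP_c37a72_al.KC
end

section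
set_option autoImplicit false

open scoped TensorProduct
open Coalgebra HopfAlgebra
open Pool.Agent.Lib.MP_c37a72_al.EG Pool.Agent.Lib.MP_c37a72_al.CO Pool.Agent.Lib.MP_c37a72_al.LB

namespace Pool.Agent.Lib.MP_c37a72_al.KC

universe u v w

/-- **PSB**: `ψ_x(o_l)` is an `Ω`-basis of `A ⊗ Ω`. -/
theorem specPSB : SpecPSB.{u, v, w} := by
  classical
  intro k H Z Q _ _ _ _ _ _ _ _ _ ι AA P _ _ _ _ _ _ ρ ψ θ hQ hc Ω _ _ x m o
  have := hQ.fin
  have := hc.finA
  have := hc.finP
  -- coordinates in `AA ⊗ P`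
  have hps : ∀ (z : Z) (y : ↥(Opp k Z ι)),
      ψ (z • y) = ψ y * ((1 : AA) ⊗ₜ[k] algebraMap Z P z) := by
    intro z y
    rw [Algebra.smul_def, map_mul, hc.psiZ]
    generalize ψ y = t
    induction t using TensorProduct.induction_on with
    | zero => simp
    | tmul a p =>
      rw [Algebra.TensorProduct.tmul_mul_tmul, Algebra.TensorProduct.tmul_mul_tmul, one_mul,
        mul_one, mul_comm]
    | add x y hx hy => rw [mul_add, hx, hy, add_mul]
  have hψo : ∀ y : ↥(Opp k Z ι),
      ψ y = ∑ l, ψ (o l) * ((1 : AA) ⊗ₜ[k] algebraMap Z P (o.repr y l)) := by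
    intro y
    conv_lhs => rw [← o.sum_repr y, map_sum]
    exact Finset.sum_congr rfl fun l _ => hps _ _
  have hP : ∀ v : AA ⊗[k] P, ∃ p : Fin m → P, v = ∑ l, ψ (o l) * ((1 : AA) ⊗ₜ[k] p l) := by
    intro v
    have hv : v ∈ Submodule.span k {y : AA ⊗[k] P | ∃ x p, y = ψ x * (1 ⊗ₜ[k] p)} := by
      rw [hc.span]; exact Submodule.mem_top
    induction hv using Submodule.span_induction with
    | mem u h =>
      obtain ⟨y, p, rfl⟩ := h
      refine ⟨fun l => algebraMap Z P (o.repr y l) * p, ?_⟩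
      rw [hψo y, Finset.sum_mul]
      refine Finset.sum_congr rfl fun l _ => ?_
      rw [mul_assoc, Algebra.TensorProduct.tmul_mul_tmul, one_mul]
    | zero =>
      refine ⟨fun _ => 0, ?_⟩
      simp
    | add a b _ _ ha hb =>
      obtain ⟨p, hp⟩ := ha
      obtain ⟨p', hp'⟩ := hb
      refine ⟨fun l => p l + p' l, ?_⟩
      rw [hp, hp', ← Finset.sum_add_distrib]
      refine Finset.sum_congr rfl fun l _ => ?_
      rw [TensorProduct.tmul_add, mul_add]
    | smul c a _ ha =>
      obtain ⟨p, hp⟩ := ha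
      refine ⟨fun l => c • p l, ?_⟩
      rw [hp, Finset.smul_sum]
      refine Finset.sum_congr rfl fun l _ => ?_
      rw [TensorProduct.tmul_smul, mul_smul_comm]
  -- coordinates in `AA ⊗ Ω`
  have hS : ∀ v : AA ⊗[k] Ω, ∃ ω : Fin m → Ω,
      v = ∑ l, xX AA x (ψ (o l)) * ((1 : AA) ⊗ₜ[k] ω l) := by
    intro v
    induction v using TensorProduct.induction_on with
    | zero => exact ⟨fun _ => 0, by simp⟩
    | tmul a ω =>
      obtain ⟨p, hp⟩ := hP (a ⊗ₜ[k] (1 : P))
      refine ⟨fun l => x (p l) * ω, ?_⟩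
      have h1 : a ⊗ₜ[k] ω = xX AA x (a ⊗ₜ[k] (1 : P)) * ((1 : AA) ⊗ₜ[k] ω) := by
        rw [xX_tmul, map_one, Algebra.TensorProduct.tmul_mul_tmul, one_mul, mul_one]
      rw [h1, hp, map_sum, Finset.sum_mul]
      refine Finset.sum_congr rfl fun l _ => ?_
      rw [map_mul, xX_tmul, mul_assoc, Algebra.TensorProduct.tmul_mul_tmul, one_mul]
    | add a b ha hb =>
      obtain ⟨p, hp⟩ := ha
      obtain ⟨p', hp'⟩ := hb
      refine ⟨fun l => p l + p' l, ?_⟩
      rw [hp, hp', ← Finset.sum_add_distrib]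
      refine Finset.sum_congr rfl fun l _ => ?_
      rw [TensorProduct.tmul_add, mul_add]
  refine ⟨?_, hS⟩
  let cm : AA ⊗[k] Ω ≃ₐ[k] Ω ⊗[k] AA := Algebra.TensorProduct.comm k AA Ω
  have cm_tmul : ∀ (a : AA) (p : Ω), cm (a ⊗ₜ[k] p) = p ⊗ₜ[k] a := fun a p => rfl
  have cm_mul1 : ∀ (u : AA ⊗[k] Ω) (p : Ω), cm (u * (1 ⊗ₜ[k] p)) = p • cm u := by
    intro u p
    rw [map_mul, cm_tmul]
    induction cm u using TensorProduct.induction_on with
    | zero => simp
    | tmul q a => simp [TensorProduct.smul_tmul', mul_comm]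
    | add x y hx hy => rw [add_mul, hx, hy, smul_add]
  let L : (Fin m → Ω) →ₗ[Ω] Ω ⊗[k] AA :=
    Fintype.linearCombination Ω (fun l => cm (xX AA x (ψ (o l))))
  have hL : ∀ ω : Fin m → Ω, L ω = cm (∑ l, xX AA x (ψ (o l)) * ((1 : AA) ⊗ₜ[k] ω l)) := by
    intro ω
    show Fintype.linearCombination Ω (fun l => cm (xX AA x (ψ (o l)))) ω = _
    rw [Fintype.linearCombination_apply, map_sum]
    exact Finset.sum_congr rfl fun l _ => (cm_mul1 _ _).symm
  have hsurj : Function.Surjective L := by
    intro u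
    obtain ⟨v, rfl⟩ := cm.surjective u
    obtain ⟨ω, hω⟩ := hS v
    exact ⟨ω, by rw [hL, ← hω]⟩
  have hfr : Module.finrank Ω (Fin m → Ω) = Module.finrank Ω (Ω ⊗[k] AA) := by
    rw [Module.finrank_baseChange, Module.finrank_fin_fun, hc.dim,
      Module.finrank_eq_card_basis o, Fintype.card_fin]
  have hinj : Function.Injective L :=
    (LinearMap.injective_iff_surjective_of_finrank_eq_finrank hfr).2 hsurj
  intro ω hω
  have h0 : L ω = L 0 := by
    rw [hL, hω, map_zero, map_zero]
  have h1 := hinj h0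
  intro l
  rw [h1]
  rfl

end Pool.Agent.Lib.MP_c37a72_al.KC
end

section
/-!
# MP_c37a72_al, block NR: module IDA (helper60)

Independence of `H`-linear automorphisms, with coefficients in `A`.
-/
set_option autoImplicit false

open scoped TensorProduct
open Coalgebra HopfAlgebra
open Pool.Agent.Lib.MP_c37a72_al.EG Pool.Agent.Lib.MP_c37a72_al.CO

namespace Pool.Agent.Lib.MP_c37a72_al.NR

universe u v w

namespace IDAM

section

variable {k : Type u} {H : Type v} [Field k] [Ring H] [HopfAlgebra k H]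
  {AA : Type w} [Ring AA] [Algebra k AA] {ρ : H →ₗ[k] Module.End k AA}

/-- different `H`-linear automorphisms are `k`-independent -/
theorem lin [Nontrivial AA] (rone : ρ 1 = 1) (rmul : ∀ g h : H, ρ (g * h) = ρ h * ρ g)
    (ralg : ∀ (h : H) (n : ℕ) (x y : Fin n → H), comul (R := k) h = ∑ i, x i ⊗ₜ[k] y i →
      ∀ a b : AA, ρ h (a * b) = ∑ i, ρ (x i) a * ρ (y i) b)
    (cop : ∀ φ : AA →ₗ[k] AA, ∃ (n : ℕ) (h : Fin n → H) (b : Fin n → AA), ∀ a : AA,
      φ a = ∑ j, ρ (h j) a * b j) :
    ∀ (n : ℕ) (τ : Fin n → (AA ≃ₐ[k] AA)), Function.Injective τ →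
      (∀ s h a, τ s (ρ h a) = ρ h (τ s a)) →
      ∀ g : Fin n → k, (∀ a, ∑ s, g s • τ s a = 0) → ∀ s, g s = 0 := by
  intro n
  induction n with
  | zero => intro τ _ _ g _ s; exact s.elim0
  | succ n ih =>
    intro τ hτ hH g hg
    -- the last coefficient is zero
    have hlast : g (Fin.last n) = 0 := by
      by_contra hne
      -- `τ_j = ∑ μ_i τ_i`
      let μ : Fin n → k := fun i => -(g (Fin.last n))⁻¹ * g i.castSucc
      have hμ : ∀ a, τ (Fin.last n) a = ∑ i, μ i • τ i.castSucc a := by
        intro a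
        have h1 := hg a
        rw [Fin.sum_univ_castSucc] at h1
        have h2 : g (Fin.last n) • τ (Fin.last n) a =
            -∑ i : Fin n, g i.castSucc • τ i.castSucc a := by
          rw [eq_neg_iff_add_eq_zero, add_comm]; exact h1
        have h3 : τ (Fin.last n) a = (g (Fin.last n))⁻¹ •
            (-∑ i : Fin n, g i.castSucc • τ i.castSucc a) := by
          rw [← h2, smul_smul, inv_mul_cancel₀ hne, one_smul]
        rw [h3, smul_neg, Finset.smul_sum, ← Finset.sum_neg_distrib]
        refine Finset.sum_congr rfl fun i _ => ?_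
        simp only [μ]
        rw [smul_smul, ← neg_smul, neg_mul]
      have hinj : Function.Injective fun i : Fin n => τ i.castSucc :=
        fun a b h => Fin.castSucc_injective n (hτ h)
      have hind := ih (fun i => τ i.castSucc) hinj (fun s h a => hH _ h a)
      -- coefficients in `A`
      have hb : ∀ b (i : Fin n), μ i • (τ i.castSucc b - τ (Fin.last n) b) = 0 := by
        intro b
        refine THEM.indep rone rmul ralg cop (fun i : Fin n => (τ i.castSucc).toLinearMap)
          (fun s h a => hH _ h a) (fun g' hg' => hind g' hg')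
          (fun i => μ i • (τ i.castSucc b - τ (Fin.last n) b)) ?_
        intro a
        have h1 : ∑ i : Fin n, τ i.castSucc a * (μ i • τ i.castSucc b) =
            ∑ i : Fin n, τ i.castSucc a * (μ i • τ (Fin.last n) b) := by
          calc ∑ i : Fin n, τ i.castSucc a * (μ i • τ i.castSucc b)
              = ∑ i : Fin n, μ i • τ i.castSucc (a * b) := by
                refine Finset.sum_congr rfl fun i _ => ?_
                rw [map_mul, mul_smul_comm]
            _ = τ (Fin.last n) (a * b) := (hμ _).symm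
            _ = τ (Fin.last n) a * τ (Fin.last n) b := map_mul _ _ _
            _ = (∑ i : Fin n, μ i • τ i.castSucc a) * τ (Fin.last n) b := by rw [← hμ]
            _ = ∑ i : Fin n, τ i.castSucc a * (μ i • τ (Fin.last n) b) := by
                rw [Finset.sum_mul]
                refine Finset.sum_congr rfl fun i _ => ?_
                rw [smul_mul_assoc, mul_smul_comm]
        simp only [AlgEquiv.toLinearMap_apply, smul_sub, mul_sub, Finset.sum_sub_distrib]
        rw [h1, sub_self]
      -- some `μ_i ≠ 0`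
      have hex : ∃ i, μ i ≠ 0 := by
        by_contra hcon
        simp only [not_exists, ne_eq, not_not] at hcon
        have h1 := hμ 1
        simp only [hcon, zero_smul, Finset.sum_const_zero, map_one] at h1
        exact one_ne_zero h1
      obtain ⟨i, hi⟩ := hex
      have heq : τ i.castSucc = τ (Fin.last n) := by
        ext b
        have := hb b i
        rw [smul_eq_zero] at this
        rcases this with h | h
        · exact absurd h hi
        · exact sub_eq_zero.1 h
      exact (Fin.castSucc_lt_last i).ne (hτ heq)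
    have hinj : Function.Injective fun i : Fin n => τ i.castSucc :=
      fun a b h => Fin.castSucc_injective n (hτ h)
    have h1 := ih (fun i => τ i.castSucc) hinj (fun s h a => hH _ h a) (fun i => g i.castSucc)
      (fun a => by
        have h1 := hg a
        rw [Fin.sum_univ_castSucc, hlast, zero_smul, add_zero] at h1
        exact h1)
    intro s
    refine Fin.lastCases hlast (fun i => h1 i) s

end

end IDAM

theorem specIDA (hCOP : CO.SpecCOP.{u, v, w}) : SpecIDA.{u, v, w} := by
  intro k H Z Q _ _ _ _ _ _ _ _ _ ι AA P _ _ _ _ _ _ ρ ψ θ hI hC n τ hτ hH c hc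
  have hpre : CPre k Z ι ρ ψ :=
    ⟨hC.finA, hC.finP, hC.rone, hC.rmul, hC.ralg, hC.psiZ, hC.psiH, hC.dim⟩
  have hcop := hCOP k H Z Q ι AA P ρ ψ hI hpre hC.span
  rcases subsingleton_or_nontrivial AA with hs | hn
  · intro s; exact Subsingleton.elim _ _
  · have hli := IDAM.lin hC.rone hC.rmul hC.ralg hcop n τ hτ hH
    exact THEM.indep hC.rone hC.rmul hC.ralg hcop (fun s => (τ s).toLinearMap)
      (fun s h a => hH s h a) (fun g hg => hli g hg) c hc

end Pool.Agent.Lib.MP_c37a72_al.NR
end
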