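import Pool.Agent.Lib.MP_c37a72_al.CO.Spec
import Pool.Agent.Lib.MP_c37a72_al.LB.Base

/-!
# MP_c37a72_al, block NR (the non-reduced case): definitions

`CPkg` gives `A = AA`, `P / Z` finite Galois, `ψ : O'' → A ⊗ P`, `θ`. Besides `P` we use a finite Galois
extension `L / Z` with homomorphisms `e : P → L` over `Z` and `e' : P → L` over `sZ` (`sZ` is the antipode
on `Z`).
-/

set_option autoImplicit false

open scoped TensorProduct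
open Coalgebra HopfAlgebra
open Pool.Agent.Lib.MP_c37a72_al.EG Pool.Agent.Lib.MP_c37a72_al.CO

namespace Pool.Agent.Lib.MP_c37a72_al.NR

universe u v w

section Defs

variable {k : Type u} {Z H Q : Type v} [Field k] [Ring H] [HopfAlgebra k H]
  [Field Z] [Algebra k Z] [DivisionRing Q] [Algebra k Q] [Algebra Z Q] [IsScalarTower k Z Q]
  {ι : H →ₐ[k] Q} {AA : Type w} {P L : Type v} [Ring AA] [Algebra k AA] [Field P] [Algebra k P]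
  [Algebra Z P] [IsScalarTower k Z P] [Field L] [Algebra k L] [Algebra Z L] [IsScalarTower k Z L]

/-- `O'' → A ⊗ C`, for `α : P → C`. -/
noncomputable def Pa {C : Type*} [CommRing C] [Algebra k C]
    (ψ : ↥(Opp k Z ι) →ₐ[k] AA ⊗[k] P) (α : P →ₐ[k] C) : ↥(Opp k Z ι) →ₐ[k] AA ⊗[k] C :=
  (Algebra.TensorProduct.map (AlgHom.id k AA) α).comp ψ

/-- `s : L → L` restricts to `γ : P → P` with `θ γ = 1`. (text: `s ∈ ker θ_x`, for `e'`: `ker θ_y`) -/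
def NX (θ : (P ≃ₐ[Z] P) → (AA ≃ₐ[k] AA)) (e : P →ₐ[k] L) (s : L ≃ₐ[Z] L) : Prop :=
  ∃ γ : P ≃ₐ[Z] P, (∀ p, s (e p) = e (γ p)) ∧ θ γ = 1

/-- `s = a b` with `a ∈ ker θ_x`, `b ∈ ker θ_y`. -/
def NP (θ : (P ≃ₐ[Z] P) → (AA ≃ₐ[k] AA)) (e e' : P →ₐ[k] L) (s : L ≃ₐ[Z] L) : Prop :=
  ∃ a b : L ≃ₐ[Z] L, s = a * b ∧ NX θ e a ∧ NX θ e' b

/-- The REDUCED case. -/
def RED (θ : (P ≃ₐ[Z] P) → (AA ≃ₐ[k] AA)) (e e' : P →ₐ[k] L) : Prop :=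
  ∀ s : L ≃ₐ[Z] L, NP θ e e' s

/-- The operator `1 ⊗ s` on `Q ⊗_Z L`. -/
noncomputable def gs (Q : Type v) [DivisionRing Q] [Algebra Z Q] (s : L ≃ₐ[Z] L) :
    Q ⊗[Z] L →ₐ[Z] Q ⊗[Z] L :=
  Algebra.TensorProduct.map (AlgHom.id Z Q) s.toAlgHom

@[simp] theorem gs_tmul (s : L ≃ₐ[Z] L) (q : Q) (l : L) :
    gs Q s (q ⊗ₜ[Z] l) = q ⊗ₜ[Z] s l := rfl

/-- `a ⊗ l ↦ f(a) (1 ⊗ l)`, `A ⊗_k L → Q ⊗_Z L`. -/
noncomputable def lf (f : AA →ₗ[k] Q ⊗[Z] L) : AA ⊗[k] L →ₗ[k] Q ⊗[Z] L :=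
  TensorProduct.lift (LinearMap.mk₂ k (fun a l => f a * ((1 : Q) ⊗ₜ[Z] l))
    (fun a a' l => by rw [map_add, add_mul])
    (fun c a l => by rw [map_smul, smul_mul_assoc])
    (fun a l l' => by rw [TensorProduct.tmul_add, mul_add])
    (fun c a l => by
      have h : (1 : Q) ⊗ₜ[Z] (c • l) = c • ((1 : Q) ⊗ₜ[Z] l) := by
        rw [TensorProduct.tmul_smul]
      rw [h, mul_smul_comm]))

@[simp] theorem lf_tmul (f : AA →ₗ[k] Q ⊗[Z] L) (a : AA) (l : L) :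
    lf f (a ⊗ₜ[k] l) = f a * ((1 : Q) ⊗ₜ[Z] l) := rfl

/-- `ax : A → Q ⊗_Z L`: the copy of `A` in `O'' ⊗_Z L`. -/
structure IsAX (ψ : ↥(Opp k Z ι) →ₐ[k] AA ⊗[k] P) (ρ : H →ₗ[k] Module.End k AA)
    (θ : (P ≃ₐ[Z] P) → (AA ≃ₐ[k] AA)) (e : P →ₐ[k] L) (ax : AA →ₗ[k] Q ⊗[Z] L) : Prop where
  one : ax 1 = 1
  mul : ∀ a b, ax (a * b) = ax a * ax b
  inj : Function.Injective (lf ax)
  psi : ∀ x : ↥(Opp k Z ι), lf ax (Pa ψ e x) = (x : Q) ⊗ₜ[Z] 1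
  gal : ∀ (s : L ≃ₐ[Z] L) (γ : P ≃ₐ[Z] P), (∀ p, s (e p) = e (γ p)) →
    ∀ a, gs Q s (ax (θ γ a)) = ax a
  act : ∀ (h : H) (a : AA), (adrQ k Z ι h).rTensor L (ax a) = ax (ρ h a)

/-- `ay : A → Q ⊗_Z L` (an anti-homomorphism): the copy of `A^op` in `O' ⊗_Z L`. -/
structure IsAY (sQ : Q →ₗ[k] Q) (ψ : ↥(Opp k Z ι) →ₐ[k] AA ⊗[k] P) (ρ : H →ₗ[k] Module.End k AA)
    (θ : (P ≃ₐ[Z] P) → (AA ≃ₐ[k] AA)) (e' : P →ₐ[k] L) (ay : AA →ₗ[k] Q ⊗[Z] L) : Prop where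
  one : ay 1 = 1
  mul : ∀ a b, ay (a * b) = ay b * ay a
  inj : Function.Injective (lf ay)
  psi : ∀ x : ↥(Opp k Z ι), lf ay (Pa ψ e' x) = sQ x ⊗ₜ[Z] 1
  gal : ∀ (s : L ≃ₐ[Z] L) (γ : P ≃ₐ[Z] P), (∀ p, s (e' p) = e' (γ p)) →
    ∀ a, gs Q s (ay (θ γ a)) = ay a
  act : ∀ (h : H) (a : AA), (adlQ k Z ι (antipode k h)).rTensor L (ay a) = ay (ρ h a)

end Defs

section Y

variable (k : Type u) (Z : Type v) {H Q : Type v} [Field k] [Ring H] [HopfAlgebra k H]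
  [Field Z] [Algebra k Z] [DivisionRing Q] [Algebra k Q] [Algebra Z Q] [IsScalarTower k Z Q]
  (ι : H →ₐ[k] Q)

/-- `Φ : Y → Q` is a finite Galois extension `Y ≠ Z` of `Z` inside `Q`, and both adjoint actions map
`Φ(Y)` to itself through `k`-combinations of Galois automorphisms. -/
structure IsYD {Y : Type v} [Field Y] [Algebra k Y] [Algebra Z Y] [IsScalarTower k Z Y]
    (Φ : Y →ₐ[Z] Q) : Prop where
  fin : Module.Finite Z Y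
  gal : IsGalois Z Y
  lt : 1 < Module.finrank Z Y
  right : ∀ h : H, ∃ (n : ℕ) (s : Fin n → (Y ≃ₐ[Z] Y)) (c : Fin n → k), ∀ y : Y,
    adrQ k Z ι h (Φ y) = ∑ i, c i • Φ (s i y)
  left : ∀ h : H, ∃ (n : ℕ) (s : Fin n → (Y ≃ₐ[Z] Y)) (c : Fin n → k), ∀ y : Y,
    adlQ k Z ι h (Φ y) = ∑ i, c i • Φ (s i y)

variable {k Z}

/-- `H_s = {h : y h = h s(y) for y ∈ Y}`. -/
noncomputable def Hs {Y : Type v} [Field Y] [Algebra Z Y] (Φ : Y →ₐ[Z] Q) (s : Y ≃ₐ[Z] Y) :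
    Submodule k H where
  carrier := {h | ∀ y, Φ y * ι h = ι h * Φ (s y)}
  add_mem' := fun {a b} ha hb y => by rw [map_add, mul_add, add_mul, ha y, hb y]
  zero_mem' := fun y => by rw [map_zero, mul_zero, zero_mul]
  smul_mem' := fun c a ha y => by rw [map_smul, mul_smul_comm, smul_mul_assoc, ha y]

theorem mem_Hs {Y : Type v} [Field Y] [Algebra Z Y] (Φ : Y →ₐ[Z] Q) (s : Y ≃ₐ[Z] Y) (h : H) :
    h ∈ Hs ι Φ s ↔ ∀ y, Φ y * ι h = ι h * Φ (s y) := Iff.rfl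

/-- `i : H1 → H` is the inclusion of the Hopf subalgebra `H_1 = C_H(Y)`. -/
structure IsH1 {Y : Type v} [Field Y] [Algebra Z Y] (Φ : Y →ₐ[Z] Q) {H1 : Type v} [Ring H1]
    [HopfAlgebra k H1] (i : H1 →ₐ[k] H) : Prop where
  inj : Function.Injective i
  range : ∀ h : H, h ∈ Hs ι Φ 1 ↔ ∃ x, i x = h
  comul : ∀ x : H1, TensorProduct.map i.toLinearMap i.toLinearMap (comul (R := k) x) =
    comul (R := k) (i x)
  counit : ∀ x : H1, counit (R := k) (i x) = counit (R := k) x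
  anti : ∀ x : H1, i (antipode k x) = antipode k (i x)

end Y

end Pool.Agent.Lib.MP_c37a72_al.NR
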