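import Pool.Agent.Lib.MP_c37a72_al.NR.Spec

/-! # CCS: a finite-dimensional Galois-stable subalgebra of `Q ⊗_Z L` -/

set_option autoImplicit false

open scoped TensorProduct
open Pool.Agent.Lib.MP_c37a72_al.EG Pool.Agent.Lib.MP_c37a72_al.CO

namespace Pool.Agent.Lib.MP_c37a72_al.NR

universe u v w

namespace CCSM

section A

variable {Z Q L : Type v} [Field Z] [DivisionRing Q] [Algebra Z Q] [Field L] [Algebra Z L]

/-- coordinates with respect to a `Z`-basis of `Q` -/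
noncomputable def E : Q ⊗[Z] L ≃ₗ[Z] (Module.Free.ChooseBasisIndex Z Q →₀ L) :=
  TensorProduct.equivFinsuppOfBasisLeft (Module.Free.chooseBasis Z Q)

theorem E_tmul (q : Q) (l : L) (i : Module.Free.ChooseBasisIndex Z Q) :
    E (q ⊗ₜ[Z] l) i = (Module.Free.chooseBasis Z Q).repr q i • l :=
  TensorProduct.equivFinsuppOfBasisLeft_apply_tmul_apply _ q l i

theorem E_gs (s : L ≃ₐ[Z] L) (c : Q ⊗[Z] L) (i : Module.Free.ChooseBasisIndex Z Q) :
    E (gs Q s c) i = s (E c i) := by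
  induction c using TensorProduct.induction_on with
  | zero => simp
  | tmul q l => rw [gs_tmul, E_tmul, E_tmul, map_smul]
  | add x y hx hy => rw [map_add, map_add, map_add, Finsupp.add_apply, Finsupp.add_apply, hx, hy, map_add]

theorem E_mulr (c : Q ⊗[Z] L) (l : L) (i : Module.Free.ChooseBasisIndex Z Q) :
    E (c * ((1 : Q) ⊗ₜ[Z] l)) i = E c i * l := by
  induction c using TensorProduct.induction_on with
  | zero => simp
  | tmul q l' =>
    rw [Algebra.TensorProduct.tmul_mul_tmul, mul_one, E_tmul, E_tmul, smul_mul_assoc]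
  | add x y hx hy => rw [add_mul, map_add, map_add, Finsupp.add_apply, Finsupp.add_apply, hx, hy, add_mul]

/-- `1 ⊗ l` is central -/
theorem comm_l (c : Q ⊗[Z] L) (l : L) : ((1 : Q) ⊗ₜ[Z] l) * c = c * ((1 : Q) ⊗ₜ[Z] l) := by
  induction c using TensorProduct.induction_on with
  | zero => simp
  | tmul q l' =>
    rw [Algebra.TensorProduct.tmul_mul_tmul, Algebra.TensorProduct.tmul_mul_tmul, mul_one, one_mul,
      mul_comm]
  | add x y hx hy => rw [add_mul, mul_add, hx, hy]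

theorem gs_mul (s t : L ≃ₐ[Z] L) (c : Q ⊗[Z] L) : gs Q s (gs Q t c) = gs Q (s * t) c := by
  induction c using TensorProduct.induction_on with
  | zero => simp
  | tmul q l' => simp
  | add x y hx hy => simp only [map_add, hx, hy]

theorem gs_one (c : Q ⊗[Z] L) : gs Q (1 : L ≃ₐ[Z] L) c = c := by
  induction c using TensorProduct.induction_on with
  | zero => simp
  | tmul q l' => simp
  | add x y hx hy => simp only [map_add, hx, hy]

theorem fixed [Module.Finite Z L] [IsGalois Z L] (c : Q ⊗[Z] L) :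
    (∀ s, gs Q s c = c) ↔ ∃ q : Q, c = q ⊗ₜ[Z] 1 := by
  constructor
  · intro h
    have h1 : ∀ i, E c i ∈ Set.range (algebraMap Z L) := by
      intro i
      rw [IsGalois.mem_range_algebraMap_iff_fixed]
      intro s
      rw [← E_gs, h s]
    choose z hz using h1
    have h2 : c = (E c).sum fun i n => (Module.Free.chooseBasis Z Q) i ⊗ₜ[Z] n := by
      rw [← TensorProduct.equivFinsuppOfBasisLeft_symm_apply]
      exact (E.symm_apply_apply c).symm
    refine ⟨(E c).sum fun i _ => z i • (Module.Free.chooseBasis Z Q) i, ?_⟩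
    conv_lhs => rw [h2]
    unfold Finsupp.sum
    rw [TensorProduct.sum_tmul]
    apply Finset.sum_congr rfl
    intro i _
    rw [← hz i, TensorProduct.smul_tmul, Algebra.smul_def, mul_one]
  · rintro ⟨q, rfl⟩ s
    rw [gs_tmul, map_one]

theorem tmul_one_inj : Function.Injective (fun q : Q => q ⊗ₜ[Z] (1 : L)) := by
  intro q q' h
  apply (Module.Free.chooseBasis Z Q).repr.injective
  ext i
  have h1 : E (q ⊗ₜ[Z] (1 : L)) i = E (q' ⊗ₜ[Z] (1 : L)) i := by
    simp only at h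
    rw [h]
  rw [E_tmul, E_tmul, ← Algebra.algebraMap_eq_smul_one, ← Algebra.algebraMap_eq_smul_one] at h1
  exact (algebraMap Z L).injective h1

end A

section B

variable {k : Type u} {Z Q L : Type v} [Field k] [Field Z] [Algebra k Z]
    [DivisionRing Q] [Algebra k Q] [Algebra Z Q] [IsScalarTower k Z Q] [Field L] [Algebra k L]
    [Algebra Z L] [IsScalarTower k Z L]

theorem inv_k [IsAlgClosed k] (C : Subalgebra k (Q ⊗[Z] L)) [Module.Finite k ↥C] (q : Q)
    (hq : q ⊗ₜ[Z] (1 : L) ∈ C) : ∃ a : k, algebraMap k (Q ⊗[Z] L) a = q ⊗ₜ[Z] 1 := by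
  let φ : Q →ₐ[k] Q ⊗[Z] L := Algebra.TensorProduct.includeLeft
  have hφ : Function.Injective φ := tmul_one_inj
  let K : Subalgebra k Q := C.comap φ
  have hint : ∀ x : K, IsIntegral k x := by
    intro x
    have h1 : IsIntegral k (⟨φ x, x.2⟩ : C) := Algebra.IsIntegral.isIntegral _
    have h2 : IsIntegral k (C.val ⟨φ x, x.2⟩) := h1.map C.val
    have h3 : IsIntegral k (φ x) := h2
    have h4 : IsIntegral k (x : Q) := (isIntegral_algHom_iff φ hφ).mp h3
    exact (isIntegral_algHom_iff K.val Subtype.val_injective).mp h4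
  have : Algebra.IsIntegral k K := ⟨hint⟩
  obtain ⟨a, ha⟩ := (IsAlgClosed.algebraMap_bijective_of_isIntegral (k := k) (K := K)).2 ⟨q, hq⟩
  refine ⟨a, ?_⟩
  have h5 : algebraMap k Q a = q := congrArg Subtype.val ha
  have h6 : φ (algebraMap k Q a) = algebraMap k (Q ⊗[Z] L) a := φ.commutes a
  rw [← h6, h5]
  rfl

/-- the automorphism of `C` induced by `gs s` -/
noncomputable def res (C : Subalgebra k (Q ⊗[Z] L)) (hC : ∀ s : L ≃ₐ[Z] L, ∀ c ∈ C, gs Q s c ∈ C)
    (s : L ≃ₐ[Z] L) : ↥C ≃+* ↥C where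
  toFun c := ⟨gs Q s c, hC s c c.2⟩
  invFun c := ⟨gs Q s⁻¹ c, hC s⁻¹ c c.2⟩
  left_inv c := by
    apply Subtype.ext
    simp only
    rw [gs_mul, inv_mul_cancel, gs_one]
  right_inv c := by
    apply Subtype.ext
    simp only
    rw [gs_mul, mul_inv_cancel, gs_one]
  map_mul' a b := by
    apply Subtype.ext
    simp
  map_add' a b := by
    apply Subtype.ext
    simp

/-- `J^n L` -/
def T (C : Subalgebra k (Q ⊗[Z] L)) (J : Ideal ↥C) (n : ℕ) : Submodule Z (Q ⊗[Z] L) :=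
  Submodule.span Z {x | ∃ y ∈ J ^ n, ∃ l : L, x = (y : Q ⊗[Z] L) * ((1 : Q) ⊗ₜ[Z] l)}

omit [Algebra k L] [IsScalarTower k Z L] in
theorem T_mul (C : Subalgebra k (Q ⊗[Z] L)) (J : Ideal ↥C) [J.IsTwoSided] (n : ℕ)
    (x y : Q ⊗[Z] L) (hx : x ∈ T C J 1) (hy : y ∈ T C J n) : x * y ∈ T C J (n + 1) := by
  have h : T C J 1 * T C J n ≤ T C J (n + 1) := by
    unfold T
    rw [Submodule.span_mul_span]
    apply Submodule.span_mono
    rintro _ ⟨a, ⟨c, hc, l, rfl⟩, b, ⟨d, hd, m, rfl⟩, rfl⟩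
    rw [Submodule.pow_one] at hc
    refine ⟨c * d, ?_, l * m, ?_⟩
    · rw [Ideal.IsTwoSided.pow_succ]
      exact Ideal.mul_mem_mul hc hd
    · have e1 : ((1 : Q) ⊗ₜ[Z] (l * m)) = ((1 : Q) ⊗ₜ[Z] l) * ((1 : Q) ⊗ₜ[Z] m) := by
        rw [Algebra.TensorProduct.tmul_mul_tmul, mul_one]
      simp only
      rw [e1, Subalgebra.coe_mul, mul_assoc (c : Q ⊗[Z] L), ← mul_assoc ((1 : Q) ⊗ₜ[Z] l) (d : Q ⊗[Z] L),
        comm_l (d : Q ⊗[Z] L) l]
      simp only [mul_assoc]
  exact h (Submodule.mul_mem_mul hx hy)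

omit [Algebra k L] [IsScalarTower k Z L] in
theorem T_pow (C : Subalgebra k (Q ⊗[Z] L)) (J : Ideal ↥C) [J.IsTwoSided]
    (x : Q ⊗[Z] L) (hx : x ∈ T C J 1) (n : ℕ) : x ^ (n + 1) ∈ T C J (n + 1) := by
  induction n with
  | zero => simpa using hx
  | succ n ih =>
    rw [_root_.pow_succ']
    exact T_mul C J (n + 1) _ _ hx ih

omit [Algebra k L] [IsScalarTower k Z L] in
theorem T_bot (C : Subalgebra k (Q ⊗[Z] L)) (J : Ideal ↥C) (n : ℕ) (h : J ^ n = ⊥) : T C J n = ⊥ := by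
  unfold T
  rw [Submodule.span_eq_bot]
  rintro x ⟨y, hy, l, rfl⟩
  rw [h, Ideal.mem_bot] at hy
  rw [hy]
  simp

theorem jac [CharZero k] [Module.Finite Z L] [IsGalois Z L] (C : Subalgebra k (Q ⊗[Z] L))
    [IsArtinianRing ↥C] (hC : ∀ s : L ≃ₐ[Z] L, ∀ c ∈ C, gs Q s c ∈ C) : Ring.jacobson ↥C = ⊥ := by
  classical
  by_contra hne
  obtain ⟨v, hv, hv0⟩ := Submodule.exists_mem_ne_zero_of_ne_bot hne
  obtain ⟨N, hN⟩ := IsSemiprimaryRing.isNilpotent (R := ↥C)
  have hv1 : (v : Q ⊗[Z] L) ≠ 0 := fun h => hv0 (Subtype.ext h)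
  have hE : E (v : Q ⊗[Z] L) ≠ 0 := fun h => hv1 (E.map_eq_zero_iff.mp h)
  obtain ⟨i, hi⟩ := Finsupp.ne_iff.mp hE
  rw [Finsupp.zero_apply] at hi
  have hCZ : CharZero L := by
    have : CharZero Z := charZero_of_injective_algebraMap (algebraMap k Z).injective
    exact charZero_of_injective_algebraMap (algebraMap Z L).injective
  obtain ⟨f, hf⟩ : ∃ f : L, f = (E (v : Q ⊗[Z] L) i)⁻¹ := ⟨_, rfl⟩
  obtain ⟨w, hw⟩ : ∃ w : Q ⊗[Z] L, w = ∑ s : L ≃ₐ[Z] L, gs Q s ((v : Q ⊗[Z] L) * ((1 : Q) ⊗ₜ[Z] f)) :=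
    ⟨_, rfl⟩
  have hwi : E w i = (Fintype.card (L ≃ₐ[Z] L) : L) := by
    rw [hw, map_sum, Finsupp.finsetSum_apply]
    have : ∀ s : L ≃ₐ[Z] L, E (gs Q s ((v : Q ⊗[Z] L) * ((1 : Q) ⊗ₜ[Z] f))) i = 1 := by
      intro s
      rw [E_gs, E_mulr, hf, mul_inv_cancel₀ hi, map_one]
    rw [Finset.sum_congr rfl (fun s _ => this s)]
    simp
  have hwfix : ∀ t : L ≃ₐ[Z] L, gs Q t w = w := by
    intro t
    rw [hw, map_sum]
    simp only [gs_mul]
    exact Fintype.sum_bijective (fun s => t * s) (Group.mulLeft_bijective t) _ _ (fun s => rfl)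
  obtain ⟨q, hq⟩ := (fixed w).mp hwfix
  have hwT : w ∈ T C (Ring.jacobson ↥C) 1 := by
    rw [hw]
    apply Submodule.sum_mem
    intro s _
    apply Submodule.subset_span
    refine ⟨res C hC s v, ?_, s f, ?_⟩
    · rw [Submodule.pow_one]
      have : RingHomSurjective (res C hC s).toRingHom := ⟨(res C hC s).surjective⟩
      exact Ring.le_comap_jacobson (f := (res C hC s).toRingHom) hv
    · rw [map_mul, gs_tmul]
      rfl
  have hwN : w ^ (N + 1) = 0 := by
    have h1 := T_pow C (Ring.jacobson ↥C) w hwT N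
    have h2 : (Ring.jacobson ↥C) ^ (N + 1) = ⊥ := by
      rw [Ideal.IsTwoSided.pow_succ, hN]
      simp
    rw [T_bot C _ _ h2] at h1
    exact (Submodule.mem_bot Z).mp h1
  have hq0 : q = 0 := by
    rw [hq, Algebra.TensorProduct.tmul_pow, one_pow] at hwN
    have h3 : q ^ (N + 1) = 0 := by
      apply tmul_one_inj (Z := Z) (L := L)
      simp only
      rw [hwN, TensorProduct.zero_tmul]
    exact pow_eq_zero_iff (Nat.succ_ne_zero N) |>.mp h3
  rw [hq, hq0, TensorProduct.zero_tmul, map_zero, Finsupp.zero_apply] at hwi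
  have : (Fintype.card (L ≃ₐ[Z] L) : L) ≠ 0 := by
    exact_mod_cast Fintype.card_ne_zero
  exact this hwi.symm

end B

end CCSM

theorem specCCS : SpecCCS.{u, v} := by
  intro k Z Q L _ _ _ _ _ _ _ _ _ _ _ _ _ _ _ C hfin hC
  refine ⟨CCSM.fixed, ?_, ?_⟩
  · intro c hc hfix
    obtain ⟨q, rfl⟩ := (CCSM.fixed c).mp hfix
    exact CCSM.inv_k C q hc
  · have : IsArtinianRing ↥C := IsArtinianRing.of_finite k ↥C
    rw [IsArtinianRing.isSemisimpleRing_iff_jacobson]
    exact CCSM.jac C hC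

end Pool.Agent.Lib.MP_c37a72_al.NR
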