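import Pool.Agent.Lib.MP_c37a72_al.NR.Spec

/-!
# MP_c37a72_al, block NR: module FXD (helper24)
-/

set_option autoImplicit false

open scoped TensorProduct

namespace Pool.Agent.Lib.MP_c37a72_al.NR

universe u v w

namespace FXDM

variable {k : Type u} {AA : Type w} [Field k] [Ring AA] [Algebra k AA]

/-- `(q, n) ↦ n (q.out)⁻¹` -/
noncomputable def ff {G : Type w} [Group G] (N : Subgroup G) (p : (G ⧸ N) × N) : G :=
  (p.2 : G) * (Quotient.out p.1)⁻¹

theorem ff_bij {G : Type w} [Group G] (N : Subgroup G) : Function.Bijective (ff N) := by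
  constructor
  · rintro ⟨q, n⟩ ⟨q', n'⟩ h
    have h1 : (n : G) * (Quotient.out q)⁻¹ = (n' : G) * (Quotient.out q')⁻¹ := h
    have h2 : Quotient.out q * (n : G)⁻¹ = Quotient.out q' * (n' : G)⁻¹ := by
      have := congrArg (fun x => x⁻¹) h1
      simpa [mul_inv_rev] using this
    have hq : ∀ (q : G ⧸ N) (n : N), ((Quotient.out q * (n : G)⁻¹ : G) : G ⧸ N) = q := by
      intro q n
      conv_rhs => rw [← QuotientGroup.out_eq' q]
      rw [QuotientGroup.eq]
      rw [mul_inv_rev, inv_inv, mul_assoc, inv_mul_cancel, mul_one]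
      exact n.2
    have h3 : q = q' := by
      rw [← hq q n, ← hq q' n', h2]
    subst h3
    have h4 : n = n' := Subtype.ext (mul_right_cancel h1)
    rw [h4]
  · intro t
    obtain ⟨h, hh⟩ := QuotientGroup.mk_out_eq_mul N t⁻¹
    refine ⟨((t⁻¹ : G), h), ?_⟩
    show (h : G) * (Quotient.out ((t⁻¹ : G) : G ⧸ N))⁻¹ = t
    rw [hh, mul_inv_rev, inv_inv, ← mul_assoc, mul_inv_cancel, one_mul]

end FXDM

open FXDM

theorem specFXD : SpecFXD.{u, w} := by
  intro k AA _ _ _ _ T N _ hNT hind hcard F hF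
  classical
  rcases Nat.eq_zero_or_pos (Module.finrank k AA) with h0 | hpos
  · rw [h0]
    exact Nat.zero_le _
  let N' : Subgroup ↥T := N.subgroupOf T
  have : Finite (↥T ⧸ N') := inferInstance
  let iR : Fintype (↥T ⧸ N') := Fintype.ofFinite _
  let iN : Fintype N' := Fintype.ofFinite _
  let e : (↥T ⧸ N') × N' ≃ ↥T := Equiv.ofBijective (ff N') (ff_bij N')
  let J0 (c : ↥T ⧸ N' → AA) : AA →ₗ[k] AA :=
    ∑ q : ↥T ⧸ N', ∑ n : N', ((n : ↥T) : AA ≃ₐ[k] AA).toLinearMap ∘ₗ
      (LinearMap.mulRight k (c q)) ∘ₗ (((Quotient.out q)⁻¹ : ↥T) : AA ≃ₐ[k] AA).toLinearMap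
  have hJ0 : ∀ c a, J0 c a = ∑ q : ↥T ⧸ N', ∑ n : N', ((n : ↥T) : AA ≃ₐ[k] AA)
      ((((Quotient.out q)⁻¹ : ↥T) : AA ≃ₐ[k] AA) a * c q) := by
    intro c a
    simp only [J0, LinearMap.sum_apply, LinearMap.comp_apply, LinearMap.mulRight_apply,
      AlgEquiv.toLinearMap_apply]
  have hJF : ∀ c a, J0 c a ∈ F := by
    intro c a
    rw [hF]
    intro m hm
    rw [hJ0, map_sum]
    refine Finset.sum_congr rfl fun q _ => ?_
    rw [map_sum]
    let m' : N' := ⟨⟨m, hNT hm⟩, hm⟩
    refine Fintype.sum_equiv (Equiv.mulLeft m') _ _ fun n => ?_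
    rfl
  let J : (↥T ⧸ N' → AA) →ₗ[k] (AA →ₗ[k] F) :=
    { toFun := fun c => (J0 c).codRestrict F (hJF c)
      map_add' := fun c d => by
        ext a
        show J0 (c + d) a = J0 c a + J0 d a
        rw [hJ0, hJ0, hJ0, ← Finset.sum_add_distrib]
        refine Finset.sum_congr rfl fun q _ => ?_
        rw [← Finset.sum_add_distrib]
        refine Finset.sum_congr rfl fun n _ => ?_
        rw [Pi.add_apply, mul_add, map_add]
      map_smul' := fun r c => by
        ext a
        show J0 (r • c) a = r • J0 c a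
        rw [hJ0, hJ0, Finset.smul_sum]
        refine Finset.sum_congr rfl fun q _ => ?_
        rw [Finset.smul_sum]
        refine Finset.sum_congr rfl fun n _ => ?_
        rw [Pi.smul_apply, mul_smul_comm, map_smul] }
  have hinj : Function.Injective J := by
    rw [injective_iff_map_eq_zero]
    intro c hc
    have h1 : ∀ a, J0 c a = 0 := by
      intro a
      have h2 : (J c a : AA) = 0 := by rw [hc]; rfl
      exact h2
    let D : (↥T ⧸ N') × N' → AA := fun p => ((p.2 : ↥T) : AA ≃ₐ[k] AA) (c p.1)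
    have h2 := hind (fun s => D (e.symm s)) (fun a => by
      rw [← e.sum_comp, ← h1 a, hJ0, Fintype.sum_prod_type]
      refine Finset.sum_congr rfl fun q _ => Finset.sum_congr rfl fun n _ => ?_
      rw [Equiv.symm_apply_apply, map_mul]
      rfl)
    funext q
    have h3 := congrFun h2 (e (q, 1))
    have h4 : D (e.symm (e (q, 1))) = 0 := h3
    rw [Equiv.symm_apply_apply] at h4
    exact h4
  have h1 := LinearMap.finrank_le_finrank_of_injective hinj
  rw [Module.finrank_pi_fintype, Finset.sum_const, Finset.card_univ, smul_eq_mul,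
    Module.finrank_linearMap] at h1
  have h2 : Fintype.card (↥T ⧸ N') ≤ Module.finrank k F := by
    rw [mul_comm] at h1
    exact Nat.le_of_mul_le_mul_left h1 hpos
  have h3 : Nat.card ↥T = Nat.card (↥T ⧸ N') * Nat.card N' := by
    rw [← Nat.card_prod]
    exact (Nat.card_congr e).symm
  have h4 : Nat.card N' = Nat.card ↥N := Nat.card_congr (Subgroup.subgroupOfEquivOfLe hNT).toEquiv
  rw [h3, h4, Nat.card_eq_fintype_card] at hcard
  calc Module.finrank k AA ≤ Fintype.card (↥T ⧸ N') * Nat.card ↥N := hcard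
    _ ≤ Module.finrank k F * Nat.card ↥N := Nat.mul_le_mul_right _ h2
    _ = Nat.card ↥N * Module.finrank k F := mul_comm _ _

end Pool.Agent.Lib.MP_c37a72_al.NR
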