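import Pool.Agent.Lib.MP_c37a72_al.NR.NDM

/-!
# MP_c37a72_al, block NR, module HX1: `H_1` as a Hopf algebra
-/

set_option autoImplicit false

open scoped TensorProduct
open Coalgebra HopfAlgebra
open Pool.Agent.Lib.MP_c37a72_al.EG Pool.Agent.Lib.MP_c37a72_al.CO

namespace Pool.Agent.Lib.MP_c37a72_al.NR

universe u v w

namespace HX1M

/-- `C_H(Y)` as a subalgebra -/
noncomputable def K {k : Type u} {Z H Q Y : Type v} [Field k] [Ring H] [HopfAlgebra k H]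
    [Field Z] [Algebra k Z] [DivisionRing Q] [Algebra k Q] [Algebra Z Q] [IsScalarTower k Z Q]
    (ι : H →ₐ[k] Q) [Field Y] [Algebra Z Y] (Φ : Y →ₐ[Z] Q) : Subalgebra k H where
  carrier := {h | h ∈ Hs ι Φ (1 : Y ≃ₐ[Z] Y)}
  add_mem' := fun {a b} ha hb => (Hs ι Φ 1).add_mem ha hb
  mul_mem' := fun {a b} ha hb y => by
    have h1 := (mem_Hs ι Φ 1 a).1 ha
    have h2 := (mem_Hs ι Φ 1 b).1 hb
    simp only [AlgEquiv.one_apply] at h1 h2 ⊢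
    rw [map_mul, ← mul_assoc, h1 y, mul_assoc, h2 y, mul_assoc]
  algebraMap_mem' := fun c y => by
    rw [AlgHom.commutes, AlgEquiv.one_apply]
    exact (Algebra.commutes c (Φ y)).symm

theorem mem_K {k : Type u} {Z H Q Y : Type v} [Field k] [Ring H] [HopfAlgebra k H]
    [Field Z] [Algebra k Z] [DivisionRing Q] [Algebra k Q] [Algebra Z Q] [IsScalarTower k Z Q]
    (ι : H →ₐ[k] Q) [Field Y] [Algebra Z Y] (Φ : Y →ₐ[Z] Q) (h : H) :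
    h ∈ K ι Φ ↔ h ∈ Hs ι Φ (1 : Y ≃ₐ[Z] Y) := Iff.rfl

end HX1M

open HX1M in
theorem specHX1 (hHSC : SpecHSC.{u, v}) (hSH1 : SpecSH1.{u, v}) (hSUB : SpecSUB.{u, v}) :
    SpecHX1.{u, v} := by
  intro k H Z Q Y _ _ _ _ _ _ _ _ _ ι _ _ _ _ Φ hQ hb hY
  obtain ⟨hS1, hS2⟩ := hSH1 k H Z Q Y ι Φ hQ hb hY
  obtain ⟨H1, iR, iH, i, hinj, hrange, hcomul, hcounit, hanti⟩ := hSUB k H (K ι Φ)
    (fun h hh => by
      obtain ⟨n, x, y, hx, hy, e⟩ := (SH1M.range_iff k _ _).1 (hHSC k H Z Q Y ι Φ hQ hY 1 h hh)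
      rw [e]
      refine ⟨∑ j, (⟨x j, hx j⟩ : K ι Φ) ⊗ₜ[k] (⟨y j, hy j⟩ : K ι Φ), ?_⟩
      rw [map_sum]
      rfl)
    (fun h hh => hS1 h hh)
  refine ⟨H1, iR, iH, i, ⟨hinj, hrange, hcomul, hcounit, hanti⟩, fun x y hxy => ?_, fun x => ?_⟩
  · apply hinj
    apply hb.1
    rw [← hanti, ← hanti, hxy]
  · obtain ⟨g, hg⟩ := hb.2 (i x)
    have h1 : antipode k g ∈ Hs ι Φ 1 := by
      rw [hg]
      exact (hrange _).2 ⟨x, rfl⟩
    obtain ⟨z, hz⟩ := (hrange g).1 (hS2 g h1)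
    refine ⟨z, hinj ?_⟩
    rw [hanti, hz, hg]

end Pool.Agent.Lib.MP_c37a72_al.NR
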