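import Pool.Agent.Lib.MP_c37a72_al.NR.Spec
import Pool.Agent.Lib.MP_c37a72_al.CO.NCX

section
/-!
# ALS: all `H_s ≠ 0`; `H ∩ Φ(Y)` is stable under the Galois group
-/
set_option autoImplicit false

open scoped TensorProduct
open Coalgebra HopfAlgebra
open Pool.Agent.Lib.MP_c37a72_al.EG Pool.Agent.Lib.MP_c37a72_al.CO

namespace Pool.Agent.Lib.MP_c37a72_al.NR

universe u v w

namespace ALSM

theorem exists_fin' {k H : Type*} [Field k] [AddCommGroup H] [Module k H] (t : H ⊗[k] H) :
    ∃ (n : ℕ) (x y : Fin n → H), t = ∑ i, x i ⊗ₜ[k] y i := by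
  obtain ⟨S, hS⟩ := TensorProduct.exists_finset t
  refine ⟨S.card, fun i => (S.equivFin.symm i).1.1, fun i => (S.equivFin.symm i).1.2, ?_⟩
  rw [hS, ← Finset.sum_coe_sort S (fun p : H × H => p.1 ⊗ₜ[k] p.2)]
  exact (Equiv.sum_comp S.equivFin.symm (fun p : S => p.1.1 ⊗ₜ[k] p.1.2)).symm

/-- DDK for sums over the Galois group. -/
theorem ddk {Z Y Q : Type v} [Field Z] [Field Y] [Algebra Z Y] [DivisionRing Q] [Algebra Z Q]
    (hDDK : SpecDDK.{v}) (Φ : Y →ₐ[Z] Q) [Fintype (Y ≃ₐ[Z] Y)] (q : (Y ≃ₐ[Z] Y) → Q)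
    (h : ∀ y, ∑ s, q s * Φ (s y) = 0) (s : Y ≃ₐ[Z] Y) : q s = 0 := by
  let e := (Fintype.equivFin (Y ≃ₐ[Z] Y)).symm
  have h1 := (hDDK Z Y Q Φ _ (fun i => e i) e.injective (fun i => q (e i))).1 (fun y => by
    rw [← h y]
    exact e.sum_comp fun s => q s * Φ (s y)) (e.symm s)
  simpa using h1

end ALSM

open ALSM in
theorem specALS (hDDK : SpecDDK.{v}) (hLMX : SpecLMX.{u, v}) (hHSM : SpecHSM.{u, v})
    (hADB : EG.SpecADB.{u, v}) : SpecALS.{u, v} := by
  classical
  intro k H Z Q Y _ _ _ _ _ _ _ _ _ ι _ _ _ _ Φ hQ hY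
  have := hY.fin
  have := hY.gal
  letI : Fintype (Y ≃ₐ[Z] Y) := Fintype.ofFinite _
  obtain ⟨hdec, -, hmul, hone⟩ := hHSM k H Z Q Y ι Φ hQ hY
  obtain ⟨lr, ll, hl⟩ := hLMX k H Z Q Y ι Φ hY
  have hι0 : ∀ {h : H}, h ≠ 0 → ι h ≠ 0 := fun {h} h0 h1 =>
    h0 (hQ.inj (by rw [h1, map_zero]))
  have h10 : (1 : H) ≠ 0 := fun h => by
    have := congrArg ι h
    rw [map_one, map_zero] at this
    exact one_ne_zero this
  -- the subgroup of all `s` with `H_s ≠ 0`
  let M : Submonoid (Y ≃ₐ[Z] Y) :=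
    { carrier := {s | ∃ h ∈ Hs ι Φ s, h ≠ 0}
      mul_mem' := by
        rintro s t ⟨a, ha, ha0⟩ ⟨b, hb, hb0⟩
        refine ⟨b * a, hmul t s b hb a ha, fun h => ?_⟩
        have h1 := congrArg ι h
        rw [map_mul, map_zero] at h1
        rcases mul_eq_zero.1 h1 with h2 | h2
        · exact hι0 hb0 h2
        · exact hι0 ha0 h2
      one_mem' := ⟨1, hone, h10⟩ }
  let S : Subgroup (Y ≃ₐ[Z] Y) :=
    { M with
      inv_mem' := by
        intro s hs
        have h1 : s⁻¹ = s ^ (orderOf s - 1) := by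
          rw [inv_eq_iff_mul_eq_one, ← pow_succ', Nat.sub_add_cancel (orderOf_pos s),
            pow_orderOf_eq_one]
        show s⁻¹ ∈ M
        rw [h1]
        exact M.pow_mem hs _ }
  have hS : ∀ s, s ∈ S ↔ ∃ h ∈ Hs ι Φ s, h ≠ 0 := fun s => Iff.rfl
  have hfix : ∀ y : Y, (∀ s ∈ S, s y = y) → ∃ z : Z, algebraMap Z Y z = y := by
    intro y hy
    have hc : ∀ h : H, Φ y * ι h = ι h * Φ y := by
      intro h
      obtain ⟨p, hp, hsum⟩ := hdec h
      rw [hsum, map_sum, Finset.mul_sum, Finset.sum_mul]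
      refine Finset.sum_congr rfl fun s _ => ?_
      by_cases h0 : p s = 0
      · rw [h0, map_zero, mul_zero, zero_mul]
      · rw [hp s y, hy s ((hS s).2 ⟨p s, hp s, h0⟩)]
    obtain ⟨z, hz⟩ := hQ.cent (Φ y) fun x => by
      obtain ⟨c, h, hc0, -, hch⟩ := hQ.frac x
      have h1 : ι c * (Φ y * x) = ι c * (x * Φ y) := by
        rw [← mul_assoc, ← hc c, mul_assoc, hch, ← mul_assoc, hch, hc h]
      exact (mul_left_cancel₀ (hι0 hc0) h1).symm
    refine ⟨z, (Φ : Y →+* Q).injective ?_⟩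
    show Φ (algebraMap Z Y z) = Φ y
    rw [Φ.commutes, hz]
  have htop : S = ⊤ := by
    have h1 : IntermediateField.fixedField S = ⊥ := by
      rw [eq_bot_iff]
      intro y hy
      obtain ⟨z, hz⟩ := hfix y fun s hs => (IntermediateField.mem_fixedField_iff S y).1 hy s hs
      exact IntermediateField.mem_bot.2 ⟨z, hz⟩
    have h2 := IntermediateField.fixingSubgroup_fixedField S
    rw [h1, IntermediateField.fixingSubgroup_bot] at h2
    exact h2.symm
  have hall : ∀ s, ∃ h ∈ Hs ι Φ s, h ≠ 0 := fun s => (hS s).1 (by rw [htop]; trivial)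
  refine ⟨hall, ?_⟩
  -- the functionals are independent
  let E : H →ₗ[k] ((Y ≃ₐ[Z] Y) → k) := LinearMap.pi lr
  have hE : LinearMap.range E = ⊤ := by
    by_contra hne
    obtain ⟨f, hf0, hf⟩ := Submodule.exists_le_ker_of_lt_top _ (lt_top_iff_ne_top.2 hne)
    apply hf0
    have hf' : ∀ h, ∑ s, f (Pi.single s 1) * lr s h = 0 := by
      intro h
      have h1 : f (E h) = 0 := hf ⟨h, rfl⟩
      rw [← h1, pi_eq_sum_univ' (E h), map_sum]
      refine Finset.sum_congr rfl fun s _ => ?_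
      rw [map_smul, smul_eq_mul, mul_comm]
      rfl
    have hzero : ∀ t, f (Pi.single t 1) = 0 := by
      intro t
      obtain ⟨h, hh, hh0⟩ := hall t
      obtain ⟨n, x, y, hxy⟩ := exists_fin' (comul (R := k) h)
      -- `P_s h`
      let Ps : (Y ≃ₐ[Z] Y) → H := fun s => ∑ i, lr s (y i) • x i
      have h1 : ∀ w : Y, ∑ s, (ι (Ps s) - (if s = t then ι h else 0)) * Φ (s w) = 0 := by
        intro w
        have h2 := ((hADB k H Z Q ι h n x y hxy (Φ w)).2).1
        rw [hh w] at h2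
        have h3 : ∑ i, ι (x i) * adrQ k Z ι (y i) (Φ w) = ∑ s, ι (Ps s) * Φ (s w) := by
          have h4 : ∀ i, ι (x i) * adrQ k Z ι (y i) (Φ w) =
              ∑ s, (lr s (y i) • ι (x i)) * Φ (s w) := by
            intro i
            rw [(hl (y i) w).1, Finset.mul_sum]
            refine Finset.sum_congr rfl fun s _ => ?_
            rw [mul_smul_comm, smul_mul_assoc]
          rw [Finset.sum_congr rfl fun i _ => h4 i, Finset.sum_comm]
          refine Finset.sum_congr rfl fun s _ => ?_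
          rw [← Finset.sum_mul, map_sum]
          congr 1
          refine Finset.sum_congr rfl fun i _ => ?_
          rw [map_smul]
        rw [h3] at h2
        have h5 : ∑ s, (if s = t then ι h else 0) * Φ (s w) = ι h * Φ (t w) := by
          rw [Finset.sum_eq_single t]
          · rw [if_pos rfl]
          · intro s _ hs
            rw [if_neg hs, zero_mul]
          · intro h; exact absurd (Finset.mem_univ _) h
        rw [Finset.sum_congr rfl fun s _ => sub_mul _ _ _, Finset.sum_sub_distrib, h5, ← h2, sub_self]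
      have h6 : ∀ s, ι (Ps s) = if s = t then ι h else 0 := fun s =>
        sub_eq_zero.1 (ddk hDDK Φ _ h1 s)
      have h7 : ∑ s, f (Pi.single s 1) • Ps s = 0 := by
        have h8 : ∀ s, f (Pi.single s 1) • Ps s =
            ∑ i, (f (Pi.single s 1) * lr s (y i)) • x i := by
          intro s
          show f (Pi.single s 1) • ∑ i, lr s (y i) • x i = _
          rw [Finset.smul_sum]
          refine Finset.sum_congr rfl fun i _ => ?_
          rw [smul_smul]
        rw [Finset.sum_congr rfl fun s _ => h8 s, Finset.sum_comm]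
        refine Finset.sum_eq_zero fun i _ => ?_
        rw [← Finset.sum_smul, hf' (y i), zero_smul]
      have h9 := congrArg ι h7
      rw [map_sum, map_zero, Finset.sum_eq_single t] at h9
      · rw [map_smul, h6 t, if_pos rfl] at h9
        exact (smul_eq_zero.1 h9).resolve_right (hι0 hh0)
      · intro s _ hs
        rw [map_smul, h6 s, if_neg hs, smul_zero]
      · intro h; exact absurd (Finset.mem_univ _) h
    ext s
    simp only [LinearMap.coe_comp, Function.comp_apply, LinearMap.coe_single, LinearMap.zero_apply]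
    exact hzero s
  intro y hy s
  obtain ⟨g, hg⟩ := hy
  have h1 : Pi.single s 1 ∈ LinearMap.range E := by rw [hE]; trivial
  obtain ⟨h, hh⟩ := h1
  have h2 : adrQ k Z ι h (Φ y) = Φ (s y) := by
    rw [(hl h y).1, Finset.sum_eq_single s]
    · have h3 : lr s h = 1 := by
        have h4 := congrFun hh s
        rw [Pi.single_eq_same] at h4
        exact h4
      rw [h3, one_smul]
    · intro t _ ht
      have h4 := congrFun hh t
      rw [Pi.single_eq_of_ne ht] at h4
      have h5 : lr t h = 0 := h4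
      rw [h5, zero_smul]
    · intro h; exact absurd (Finset.mem_univ _) h
  obtain ⟨n, a, b, hab⟩ := exists_fin' (comul (R := k) h)
  refine ⟨adRH k H h g, ?_⟩
  rw [← h2, adrQ_eq k Z ι hab, adRH_eq k H hab, map_sum, ← hg]
  refine Finset.sum_congr rfl fun i _ => ?_
  rw [map_mul, map_mul]

end Pool.Agent.Lib.MP_c37a72_al.NR
end

section
/-!
# MP_c37a72_al, block NR, module AXC: the two copies of `A` commute
-/
set_option autoImplicit false

open scoped TensorProduct
open Coalgebra HopfAlgebra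
open Pool.Agent.Lib.MP_c37a72_al.EG Pool.Agent.Lib.MP_c37a72_al.CO

namespace Pool.Agent.Lib.MP_c37a72_al.NR

universe u v w

namespace AXCM

/-- A linear map all of whose values on `m + 1` elements are dependent has finite range. -/
theorem finite_range {k V W : Type*} [Field k] [AddCommGroup V] [Module k V] [AddCommGroup W]
    [Module k W] (φ : V →ₗ[k] W) (m : ℕ)
    (h : ∀ v : Fin (m + 1) → V, ∃ c : Fin (m + 1) → k, (∃ i, c i ≠ 0) ∧ ∑ i, c i • φ (v i) = 0) :
    Module.Finite k (LinearMap.range φ) := by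
  classical
  have hr : Module.rank k (LinearMap.range φ) ≤ (m : Cardinal) := by
    refine rank_le (fun s hs => ?_)
    by_contra hcon
    push Not at hcon
    obtain ⟨t, ht, hc⟩ := Finset.exists_subset_card_eq (Nat.succ_le_of_lt hcon)
    have hli : LinearIndependent k (fun i : t => (i : LinearMap.range φ)) :=
      hs.comp (fun i : t => (⟨i.1, ht i.2⟩ : s))
        (fun i j hij => Subtype.ext (congrArg (fun z : s => z.1) hij))
    have e : Fin (m + 1) ≃ t := (Fintype.equivFinOfCardEq (by simpa using hc)).symm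
    have hli2 : LinearIndependent k (fun i : Fin (m + 1) => ((e i : t) : LinearMap.range φ)) :=
      hli.comp e e.injective
    have hv : ∀ i : Fin (m + 1), ∃ v : V, φ v = (((e i : t) : LinearMap.range φ) : W) :=
      fun i => ((e i : t) : LinearMap.range φ).2
    choose v hv using hv
    obtain ⟨c, ⟨i, hi⟩, hsum⟩ := h v
    rw [Fintype.linearIndependent_iff] at hli2
    refine hi (hli2 c ?_ i)
    apply Subtype.ext
    simp only [Submodule.coe_sum, Submodule.coe_smul, Submodule.coe_zero]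
    rw [← hsum]
    exact Finset.sum_congr rfl (fun j _ => by rw [hv j])
  exact Module.rank_lt_aleph0_iff.mp (hr.trans_lt Cardinal.natCast_lt_aleph0)

section

variable {k : Type u} {Z H Q : Type v} [Field k] [Ring H] [HopfAlgebra k H]
  [Field Z] [Algebra k Z] [DivisionRing Q] [Algebra k Q] [Algebra Z Q] [IsScalarTower k Z Q]
  {ι : H →ₐ[k] Q} {AA : Type w} {P L : Type v} [Ring AA] [Algebra k AA] [Field P] [Algebra k P]
  [Algebra Z P] [IsScalarTower k Z P] [Field L] [Algebra k L] [Algebra Z L] [IsScalarTower k Z L]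

theorem opp_le_or (hDIM : SpecDIM.{u, v}) (hQ : IsCQ k H Z Q ι)
    (hS : Function.Bijective (antipode k (A := H))) (x : Q) (hx : x ∈ Opp k Z ι) :
    x ∈ Or k Z ι := by
  have hf := finite_range ((LinearMap.applyₗ x ∘ₗ (LinearMap.restrictScalarsₗ k Z Q Q k)) ∘ₗ
    (adrQ k Z ι : H →ₗ[k] Module.End Z Q)) (Module.finrank Z ↥(Opp k Z ι)) (fun v => by
      obtain ⟨c, hc, h⟩ := hDIM k H Z Q ι hQ hS v
      exact ⟨c, hc, h x hx⟩)
  refine Algebra.subset_adjoin ?_
  show Module.Finite k (Submodule.span k (Set.range fun h : H => adrQ k Z ι h x))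
  have e : Submodule.span k (Set.range fun h : H => adrQ k Z ι h x) =
      LinearMap.range ((LinearMap.applyₗ x ∘ₗ (LinearMap.restrictScalarsₗ k Z Q Q k)) ∘ₗ
        (adrQ k Z ι : H →ₗ[k] Module.End Z Q)) := by
    rw [← Submodule.span_eq (LinearMap.range ((LinearMap.applyₗ x ∘ₗ
      (LinearMap.restrictScalarsₗ k Z Q Q k)) ∘ₗ (adrQ k Z ι : H →ₗ[k] Module.End Z Q)))]
    rfl
  rw [e]
  exact hf

theorem comm_opp_op (hDIM : SpecDIM.{u, v}) (hQ : IsCQ k H Z Q ι)
    (hS : Function.Bijective (antipode k (A := H))) (x y : Q) (hx : x ∈ Opp k Z ι)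
    (hy : y ∈ Op k Z ι) : x * y = y * x :=
  (Subalgebra.mem_centralizer_iff Z).mp hy x (opp_le_or hDIM hQ hS x hx)

theorem lf_mul (f : AA →ₗ[k] Q ⊗[Z] L) (t : AA ⊗[k] L) (l : L) :
    lf f (t * (1 ⊗ₜ[k] l)) = lf f t * ((1 : Q) ⊗ₜ[Z] l) := by
  induction t using TensorProduct.induction_on with
  | zero => rw [zero_mul, map_zero, zero_mul]
  | tmul a l' =>
    rw [Algebra.TensorProduct.tmul_mul_tmul, mul_one, lf_tmul, lf_tmul, mul_assoc,
      Algebra.TensorProduct.tmul_mul_tmul, mul_one]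
  | add a b ha hb => rw [add_mul, map_add, ha, hb, map_add, add_mul]

/-- The span of the `x ⊗ l`, `x ∈ S`. -/
def WW (k : Type u) (L : Type v) {Z Q : Type v} [Field k] [Field Z] [Algebra k Z] [DivisionRing Q]
    [Algebra k Q] [Algebra Z Q] [IsScalarTower k Z Q] [Field L] [Algebra k L] [Algebra Z L]
    [IsScalarTower k Z L] (S : Subalgebra Z Q) : Submodule k (Q ⊗[Z] L) :=
  Submodule.span k {w | ∃ x ∈ S, ∃ l : L, w = x ⊗ₜ[Z] l}

theorem mem_WW {ρ : H →ₗ[k] Module.End k AA} {ψ : ↥(Opp k Z ι) →ₐ[k] AA ⊗[k] P}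
    {θ : (P ≃ₐ[Z] P) → (AA ≃ₐ[k] AA)} (hC : CPkg k Z ι ρ ψ θ) (e : P →ₐ[k] L)
    (f : AA →ₗ[k] Q ⊗[Z] L) (S : Subalgebra Z Q) (g : ↥(Opp k Z ι) → Q) (hg : ∀ x, g x ∈ S)
    (hf : ∀ x : ↥(Opp k Z ι), lf f (Pa ψ e x) = g x ⊗ₜ[Z] 1) (a : AA) : f a ∈ WW k L S := by
  have key : ∀ t : AA ⊗[k] P, lf f (Algebra.TensorProduct.map (AlgHom.id k AA) e t) ∈
      WW k L S := by
    intro t
    have ht : t ∈ Submodule.span k {y : AA ⊗[k] P | ∃ x p, y = ψ x * (1 ⊗ₜ[k] p)} := by
      rw [hC.span]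
      exact Submodule.mem_top
    induction ht using Submodule.span_induction with
    | mem y hy =>
      obtain ⟨x, p, rfl⟩ := hy
      rw [map_mul, Algebra.TensorProduct.map_tmul, map_one, lf_mul]
      have h1 : lf f (Algebra.TensorProduct.map (AlgHom.id k AA) e (ψ x)) = g x ⊗ₜ[Z] 1 := hf x
      rw [h1, Algebra.TensorProduct.tmul_mul_tmul, mul_one, one_mul]
      exact Submodule.subset_span ⟨g x, hg x, e p, rfl⟩
    | zero =>
      rw [map_zero, map_zero]
      exact Submodule.zero_mem _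
    | add a b _ _ ha hb =>
      rw [map_add, map_add]
      exact Submodule.add_mem _ ha hb
    | smul c a _ ha =>
      rw [map_smul, map_smul]
      exact Submodule.smul_mem _ _ ha
  have h := key (a ⊗ₜ[k] 1)
  rw [Algebra.TensorProduct.map_tmul, map_one, lf_tmul] at h
  have h1 : ((1 : Q) ⊗ₜ[Z] (1 : L)) = 1 := rfl
  rw [h1, mul_one] at h
  exact h

theorem comm_WW (S T : Subalgebra Z Q) (hST : ∀ x ∈ S, ∀ y ∈ T, x * y = y * x)
    (a b : Q ⊗[Z] L) (ha : a ∈ WW k L S) (hb : b ∈ WW k L T) : a * b = b * a := by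
  unfold WW at ha hb
  induction ha using Submodule.span_induction with
  | mem y hy =>
    obtain ⟨x, hx, l, rfl⟩ := hy
    induction hb using Submodule.span_induction with
    | mem y' hy' =>
      obtain ⟨x', hx', l', rfl⟩ := hy'
      rw [Algebra.TensorProduct.tmul_mul_tmul, Algebra.TensorProduct.tmul_mul_tmul,
        hST x hx x' hx', mul_comm l l']
    | zero => rw [mul_zero, zero_mul]
    | add c d _ _ hc hd => rw [mul_add, add_mul, hc, hd]
    | smul r c _ hc => rw [mul_smul_comm, smul_mul_assoc, hc]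
  | zero => rw [mul_zero, zero_mul]
  | add c d _ _ hc hd => rw [mul_add, add_mul, hc, hd]
  | smul r c _ hc => rw [mul_smul_comm, smul_mul_assoc, hc]

end

end AXCM

open AXCM in
/-- **AXC**. The two copies of `A` commute. -/
theorem specAXC (hDIM : SpecDIM.{u, v}) (hADS : SpecADS.{u, v}) : SpecAXC.{u, v, w} := by
  intro k H Z Q _ _ _ _ _ _ _ _ _ ι AA P _ _ _ _ _ _ ρ ψ θ sQ sZ hQ hS hsQ hC L _ _ _ _ e e' ax ay
    hax hay a b
  have h1 : ax a ∈ WW k L (Opp k Z ι) :=
    mem_WW hC e ax (Opp k Z ι) (fun x => (x : Q)) (fun x => x.2) hax.psi a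
  have h2 : ay b ∈ WW k L (Op k Z ι) :=
    mem_WW hC e' ay (Op k Z ι) (fun x => sQ x)
      (fun x => ((hADS k H Z Q ι sQ sZ hQ hS hsQ).2.2.2.2.1 x).mpr x.2) hay.psi b
  exact comm_WW (Opp k Z ι) (Op k Z ι)
    (fun x hx y hy => comm_opp_op hDIM hQ hS x y hx hy) _ _ h1 h2

end Pool.Agent.Lib.MP_c37a72_al.NR
end

section
/-!
# MP_c37a72_al, block NR, module AXX: the copy of `A` in `O'' ⊗_Z L`
-/
set_option autoImplicit false

open scoped TensorProduct
open Coalgebra HopfAlgebra
open Pool.Agent.Lib.MP_c37a72_al.EG Pool.Agent.Lib.MP_c37a72_al.CO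

namespace Pool.Agent.Lib.MP_c37a72_al.NR

universe u v w

namespace AXXM

theorem central {k : Type u} {AA : Type w} {Ω : Type v} [Field k] [Ring AA] [Algebra k AA]
    [Field Ω] [Algebra k Ω] (ω : Ω) (v : AA ⊗[k] Ω) :
    (1 ⊗ₜ[k] ω) * v = v * (1 ⊗ₜ[k] ω) := by
  induction v using TensorProduct.induction_on with
  | zero => rw [mul_zero, zero_mul]
  | tmul a b => rw [Algebra.TensorProduct.tmul_mul_tmul, Algebra.TensorProduct.tmul_mul_tmul,
      one_mul, mul_one, mul_comm]
  | add a b ha hb => rw [mul_add, add_mul, ha, hb]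

variable {k : Type u} {Z H Q : Type v} [Field k] [Ring H] [HopfAlgebra k H]
  [Field Z] [Algebra k Z] [DivisionRing Q] [Algebra k Q] [Algebra Z Q] [IsScalarTower k Z Q]
  {ι : H →ₐ[k] Q} {AA : Type w} {P L : Type v} [Ring AA] [Algebra k AA] [Field P] [Algebra k P]
  [Algebra Z P] [IsScalarTower k Z P] [Field L] [Algebra k L] [Algebra Z L] [IsScalarTower k Z L]
  {ρ : H →ₗ[k] Module.End k AA} {ψ : ↥(Opp k Z ι) →ₐ[k] AA ⊗[k] P}
  {θ : (P ≃ₐ[Z] P) → (AA ≃ₐ[k] AA)}

theorem lf_right (f : AA →ₗ[k] Q ⊗[Z] L) (v : AA ⊗[k] L) (l : L) :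
    lf f (v * (1 ⊗ₜ[k] l)) = lf f v * ((1 : Q) ⊗ₜ[Z] l) := by
  induction v using TensorProduct.induction_on with
  | zero => rw [zero_mul, map_zero, zero_mul]
  | tmul a b =>
    rw [Algebra.TensorProduct.tmul_mul_tmul, mul_one, lf_tmul, lf_tmul, mul_assoc,
      Algebra.TensorProduct.tmul_mul_tmul, mul_one]
  | add a b ha hb => rw [add_mul, map_add, ha, hb, map_add, add_mul]

theorem lf_one (f : AA →ₗ[k] Q ⊗[Z] L) (a : AA) : lf f (a ⊗ₜ[k] (1 : L)) = f a := by
  rw [lf_tmul, ← Algebra.TensorProduct.one_def, mul_one]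

theorem Pa_Z (hC : CPkg k Z ι ρ ψ θ) (e : P →ₐ[k] L) (z : Z) :
    Pa ψ e (algebraMap Z ↥(Opp k Z ι) z) = 1 ⊗ₜ[k] e (algebraMap Z P z) := by
  change (Algebra.TensorProduct.map (AlgHom.id k AA) e) (ψ _) = _
  rw [hC.psiZ, Algebra.TensorProduct.map_tmul]
  rfl

theorem span_Pa (hC : CPkg k Z ι ρ ψ θ) (e : P →ₐ[k] L) :
    Submodule.span k {y : AA ⊗[k] L | ∃ x l, y = Pa ψ e x * (1 ⊗ₜ[k] l)} = ⊤ := by
  rw [eq_top_iff]
  intro v _
  induction v using TensorProduct.induction_on with
  | zero => exact Submodule.zero_mem _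
  | add a b ha hb => exact Submodule.add_mem _ (ha trivial) (hb trivial)
  | tmul a l =>
    let g : AA ⊗[k] P →ₗ[k] AA ⊗[k] L :=
      (LinearMap.mulRight k ((1 : AA) ⊗ₜ[k] l)) ∘ₗ
        (Algebra.TensorProduct.map (AlgHom.id k AA) e).toLinearMap
    have hg : ∀ v, g v = (Algebra.TensorProduct.map (AlgHom.id k AA) e) v * (1 ⊗ₜ[k] l) :=
      fun v => rfl
    have h1 : (a ⊗ₜ[k] (1 : P)) ∈ Submodule.span k
        {y : AA ⊗[k] P | ∃ x p, y = ψ x * (1 ⊗ₜ[k] p)} := by
      rw [hC.span]; trivial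
    have h2 := Submodule.mem_map_of_mem (f := g) h1
    rw [Submodule.map_span] at h2
    have h3 : g (a ⊗ₜ[k] (1 : P)) = a ⊗ₜ[k] l := by
      rw [hg, Algebra.TensorProduct.map_tmul, map_one, Algebra.TensorProduct.tmul_mul_tmul,
        mul_one, one_mul]
      rfl
    rw [h3] at h2
    refine Submodule.span_mono ?_ h2
    rintro _ ⟨_, ⟨x, p, rfl⟩, rfl⟩
    refine ⟨x, e p * l, ?_⟩
    rw [hg, map_mul, Algebra.TensorProduct.map_tmul, mul_assoc,
      Algebra.TensorProduct.tmul_mul_tmul]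
    rw [map_one, mul_one]
    rfl

theorem Pa_gal (hC : CPkg k Z ι ρ ψ θ) (e : P →ₐ[k] L) (s : L ≃ₐ[Z] L) (γ : P ≃ₐ[Z] P)
    (hs : ∀ p, s (e p) = e (γ p)) (x : ↥(Opp k Z ι)) :
    TensorProduct.map (θ γ).symm.toLinearMap
      ((s : L ≃ₐ[Z] L).toAlgHom.toLinearMap.restrictScalars k) (Pa ψ e x) = Pa ψ e x := by
  have h1 : ∀ v : AA ⊗[k] P, TensorProduct.map (θ γ).symm.toLinearMap
      ((s : L ≃ₐ[Z] L).toAlgHom.toLinearMap.restrictScalars k)
      ((Algebra.TensorProduct.map (AlgHom.id k AA) e) v) =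
      TensorProduct.map (θ γ).symm.toLinearMap e.toLinearMap
        (Algebra.TensorProduct.map (AlgHom.id k AA) (γ.toAlgHom.restrictScalars k) v) := by
    intro v
    induction v using TensorProduct.induction_on with
    | zero => simp
    | add a b ha hb => rw [map_add, map_add, map_add, map_add, ha, hb]
    | tmul a p =>
      rw [Algebra.TensorProduct.map_tmul, Algebra.TensorProduct.map_tmul, TensorProduct.map_tmul,
        TensorProduct.map_tmul]
      congr 1
      exact hs p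
  have h2 : ∀ v : AA ⊗[k] P, TensorProduct.map (θ γ).symm.toLinearMap e.toLinearMap
      (Algebra.TensorProduct.map ((θ γ).toAlgHom) (AlgHom.id k P) v) =
      (Algebra.TensorProduct.map (AlgHom.id k AA) e) v := by
    intro v
    induction v using TensorProduct.induction_on with
    | zero => simp
    | add a b ha hb => rw [map_add, map_add, map_add, ha, hb]
    | tmul a p =>
      rw [Algebra.TensorProduct.map_tmul, Algebra.TensorProduct.map_tmul, TensorProduct.map_tmul]
      congr 1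
      exact (θ γ).symm_apply_apply a
  change TensorProduct.map (θ γ).symm.toLinearMap
      ((s : L ≃ₐ[Z] L).toAlgHom.toLinearMap.restrictScalars k)
      ((Algebra.TensorProduct.map (AlgHom.id k AA) e) (ψ x)) = _
  rw [h1, hC.thP, h2]
  rfl

theorem Pa_act (hC : CPkg k Z ι ρ ψ θ) (e : P →ₐ[k] L) (h : H) (x y : ↥(Opp k Z ι))
    (hy : (y : Q) = adrQ k Z ι h x) :
    Pa ψ e y = TensorProduct.map (ρ h)
      ((1 : L ≃ₐ[Z] L).toAlgHom.toLinearMap.restrictScalars k) (Pa ψ e x) := by
  have h1 : ∀ v : AA ⊗[k] P, (Algebra.TensorProduct.map (AlgHom.id k AA) e)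
      (TensorProduct.map (ρ h) (LinearMap.id : P →ₗ[k] P) v) =
      TensorProduct.map (ρ h) ((1 : L ≃ₐ[Z] L).toAlgHom.toLinearMap.restrictScalars k)
        ((Algebra.TensorProduct.map (AlgHom.id k AA) e) v) := by
    intro v
    induction v using TensorProduct.induction_on with
    | zero => simp
    | add a b ha hb => rw [map_add, map_add, map_add, map_add, ha, hb]
    | tmul a p =>
      rw [TensorProduct.map_tmul, Algebra.TensorProduct.map_tmul, Algebra.TensorProduct.map_tmul,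
        TensorProduct.map_tmul]
      rfl
  change (Algebra.TensorProduct.map (AlgHom.id k AA) e) (ψ y) = _
  rw [hC.psiH h x y hy, h1]
  rfl

end AXXM

open AXXM in
theorem specAXX (hEMB : SpecEMB.{u, v, w}) (hOPP : EG.SpecOPP.{u, v}) : SpecAXX.{u, v, w} := by
  intro k H Z Q _ _ _ _ _ _ _ _ _ ι AA P _ _ _ _ _ _ ρ ψ θ hQ hC L _ _ _ _ _ _ e he
  have hfA := hC.finA
  have hfQ := hQ.fin
  let B : Submodule Z Q := Subalgebra.toSubmodule (Opp k Z ι)
  have hfB : Module.Finite Z ↥B := Module.Finite.of_injective B.subtype Subtype.val_injective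
  let c : ↥B ≃ₗ[Z] ↥(Opp k Z ι) := Subalgebra.toSubmoduleEquiv (Opp k Z ι)
  have hc : ∀ b : ↥B, ((c b : ↥(Opp k Z ι)) : Q) = b := fun b => rfl
  let φ : ↥B →ₗ[k] AA ⊗[k] L := (Pa ψ e).toLinearMap ∘ₗ (c.toLinearMap.restrictScalars k)
  have hφ : ∀ b, φ b = Pa ψ e (c b) := fun b => rfl
  have h1 : ∀ (z : Z) (b : ↥B), φ (z • b) = φ b * (1 ⊗ₜ[k] algebraMap Z L z) := by
    intro z b
    rw [hφ, hφ, map_smul, Algebra.smul_def, map_mul, Pa_Z hC, he, central]
  have h2 : Submodule.span k {y : AA ⊗[k] L | ∃ b l, y = φ b * (1 ⊗ₜ[k] l)} = ⊤ := by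
    rw [← span_Pa hC e]
    rfl
  have h3 : Module.finrank k AA = Module.finrank Z ↥B := by
    rw [hC.dim, c.finrank_eq]
  obtain ⟨f, hinj, hf, hfun⟩ := hEMB k Z Q L AA B φ h1 h2 h3
  have hpsi : ∀ x : ↥(Opp k Z ι), lf f (Pa ψ e x) = (x : Q) ⊗ₜ[Z] 1 := by
    intro x
    have h4 := hf (c.symm x)
    rw [hφ, c.apply_symm_apply] at h4
    exact h4
  have hlf : ∀ v w : AA ⊗[k] L, lf f (v * w) = lf f v * lf f w := by
    intro v w
    have hv : v ∈ Submodule.span k {y : AA ⊗[k] L | ∃ x l, y = Pa ψ e x * (1 ⊗ₜ[k] l)} := by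
      rw [span_Pa hC e]; trivial
    have hw : w ∈ Submodule.span k {y : AA ⊗[k] L | ∃ x l, y = Pa ψ e x * (1 ⊗ₜ[k] l)} := by
      rw [span_Pa hC e]; trivial
    induction hv using Submodule.span_induction with
    | zero => rw [zero_mul, map_zero, zero_mul]
    | add a b _ _ ha hb => rw [add_mul, map_add, ha, hb, map_add, add_mul]
    | smul r a _ ha => rw [smul_mul_assoc, map_smul, ha, map_smul, smul_mul_assoc]
    | mem v hv =>
      obtain ⟨x, l, rfl⟩ := hv
      induction hw using Submodule.span_induction with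
      | zero => rw [mul_zero, map_zero, mul_zero]
      | add a b _ _ ha hb => rw [mul_add, map_add, ha, hb, map_add, mul_add]
      | smul r a _ ha => rw [mul_smul_comm, map_smul, ha, map_smul, mul_smul_comm]
      | mem w hw =>
        obtain ⟨x', l', rfl⟩ := hw
        have h5 : Pa ψ e x * (1 ⊗ₜ[k] l) * (Pa ψ e x' * (1 ⊗ₜ[k] l')) =
            Pa ψ e (x * x') * (1 ⊗ₜ[k] (l * l')) := by
          have h6 : (1 : AA) ⊗ₜ[k] (l * l') = ((1 : AA) ⊗ₜ[k] l) * ((1 : AA) ⊗ₜ[k] l') := by
            rw [Algebra.TensorProduct.tmul_mul_tmul, one_mul]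
          rw [h6, map_mul, mul_assoc, ← mul_assoc ((1 : AA) ⊗ₜ[k] l), central l (Pa ψ e x')]
          simp only [mul_assoc]
        rw [h5, lf_right, lf_right, lf_right, hpsi, hpsi, hpsi]
        simp only [Algebra.TensorProduct.tmul_mul_tmul, mul_one, one_mul]
        rfl
  refine ⟨f, ?_, ?_, hinj, hpsi, ?_, ?_⟩
  · have h4 := hpsi 1
    rw [map_one, Algebra.TensorProduct.one_def, lf_one] at h4
    exact h4
  · intro a b
    rw [← lf_one f (a * b), ← lf_one f a, ← lf_one f b, ← hlf, Algebra.TensorProduct.tmul_mul_tmul,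
      mul_one]
  · intro s γ hs a
    have h4 := hfun LinearMap.id (θ γ).symm.toLinearMap s (by
      intro b
      refine ⟨b, rfl, ?_⟩
      rw [hφ]
      exact (Pa_gal hC e s γ hs (c b)).symm) (θ γ a)
    have h5 : (θ γ).symm.toLinearMap (θ γ a) = a := (θ γ).symm_apply_apply a
    rw [h5] at h4
    exact h4
  · intro h a
    have h4 := hfun (adrQ k Z ι h) (ρ h) 1 (by
      intro b
      have h6 : adrQ k Z ι h (b : Q) ∈ Opp k Z ι := (hOPP k H Z Q ι hQ).1 h _ b.2
      refine ⟨⟨adrQ k Z ι h (b : Q), h6⟩, rfl, ?_⟩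
      rw [hφ, hφ]
      exact Pa_act hC e h (c b) _ rfl) a
    exact h4

end Pool.Agent.Lib.MP_c37a72_al.NR
end

section
/-!
# MP_c37a72_al, block NR, module AYY: the copy of `A^op` in `O' ⊗_Z L`
-/
set_option autoImplicit false

open scoped TensorProduct
open Coalgebra HopfAlgebra
open Pool.Agent.Lib.MP_c37a72_al.EG Pool.Agent.Lib.MP_c37a72_al.CO

namespace Pool.Agent.Lib.MP_c37a72_al.NR

universe u v w

open AXXM in
theorem specAYY (hEMB : SpecEMB.{u, v, w}) (hOPP : EG.SpecOPP.{u, v})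
    (hADS : CO.SpecADS.{u, v}) : SpecAYY.{u, v, w} := by
  intro k H Z Q _ _ _ _ _ _ _ _ _ ι AA P _ _ _ _ _ _ ρ ψ θ sQ sZ hQ hS hsQ hC L _ _ _ _ _ _ e he
  have hfA := hC.finA
  have hfQ := hQ.fin
  obtain ⟨hadr, -, -, -, hOp, -⟩ := hADS k H Z Q ι sQ sZ hQ hS hsQ
  let B : Submodule Z Q := Subalgebra.toSubmodule (Op k Z ι)
  have hfB : Module.Finite Z ↥B := Module.Finite.of_injective B.subtype Subtype.val_injective
  let E : Q ≃ₗ[k] Q := LinearEquiv.ofBijective sQ hsQ.bij
  have hE : ∀ q, E q = sQ q := fun q => rfl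
  have hEs : ∀ b ∈ B, E.symm b ∈ Opp k Z ι := by
    intro b hb
    rw [← hOp, ← hE, E.apply_symm_apply]
    exact hb
  let c : ↥B →ₗ[k] ↥(Opp k Z ι) :=
    { toFun := fun b => ⟨E.symm (b : Q), hEs b b.2⟩
      map_add' := fun a b => Subtype.ext (E.symm.map_add (a : Q) b)
      map_smul' := fun r a => Subtype.ext (E.symm.map_smul r (a : Q)) }
  have hc : ∀ b : ↥B, sQ ((c b : ↥(Opp k Z ι)) : Q) = b := fun b => E.apply_symm_apply (b : Q)
  let d : ↥(Opp k Z ι) → ↥B := fun x => ⟨sQ (x : Q), (hOp x).2 x.2⟩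
  have hcd : ∀ x, c (d x) = x := fun x => Subtype.ext (E.symm_apply_apply (x : Q))
  have hdc : ∀ b, d (c b) = b := fun b => Subtype.ext (hc b)
  let φ : ↥B →ₗ[k] AA ⊗[k] L := (Pa ψ e).toLinearMap ∘ₗ c
  have hφ : ∀ b, φ b = Pa ψ e (c b) := fun b => rfl
  have hφd : ∀ x, φ (d x) = Pa ψ e x := fun x => by rw [hφ, hcd]
  have hcz : ∀ (z : Z) (b : ↥B), c (z • b) = (sZ.symm z) • c b := by
    intro z b
    apply Subtype.ext
    apply E.injective
    change sQ ((c (z • b) : ↥(Opp k Z ι)) : Q) = sQ ((sZ.symm z) • ((c b : ↥(Opp k Z ι)) : Q))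
    rw [hc, Algebra.smul_def, hsQ.mul, hc, hsQ.zz, AlgEquiv.apply_symm_apply, ← Algebra.commutes,
      ← Algebra.smul_def]
    rfl
  have h1 : ∀ (z : Z) (b : ↥B), φ (z • b) = φ b * (1 ⊗ₜ[k] algebraMap Z L z) := by
    intro z b
    rw [hφ, hφ, hcz, Algebra.smul_def, map_mul, Pa_Z hC, he, central, AlgEquiv.apply_symm_apply]
  have h2 : Submodule.span k {y : AA ⊗[k] L | ∃ b l, y = φ b * (1 ⊗ₜ[k] l)} = ⊤ := by
    rw [← span_Pa hC e]
    congr 1
    ext y
    constructor
    · rintro ⟨b, l, rfl⟩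
      exact ⟨c b, l, rfl⟩
    · rintro ⟨x, l, rfl⟩
      refine ⟨d x, l, ?_⟩
      rw [hφd]
  have h3 : Module.finrank k AA = Module.finrank Z ↥B := by
    rw [hC.dim]
    let j : ↥B ≃+ ↥(Opp k Z ι) :=
      { toFun := c, invFun := d, left_inv := hdc, right_inv := hcd, map_add' := c.map_add }
    refine congrArg Cardinal.toNat ?_
    exact (rank_eq_of_equiv_equiv (fun z : Z => sZ.symm z) j sZ.symm.bijective
      (fun z b => hcz z b)).symm
  obtain ⟨f, hinj, hf, hfun⟩ := hEMB k Z Q L AA B φ h1 h2 h3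
  have hpsi : ∀ x : ↥(Opp k Z ι), lf f (Pa ψ e x) = sQ (x : Q) ⊗ₜ[Z] 1 := by
    intro x
    have h4 := hf (d x)
    rw [hφd] at h4
    exact h4
  have hlf : ∀ v w : AA ⊗[k] L, lf f (v * w) = lf f w * lf f v := by
    intro v w
    have hv : v ∈ Submodule.span k {y : AA ⊗[k] L | ∃ x l, y = Pa ψ e x * (1 ⊗ₜ[k] l)} := by
      rw [span_Pa hC e]; trivial
    have hw : w ∈ Submodule.span k {y : AA ⊗[k] L | ∃ x l, y = Pa ψ e x * (1 ⊗ₜ[k] l)} := by
      rw [span_Pa hC e]; trivial
    induction hv using Submodule.span_induction with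
    | zero => rw [zero_mul, map_zero, mul_zero]
    | add a b _ _ ha hb => rw [add_mul, map_add, ha, hb, map_add, mul_add]
    | smul r a _ ha => rw [smul_mul_assoc, map_smul, ha, map_smul, mul_smul_comm]
    | mem v hv =>
      obtain ⟨x, l, rfl⟩ := hv
      induction hw using Submodule.span_induction with
      | zero => rw [mul_zero, map_zero, zero_mul]
      | add a b _ _ ha hb => rw [mul_add, map_add, ha, hb, map_add, add_mul]
      | smul r a _ ha => rw [mul_smul_comm, map_smul, ha, map_smul, smul_mul_assoc]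
      | mem w hw =>
        obtain ⟨x', l', rfl⟩ := hw
        have h5 : Pa ψ e x * (1 ⊗ₜ[k] l) * (Pa ψ e x' * (1 ⊗ₜ[k] l')) =
            Pa ψ e (x * x') * (1 ⊗ₜ[k] (l * l')) := by
          have h6 : (1 : AA) ⊗ₜ[k] (l * l') = ((1 : AA) ⊗ₜ[k] l) * ((1 : AA) ⊗ₜ[k] l') := by
            rw [Algebra.TensorProduct.tmul_mul_tmul, one_mul]
          rw [h6, map_mul, mul_assoc, ← mul_assoc ((1 : AA) ⊗ₜ[k] l), central l (Pa ψ e x')]
          simp only [mul_assoc]
        have h7 : sQ (((x * x' : ↥(Opp k Z ι))) : Q) = sQ (x' : Q) * sQ (x : Q) := hsQ.mul _ _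
        rw [h5, lf_right, lf_right, lf_right, hpsi, hpsi, hpsi, h7]
        simp only [Algebra.TensorProduct.tmul_mul_tmul, mul_one, one_mul]
        rw [mul_comm l l']
  refine ⟨f, ?_, ?_, hinj, hpsi, ?_, ?_⟩
  · have h4 := hpsi 1
    have h5 : sQ (((1 : ↥(Opp k Z ι))) : Q) = 1 := by
      have h6 := hsQ.zz 1
      rw [map_one (algebraMap Z Q), map_one sZ, map_one (algebraMap Z Q)] at h6
      exact h6
    rw [map_one, Algebra.TensorProduct.one_def, lf_one, h5] at h4
    exact h4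
  · intro a b
    rw [← lf_one f (a * b), ← lf_one f a, ← lf_one f b, ← hlf, Algebra.TensorProduct.tmul_mul_tmul,
      mul_one]
  · intro s γ hs a
    have h4 := hfun LinearMap.id (θ γ).symm.toLinearMap s (by
      intro b
      refine ⟨b, rfl, ?_⟩
      rw [hφ]
      exact (Pa_gal hC e s γ hs (c b)).symm) (θ γ a)
    have h5 : (θ γ).symm.toLinearMap (θ γ a) = a := (θ γ).symm_apply_apply a
    rw [h5] at h4
    exact h4
  · intro h a
    have h4 := hfun (adlQ k Z ι (antipode k h)) (ρ h) 1 (by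
      intro b
      have h6 : adrQ k Z ι h ((c b : ↥(Opp k Z ι)) : Q) ∈ Opp k Z ι :=
        (hOPP k H Z Q ι hQ).1 h _ (c b).2
      refine ⟨d ⟨_, h6⟩, ?_, ?_⟩
      · change sQ (adrQ k Z ι h ((c b : ↥(Opp k Z ι)) : Q)) = _
        rw [hadr, hc]
      · rw [hφd, hφ]
        exact Pa_act hC e h (c b) _ rfl) a
    exact h4

end Pool.Agent.Lib.MP_c37a72_al.NR
end

section
/-!
# MP_c37a72_al, block NR, module CCB: two commuting subalgebras which are large enough
-/
set_option autoImplicit false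

open scoped TensorProduct
open Coalgebra HopfAlgebra
open Pool.Agent.Lib.MP_c37a72_al.EG Pool.Agent.Lib.MP_c37a72_al.CO

namespace Pool.Agent.Lib.MP_c37a72_al.NR

universe u v w

namespace CCBM

/-- a homomorphism to `k`. -/
theorem exists_char {k B : Type*} [Field k] [IsAlgClosed k] [Ring B] [Algebra k B]
    [Module.Finite k B] [Nontrivial B] (hc : ∀ a b : B, a * b = b * a) : Nonempty (B →ₐ[k] k) := by
  let _ : CommRing B := { (inferInstance : Ring B) with mul_comm := hc }
  obtain ⟨m, hm⟩ := Ideal.exists_maximal B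
  let _ : Field (B ⧸ m) := Ideal.Quotient.field m
  have : Module.Finite k (B ⧸ m) := Module.Finite.of_surjective (Ideal.Quotient.mkₐ k m).toLinearMap
    (Ideal.Quotient.mkₐ_surjective k m)
  have : Algebra.IsAlgebraic k (B ⧸ m) := Algebra.IsAlgebraic.of_finite k (B ⧸ m)
  exact ⟨(IsAlgClosed.lift : (B ⧸ m) →ₐ[k] k).comp (Ideal.Quotient.mkₐ k m)⟩

/-- abstract version. -/
theorem main {k B G : Type*} [Field k] [IsAlgClosed k] [CharZero k] [Ring B] [Algebra k B]
    [Module.Finite k B] [Nontrivial B] (hc : ∀ a b : B, a * b = b * a) [Group G] [Fintype G]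
    (N : Subgroup G) (α : G → (B →ₐ[k] B))
    (hm : ∀ s t b, α (s * t) b = α s (α t b)) (hN : ∀ n ∈ N, ∀ b, α n b = b)
    (hJ : ∀ J : Submodule k B, (∀ c x, x ∈ J → c * x ∈ J) → (∀ s x, x ∈ J → α s x ∈ J) →
      J = ⊥ ∨ (1 : B) ∈ J)
    (hdim : Nat.card G ≤ Nat.card ↥N * Module.finrank k B) :
    ∃ ε : B, ε * ε = ε ∧ (∀ s ∈ N, α s ε = ε) ∧ (∀ s, s ∉ N → ε * α s ε = 0) ∧
      (∑ s, α s ε = (Nat.card ↥N : B)) ∧ ∀ b, ∃ c : G → k, b = ∑ s, c s • α s ε := by
  classical
  obtain ⟨χ⟩ := exists_char (k := k) hc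
  -- the points separate
  have hsep0 : ∀ b : B, (∀ s, χ (α s b) = 0) → b = 0 := by
    let J : Submodule k B := ⨅ s, LinearMap.ker (χ.toLinearMap ∘ₗ (α s).toLinearMap)
    have hmem : ∀ b, b ∈ J ↔ ∀ s, χ (α s b) = 0 := by
      intro b
      simp only [J, Submodule.mem_iInf, LinearMap.mem_ker]
      rfl
    have h2 := hJ J
      (fun c x hx => (hmem _).2 fun s => by rw [map_mul, map_mul, (hmem x).1 hx s, mul_zero])
      (fun s x hx => (hmem _).2 fun t => by rw [← hm]; exact (hmem x).1 hx _)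
    rcases h2 with h2 | h2
    · intro b hb
      have h3 := (hmem b).2 hb
      rw [h2] at h3
      exact (Submodule.mem_bot k).1 h3
    · exfalso
      have h3 := (hmem 1).1 h2 1
      rw [map_one, map_one] at h3
      exact one_ne_zero h3
  have hsep : ∀ b b' : B, (∀ s, χ (α s b) = χ (α s b')) → b = b' := by
    intro b b' h
    rw [← sub_eq_zero]
    apply hsep0
    intro s
    rw [map_sub, map_sub, h, sub_self]
  have hright : ∀ s, ∀ n ∈ N, ∀ b, α (s * n) b = α s b := fun s n hn b => by rw [hm, hN n hn]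
  have hleft : ∀ s, ∀ n ∈ N, ∀ b, α (n * s) b = α s b := fun s n hn b => by rw [hm, hN n hn]
  -- the map to functions on `G / N`
  let Ψ : B →ₗ[k] (G ⧸ N → k) := LinearMap.pi fun q => χ.toLinearMap ∘ₗ (α q.out).toLinearMap
  have hΨ : ∀ b (s : G), Ψ b (QuotientGroup.mk s) = χ (α s b) := by
    intro b s
    show χ (α (QuotientGroup.mk s : G ⧸ N).out b) = χ (α s b)
    obtain ⟨n, hn⟩ := QuotientGroup.mk_out_eq_mul N s
    rw [hn, hright s n n.2]
  have hinj : Function.Injective Ψ := by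
    intro b b' h
    apply hsep
    intro s
    rw [← hΨ, ← hΨ, h]
  have hcard : Nat.card G = Nat.card (G ⧸ N) * Nat.card ↥N := Subgroup.card_eq_card_quotient_mul_card_subgroup N
  have hNpos : 0 < Nat.card ↥N := Nat.card_pos
  have hfr : Module.finrank k (G ⧸ N → k) = Nat.card (G ⧸ N) := by
    rw [Module.finrank_fintype_fun_eq_card, Nat.card_eq_fintype_card]
  have hle : Module.finrank k B ≤ Module.finrank k (G ⧸ N → k) :=
    LinearMap.finrank_le_finrank_of_injective hinj
  have hge : Module.finrank k (G ⧸ N → k) ≤ Module.finrank k B := by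
    rw [hfr]
    rw [hcard, mul_comm] at hdim
    exact Nat.le_of_mul_le_mul_left hdim hNpos
  have hsurj : Function.Surjective Ψ :=
    (LinearMap.injective_iff_surjective_of_finrank_eq_finrank (le_antisymm hle hge)).1 hinj
  obtain ⟨ε, hε⟩ := hsurj (Pi.single (QuotientGroup.mk 1) 1)
  have hεs : ∀ s, χ (α s ε) = if s ∈ N then 1 else 0 := by
    intro s
    rw [← hΨ, hε]
    by_cases hs : s ∈ N
    · have h2 : (QuotientGroup.mk s : G ⧸ N) = QuotientGroup.mk 1 := by
        rw [eq_comm, QuotientGroup.eq]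
        simpa using hs
      rw [if_pos hs, h2, Pi.single_eq_same]
    · have h2 : (QuotientGroup.mk s : G ⧸ N) ≠ QuotientGroup.mk 1 := by
        intro h
        rw [eq_comm, QuotientGroup.eq] at h
        apply hs
        simpa using h
      rw [if_neg hs, Pi.single_eq_of_ne h2]
  have hcount : ∀ (s : G) (f : G → k), (∀ t, s * t ∈ N → f t = f s⁻¹) →
      ∑ t, f t * (if s * t ∈ N then 1 else 0) = (Nat.card ↥N : k) * f s⁻¹ := by
    intro s f hf
    rw [← Finset.sum_filter_add_sum_filter_not Finset.univ (fun t => s * t ∈ N)]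
    rw [Finset.sum_congr (g := fun _ => f s⁻¹) rfl fun t ht => by
      rw [if_pos (Finset.mem_filter.1 ht).2, mul_one, hf t (Finset.mem_filter.1 ht).2]]
    rw [Finset.sum_eq_zero (s := Finset.univ.filter fun t => ¬ s * t ∈ N) fun t ht => by
      rw [if_neg (Finset.mem_filter.1 ht).2, mul_zero], add_zero, Finset.sum_const, nsmul_eq_mul]
    congr 2
    rw [Nat.card_eq_fintype_card, Fintype.card_subtype]
    refine Finset.card_bij (fun t _ => s * t) ?_ ?_ ?_
    · intro t ht
      exact Finset.mem_filter.2 ⟨Finset.mem_univ _, (Finset.mem_filter.1 ht).2⟩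
    · intro t _ t' _ h
      exact mul_left_cancel h
    · intro n hn
      refine ⟨s⁻¹ * n, Finset.mem_filter.2 ⟨Finset.mem_univ _, ?_⟩, ?_⟩
      · rw [mul_inv_cancel_left]
        exact (Finset.mem_filter.1 hn).2
      · rw [mul_inv_cancel_left]
  refine ⟨ε, ?_, fun s hs => hN s hs ε, ?_, ?_, ?_⟩
  · apply hsep
    intro s
    rw [map_mul, map_mul, hεs]
    by_cases hs : s ∈ N
    · rw [if_pos hs, mul_one]
    · rw [if_neg hs, mul_zero]
  · intro t ht
    apply hsep0
    intro s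
    rw [map_mul, map_mul, ← hm, hεs, hεs]
    by_cases hs : s ∈ N
    · have h2 : s * t ∉ N := fun h => ht ((Subgroup.mul_mem_cancel_left N hs).1 h)
      rw [if_neg h2, mul_zero]
    · rw [if_neg hs, zero_mul]
  · apply hsep
    intro s
    rw [map_sum, map_sum, map_natCast, map_natCast]
    have h2 := hcount s (fun _ => 1) fun _ _ => rfl
    simp only [one_mul, mul_one] at h2
    rw [← h2]
    exact Finset.sum_congr rfl fun t _ => by rw [← hm, hεs]
  · intro b
    refine ⟨fun t => (Nat.card ↥N : k)⁻¹ * χ (α t⁻¹ b), ?_⟩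
    apply hsep
    intro s
    rw [map_sum, map_sum]
    have hne : (Nat.card ↥N : k) ≠ 0 := Nat.cast_ne_zero.2 hNpos.ne'
    have h2 := hcount s (fun t => (Nat.card ↥N : k)⁻¹ * χ (α t⁻¹ b)) fun t ht => by
      have h3 : t⁻¹ = (s * t)⁻¹ * s := by rw [mul_inv_rev, inv_mul_cancel_right]
      show (Nat.card ↥N : k)⁻¹ * χ (α t⁻¹ b) = (Nat.card ↥N : k)⁻¹ * χ (α s⁻¹⁻¹ b)
      rw [h3, hleft s _ (inv_mem ht), inv_inv]
    rw [mul_inv_cancel_left₀ hne, inv_inv] at h2
    rw [← h2]
    exact Finset.sum_congr rfl fun t _ => by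
      rw [map_smul, map_smul, ← hm, hεs, smul_eq_mul]

end CCBM

open CCBM

theorem specCCB (hCCM : SpecCCM.{u, v}) (hCCD : SpecCCD.{u, v}) : SpecCCB.{u, v} := by
  classical
  intro k Z Q L _ _ _ _ _ _ _ _ _ _ _ _ _ _ _ _ N _ B B' hfB hfB' hcomm hsB hsB' hNB hNB' hd hd'
  let m : ↥B ⊗[k] ↥B' →ₐ[k] Q ⊗[Z] L := Algebra.TensorProduct.lift B.val B'.val
    (fun b b' => hcomm b b.2 b' b'.2)
  have hm : ∀ b b', m (b ⊗ₜ[k] b') = (b : Q ⊗[Z] L) * (b' : Q ⊗[Z] L) := fun b b' => rfl
  let C : Subalgebra k (Q ⊗[Z] L) := m.range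
  have hBC : B ≤ C := fun b hb => ⟨⟨b, hb⟩ ⊗ₜ[k] 1, by
    show m _ = b
    rw [hm]
    exact mul_one b⟩
  have hBC' : B' ≤ C := fun b hb => ⟨1 ⊗ₜ[k] ⟨b, hb⟩, by
    show m _ = b
    rw [hm]
    exact one_mul b⟩
  have hfC : Module.Finite k ↥C := Module.Finite.of_surjective m.rangeRestrict.toLinearMap
    m.rangeRestrict_surjective
  have hsC : ∀ s : L ≃ₐ[Z] L, ∀ c ∈ C, gs Q s c ∈ C := by
    rintro s _ ⟨t, rfl⟩
    show gs Q s (m t) ∈ C
    induction t using TensorProduct.induction_on with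
    | zero =>
      rw [map_zero, map_zero]
      exact zero_mem C
    | add a b ha hb =>
      rw [map_add, map_add]
      exact add_mem ha hb
    | tmul a b =>
      rw [hm, map_mul]
      exact mul_mem (hBC (hsB s a a.2)) (hBC' (hsB' s b b.2))
  have hNC : ∀ s ∈ N, ∀ c ∈ C, gs Q s c = c := by
    rintro s hs _ ⟨t, rfl⟩
    show gs Q s (m t) = m t
    induction t using TensorProduct.induction_on with
    | zero => rw [map_zero, map_zero]
    | add a b ha hb => rw [map_add, map_add, ha, hb]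
    | tmul a b => rw [hm, map_mul, hNB s hs a a.2, hNB' s hs b b.2]
  have hdC := hCCD k Z Q L C hfC hsC N hNC
  have hNpos : 0 < Nat.card ↥N := Nat.card_pos
  have e1 : B = C := by
    apply Subalgebra.toSubmodule_injective
    refine Submodule.eq_of_le_of_finrank_le (fun x hx => hBC hx) ?_
    exact Nat.le_of_mul_le_mul_left (hdC.trans hd) hNpos
  have e2 : B' = C := by
    apply Subalgebra.toSubmodule_injective
    refine Submodule.eq_of_le_of_finrank_le (fun x hx => hBC' hx) ?_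
    exact Nat.le_of_mul_le_mul_left (hdC.trans hd') hNpos
  have e3 : B = B' := e1.trans e2.symm
  refine ⟨e3, ?_⟩
  have hcB : ∀ a b : ↥B, a * b = b * a := fun a b =>
    Subtype.ext (hcomm a a.2 b (e3 ▸ b.2))
  let α : (L ≃ₐ[Z] L) → (↥B →ₐ[k] ↥B) := fun s =>
    (((gs Q s).restrictScalars k).comp B.val).codRestrict B fun b => hsB s b b.2
  have hα : ∀ s (b : ↥B), ((α s b : ↥B) : Q ⊗[Z] L) = gs Q s b := fun s b => rfl
  have hgsm : ∀ (s t : L ≃ₐ[Z] L) (x : Q ⊗[Z] L), gs Q (s * t) x = gs Q s (gs Q t x) := by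
    intro s t x
    induction x using TensorProduct.induction_on with
    | zero => simp
    | add a b ha hb => rw [map_add, map_add, map_add, ha, hb]
    | tmul a p => rfl
  have : Nontrivial ↥B := by
    refine ⟨⟨0, 1, fun h => ?_⟩⟩
    have h2 : Module.finrank k ↥B = 0 := by
      have : Subsingleton ↥B := subsingleton_of_zero_eq_one h
      exact Module.finrank_zero_of_subsingleton
    rw [h2, mul_zero] at hd
    have h3 : 0 < Nat.card (L ≃ₐ[Z] L) := Nat.card_pos
    omega
  obtain ⟨ε, f1, f2, f3, f4, f5⟩ := main (k := k) hcB N α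
    (fun s t b => Subtype.ext (hgsm s t _)) (fun n hn b => Subtype.ext (hNB n hn b b.2))
    (fun J hJ1 hJ2 => by
      have h2 := hCCM k Z Q L B hfB hsB (J.map B.val.toLinearMap)
        (by
          rintro _ ⟨x, -, rfl⟩
          exact x.2)
        (by
          rintro c hc _ ⟨x, hx, rfl⟩
          exact ⟨⟨c, hc⟩ * x, hJ1 _ x hx, rfl⟩)
        (by
          rintro s _ ⟨x, hx, rfl⟩
          exact ⟨α s x, hJ2 s x hx, rfl⟩)
      rcases h2 with h2 | h2
      · left
        rw [eq_bot_iff]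
        intro x hx
        have h3 : B.val.toLinearMap x ∈ J.map B.val.toLinearMap := ⟨x, hx, rfl⟩
        rw [h2] at h3
        exact (Submodule.mem_bot k).2 (Subtype.ext ((Submodule.mem_bot k).1 h3))
      · right
        obtain ⟨x, hx, hx1⟩ := h2 1 (one_mem B)
        have h3 : x = 1 := Subtype.ext hx1
        rw [← h3]
        exact hx) hd
  refine ⟨ε, ε.2, congrArg Subtype.val f1, fun s hs => congrArg Subtype.val (f2 s hs),
    fun s hs => congrArg Subtype.val (f3 s hs), ?_, fun b hb => ?_⟩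
  · have h2 := congrArg (fun x : ↥B => (x : Q ⊗[Z] L)) f4
    simp only [AddSubmonoidClass.coe_finsetSum] at h2
    rw [show (fun s : L ≃ₐ[Z] L => gs Q s (ε : Q ⊗[Z] L)) =
      fun s => ((α s ε : ↥B) : Q ⊗[Z] L) from rfl, h2]
    exact map_natCast B.val _
  · obtain ⟨c, hcb⟩ := f5 ⟨b, hb⟩
    refine ⟨c, ?_⟩
    have h2 := congrArg (fun x : ↥B => (x : Q ⊗[Z] L)) hcb
    simp only [AddSubmonoidClass.coe_finsetSum] at h2
    exact h2

end Pool.Agent.Lib.MP_c37a72_al.NR
end

section
/-!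
# MP_c37a72_al, block NR, module CCD: `|N| dim C ≤ |G|` if `N` acts trivially on `C`
-/
set_option autoImplicit false

open scoped TensorProduct
open Coalgebra HopfAlgebra
open Pool.Agent.Lib.MP_c37a72_al.EG Pool.Agent.Lib.MP_c37a72_al.CO

namespace Pool.Agent.Lib.MP_c37a72_al.NR

universe u v w

namespace CCDM

/-- abstract version: `C` a finite-dimensional algebra, `G` a finite group acting by `k`-linear multiplicative
maps, without `G`-stable left ideals -/
theorem bound {k C G : Type*} [Field k] [IsAlgClosed k] [Ring C] [Nontrivial C] [Algebra k C]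
    [Module.Finite k C] [Group G] [Finite G] (g : G → C →ₗ[k] C) (hone : ∀ x, g 1 x = x)
    (hmul : ∀ s t x, g (s * t) x = g s (g t x)) (hm : ∀ s x y, g s (x * y) = g s x * g s y)
    (N : Subgroup G) (hN : ∀ s ∈ N, ∀ x, g s x = x)
    (hJ : ∀ J : Submodule k C, (∀ c, ∀ x ∈ J, c * x ∈ J) → (∀ s, ∀ x ∈ J, g s x ∈ J) → J = ⊥ ∨ J = ⊤) :
    Nat.card ↥N * Module.finrank k C ≤ Nat.card G := by
  classical
  -- the operators
  let T : C → G → Module.End k C := fun c s => (LinearMap.mulLeft k c).comp (g s)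
  have hT : ∀ c s x, T c s x = c * g s x := fun c s x => rfl
  let M : Submonoid (Module.End k C) :=
    { carrier := {f | ∃ c s, f = T c s}
      one_mem' := ⟨1, 1, by
        ext x
        rw [hT, hone, one_mul]; rfl⟩
      mul_mem' := by
        rintro _ _ ⟨c, s, rfl⟩ ⟨c', s', rfl⟩
        refine ⟨c * g s c', s * s', ?_⟩
        ext x
        show T c s (T c' s' x) = _
        rw [hT, hT, hT, hm, hmul, mul_assoc] }
  have hMtop : Submodule.span k (M : Set (Module.End k C)) = ⊤ := by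
    have h1 := CO.NCXM.burnside (Algebra.adjoin k (M : Set (Module.End k C))) (fun X hX => by
      refine hJ X (fun c x hx => ?_) (fun s x hx => ?_)
      · have h2 := hX (T c 1) (Algebra.subset_adjoin ⟨c, 1, rfl⟩) x hx
        rwa [hT, hone] at h2
      · have h2 := hX (T 1 s) (Algebra.subset_adjoin ⟨1, s, rfl⟩) x hx
        rwa [hT, one_mul] at h2)
    have h3 := Algebra.adjoin_eq_span k (M : Set (Module.End k C))
    rw [h1, Submonoid.closure_eq, Algebra.top_toSubmodule] at h3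
    exact h3.symm
  -- a small generating family
  let n := Module.finrank k C
  let b : Module.Basis (Fin n) k C := Module.finBasis k C
  have : Finite (G ⧸ N) := Quotient.finite _
  have : Fintype (G ⧸ N) := Fintype.ofFinite _
  let F : Fin n × (G ⧸ N) → Module.End k C := fun p => T (b p.1) p.2.out
  have hF : Submodule.span k (M : Set (Module.End k C)) ≤ Submodule.span k (Set.range F) := by
    rw [Submodule.span_le]
    rintro _ ⟨c, s, rfl⟩
    have h1 : ∀ x, g s x = g (Quotient.out (s : G ⧸ N)) x := by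
      intro x
      have h2 : ((Quotient.out (s : G ⧸ N))⁻¹ * s) ∈ N := by
        rw [← QuotientGroup.eq]
        exact Quotient.out_eq _
      have h3 := hmul (Quotient.out (s : G ⧸ N)) ((Quotient.out (s : G ⧸ N))⁻¹ * s) x
      rw [hN _ h2 x, mul_inv_cancel_left] at h3
      exact h3
    have h4 : T c s = ∑ i, b.repr c i • F (i, (s : G ⧸ N)) := by
      ext x
      rw [hT, LinearMap.sum_apply]
      simp only [LinearMap.smul_apply]
      have h5 : ∀ i, F (i, (s : G ⧸ N)) x = b i * g s x := by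
        intro i
        show T (b i) (Quotient.out (s : G ⧸ N)) x = _
        rw [hT, ← h1]
      rw [Finset.sum_congr rfl fun i _ => by rw [h5 i, ← smul_mul_assoc], ← Finset.sum_mul, b.sum_repr]
    show T c s ∈ Submodule.span k (Set.range F)
    rw [h4]
    exact Submodule.sum_mem _ fun i _ => Submodule.smul_mem _ _ (Submodule.subset_span ⟨_, rfl⟩)
  rw [hMtop, top_le_iff] at hF
  have h1 : Module.finrank k (Module.End k C) ≤ Fintype.card (Fin n × (G ⧸ N)) := by
    have h2 := finrank_range_le_card (R := k) F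
    rw [Set.finrank, hF, finrank_top] at h2
    exact h2
  have h2 : Module.finrank k (Module.End k C) = n * n := Module.finrank_linearMap _ _ _ _
  rw [h2, Fintype.card_prod, Fintype.card_fin] at h1
  have hn : 0 < n := Module.finrank_pos
  have h3 : n ≤ Fintype.card (G ⧸ N) := Nat.le_of_mul_le_mul_left h1 hn
  have h4 : Fintype.card (G ⧸ N) = N.index := by
    rw [Subgroup.index, Nat.card_eq_fintype_card]
  rw [h4] at h3
  calc Nat.card ↥N * n ≤ Nat.card ↥N * N.index := Nat.mul_le_mul_left _ h3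
    _ = Nat.card G := Subgroup.card_mul_index N

end CCDM

open CCDM in
/-- **CCD**. -/
theorem specCCD (hCCM : SpecCCM.{u, v}) : SpecCCD.{u, v} := by
  intro k Z Q L _ _ _ _ _ _ _ _ _ _ _ _ _ _ _ C hC hG N hN
  have hlin : ∀ (s : L ≃ₐ[Z] L) (a : k) (x : Q ⊗[Z] L), gs Q s (a • x) = a • gs Q s x := by
    intro s a x
    induction x using TensorProduct.induction_on with
    | zero => simp
    | tmul q l => rfl
    | add x y hx hy => rw [smul_add, map_add, map_add, hx, hy, smul_add]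
  have : Nontrivial ↥C := inferInstance
  let g : (L ≃ₐ[Z] L) → ↥C →ₗ[k] ↥C := fun s =>
    { toFun := fun x => ⟨gs Q s x, hG s x x.2⟩
      map_add' := fun x y => Subtype.ext (map_add (gs Q s) _ _)
      map_smul' := fun a x => Subtype.ext (hlin s a _) }
  refine bound g (fun x => Subtype.ext ?_) (fun s t x => Subtype.ext ?_) (fun s x y => Subtype.ext ?_) N
    (fun s hs x => Subtype.ext (hN s hs x x.2)) (fun J h1 h2 => ?_)
  · show gs Q 1 (x : Q ⊗[Z] L) = x
    have : gs Q (1 : L ≃ₐ[Z] L) = AlgHom.id Z (Q ⊗[Z] L) := by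
      apply Algebra.TensorProduct.ext'
      intro q l
      rfl
    rw [this]; rfl
  · show gs Q (s * t) (x : Q ⊗[Z] L) = gs Q s (gs Q t x)
    have : gs Q (s * t) = (gs Q s).comp (gs Q t) := by
      apply Algebra.TensorProduct.ext'
      intro q l
      rfl
    rw [this]; rfl
  · exact map_mul (gs Q s) _ _
  · rcases hCCM k Z Q L C hC hG (J.map C.toSubmodule.subtype) (by
      rintro _ ⟨x, _, rfl⟩
      exact x.2) (by
      rintro c hc _ ⟨x, hx, rfl⟩
      exact ⟨⟨c, hc⟩ * x, h1 _ x hx, rfl⟩) (by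
      rintro s _ ⟨x, hx, rfl⟩
      exact ⟨g s x, h2 s x hx, rfl⟩) with h | h
    · left
      rw [Submodule.eq_bot_iff]
      intro x hx
      have h3 : (x : Q ⊗[Z] L) ∈ J.map C.toSubmodule.subtype := ⟨x, hx, rfl⟩
      rw [h, Submodule.mem_bot] at h3
      exact Subtype.ext h3
    · right
      rw [Submodule.eq_top_iff']
      intro x
      obtain ⟨y, hy, he⟩ := h x x.2
      have : y = x := Subtype.ext he
      rwa [← this]

end Pool.Agent.Lib.MP_c37a72_al.NR
end

section
/-!
# MP_c37a72_al, block NR, module CCM: `C` has no Galois-stable left ideals except `0` and `C`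
-/
set_option autoImplicit false

open scoped TensorProduct

namespace Pool.Agent.Lib.MP_c37a72_al.NR

universe u v w

namespace CCMM

variable {Z Q L : Type v} [Field Z] [DivisionRing Q] [Algebra Z Q] [Field L] [Algebra Z L]

theorem gs_mul (s t : L ≃ₐ[Z] L) (x : Q ⊗[Z] L) : gs Q (s * t) x = gs Q s (gs Q t x) := by
  induction x using TensorProduct.induction_on with
  | zero => simp
  | tmul q l => simp
  | add x y hx hy => rw [map_add, map_add, map_add, hx, hy]

theorem gs_one (x : Q ⊗[Z] L) : gs Q (1 : L ≃ₐ[Z] L) x = x := by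
  induction x using TensorProduct.induction_on with
  | zero => simp
  | tmul q l => simp
  | add x y hx hy => rw [map_add, hx, hy]

/-- In a semisimple ring every left ideal has a right identity element. -/
theorem exists_unit {R : Type*} [Ring R] [IsSemisimpleRing R] (J : Submodule R R) :
    ∃ e ∈ J, ∀ x ∈ J, x * e = x := by
  obtain ⟨K, hK⟩ := exists_isCompl J
  have h1 : (1 : R) ∈ J ⊔ K := by rw [hK.sup_eq_top]; trivial
  obtain ⟨e, he, f, hf, hef⟩ := Submodule.mem_sup.1 h1
  refine ⟨e, he, fun x hx => ?_⟩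
  have h2 : x * f = x - x * e := by
    rw [eq_sub_iff_add_eq, ← mul_add, add_comm f e, hef, mul_one]
  have h3 : x * f ∈ J := by
    rw [h2]
    exact J.sub_mem hx (J.smul_mem x he)
  have h4 : x * f ∈ K := K.smul_mem x hf
  have h5 : x * f = 0 := by
    have := hK.disjoint.le_bot (Submodule.mem_inf.2 ⟨h3, h4⟩)
    exact (Submodule.mem_bot R).1 this
  rw [h5] at h2
  exact (sub_eq_zero.1 h2.symm).symm

end CCMM

theorem specCCM (hCCS : SpecCCS.{u, v}) : SpecCCM.{u, v} := by
  intro k Z Q L _ _ _ _ _ _ _ _ _ _ _ _ _ _ _ C hfin hst J hJC hCJ hGJ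
  obtain ⟨-, hinv, hss⟩ := hCCS k Z Q L C hfin hst
  classical
  letI : Fintype (L ≃ₐ[Z] L) := Fintype.ofFinite _
  let J' : Submodule ↥C ↥C :=
    { carrier := {x | (x : Q ⊗[Z] L) ∈ J}
      add_mem' := fun {a b} ha hb => J.add_mem ha hb
      zero_mem' := J.zero_mem
      smul_mem' := fun c x hx => hCJ c c.2 x hx }
  obtain ⟨e₀, he₀, hu⟩ := CCMM.exists_unit J'
  have hu' : ∀ x ∈ J, x * (e₀ : Q ⊗[Z] L) = x := fun x hx =>
    congrArg Subtype.val (hu ⟨x, hJC x hx⟩ hx)
  have he₀J : (e₀ : Q ⊗[Z] L) ∈ J := he₀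
  set e : Q ⊗[Z] L := ∑ s : L ≃ₐ[Z] L, gs Q s (e₀ : Q ⊗[Z] L) with he
  have heJ : e ∈ J := J.sum_mem fun s _ => hGJ s _ he₀J
  have hmul : ∀ x ∈ J, x * e = (Fintype.card (L ≃ₐ[Z] L) : k) • x := by
    intro x hx
    rw [he, Finset.mul_sum, Finset.sum_congr rfl (g := fun _ => x)]
    · rw [Finset.sum_const, Finset.card_univ, Nat.cast_smul_eq_nsmul]
    · intro s _
      have h1 : x = gs Q s (gs Q s⁻¹ x) := by
        rw [← CCMM.gs_mul, mul_inv_cancel, CCMM.gs_one]
      conv_lhs => rw [h1]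
      rw [← map_mul, hu' _ (hGJ s⁻¹ x hx), ← h1]
  have hfix : ∀ t : L ≃ₐ[Z] L, gs Q t e = e := by
    intro t
    rw [he, map_sum]
    simp only [← CCMM.gs_mul]
    exact Fintype.sum_equiv (Equiv.mulLeft t) _ _ fun s => rfl
  obtain ⟨a, ha⟩ := hinv e (hJC e heJ) hfix
  by_cases ha0 : a = 0
  · left
    rw [Submodule.eq_bot_iff]
    intro x hx
    have h1 := hmul x hx
    rw [← ha, ha0, map_zero, mul_zero] at h1
    rcases smul_eq_zero.1 h1.symm with h2 | h2
    · exact absurd h2 (Nat.cast_ne_zero.2 Fintype.card_ne_zero)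
    · exact h2
  · right
    intro c hc
    have h1 : (1 : Q ⊗[Z] L) ∈ J := by
      have h2 : (1 : Q ⊗[Z] L) = a⁻¹ • e := by
        rw [← ha, Algebra.algebraMap_eq_smul_one, smul_smul, inv_mul_cancel₀ ha0, one_smul]
      rw [h2]
      exact J.smul_mem _ heJ
    have h3 := hCJ c hc 1 h1
    rwa [mul_one] at h3

end Pool.Agent.Lib.MP_c37a72_al.NR
end

section
/-!
# MP_c37a72_al, block NR, module DDK: Dedekind independence over a division ring
-/
set_option autoImplicit false

namespace Pool.Agent.Lib.MP_c37a72_al.NR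

universe u v w

namespace DDKM

/-- Independence, coefficients on the left. -/
theorem left {Z Y Q : Type*} [Field Z] [Field Y] [Algebra Z Y] [DivisionRing Q] [Algebra Z Q]
    (Φ : Y →ₐ[Z] Q) : ∀ (n : ℕ) (s : Fin n → (Y ≃ₐ[Z] Y)), Function.Injective s →
    ∀ q : Fin n → Q, (∀ y, ∑ i, q i * Φ (s i y) = 0) → ∀ i, q i = 0 := by
  intro n
  induction n with
  | zero => intro s _ q _ i; exact i.elim0
  | succ n ih =>
    intro s hs q h
    have key : ∀ i : Fin n, q i.castSucc = 0 := by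
      intro i
      have hne : s i.castSucc ≠ s (Fin.last n) := fun e =>
        (Fin.castSucc_lt_last i).ne (hs e)
      obtain ⟨y', hy'⟩ : ∃ y', s i.castSucc y' ≠ s (Fin.last n) y' := by
        by_contra hcon
        exact hne (AlgEquiv.ext fun z => by_contra fun hz => hcon ⟨z, hz⟩)
      have h0 := ih (fun j => s j.castSucc)
        (fun a b hab => Fin.castSucc_injective n (hs hab))
        (fun j => q j.castSucc * (Φ (s j.castSucc y') - Φ (s (Fin.last n) y'))) (by
          intro y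
          have h1 := h (y' * y)
          have h2 := congrArg (· * Φ (s (Fin.last n) y')) (h y)
          simp only [Fin.sum_univ_castSucc, map_mul, zero_mul, add_mul, Finset.sum_mul] at h1 h2
          have h3 := congrArg₂ (· - ·) h1 h2
          simp only [sub_zero] at h3
          have hc : ∀ a b : Y, Φ a * Φ b = Φ b * Φ a := fun a b => by
            rw [← map_mul, mul_comm, map_mul]
          rw [← h3, mul_assoc (q (Fin.last n)) (Φ (s (Fin.last n) y)),
            hc (s (Fin.last n) y) (s (Fin.last n) y'), add_sub_add_right_eq_sub,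
            ← Finset.sum_sub_distrib]
          refine Finset.sum_congr rfl fun j _ => ?_
          rw [mul_assoc (q j.castSucc) (Φ (s j.castSucc y)),
            hc (s j.castSucc y) (s (Fin.last n) y'), mul_sub, sub_mul, mul_assoc, mul_assoc]) i
      rcases mul_eq_zero.1 h0 with h4 | h4
      · exact h4
      · exact absurd (Φ.toRingHom.injective (sub_eq_zero.1 h4)) hy'
    intro i
    refine Fin.lastCases ?_ key i
    have h5 := h 1
    simp only [Fin.sum_univ_castSucc, key, zero_mul, Finset.sum_const_zero, zero_add, map_one,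
      mul_one] at h5
    exact h5

/-- Independence, coefficients on the right. -/
theorem right {Z Y Q : Type*} [Field Z] [Field Y] [Algebra Z Y] [DivisionRing Q] [Algebra Z Q]
    (Φ : Y →ₐ[Z] Q) (n : ℕ) (s : Fin n → (Y ≃ₐ[Z] Y)) (hs : Function.Injective s)
    (q : Fin n → Q) (h : ∀ y, ∑ i, Φ (s i y) * q i = 0) (i : Fin n) : q i = 0 := by
  have hc : ∀ a b : Y, Commute (Φ a) (Φ b) := fun a b => by
    rw [Commute, SemiconjBy, ← map_mul, mul_comm, map_mul]
  have h0 := left (Φ.toOpposite hc) n s hs (fun j => MulOpposite.op (q j)) (by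
    intro y
    have h1 := congrArg (MulOpposite.opAddEquiv (α := Q)) (h y)
    rw [map_zero, map_sum] at h1
    rw [← h1]
    rfl) i
  exact MulOpposite.op_eq_zero_iff _ |>.1 h0

end DDKM

theorem specDDK : SpecDDK.{v} := by
  intro Z Y Q _ _ _ _ _ Φ n s hs q
  exact ⟨DDKM.left Φ n s hs q, DDKM.right Φ n s hs q⟩

end Pool.Agent.Lib.MP_c37a72_al.NR
end

section
/-!
# MP_c37a72_al, block NR: module DSC (helper60)

Descent. For `σ = ∑_γ θ(γ)⁻¹ ⊗ γ` one has `σ(ψ(x)(1 ⊗ p)) = ψ(x Tr(p))`, so `σ(A ⊗ P) ⊆ ψ(O'')`, and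
`σ(v ⊗ q) = ∑ θ(γ)⁻¹ v ⊗ γ q` is nonzero for some `q` by Dedekind's independence of characters.
-/
set_option autoImplicit false

open scoped TensorProduct
open Coalgebra HopfAlgebra
open Pool.Agent.Lib.MP_c37a72_al.EG Pool.Agent.Lib.MP_c37a72_al.CO

namespace Pool.Agent.Lib.MP_c37a72_al.NR

universe u v w

namespace DSCM

section

variable {k : Type u} {Z : Type v} [Field k] [Field Z] [Algebra k Z]
  {AA : Type w} {P : Type v} [Ring AA] [Algebra k AA] [Field P] [Algebra k P] [Algebra Z P]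
  [IsScalarTower k Z P]

/-- `θ(γ)⁻¹ ⊗ γ` -/
noncomputable def sg (θ : (P ≃ₐ[Z] P) → (AA ≃ₐ[k] AA)) (γ : P ≃ₐ[Z] P) :
    AA ⊗[k] P →ₐ[k] AA ⊗[k] P :=
  Algebra.TensorProduct.map (θ γ).symm.toAlgHom (γ.toAlgHom.restrictScalars k)

theorem sg_tmul (θ : (P ≃ₐ[Z] P) → (AA ≃ₐ[k] AA)) (γ : P ≃ₐ[Z] P) (a : AA) (p : P) :
    sg θ γ (a ⊗ₜ[k] p) = (θ γ).symm a ⊗ₜ[k] γ p := rfl

/-- `∑_γ θ(γ)⁻¹ ⊗ γ` -/
noncomputable def sig [Fintype (P ≃ₐ[Z] P)] (θ : (P ≃ₐ[Z] P) → (AA ≃ₐ[k] AA)) :
    AA ⊗[k] P →ₗ[k] AA ⊗[k] P :=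
  ∑ γ, (sg θ γ).toLinearMap

theorem sig_apply [Fintype (P ≃ₐ[Z] P)] (θ : (P ≃ₐ[Z] P) → (AA ≃ₐ[k] AA)) (w : AA ⊗[k] P) :
    sig θ w = ∑ γ, sg θ γ w := by
  simp [sig, LinearMap.sum_apply]

/-- `f ⊗ 1 : A ⊗ P → P` -/
noncomputable def Ff (P : Type v) [Field P] [Algebra k P] (f : AA →ₗ[k] k) :
    AA ⊗[k] P →ₗ[k] P :=
  (TensorProduct.lid k P).toLinearMap ∘ₗ f.rTensor P

theorem Ff_tmul (f : AA →ₗ[k] k) (a : AA) (p : P) : Ff P f (a ⊗ₜ[k] p) = f a • p := by
  simp [Ff]

end

end DSCM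

open DSCM in
theorem specDSC : SpecDSC.{u, v, w} := by
  intro k H Z Q _ _ _ _ _ _ _ _ _ ι AA P _ _ _ _ _ _ ρ ψ θ hI hC V hV hst
  have := hC.finA
  have := hC.finP
  have := hC.gal
  -- `θ(γ)⁻¹ V ⊆ V`
  have hinv : ∀ γ, ∀ v ∈ V, (θ γ).symm v ∈ V := by
    intro γ v hv
    let g : ↥V →ₗ[k] ↥V := ((θ γ).toLinearMap).restrict (hst γ)
    have hgi : Function.Injective g := by
      intro a b hab
      apply Subtype.ext
      apply (θ γ).injective
      exact congrArg Subtype.val hab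
    obtain ⟨w, hw⟩ := (LinearMap.injective_iff_surjective.1 hgi) ⟨v, hv⟩
    have h1 : θ γ (w : AA) = v := congrArg Subtype.val hw
    rw [← h1, AlgEquiv.symm_apply_apply]
    exact w.2
  -- `σ(A ⊗ P) ⊆ ψ(O'')`
  have hfix : ∀ γ x, sg θ γ (ψ x) = ψ x := by
    intro γ x
    have e1 : sg θ γ = (Algebra.TensorProduct.map (θ γ).symm.toAlgHom (AlgHom.id k P)).comp
        (Algebra.TensorProduct.map (AlgHom.id k AA) (γ.toAlgHom.restrictScalars k)) := by
      ext p <;> simp [sg]
    have e2 : (Algebra.TensorProduct.map (θ γ).symm.toAlgHom (AlgHom.id k P)).comp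
        (Algebra.TensorProduct.map ((θ γ).toAlgHom) (AlgHom.id k P)) =
        AlgHom.id k (AA ⊗[k] P) := by
      ext p <;> simp
    rw [e1, AlgHom.comp_apply, hC.thP γ x, ← AlgHom.comp_apply, e2, AlgHom.id_apply]
  have hrange : ∀ w, sig θ w ∈ LinearMap.range ψ.toLinearMap := by
    have h1 : (⊤ : Submodule k (AA ⊗[k] P)) ≤
        (LinearMap.range ψ.toLinearMap).comap (sig θ) := by
      rw [← hC.span, Submodule.span_le]
      rintro _ ⟨x, p, rfl⟩
      change sig θ (ψ x * (1 ⊗ₜ[k] p)) ∈ LinearMap.range ψ.toLinearMap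
      refine ⟨x * algebraMap Z ↥(Opp k Z ι) (Algebra.trace Z P p), ?_⟩
      rw [AlgHom.toLinearMap_apply, map_mul, hC.psiZ, trace_eq_sum_automorphisms, sig_apply,
        TensorProduct.tmul_sum, Finset.mul_sum]
      refine Finset.sum_congr rfl fun γ _ => ?_
      rw [map_mul, hfix, sg_tmul, map_one]
    exact fun w => h1 (Submodule.mem_top : w ∈ ⊤)
  -- a vector and a functional
  obtain ⟨v₀, hv₀, hne⟩ := (Submodule.ne_bot_iff V).1 hV
  have hne1 : (θ 1).symm v₀ ≠ 0 := by
    intro h; exact hne ((map_eq_zero_iff _ (θ 1).symm.injective).1 h)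
  obtain ⟨f, hf⟩ : ∃ f : AA →ₗ[k] k, f ((θ 1).symm v₀) ≠ 0 := by
    by_contra hcon
    simp only [not_exists, ne_eq, not_not] at hcon
    exact hne1 ((Module.forall_dual_apply_eq_zero_iff k _).1 hcon)
  have hex : ∃ q : P, sig θ (v₀ ⊗ₜ[k] q) ≠ 0 := by
    by_contra hcon
    simp only [not_exists, ne_eq, not_not] at hcon
    have h1 : ∀ q : P, ∑ γ : P ≃ₐ[Z] P, algebraMap k P (f ((θ γ).symm v₀)) * γ q = 0 := by
      intro q
      have h2 := congrArg (Ff P f) (hcon q)
      rw [sig_apply, map_sum, map_zero] at h2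
      rw [← h2]
      refine Finset.sum_congr rfl fun γ _ => ?_
      rw [sg_tmul, Ff_tmul, Algebra.smul_def]
    have hli := (linearIndependent_toLinearMap Z P P).comp
      (fun γ : P ≃ₐ[Z] P => (γ : P →ₐ[Z] P)) AlgEquiv.coe_toAlgHom_injective
    rw [Fintype.linearIndependent_iff] at hli
    have h3 := hli (fun γ => algebraMap k P (f ((θ γ).symm v₀))) (by
      ext q
      simpa [LinearMap.sum_apply, Algebra.smul_def] using h1 q) 1
    exact hf ((map_eq_zero_iff _ (algebraMap k P).injective).1 h3)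
  obtain ⟨q, hq⟩ := hex
  obtain ⟨x, hx⟩ := hrange (v₀ ⊗ₜ[k] q)
  refine ⟨x, ?_, ?_⟩
  · rintro rfl
    rw [map_zero] at hx
    exact hq hx.symm
  · change ψ x = _ at hx
    rw [hx, sig_apply]
    refine Submodule.sum_mem _ fun γ _ => ?_
    rw [sg_tmul]
    exact ⟨⟨(θ γ).symm v₀, hinv γ v₀ hv₀⟩ ⊗ₜ[k] γ q, by simp⟩

end Pool.Agent.Lib.MP_c37a72_al.NR
end

section
/-!
# MP_c37a72_al, block NR: module EMB (helper24)
-/
set_option autoImplicit false

open scoped TensorProduct

namespace Pool.Agent.Lib.MP_c37a72_al.NR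

universe u v w

namespace EMBM

section

variable {k : Type u} {Z Q L : Type v} {AA : Type w} [Field k] [Field Z] [Algebra k Z]
  [DivisionRing Q] [Algebra k Q] [Algebra Z Q] [IsScalarTower k Z Q] [Field L] [Algebra k L]
  [Algebra Z L] [IsScalarTower k Z L] [Ring AA] [Algebra k AA]

theorem sw_smul (u : L) (y : L ⊗[Z] Q) :
    TensorProduct.comm Z L Q (u • y) = TensorProduct.comm Z L Q y * ((1 : Q) ⊗ₜ[Z] u) := by
  induction y using TensorProduct.induction_on with
  | zero => simp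
  | add a b ha hb => rw [smul_add, map_add, map_add, ha, hb, add_mul]
  | tmul l q =>
    rw [TensorProduct.smul_tmul', TensorProduct.comm_tmul, TensorProduct.comm_tmul,
      Algebra.TensorProduct.tmul_mul_tmul, mul_one, smul_eq_mul, mul_comm]

theorem cm_mul (u : L) (y : AA ⊗[k] L) :
    TensorProduct.comm k AA L (y * ((1 : AA) ⊗ₜ[k] u)) = u • TensorProduct.comm k AA L y := by
  induction y using TensorProduct.induction_on with
  | zero => simp
  | add a b ha hb => rw [add_mul, map_add, map_add, ha, hb, smul_add]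
  | tmul a l =>
    rw [Algebra.TensorProduct.tmul_mul_tmul, TensorProduct.comm_tmul, TensorProduct.comm_tmul,
      mul_one, TensorProduct.smul_tmul', smul_eq_mul, mul_comm]

theorem lf_mul (f : AA →ₗ[k] Q ⊗[Z] L) (x : AA ⊗[k] L) (l : L) :
    lf f (x * ((1 : AA) ⊗ₜ[k] l)) = lf f x * ((1 : Q) ⊗ₜ[Z] l) := by
  induction x using TensorProduct.induction_on with
  | zero => simp
  | add a b ha hb => rw [add_mul, map_add, map_add, ha, hb, add_mul]
  | tmul a m =>
    rw [Algebra.TensorProduct.tmul_mul_tmul, mul_one, lf_tmul, lf_tmul, mul_assoc,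
      Algebra.TensorProduct.tmul_mul_tmul, one_mul]

theorem map_mul' (TA : AA →ₗ[k] AA) (s : L ≃ₐ[Z] L) (x : AA ⊗[k] L) (l : L) :
    TensorProduct.map TA ((s : L ≃ₐ[Z] L).toAlgHom.toLinearMap.restrictScalars k)
      (x * ((1 : AA) ⊗ₜ[k] l)) =
    TensorProduct.map TA ((s : L ≃ₐ[Z] L).toAlgHom.toLinearMap.restrictScalars k) x *
      ((1 : AA) ⊗ₜ[k] s l) := by
  induction x using TensorProduct.induction_on with
  | zero => simp
  | add a b ha hb => rw [add_mul, map_add, map_add, ha, hb, add_mul]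
  | tmul a m =>
    rw [Algebra.TensorProduct.tmul_mul_tmul, mul_one, TensorProduct.map_tmul,
      TensorProduct.map_tmul, Algebra.TensorProduct.tmul_mul_tmul, mul_one]
    congr 1
    exact map_mul s m l

end

end EMBM

open EMBM

theorem specEMB : SpecEMB.{u, v, w} := by
  intro k Z Q L AA _ _ _ _ _ _ _ _ _ _ _ _ _ _ B _ φ hφ hspan hdim
  classical
  let φ' : ↥B →ₗ[Z] L ⊗[k] AA :=
    { toFun := fun b => TensorProduct.comm k AA L (φ b)
      map_add' := fun b c => by rw [map_add, map_add]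
      map_smul' := fun z b => by
        rw [hφ, cm_mul, RingHom.id_apply, algebraMap_smul] }
  let G : L ⊗[Z] ↥B →ₗ[L] L ⊗[k] AA := LinearMap.liftBaseChange L φ'
  have hG : ∀ l b, G (l ⊗ₜ b) = l • TensorProduct.comm k AA L (φ b) := fun l b =>
    LinearMap.liftBaseChange_tmul L φ' l b
  have hsurj : Function.Surjective G := by
    intro y
    have h1 : ∀ x : AA ⊗[k] L, ∃ z, G z = TensorProduct.comm k AA L x := by
      intro x
      have hx : x ∈ Submodule.span k {y : AA ⊗[k] L | ∃ b l, y = φ b * (1 ⊗ₜ[k] l)} := by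
        rw [hspan]; trivial
      induction hx using Submodule.span_induction with
      | mem x hx =>
        obtain ⟨b, l, rfl⟩ := hx
        exact ⟨l ⊗ₜ b, by rw [hG, cm_mul]⟩
      | zero => exact ⟨0, by rw [map_zero, map_zero]⟩
      | add x y _ _ hx hy =>
        obtain ⟨z, hz⟩ := hx
        obtain ⟨z', hz'⟩ := hy
        exact ⟨z + z', by rw [map_add, map_add, hz, hz']⟩
      | smul c x _ hx =>
        obtain ⟨z, hz⟩ := hx
        refine ⟨algebraMap k L c • z, ?_⟩
        rw [map_smul, hz, map_smul, algebraMap_smul]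
    obtain ⟨z, hz⟩ := h1 ((TensorProduct.comm k AA L).symm y)
    exact ⟨z, by rw [hz, LinearEquiv.apply_symm_apply]⟩
  have hfr : Module.finrank L (L ⊗[Z] ↥B) = Module.finrank L (L ⊗[k] AA) := by
    rw [Module.finrank_baseChange, Module.finrank_baseChange, hdim]
  have hinj : Function.Injective G :=
    (LinearMap.injective_iff_surjective_of_finrank_eq_finrank hfr).2 hsurj
  let Ge : L ⊗[Z] ↥B ≃ₗ[L] L ⊗[k] AA := LinearEquiv.ofBijective G ⟨hinj, hsurj⟩
  let inc : L ⊗[Z] ↥B →ₗ[L] L ⊗[Z] Q := B.subtype.baseChange L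
  have hinc : Function.Injective inc :=
    Module.Flat.lTensor_preserves_injective_linearMap B.subtype B.injective_subtype
  let g : L ⊗[k] AA →ₗ[L] L ⊗[Z] Q := inc ∘ₗ Ge.symm.toLinearMap
  have hg : Function.Injective g := hinc.comp Ge.symm.injective
  let f : AA →ₗ[k] Q ⊗[Z] L :=
    { toFun := fun a => TensorProduct.comm Z L Q (g ((1 : L) ⊗ₜ[k] a))
      map_add' := fun a b => by rw [TensorProduct.tmul_add, map_add, map_add]
      map_smul' := fun c a => by
        have h1 : (1 : L) ⊗ₜ[k] (c • a) = algebraMap k L c • ((1 : L) ⊗ₜ[k] a) := by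
          rw [TensorProduct.tmul_smul, algebraMap_smul]
        have h2 : (1 : Q) ⊗ₜ[Z] algebraMap k L c = c • (1 : Q ⊗[Z] L) := by
          have e1 : algebraMap k L c = (algebraMap k Z c) • (1 : L) := by
            rw [Algebra.smul_def, mul_one, ← IsScalarTower.algebraMap_apply]
          rw [e1, TensorProduct.tmul_smul, algebraMap_smul]
          rfl
        rw [h1, map_smul, sw_smul, h2, mul_smul_comm, mul_one, RingHom.id_apply] }
  have hlf : ∀ x, lf f x = TensorProduct.comm Z L Q (g (TensorProduct.comm k AA L x)) := by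
    intro x
    induction x using TensorProduct.induction_on with
    | zero => simp
    | add a b ha hb => rw [map_add, map_add, map_add, map_add, ha, hb]
    | tmul a l =>
      rw [lf_tmul]
      show TensorProduct.comm Z L Q (g ((1 : L) ⊗ₜ[k] a)) * _ = _
      rw [← sw_smul, ← map_smul, TensorProduct.smul_tmul', smul_eq_mul, mul_one]
      rfl
  have hb : ∀ b : ↥B, lf f (φ b) = (b : Q) ⊗ₜ[Z] 1 := by
    intro b
    have h1 : Ge ((1 : L) ⊗ₜ b) = TensorProduct.comm k AA L (φ b) := by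
      show G _ = _
      rw [hG, one_smul]
    have h2 : Ge.symm (TensorProduct.comm k AA L (φ b)) = (1 : L) ⊗ₜ b := by
      rw [LinearEquiv.symm_apply_eq, h1]
    rw [hlf]
    show TensorProduct.comm Z L Q (inc (Ge.symm (TensorProduct.comm k AA L (φ b)))) = _
    rw [h2]
    show TensorProduct.comm Z L Q (LinearMap.baseChange L B.subtype ((1 : L) ⊗ₜ b)) = _
    rw [LinearMap.baseChange_tmul, TensorProduct.comm_tmul]
    rfl
  refine ⟨f, ?_, hb, ?_⟩
  · intro x y hxy
    rw [hlf, hlf] at hxy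
    exact (TensorProduct.comm k AA L).injective (hg ((TensorProduct.comm Z L Q).injective hxy))
  · intro T TA s hT a
    have key : ∀ x : AA ⊗[k] L, TensorProduct.map T s.toAlgHom.toLinearMap (lf f x) =
        lf f (TensorProduct.map TA ((s : L ≃ₐ[Z] L).toAlgHom.toLinearMap.restrictScalars k) x) := by
      intro x
      have hx : x ∈ Submodule.span k {y : AA ⊗[k] L | ∃ b l, y = φ b * (1 ⊗ₜ[k] l)} := by
        rw [hspan]; trivial
      induction hx using Submodule.span_induction with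
      | mem x hx =>
        obtain ⟨b, l, rfl⟩ := hx
        obtain ⟨b', hb', hφb'⟩ := hT b
        rw [map_mul', ← hφb', lf_mul, lf_mul, hb, hb, hb', Algebra.TensorProduct.tmul_mul_tmul,
          Algebra.TensorProduct.tmul_mul_tmul, one_mul, mul_one, mul_one, one_mul,
          TensorProduct.map_tmul]
        rfl
      | zero => simp
      | add x y _ _ hx hy => rw [map_add, map_add, map_add, map_add, hx, hy]
      | smul c x _ hx =>
        have e : c • lf f x = algebraMap k Z c • lf f x := by rw [algebraMap_smul]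
        rw [(lf f).map_smul, LinearMap.map_smul, (lf f).map_smul, ← hx, e,
          LinearMap.map_smul, algebraMap_smul]
    have h1 := key (a ⊗ₜ[k] 1)
    rw [TensorProduct.map_tmul, lf_tmul] at h1
    have h2 : f a * ((1 : Q) ⊗ₜ[Z] (1 : L)) = f a := by
      rw [← Algebra.TensorProduct.one_def, mul_one]
    rw [h2] at h1
    rw [h1]
    have h3 : ((s : L ≃ₐ[Z] L).toAlgHom.toLinearMap.restrictScalars k) (1 : L) = 1 := map_one s
    rw [h3, lf_tmul, ← Algebra.TensorProduct.one_def, mul_one]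

end Pool.Agent.Lib.MP_c37a72_al.NR
end

section
/-!
# GBM: `dim A ≤ |θ(Gal)|` (no `θ`-stable right ideals, Burnside)
-/
set_option autoImplicit false

open scoped TensorProduct
open Coalgebra HopfAlgebra
open Pool.Agent.Lib.MP_c37a72_al.EG Pool.Agent.Lib.MP_c37a72_al.CO

namespace Pool.Agent.Lib.MP_c37a72_al.NR

universe u v w

namespace GBMM

section

variable {k AA P : Type*} [Field k] [Ring AA] [Algebra k AA] [Field P] [Algebra k P]

/-- `V ⊗ P` is a right ideal if `V` is. -/
theorem mul_mem_range {V : Submodule k AA} (hV : ∀ v ∈ V, ∀ c : AA, v * c ∈ V) {x : AA ⊗[k] P}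
    (hx : x ∈ LinearMap.range (V.subtype.rTensor P)) (y : AA ⊗[k] P) :
    x * y ∈ LinearMap.range (V.subtype.rTensor P) := by
  obtain ⟨t, rfl⟩ := hx
  induction t using TensorProduct.induction_on with
  | zero => rw [map_zero, zero_mul]; exact Submodule.zero_mem _
  | add a b ha hb => rw [map_add, add_mul]; exact Submodule.add_mem _ ha hb
  | tmul v p =>
    induction y using TensorProduct.induction_on with
    | zero => rw [mul_zero]; exact Submodule.zero_mem _
    | add a b ha hb => rw [mul_add]; exact Submodule.add_mem _ ha hb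
    | tmul c q =>
      refine ⟨(⟨(v : AA) * c, hV v v.2 c⟩ : V) ⊗ₜ (p * q), ?_⟩
      rw [LinearMap.rTensor_tmul, LinearMap.rTensor_tmul, Algebra.TensorProduct.tmul_mul_tmul]
      rfl

/-- `1 ∈ V ⊗ P` implies `1 ∈ V`. -/
theorem one_mem_of {V : Submodule k AA}
    (h : (1 : AA ⊗[k] P) ∈ LinearMap.range (V.subtype.rTensor P)) : (1 : AA) ∈ V := by
  obtain ⟨f, hf⟩ : ∃ f : P →ₗ[k] k, f 1 = 1 := by
    obtain ⟨g, hg⟩ := LinearMap.exists_leftInverse_of_injective
      (Algebra.linearMap k P) (LinearMap.ker_eq_bot.2 (algebraMap k P).injective)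
    refine ⟨g, ?_⟩
    have h1 := LinearMap.congr_fun hg 1
    rw [LinearMap.comp_apply, Algebra.linearMap_apply, map_one] at h1
    exact h1
  obtain ⟨t, ht⟩ := h
  have h2 : ∀ t : V ⊗[k] P, TensorProduct.rid k AA (f.lTensor AA (V.subtype.rTensor P t)) ∈ V := by
    intro t
    induction t using TensorProduct.induction_on with
    | zero => rw [map_zero, map_zero, map_zero]; exact V.zero_mem
    | add a b ha hb => rw [map_add, map_add, map_add]; exact V.add_mem ha hb
    | tmul v p =>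
      rw [LinearMap.rTensor_tmul, LinearMap.lTensor_tmul, TensorProduct.rid_tmul]
      exact V.smul_mem _ v.2
  have h3 := h2 t
  rw [ht, Algebra.TensorProduct.one_def, LinearMap.lTensor_tmul, TensorProduct.rid_tmul, hf,
    one_smul] at h3
  exact h3

end

end GBMM

open GBMM in
/-- **GBM**. -/
theorem specGBM (hTHM : SpecTHM.{u, v, w}) (hDSC : SpecDSC.{u, v, w}) : SpecGBM.{u, v, w} := by
  classical
  intro k H Z Q _ _ _ _ _ _ _ _ _ _ ι AA P _ _ _ _ _ _ ρ ψ θ hQ hp
  have := hQ.fin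
  have := hp.finA
  have := hp.finP
  have hfO : Module.Finite Z ↥(Opp k Z ι) :=
    inferInstanceAs (Module.Finite Z ↥(Subalgebra.toSubmodule (Opp k Z ι)))
  have hpos : 0 < Module.finrank k AA := by
    rw [hp.dim]
    exact Module.finrank_pos
  have : Nontrivial AA := Module.nontrivial_of_finrank_pos hpos
  obtain ⟨-, th1, thm⟩ := hTHM k H Z Q ι AA P ρ ψ θ hp
  -- right ideals stable under `θ`
  have key : ∀ V : Submodule k AA, (∀ γ, ∀ v ∈ V, θ γ v ∈ V) → (∀ v ∈ V, ∀ c : AA, v * c ∈ V) →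
      V = ⊥ ∨ V = ⊤ := by
    intro V h1 h2
    by_cases hV : V = ⊥
    · exact Or.inl hV
    right
    obtain ⟨x, hx0, hx⟩ := hDSC k H Z Q ι AA P ρ ψ θ hQ hp V hV h1
    have hxi : (x : Q)⁻¹ ∈ Opp k Z ι := by
      have h3 := (Subalgebra.mem_centralizer_iff Z).1 (show (x : Q) ∈
        Subalgebra.centralizer Z (Ol k Z ι : Set Q) from x.2)
      refine (Subalgebra.mem_centralizer_iff Z).2 ?_
      intro g hg
      have hx0' : (x : Q) ≠ 0 := fun h => hx0 (Subtype.ext h)
      have h4 := h3 g hg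
      calc g * (x : Q)⁻¹ = (x : Q)⁻¹ * ((x : Q) * g) * (x : Q)⁻¹ := by
            rw [← mul_assoc, inv_mul_cancel₀ hx0', one_mul]
        _ = (x : Q)⁻¹ * (g * (x : Q)) * (x : Q)⁻¹ := by rw [h4]
        _ = (x : Q)⁻¹ * g := by rw [mul_assoc, mul_assoc, mul_inv_cancel₀ hx0', mul_one]
    have h5 : x * ⟨(x : Q)⁻¹, hxi⟩ = 1 := by
      apply Subtype.ext
      exact mul_inv_cancel₀ fun h => hx0 (Subtype.ext h)
    have h6 := mul_mem_range h2 hx (ψ ⟨(x : Q)⁻¹, hxi⟩)
    rw [← map_mul, h5, map_one] at h6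
    have h7 := one_mem_of h6
    rw [eq_top_iff]
    intro a _
    have h8 := h2 1 h7 a
    rwa [one_mul] at h8
  -- the algebra of operators
  let op : (P ≃ₐ[Z] P) → AA → Module.End k AA := fun γ c =>
    (LinearMap.mulRight k c) ∘ₗ (θ γ).toLinearMap
  have hop : ∀ γ c a, op γ c a = θ γ a * c := fun γ c a => rfl
  let S : Submodule k (Module.End k AA) := Submodule.span k {f | ∃ γ c, f = op γ c}
  have hS1 : (1 : Module.End k AA) ∈ S := by
    apply Submodule.subset_span
    refine ⟨1, 1, ?_⟩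
    ext a
    rw [hop, th1, mul_one]
    rfl
  have hSm : ∀ x y, x ∈ S → y ∈ S → x * y ∈ S := by
    intro x y hx hy
    refine Submodule.span_induction₂ (p := fun x y _ _ => x * y ∈ S) ?_ ?_ ?_ ?_ ?_ ?_ ?_ hx hy
    · rintro _ _ ⟨γ, c, rfl⟩ ⟨γ', c', rfl⟩
      apply Submodule.subset_span
      refine ⟨γ' * γ, θ γ c' * c, ?_⟩
      ext a
      rw [hop, thm, Module.End.mul_apply, hop, hop, map_mul, mul_assoc]
      rfl
    · intro y _; rw [zero_mul]; exact S.zero_mem
    · intro x _; rw [mul_zero]; exact S.zero_mem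
    · intro x y z _ _ _ h1 h2; rw [add_mul]; exact S.add_mem h1 h2
    · intro x y z _ _ _ h1 h2; rw [mul_add]; exact S.add_mem h1 h2
    · intro r x y _ _ h; rw [smul_mul_assoc]; exact S.smul_mem r h
    · intro r x y _ _ h; rw [mul_smul_comm]; exact S.smul_mem r h
  let SA : Subalgebra k (Module.End k AA) := S.toSubalgebra hS1 hSm
  have htop : SA = ⊤ := by
    refine NCXM.burnside SA fun X hX => key X (fun γ v hv => ?_) fun v hv c => ?_
    · have h1 := hX (op γ 1) (Submodule.subset_span ⟨γ, 1, rfl⟩) v hv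
      rwa [hop, mul_one] at h1
    · have h1 := hX (op 1 c) (Submodule.subset_span ⟨1, c, rfl⟩) v hv
      rw [hop, th1] at h1
      exact h1
  -- dimension
  have hfin : Finite (Set.range θ) := inferInstance
  letI := Fintype.ofFinite (Set.range θ)
  let T : (Set.range θ → AA) →ₗ[k] Module.End k AA :=
    { toFun := fun c => ∑ τ : Set.range θ, (LinearMap.mulRight k (c τ)) ∘ₗ (τ : AA ≃ₐ[k] AA).toLinearMap
      map_add' := fun c c' => by
        rw [← Finset.sum_add_distrib]
        refine Finset.sum_congr rfl fun τ _ => ?_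
        ext a
        simp [mul_add]
      map_smul' := fun r c => by
        rw [RingHom.id_apply, Finset.smul_sum]
        refine Finset.sum_congr rfl fun τ _ => ?_
        ext a
        simp }
  have hT : Function.Surjective T := by
    intro f
    have h1 : f ∈ S := by
      have h2 : f ∈ SA := by rw [htop]; exact Algebra.mem_top
      exact h2
    have h3 : S ≤ LinearMap.range T := by
      refine Submodule.span_le.2 ?_
      rintro _ ⟨γ, c, rfl⟩
      refine ⟨Pi.single ⟨θ γ, γ, rfl⟩ c, ?_⟩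
      ext a
      show (∑ τ : Set.range θ, (LinearMap.mulRight k
        ((Pi.single ⟨θ γ, γ, rfl⟩ c : Set.range θ → AA) τ)) ∘ₗ (τ : AA ≃ₐ[k] AA).toLinearMap) a = _
      rw [LinearMap.sum_apply, Finset.sum_eq_single ⟨θ γ, γ, rfl⟩]
      · rw [Pi.single_eq_same]
      · intro τ _ hτ
        rw [Pi.single_eq_of_ne hτ]
        exact mul_zero ((τ : AA ≃ₐ[k] AA) a)
      · intro h; exact absurd (Finset.mem_univ _) h
    exact h3 h1
  have h1 := LinearMap.finrank_le_finrank_of_surjective hT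
  have h2 : Module.finrank k (Module.End k AA) = Module.finrank k AA * Module.finrank k AA :=
    Module.finrank_linearMap k k AA AA
  rw [Module.finrank_pi_fintype, Finset.sum_const, Finset.card_univ, smul_eq_mul, h2] at h1
  rw [Nat.card_eq_fintype_card]
  exact Nat.le_of_mul_le_mul_right h1 hpos

end Pool.Agent.Lib.MP_c37a72_al.NR
end

section
/-!
# HSC: `Δ(H_s) ⊆ H_s ⊗ H_s`
-/
set_option autoImplicit false

open scoped TensorProduct
open Coalgebra HopfAlgebra
open Pool.Agent.Lib.MP_c37a72_al.EG Pool.Agent.Lib.MP_c37a72_al.CO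

namespace Pool.Agent.Lib.MP_c37a72_al.NR

universe u v w

namespace HSCM

section

variable {k H : Type*} [Field k] [AddCommGroup H] [Module k H] [Coalgebra k H]

/-- `h ↦ f(h₂) h₁`. -/
noncomputable def PR (f : H →ₗ[k] k) : H →ₗ[k] H :=
  (TensorProduct.rid k H).toLinearMap ∘ₗ f.lTensor H ∘ₗ comul

/-- `h ↦ f(h₁) h₂`. -/
noncomputable def PL (f : H →ₗ[k] k) : H →ₗ[k] H :=
  (TensorProduct.lid k H).toLinearMap ∘ₗ f.rTensor H ∘ₗ comul

theorem PR_eq (f : H →ₗ[k] k) {h : H} {n : ℕ} {x y : Fin n → H}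
    (e : comul (R := k) h = ∑ i, x i ⊗ₜ[k] y i) : PR f h = ∑ i, f (y i) • x i := by
  simp [PR, e]

theorem PL_eq (f : H →ₗ[k] k) {h : H} {n : ℕ} {x y : Fin n → H}
    (e : comul (R := k) h = ∑ i, x i ⊗ₜ[k] y i) : PL f h = ∑ i, f (x i) • y i := by
  simp [PL, e]

theorem comul_PR (f : H →ₗ[k] k) (h : H) :
    comul (R := k) (PR f h) = (PR f).lTensor H (comul (R := k) h) := by
  have h1 : ∀ (t : H ⊗[k] H) (y : H),
      ((TensorProduct.rid k H).toLinearMap ∘ₗ f.lTensor H).lTensor H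
        (TensorProduct.assoc k H H H (t ⊗ₜ y)) = f y • t := by
    intro t y
    induction t using TensorProduct.induction_on with
    | zero => simp
    | tmul a b => simp [TensorProduct.tmul_smul]
    | add a b ha hb => rw [TensorProduct.add_tmul, map_add, map_add, ha, hb, smul_add]
  have h2 : ∀ t : H ⊗[k] H,
      ((TensorProduct.rid k H).toLinearMap ∘ₗ f.lTensor H).lTensor H
        (TensorProduct.assoc k H H H ((comul (R := k)).rTensor H t)) =
      comul (R := k) ((TensorProduct.rid k H).toLinearMap (f.lTensor H t)) := by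
    intro t
    induction t using TensorProduct.induction_on with
    | zero => simp
    | tmul a b =>
      rw [LinearMap.rTensor_tmul, h1]
      simp
    | add a b ha hb => simp only [map_add, ha, hb]
  have h3 : (PR f).lTensor H (comul (R := k) h) =
      ((TensorProduct.rid k H).toLinearMap ∘ₗ f.lTensor H).lTensor H
        ((comul (R := k)).lTensor H (comul (R := k) h)) := by
    rw [← LinearMap.lTensor_comp_apply]
    rfl
  rw [h3, ← Coalgebra.coassoc_apply, h2]
  rfl

theorem comul_PL (f : H →ₗ[k] k) (h : H) :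
    comul (R := k) (PL f h) = (PL f).rTensor H (comul (R := k) h) := by
  have h1 : ∀ t : H ⊗[k] H,
      (TensorProduct.lid k (H ⊗[k] H)) (f.rTensor (H ⊗[k] H)
        ((comul (R := k)).lTensor H t)) =
      comul (R := k) ((TensorProduct.lid k H).toLinearMap (f.rTensor H t)) := by
    intro t
    induction t using TensorProduct.induction_on with
    | zero => simp
    | tmul a b => simp
    | add a b ha hb => simp only [map_add, ha, hb]
  have h2 : ∀ (t : H ⊗[k] H) (y : H), (TensorProduct.lid k (H ⊗[k] H)) (f.rTensor (H ⊗[k] H)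
      (TensorProduct.assoc k H H H (t ⊗ₜ y))) =
      ((TensorProduct.lid k H).toLinearMap (f.rTensor H t)) ⊗ₜ y := by
    intro t y
    induction t using TensorProduct.induction_on with
    | zero => simp
    | tmul a b => simp [TensorProduct.smul_tmul']
    | add a b ha hb => simp only [TensorProduct.add_tmul, map_add, ha, hb]
  have h3 : ∀ t : H ⊗[k] H, (TensorProduct.lid k (H ⊗[k] H)) (f.rTensor (H ⊗[k] H)
      (TensorProduct.assoc k H H H ((comul (R := k)).rTensor H t))) = (PL f).rTensor H t := by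
    intro t
    induction t using TensorProduct.induction_on with
    | zero => simp
    | tmul a b =>
      rw [LinearMap.rTensor_tmul, h2, LinearMap.rTensor_tmul]
      rfl
    | add a b ha hb => simp only [map_add, ha, hb]
  rw [← h3, Coalgebra.coassoc_apply, h1]
  rfl

end

/-- the mirror of `ALSM.ddk` -/
theorem ddk' {Z Y Q : Type v} [Field Z] [Field Y] [Algebra Z Y] [DivisionRing Q] [Algebra Z Q]
    (hDDK : SpecDDK.{v}) (Φ : Y →ₐ[Z] Q) [Fintype (Y ≃ₐ[Z] Y)] (q : (Y ≃ₐ[Z] Y) → Q)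
    (h : ∀ y, ∑ s, Φ (s y) * q s = 0) (s : Y ≃ₐ[Z] Y) : q s = 0 := by
  let e := (Fintype.equivFin (Y ≃ₐ[Z] Y)).symm
  have h1 := (hDDK Z Y Q Φ _ (fun i => e i) e.injective (fun i => q (e i))).2 (fun y => by
    rw [← h y]
    exact e.sum_comp fun s => Φ (s y) * q s) (e.symm s)
  simpa using h1

end HSCM

open ALSM HSCM in
theorem specHSC (hDDK : SpecDDK.{v}) (hLMX : SpecLMX.{u, v}) (hADB : EG.SpecADB.{u, v}) :
    SpecHSC.{u, v} := by
  classical
  intro k H Z Q Y _ _ _ _ _ _ _ _ _ ι _ _ _ _ Φ hQ hY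
  have := hY.fin
  letI : Fintype (Y ≃ₐ[Z] Y) := Fintype.ofFinite _
  obtain ⟨lr, ll, hl⟩ := hLMX k H Z Q Y ι Φ hY
  -- right
  have keyR : ∀ (h : H) (w : Y), Φ w * ι h = ∑ s, ι (PR (lr s) h) * Φ (s w) := by
    intro h w
    obtain ⟨n, x, y, hxy⟩ := exists_fin' (comul (R := k) h)
    rw [((hADB k H Z Q ι h n x y hxy (Φ w)).2).1]
    have h4 : ∀ i, ι (x i) * adrQ k Z ι (y i) (Φ w) =
        ∑ s, (lr s (y i) • ι (x i)) * Φ (s w) := by
      intro i
      rw [(hl (y i) w).1, Finset.mul_sum]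
      refine Finset.sum_congr rfl fun s _ => ?_
      rw [mul_smul_comm, smul_mul_assoc]
    rw [Finset.sum_congr rfl fun i _ => h4 i, Finset.sum_comm]
    refine Finset.sum_congr rfl fun s _ => ?_
    rw [← Finset.sum_mul, PR_eq (lr s) hxy, map_sum]
    congr 1
    refine Finset.sum_congr rfl fun i _ => ?_
    rw [map_smul]
  have memR : ∀ (s) (h : H), PR (lr s) h ∈ Hs ι Φ s := by
    intro s h w'
    have h1 : ∀ w : Y, ∑ s, (Φ w' * ι (PR (lr s) h) - ι (PR (lr s) h) * Φ (s w')) * Φ (s w) = 0 := by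
      intro w
      have h2 := keyR h (w' * w)
      rw [map_mul, mul_assoc, keyR h w, Finset.mul_sum] at h2
      have h3 : ∀ s, ι (PR (lr s) h) * Φ (s (w' * w)) =
          ι (PR (lr s) h) * Φ (s w') * Φ (s w) := by
        intro s
        rw [map_mul, map_mul, mul_assoc]
      rw [Finset.sum_congr rfl fun s _ => h3 s] at h2
      rw [Finset.sum_congr rfl fun s _ => sub_mul _ _ _, Finset.sum_sub_distrib, ← h2, sub_eq_zero]
      refine Finset.sum_congr rfl fun s _ => ?_
      rw [mul_assoc]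
    exact sub_eq_zero.1 (ddk hDDK Φ _ h1 s)
  have eqR : ∀ (s), ∀ h ∈ Hs ι Φ s, PR (lr s) h = h := by
    intro s h hh
    have h1 : ∀ w : Y, ∑ t, (ι (PR (lr t) h) - (if t = s then ι h else 0)) * Φ (t w) = 0 := by
      intro w
      have h2 := keyR h w
      rw [hh w] at h2
      have h5 : ∑ t, (if t = s then ι h else 0) * Φ (t w) = ι h * Φ (s w) := by
        rw [Finset.sum_eq_single s]
        · rw [if_pos rfl]
        · intro t _ ht
          rw [if_neg ht, zero_mul]
        · intro h; exact absurd (Finset.mem_univ _) h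
      rw [Finset.sum_congr rfl fun s _ => sub_mul _ _ _, Finset.sum_sub_distrib, h5, ← h2, sub_self]
    have h6 := sub_eq_zero.1 (ddk hDDK Φ _ h1 s)
    rw [if_pos rfl] at h6
    exact hQ.inj h6
  -- left
  have keyL : ∀ (h : H) (w : Y), ι h * Φ w = ∑ s, Φ (s w) * ι (PL (ll s) h) := by
    intro h w
    obtain ⟨n, x, y, hxy⟩ := exists_fin' (comul (R := k) h)
    rw [(hADB k H Z Q ι h n x y hxy (Φ w)).1]
    have h4 : ∀ i, adlQ k Z ι (x i) (Φ w) * ι (y i) =
        ∑ s, Φ (s w) * (ll s (x i) • ι (y i)) := by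
      intro i
      rw [(hl (x i) w).2, Finset.sum_mul]
      refine Finset.sum_congr rfl fun s _ => ?_
      rw [mul_smul_comm, smul_mul_assoc]
    rw [Finset.sum_congr rfl fun i _ => h4 i, Finset.sum_comm]
    refine Finset.sum_congr rfl fun s _ => ?_
    rw [← Finset.mul_sum, PL_eq (ll s) hxy, map_sum]
    congr 1
    refine Finset.sum_congr rfl fun i _ => ?_
    rw [map_smul]
  have memL' : ∀ (s) (h : H) (w : Y), ι (PL (ll s) h) * Φ w = Φ (s w) * ι (PL (ll s) h) := by
    intro s h w'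
    have h1 : ∀ w : Y, ∑ s, Φ (s w) * (ι (PL (ll s) h) * Φ w' - Φ (s w') * ι (PL (ll s) h)) = 0 := by
      intro w
      have h2 := keyL h (w * w')
      rw [map_mul, ← mul_assoc, keyL h w, Finset.sum_mul] at h2
      have h3 : ∀ s, Φ (s (w * w')) * ι (PL (ll s) h) =
          Φ (s w) * (Φ (s w') * ι (PL (ll s) h)) := by
        intro s
        rw [map_mul, map_mul, mul_assoc]
      rw [Finset.sum_congr rfl fun s _ => h3 s] at h2
      rw [Finset.sum_congr rfl fun s _ => mul_sub _ _ _, Finset.sum_sub_distrib, ← h2, sub_eq_zero]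
      refine Finset.sum_congr rfl fun s _ => ?_
      rw [mul_assoc]
    exact sub_eq_zero.1 (ddk' hDDK Φ _ h1 s)
  have memL : ∀ (s) (h : H), PL (ll s⁻¹) h ∈ Hs ι Φ s := by
    intro s h w
    have h1 := memL' s⁻¹ h (s w)
    have h2 : (s⁻¹ : Y ≃ₐ[Z] Y) (s w) = w := by
      show (s⁻¹ * s) w = w
      rw [inv_mul_cancel]
      rfl
    rw [h2] at h1
    exact h1.symm
  have eqL : ∀ (s), ∀ h ∈ Hs ι Φ s, PL (ll s⁻¹) h = h := by
    intro s h hh
    have hh' : ∀ w, ι h * Φ w = Φ ((s⁻¹ : Y ≃ₐ[Z] Y) w) * ι h := by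
      intro w
      rw [hh]
      have h2 : s ((s⁻¹ : Y ≃ₐ[Z] Y) w) = w := by
        show (s * s⁻¹) w = w
        rw [mul_inv_cancel]
        rfl
      rw [h2]
    have h1 : ∀ w : Y, ∑ t, Φ (t w) * (ι (PL (ll t) h) - (if t = s⁻¹ then ι h else 0)) = 0 := by
      intro w
      have h2 := keyL h w
      rw [hh' w] at h2
      have h5 : ∑ t : Y ≃ₐ[Z] Y, Φ (t w) * (if t = s⁻¹ then ι h else 0) =
          Φ ((s⁻¹ : Y ≃ₐ[Z] Y) w) * ι h := by
        rw [Finset.sum_eq_single s⁻¹]
        · rw [if_pos rfl]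
        · intro t _ ht
          rw [if_neg ht, mul_zero]
        · intro h; exact absurd (Finset.mem_univ _) h
      rw [Finset.sum_congr rfl fun s _ => mul_sub _ _ _, Finset.sum_sub_distrib, h5, ← h2, sub_self]
    have h6 := sub_eq_zero.1 (ddk' hDDK Φ _ h1 s⁻¹)
    rw [if_pos rfl] at h6
    exact hQ.inj h6
  -- the end
  intro s h hh
  have h1 : comul (R := k) h = (PR (lr s)).lTensor H (comul (R := k) h) := by
    conv_lhs => rw [← eqR s h hh]
    exact comul_PR _ _
  have h2 : comul (R := k) h = (PL (ll s⁻¹)).rTensor H (comul (R := k) h) := by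
    conv_lhs => rw [← eqL s h hh]
    exact comul_PL _ _
  let fR : H →ₗ[k] ↥(Hs ι Φ s) := (PR (lr s)).codRestrict _ (memR s)
  let fL : H →ₗ[k] ↥(Hs ι Φ s) := (PL (ll s⁻¹)).codRestrict _ (memL s)
  refine ⟨TensorProduct.map fL fR (comul (R := k) h), ?_⟩
  rw [← LinearMap.comp_apply, ← TensorProduct.map_comp]
  have h3 : (Hs ι Φ s).subtype ∘ₗ fL = PL (ll s⁻¹) := by ext x; rfl
  have h4 : (Hs ι Φ s).subtype ∘ₗ fR = PR (lr s) := by ext x; rfl
  rw [h3, h4]
  conv_rhs => rw [h2, h1]
  exact (LinearMap.congr_fun (LinearMap.rTensor_comp_lTensor (f := PL (ll s⁻¹))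
    (g := PR (lr s))) (comul (R := k) h)).symm

end Pool.Agent.Lib.MP_c37a72_al.NR
end

section
/-!
# HSM: `H = ⊕ H_s`
-/
set_option autoImplicit false

open scoped TensorProduct
open Coalgebra HopfAlgebra
open Pool.Agent.Lib.MP_c37a72_al.EG Pool.Agent.Lib.MP_c37a72_al.CO

namespace Pool.Agent.Lib.MP_c37a72_al.NR

universe u v w

open ALSM in
theorem specHSM (hDDK : SpecDDK.{v}) (hLMX : SpecLMX.{u, v}) (hADB : EG.SpecADB.{u, v}) :
    SpecHSM.{u, v} := by
  classical
  intro k H Z Q Y _ _ _ _ _ _ _ _ _ ι _ _ _ _ _ Φ hQ hY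
  obtain ⟨lr, ll, hl⟩ := hLMX k H Z Q Y ι Φ hY
  refine ⟨fun h => ?_, fun p hp h0 s => ?_, fun s t a ha b hb y => ?_, fun y => ?_⟩
  · obtain ⟨n, x, y, hxy⟩ := exists_fin' (comul (R := k) h)
    let Ps : (Y ≃ₐ[Z] Y) → H := fun s => ∑ i, lr s (y i) • x i
    have key : ∀ w : Y, Φ w * ι h = ∑ s, ι (Ps s) * Φ (s w) := by
      intro w
      rw [((hADB k H Z Q ι h n x y hxy (Φ w)).2).1]
      have h4 : ∀ i, ι (x i) * adrQ k Z ι (y i) (Φ w) =
          ∑ s, (lr s (y i) • ι (x i)) * Φ (s w) := by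
        intro i
        rw [(hl (y i) w).1, Finset.mul_sum]
        refine Finset.sum_congr rfl fun s _ => ?_
        rw [mul_smul_comm, smul_mul_assoc]
      rw [Finset.sum_congr rfl fun i _ => h4 i, Finset.sum_comm]
      refine Finset.sum_congr rfl fun s _ => ?_
      rw [← Finset.sum_mul, map_sum]
      congr 1
      refine Finset.sum_congr rfl fun i _ => ?_
      rw [map_smul]
    refine ⟨Ps, fun s w' => ?_, ?_⟩
    · have h1 : ∀ w : Y, ∑ s, (Φ w' * ι (Ps s) - ι (Ps s) * Φ (s w')) * Φ (s w) = 0 := by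
        intro w
        have h2 := key (w' * w)
        rw [map_mul, mul_assoc, key w, Finset.mul_sum] at h2
        have h3 : ∀ s, ι (Ps s) * Φ (s (w' * w)) = ι (Ps s) * Φ (s w') * Φ (s w) := by
          intro s
          rw [map_mul, map_mul, mul_assoc]
        rw [Finset.sum_congr rfl fun s _ => h3 s] at h2
        rw [Finset.sum_congr rfl fun s _ => sub_mul _ _ _, Finset.sum_sub_distrib, ← h2, sub_eq_zero]
        refine Finset.sum_congr rfl fun s _ => ?_
        rw [mul_assoc]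
      exact sub_eq_zero.1 (ddk hDDK Φ _ h1 s)
    · apply hQ.inj
      have h1 := key 1
      rw [map_one, one_mul] at h1
      rw [h1, map_sum]
      refine Finset.sum_congr rfl fun s _ => ?_
      rw [map_one, map_one, mul_one]
  · have h1 : ∀ w : Y, ∑ s, ι (p s) * Φ (s w) = 0 := by
      intro w
      have h2 : ∑ s, ι (p s) * Φ (s w) = Φ w * ι (∑ s, p s) := by
        rw [map_sum, Finset.mul_sum]
        refine Finset.sum_congr rfl fun s _ => ?_
        rw [hp s w]
      rw [h2, h0, map_zero, mul_zero]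
    exact hQ.inj (by rw [ddk hDDK Φ _ h1 s, map_zero])
  · rw [map_mul, ← mul_assoc, ha y, mul_assoc, hb (s y), mul_assoc]
    rfl
  · rw [map_one, mul_one, one_mul]
    rfl

end Pool.Agent.Lib.MP_c37a72_al.NR
end

section
/-!
# MP_c37a72_al, block NR, module SH1: `H_1 = C_H(Y)` is stable under `S` and `S⁻¹`
-/
set_option autoImplicit false

open scoped TensorProduct
open Coalgebra HopfAlgebra
open Pool.Agent.Lib.MP_c37a72_al.EG Pool.Agent.Lib.MP_c37a72_al.CO

namespace Pool.Agent.Lib.MP_c37a72_al.NR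

universe u v w

namespace SH1M

/-- elements of `V ⊗ V` as finite sums -/
theorem range_iff (k : Type u) {H : Type v} [Field k] [Ring H] [HopfAlgebra k H]
    (V : Submodule k H) (t : H ⊗[k] H) :
    t ∈ LinearMap.range (TensorProduct.map V.subtype V.subtype) ↔
      ∃ (n : ℕ) (x y : Fin n → H), (∀ i, x i ∈ V) ∧ (∀ i, y i ∈ V) ∧ t = ∑ i, x i ⊗ₜ[k] y i := by
  constructor
  · rintro ⟨w, rfl⟩
    induction w with
    | zero => exact ⟨0, Fin.elim0, Fin.elim0, fun i => i.elim0, fun i => i.elim0, by simp⟩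
    | tmul a b => exact ⟨1, fun _ => a, fun _ => b, fun _ => a.2, fun _ => b.2, by simp⟩
    | add s t hs ht =>
      obtain ⟨n, x, y, hx, hy, e⟩ := hs
      obtain ⟨m, x', y', hx', hy', e'⟩ := ht
      refine ⟨n + m, Fin.append x x', Fin.append y y', fun i => ?_, fun i => ?_, ?_⟩
      · refine Fin.addCases (fun j => ?_) (fun j => ?_) i
        · rw [Fin.append_left]; exact hx j
        · rw [Fin.append_right]; exact hx' j
      · refine Fin.addCases (fun j => ?_) (fun j => ?_) i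
        · rw [Fin.append_left]; exact hy j
        · rw [Fin.append_right]; exact hy' j
      · rw [map_add, e, e', Fin.sum_univ_add]
        simp
  · rintro ⟨n, x, y, hx, hy, rfl⟩
    refine ⟨∑ i, (⟨x i, hx i⟩ : V) ⊗ₜ[k] (⟨y i, hy i⟩ : V), ?_⟩
    rw [map_sum]
    rfl

section

variable {k : Type u} {H : Type v} [Field k] [Ring H] [HopfAlgebra k H]

theorem counit_sum {h : H} {n : ℕ} {x y : Fin n → H}
    (e : comul (R := k) h = ∑ i, x i ⊗ₜ[k] y i) : ∑ i, counit (R := k) (x i) • y i = h := by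
  have h1 := congrArg (TensorProduct.lid k H) (Coalgebra.rTensor_counit_comul (R := k) h)
  rw [e] at h1
  simpa using h1

theorem antipode_mul_sum {h : H} {n : ℕ} {x y : Fin n → H}
    (e : comul (R := k) h = ∑ i, x i ⊗ₜ[k] y i) :
    ∑ i, antipode k (x i) * y i = algebraMap k H (counit (R := k) h) := by
  have h1 := HopfAlgebra.mul_antipode_rTensor_comul_apply (R := k) h
  rw [e] at h1
  simpa using h1

theorem mul_antipode_sum {h : H} {n : ℕ} {x y : Fin n → H}
    (e : comul (R := k) h = ∑ i, x i ⊗ₜ[k] y i) :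
    ∑ i, x i * antipode k (y i) = algebraMap k H (counit (R := k) h) := by
  have h1 := HopfAlgebra.mul_antipode_lTensor_comul_apply (R := k) h
  rw [e] at h1
  simpa using h1

end

end SH1M

open SH1M in
theorem specSH1 (hHSC : SpecHSC.{u, v}) (hADB : EG.SpecADB.{u, v}) (hHAN : SpecHAN.{u, v}) :
    SpecSH1.{u, v} := by
  intro k H Z Q Y _ _ _ _ _ _ _ _ _ ι _ _ _ _ Φ hQ hb hY
  have hmem : ∀ h : H, h ∈ Hs ι Φ 1 ↔ ∀ y, Φ y * ι h = ι h * Φ y := fun h => Iff.rfl
  have hsc : ∀ h ∈ Hs ι Φ 1, ∃ (n : ℕ) (x y : Fin n → H), (∀ i, x i ∈ Hs ι Φ 1) ∧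
      (∀ i, y i ∈ Hs ι Φ 1) ∧ comul (R := k) h = ∑ i, x i ⊗ₜ[k] y i := fun h hh =>
    (range_iff k _ _).1 (hHSC k H Z Q Y ι Φ hQ hY 1 h hh)
  -- the right action of `H_1` is trivial on `Φ(Y)`
  have hr : ∀ h ∈ Hs ι Φ 1, ∀ y, adrQ k Z ι h (Φ y) = counit (R := k) h • Φ y := by
    intro h hh y
    obtain ⟨n, a, b, ha, hb', e⟩ := hsc h hh
    rw [adrQ_eq k Z ι e]
    have h1 : ∀ i, ι (antipode k (a i)) * Φ y * ι (b i) = ι (antipode k (a i) * b i) * Φ y := by
      intro i
      rw [mul_assoc, (hmem _).1 (hb' i) y, ← mul_assoc, ← map_mul]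
    rw [Finset.sum_congr rfl fun i _ => h1 i, ← Finset.sum_mul, ← map_sum, antipode_mul_sum e,
      AlgHom.commutes, ← Algebra.smul_def]
  refine ⟨fun h hh => ?_, fun g hg => ?_⟩
  · rw [hmem]
    intro y
    obtain ⟨n, x, z, hx, hz, e⟩ := hsc h hh
    rw [((hADB k H Z Q ι h n x z e (Φ y)).2.2.2.1)]
    have h1 : ∀ i, adrQ k Z ι (x i) (Φ y) * ι (antipode k (z i))
        = Φ y * ι (antipode k (counit (R := k) (x i) • z i)) := by
      intro i
      rw [hr _ (hx i), map_smul, map_smul, smul_mul_assoc, mul_smul_comm]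
    rw [Finset.sum_congr rfl fun i _ => h1 i, ← Finset.mul_sum, ← map_sum, ← map_sum, counit_sum e]
  · -- the legs of `Δ g` for `S(g) ∈ H_1`
    have hleg : ∀ g : H, antipode k g ∈ Hs ι Φ 1 → ∃ (n : ℕ) (x y : Fin n → H),
        (∀ i, antipode k (x i) ∈ Hs ι Φ 1) ∧ (∀ i, antipode k (y i) ∈ Hs ι Φ 1) ∧
        comul (R := k) g = ∑ i, x i ⊗ₜ[k] y i := by
      intro g hg
      obtain ⟨n, a, b, ha, hb', e⟩ := hsc _ hg
      choose a' ha' using fun i => hb.2 (a i)
      choose b' hb'' using fun i => hb.2 (b i)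
      refine ⟨n, b', a', fun i => by rw [hb'' i]; exact hb' i, fun i => by rw [ha' i]; exact ha i, ?_⟩
      let E : H ≃ₗ[k] H := LinearEquiv.ofBijective (antipode k) hb
      have hE : ∀ t : H ⊗[k] H, TensorProduct.congr E E t
          = TensorProduct.map (antipode k) (antipode k) t := fun t => rfl
      apply (TensorProduct.congr E E).injective
      rw [hE, hE]
      apply (TensorProduct.comm k H H).injective
      rw [← hHAN k H g, e, map_sum, map_sum]
      refine Finset.sum_congr rfl fun i _ => ?_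
      rw [TensorProduct.map_tmul, TensorProduct.comm_tmul, ha' i, hb'' i]
    have hl : ∀ h : H, antipode k h ∈ Hs ι Φ 1 → ∀ y,
        adlQ k Z ι h (Φ y) = counit (R := k) h • Φ y := by
      intro h hh y
      obtain ⟨n, a, b, ha, hb', e⟩ := hleg h hh
      rw [adlQ_eq k Z ι e]
      have h1 : ∀ i, ι (a i) * Φ y * ι (antipode k (b i)) = ι (a i * antipode k (b i)) * Φ y := by
        intro i
        rw [mul_assoc, (hmem _).1 (hb' i) y, ← mul_assoc, ← map_mul]
      rw [Finset.sum_congr rfl fun i _ => h1 i, ← Finset.sum_mul, ← map_sum, mul_antipode_sum e,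
        AlgHom.commutes, ← Algebra.smul_def]
    rw [hmem]
    intro y
    obtain ⟨n, x, z, hx, hz, e⟩ := hleg g hg
    rw [((hADB k H Z Q ι g n x z e (Φ y)).1)]
    have h1 : ∀ i, adlQ k Z ι (x i) (Φ y) * ι (z i)
        = Φ y * ι (counit (R := k) (x i) • z i) := by
      intro i
      rw [hl _ (hx i), map_smul, smul_mul_assoc, mul_smul_comm]
    rw [Finset.sum_congr rfl fun i _ => h1 i, ← Finset.mul_sum, ← map_sum, counit_sum e]

end Pool.Agent.Lib.MP_c37a72_al.NR
end

section
/-!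
# LEX: existence of `L`, `e`, `e'`
-/
set_option autoImplicit false

open scoped TensorProduct
open Coalgebra HopfAlgebra
open Pool.Agent.Lib.MP_c37a72_al.EG Pool.Agent.Lib.MP_c37a72_al.CO

namespace Pool.Agent.Lib.MP_c37a72_al.NR

universe u v w

theorem specLEX : SpecLEX.{u, v} := by
  classical
  intro k Z P _ _ _ _ _ _ _ _ _ sZ
  have : CharZero Z := charZero_of_injective_algebraMap (algebraMap k Z).injective
  let F := AlgebraicClosure Z
  let e₀ : P →ₐ[Z] F := IsAlgClosed.lift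
  let t : F ≃+* F := IsAlgClosure.equivOfEquiv F F sZ.toRingEquiv
  have ht : ∀ z : Z, t (algebraMap Z F z) = algebraMap Z F (sZ z) := fun z =>
    IsAlgClosure.equivOfEquiv_algebraMap F F sZ.toRingEquiv z
  let e₁ : P →+* F := (t : F →+* F).comp (e₀ : P →+* F)
  have he₁ : ∀ p, e₁ p = t (e₀ p) := fun p => rfl
  have he₁Z : ∀ z : Z, e₁ (algebraMap Z P z) = algebraMap Z F (sZ z) := fun z => by
    rw [he₁, e₀.commutes, ht]
  let b := Module.finBasis Z P
  let S : Set F := Set.range (fun i => e₀ (b i)) ∪ Set.range (fun i => e₁ (b i))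
  have hSf : S.Finite := (Set.finite_range _).union (Set.finite_range _)
  have : Finite S := hSf
  have hK : FiniteDimensional Z (IntermediateField.adjoin Z S) :=
    IntermediateField.finiteDimensional_adjoin fun x _ => Algebra.IsIntegral.isIntegral x
  set K := IntermediateField.adjoin Z S with hKd
  have hK0 : ∀ p, e₀ p ∈ K := by
    intro p
    rw [← b.sum_repr p, map_sum]
    refine sum_mem fun i _ => ?_
    rw [map_smul]
    exact K.smul_mem (IntermediateField.subset_adjoin Z S (Or.inl ⟨i, rfl⟩))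
  have hK1 : ∀ p, e₁ p ∈ K := by
    intro p
    rw [← b.sum_repr p, map_sum]
    refine sum_mem fun i _ => ?_
    rw [Algebra.smul_def, map_mul, he₁Z]
    exact K.mul_mem (K.algebraMap_mem _) (IntermediateField.subset_adjoin Z S (Or.inr ⟨i, rfl⟩))
  let L := IntermediateField.normalClosure Z K F
  have hKL : K ≤ L := IntermediateField.le_normalClosure K
  have hLf : FiniteDimensional Z L := inferInstance
  have hLn : Normal Z L := inferInstance
  have hLs : Algebra.IsSeparable Z L := inferInstance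
  have hLg : IsGalois Z L := ⟨⟩
  have hk : ∀ c : k, algebraMap k P c = algebraMap Z P (algebraMap k Z c) := fun c =>
    IsScalarTower.algebraMap_apply k Z P c
  let g₀ : P →+* L := (e₀ : P →+* F).codRestrict L.toSubring fun p => hKL (hK0 p)
  let g₁ : P →+* L := e₁.codRestrict L.toSubring fun p => hKL (hK1 p)
  have hg0 : ∀ z, g₀ (algebraMap Z P z) = algebraMap Z L z := fun z =>
    Subtype.ext (e₀.commutes z)
  have hg1 : ∀ z, g₁ (algebraMap Z P z) = algebraMap Z L (sZ z) := fun z =>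
    Subtype.ext (he₁Z z)
  refine ⟨L, inferInstance, inferInstance, inferInstance, inferInstance,
    { g₀ with commutes' := fun c => ?_ }, { g₁ with commutes' := fun c => ?_ }, hLf, hLg, hg0, hg1⟩
  · show g₀ (algebraMap k P c) = algebraMap k L c
    rw [hk, hg0, ← IsScalarTower.algebraMap_apply]
  · show g₁ (algebraMap k P c) = algebraMap k L c
    rw [hk, hg1, sZ.commutes, ← IsScalarTower.algebraMap_apply]

end Pool.Agent.Lib.MP_c37a72_al.NR
end

section
/-!
# MP_c37a72_al, block NR, module LMX: the coefficients of the actions on `Y` are linear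
-/
set_option autoImplicit false

open scoped TensorProduct
open Coalgebra HopfAlgebra
open Pool.Agent.Lib.MP_c37a72_al.EG Pool.Agent.Lib.MP_c37a72_al.CO

namespace Pool.Agent.Lib.MP_c37a72_al.NR

universe u v w

namespace LMXM

theorem main {k : Type u} {H Z Q Y : Type v} [Field k] [Ring H] [HopfAlgebra k H] [Field Z]
    [Algebra k Z] [DivisionRing Q] [Algebra k Q] [Algebra Z Q] [IsScalarTower k Z Q] [Field Y]
    [Algebra k Y] [Algebra Z Y] [IsScalarTower k Z Y] [Fintype (Y ≃ₐ[Z] Y)] (Φ : Y →ₐ[Z] Q)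
    (hind : ∀ q : (Y ≃ₐ[Z] Y) → Q, (∀ y, ∑ s, q s * Φ (s y) = 0) → ∀ s, q s = 0)
    (A : H →ₗ[k] Module.End Z Q)
    (hA : ∀ h : H, ∃ (n : ℕ) (s : Fin n → (Y ≃ₐ[Z] Y)) (c : Fin n → k), ∀ y : Y,
      A h (Φ y) = ∑ i, c i • Φ (s i y)) :
    ∃ l : (Y ≃ₐ[Z] Y) → (H →ₗ[k] k), ∀ (h : H) (y : Y), A h (Φ y) = ∑ s, l s h • Φ (s y) := by
  classical
  have h1 : ∀ h : H, ∃ c : (Y ≃ₐ[Z] Y) → k, ∀ y, A h (Φ y) = ∑ s, c s • Φ (s y) := by
    intro h
    obtain ⟨n, s, c, hc⟩ := hA h
    refine ⟨fun t => ∑ i, if s i = t then c i else 0, fun y => ?_⟩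
    rw [hc y]
    have h2 : ∀ t : Y ≃ₐ[Z] Y, (∑ i, if s i = t then c i else 0) • Φ (t y) =
        ∑ i, if s i = t then c i • Φ (s i y) else 0 := by
      intro t
      rw [Finset.sum_smul]
      refine Finset.sum_congr rfl fun i _ => ?_
      split_ifs with h
      · rw [h]
      · rw [zero_smul]
    rw [Finset.sum_congr rfl (fun t _ => h2 t), Finset.sum_comm]
    refine Finset.sum_congr rfl fun i _ => ?_
    rw [Finset.sum_ite_eq]
    simp
  have huniq : ∀ c c' : (Y ≃ₐ[Z] Y) → k, (∀ y, ∑ s, c s • Φ (s y) = ∑ s, c' s • Φ (s y)) →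
      c = c' := by
    intro c c' h
    funext s
    have h2 := hind (fun s => algebraMap k Q (c s - c' s)) (fun y => by
      have h3 := h y
      rw [← sub_eq_zero, ← Finset.sum_sub_distrib] at h3
      rw [← h3]
      refine Finset.sum_congr rfl fun s _ => ?_
      rw [← Algebra.smul_def, sub_smul]) s
    have h4 : c s - c' s = 0 := by
      have h5 : algebraMap k Q (c s - c' s) = algebraMap k Q 0 := by rw [h2, map_zero]
      exact (algebraMap k Q).injective h5
    exact sub_eq_zero.1 h4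
  choose C hC using h1
  refine ⟨fun s => IsLinearMap.mk' (fun h => C h s) ⟨fun a b => ?_, fun r a => ?_⟩,
    fun h y => hC h y⟩
  · have h2 := huniq (C (a + b)) (fun s => C a s + C b s) (fun y => by
      rw [← hC, map_add, LinearMap.add_apply, hC, hC, ← Finset.sum_add_distrib]
      exact Finset.sum_congr rfl fun s _ => (add_smul _ _ _).symm)
    exact congrFun h2 s
  · have h2 := huniq (C (r • a)) (fun s => r • C a s) (fun y => by
      rw [← hC, map_smul, LinearMap.smul_apply, hC, Finset.smul_sum]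
      exact Finset.sum_congr rfl fun s _ => by rw [smul_assoc])
    exact congrFun h2 s

end LMXM

open LMXM in
theorem specLMX (hDDK : SpecDDK.{v}) : SpecLMX.{u, v} := by
  intro k H Z Q Y _ _ _ _ _ _ _ _ _ ι _ _ _ _ _ Φ hY
  have hind : ∀ q : (Y ≃ₐ[Z] Y) → Q, (∀ y, ∑ s, q s * Φ (s y) = 0) → ∀ s, q s = 0 := by
    intro q hq s
    let e := (Fintype.equivFin (Y ≃ₐ[Z] Y)).symm
    have h1 := (hDDK Z Y Q Φ _ (fun i => e i) e.injective (fun i => q (e i))).1 (fun y => by
      rw [← hq y]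
      exact e.sum_comp (fun s => q s * Φ (s y))) (e.symm s)
    rwa [e.apply_symm_apply] at h1
  obtain ⟨lr, hlr⟩ := main Φ hind (adrQ k Z ι) hY.right
  obtain ⟨ll, hll⟩ := main Φ hind (adlQ k Z ι) hY.left
  exact ⟨lr, ll, fun h y => ⟨hlr h y, hll h y⟩⟩

end Pool.Agent.Lib.MP_c37a72_al.NR
end

section
/-!
# MP_c37a72_al, block NR, module NDM: `[G : N] ≤ dim A^N`
-/
set_option autoImplicit false

open scoped TensorProduct
open Coalgebra HopfAlgebra
open Pool.Agent.Lib.MP_c37a72_al.EG Pool.Agent.Lib.MP_c37a72_al.CO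

namespace Pool.Agent.Lib.MP_c37a72_al.NR

universe u v w

namespace NDMM

/-- The homomorphism `s ↦ T(s⁻¹)` of an anti-homomorphism `T`. -/
def opHom {G M : Type*} [Group G] [Group M] (T : G → M) (h1 : T 1 = 1)
    (hm : ∀ s t, T (s * t) = T t * T s) : G →* M where
  toFun s := T s⁻¹
  map_one' := by rw [inv_one, h1]
  map_mul' a b := by rw [mul_inv_rev, hm]

theorem card_ineq {G M : Type*} [Group G] [Group M] [Finite G] (f : G →* M) (N : Subgroup G)
    (hN : f.ker ≤ N) (d e : ℕ) (h1 : Nat.card f.range = d)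
    (h2 : d ≤ Nat.card (N.map f) * e) : Nat.card G ≤ Nat.card N * e := by
  have a1 : Nat.card f.ker * Nat.card f.range = Nat.card G := by
    rw [← Subgroup.index_ker]
    exact Subgroup.card_mul_index _
  have a2 : Nat.card (f.comp N.subtype).ker * Nat.card (f.comp N.subtype).range = Nat.card N := by
    rw [← Subgroup.index_ker]
    exact Subgroup.card_mul_index _
  have a3 : Nat.card (f.comp N.subtype).ker = Nat.card f.ker := by
    have : (f.comp N.subtype).ker = f.ker.subgroupOf N := rfl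
    rw [this]
    exact Nat.card_congr (Subgroup.subgroupOfEquivOfLe hN).toEquiv
  have a4 : (f.comp N.subtype).range = N.map f := by
    rw [MonoidHom.range_comp, Subgroup.range_subtype]
  rw [a3, a4] at a2
  rw [← a1, ← a2, h1, mul_assoc]
  exact Nat.mul_le_mul_left _ h2

end NDMM

open NDMM in
/-- **NDM**. -/
theorem specNDM (hFXD : SpecFXD.{u, w}) (hIDA : SpecIDA.{u, v, w}) (hRGU : SpecRGU.{u, v, w}) :
    SpecNDM.{u, v, w} := by
  intro k H Z Q _ _ _ _ _ _ _ _ _ _ ι AA P _ _ _ _ _ _ ρ ψ θ hQ hC L _ _ _ T T1 Tm Tr N hN F hF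
  have hfin : Module.Finite k AA := hC.finA
  have hG : Finite (L ≃ₐ[Z] L) := inferInstance
  have hrange : ((opHom T T1 Tm).range : Set (AA ≃ₐ[k] AA)) = Set.range θ := by
    rw [← Tr]
    ext x
    constructor
    · rintro ⟨s, rfl⟩
      exact ⟨s⁻¹, rfl⟩
    · rintro ⟨s, rfl⟩
      exact ⟨s⁻¹, by show T (s⁻¹)⁻¹ = T s; rw [inv_inv]⟩
  have hcard : Nat.card (opHom T T1 Tm).range = Module.finrank k AA := by
    rw [← (hRGU k H Z Q ι AA P ρ ψ θ hQ hC).1, ← hrange]
    rfl
  have hFin : Finite (opHom T T1 Tm).range :=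
    Finite.of_surjective (opHom T T1 Tm).rangeRestrict (MonoidHom.rangeRestrict_surjective _)
  let _ : Fintype ↥(opHom T T1 Tm).range := Fintype.ofFinite _
  refine card_ineq (opHom T T1 Tm) N ?_ (Module.finrank k AA) _ hcard ?_
  · intro s hs
    have h1 : T s⁻¹ = 1 := hs
    have h2 := hN s⁻¹ h1
    exact (Subgroup.inv_mem_iff _).mp h2
  · refine hFXD k AA (opHom T T1 Tm).range (N.map (opHom T T1 Tm)) ?_ ?_ hcard.ge F ?_
    · rintro x ⟨s, _, rfl⟩
      exact ⟨s, rfl⟩
    · intro c hc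
      have h := hIDA k H Z Q ι AA P ρ ψ θ hQ hC (Fintype.card ↥(opHom T T1 Tm).range)
        (fun i => (((Fintype.equivFin ↥(opHom T T1 Tm).range).symm i : ↥(opHom T T1 Tm).range) :
          AA ≃ₐ[k] AA)) ?_ ?_
        (fun i => c ((Fintype.equivFin ↥(opHom T T1 Tm).range).symm i)) ?_
      · funext τ
        have h2 := h (Fintype.equivFin ↥(opHom T T1 Tm).range τ)
        simpa using h2
      · intro i j hij
        exact (Fintype.equivFin ↥(opHom T T1 Tm).range).symm.injective (Subtype.ext hij)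
      · intro i h a
        have hm := ((Fintype.equivFin ↥(opHom T T1 Tm).range).symm i).2
        have hm2 : (((Fintype.equivFin ↥(opHom T T1 Tm).range).symm i :
            ↥(opHom T T1 Tm).range) : AA ≃ₐ[k] AA) ∈ Set.range θ := by
          rw [← hrange]
          exact hm
        obtain ⟨γ, hγ⟩ := hm2
        show (((Fintype.equivFin ↥(opHom T T1 Tm).range).symm i :
            ↥(opHom T T1 Tm).range) : AA ≃ₐ[k] AA) (ρ h a) = ρ h
            ((((Fintype.equivFin ↥(opHom T T1 Tm).range).symm i :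
            ↥(opHom T T1 Tm).range) : AA ≃ₐ[k] AA) a)
        rw [← hγ]
        exact hC.thH γ h a
      · intro a
        rw [← hc a]
        exact Equiv.sum_comp (Fintype.equivFin ↥(opHom T T1 Tm).range).symm
          (fun τ : ↥(opHom T T1 Tm).range => (τ : AA ≃ₐ[k] AA) a * c τ)
    · intro a
      rw [hF a]
      constructor
      · rintro h x ⟨s, hs, rfl⟩
        exact h s⁻¹ (N.inv_mem hs)
      · intro h s hs
        have h2 := h (opHom T T1 Tm s⁻¹) ⟨s⁻¹, N.inv_mem hs, rfl⟩
        have h3 : opHom T T1 Tm s⁻¹ = T s := by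
          show T (s⁻¹)⁻¹ = T s
          rw [inv_inv]
        rw [h3] at h2
        exact h2

end Pool.Agent.Lib.MP_c37a72_al.NR
end
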