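import Mathlib
import Pool.Agent.Lib.MP_c37a72_al.LB.Spec
import Pool.Agent.Lib.MP_c37a72_al.NR.Spec
import Pool.Agent.Lib.MP_c37a72_al.PUR

section
/-!
# MP_c37a72_al, block NR: Eakin-Nagata-Formanek

A commutative ring `A` with a finite faithful module `M` which satisfies the ascending chain condition for the
submodules `I M` is Noetherian. Consequence: the centre of a (left) Noetherian ring which is finite over
its centre is Noetherian.
-/
set_option autoImplicit false

namespace Pool.Agent.Lib.MP_c37a72_al.NR.EAKM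

universe u v w

variable {A M : Type*} [CommRing A] [AddCommGroup M] [Module A M]

/-- `a M` -/
def aM (a : A) : Submodule A M := LinearMap.range (LinearMap.lsmul A M a)

theorem mem_aM (a : A) (x : M) : a • x ∈ (aM a : Submodule A M) := ⟨x, rfl⟩

theorem aM_le {a : A} {N : Submodule A M} : aM a ≤ N ↔ ∀ x : M, a • x ∈ N := by
  constructor
  · intro h x
    exact h (mem_aM a x)
  · rintro h _ ⟨x, rfl⟩
    exact h x

theorem aM_fg [Module.Finite A M] (a : A) : (aM a : Submodule A M).FG := by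
  unfold aM
  rw [LinearMap.range_eq_map]
  exact Submodule.FG.map _ Module.Finite.fg_top

/-- if `A` acts on `M / N` and on `M / P` with the same annihilator and `M / N` is Noetherian then so is `M / P` -/
theorem noeth_of_ann [Module.Finite A M] (N P : Submodule A M)
    (h : ∀ a : A, (∀ x : M, a • x ∈ N) → ∀ x : M, a • x ∈ P) (hN : IsNoetherian A (M ⧸ N)) :
    IsNoetherian A (M ⧸ P) := by
  classical
  obtain ⟨n, x, hx⟩ := Module.Finite.exists_fin (R := A) (M := M)
  let g : A →ₗ[A] (Fin n → M ⧸ N) :=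
    LinearMap.pi fun i => LinearMap.toSpanSingleton A (M ⧸ N) (N.mkQ (x i))
  have hg : ∀ a i, g a i = N.mkQ (a • x i) := fun a i => by
    simp [g]
  have hker : ∀ a, a ∈ LinearMap.ker g → ∀ y : M, a • y ∈ N := by
    intro a ha y
    have h1 : ∀ i, a • x i ∈ N := fun i => by
      have h2 := congrFun (LinearMap.mem_ker.1 ha) i
      rw [hg] at h2
      exact (Submodule.Quotient.mk_eq_zero N).1 h2
    have h3 : y ∈ Submodule.span A (Set.range x) := by rw [hx]; trivial
    induction h3 using Submodule.span_induction with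
    | mem y hy => obtain ⟨i, rfl⟩ := hy; exact h1 i
    | zero => rw [smul_zero]; exact zero_mem _
    | add y z _ _ hy hz => rw [smul_add]; exact add_mem hy hz
    | smul c y _ hy => rw [smul_comm]; exact N.smul_mem _ hy
  have h1 : IsNoetherian A (A ⧸ LinearMap.ker g) :=
    isNoetherian_of_linearEquiv g.quotKerEquivRange.symm
  have hle : ∀ i, LinearMap.ker g ≤ LinearMap.ker (LinearMap.toSpanSingleton A (M ⧸ P) (P.mkQ (x i))) := by
    intro i a ha
    rw [LinearMap.mem_ker, LinearMap.toSpanSingleton_apply, ← map_smul]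
    exact (Submodule.Quotient.mk_eq_zero P).2 (h a (hker a ha) (x i))
  let π : (Fin n → A ⧸ LinearMap.ker g) →ₗ[A] M ⧸ P :=
    ∑ i, ((LinearMap.ker g).liftQ _ (hle i)).comp (LinearMap.proj i)
  refine isNoetherian_of_surjective (f := π) ?_
  rw [eq_top_iff]
  rintro y -
  obtain ⟨m, rfl⟩ := P.mkQ_surjective y
  have h3 : m ∈ Submodule.span A (Set.range x) := by rw [hx]; trivial
  induction h3 using Submodule.span_induction with
  | mem y hy =>
    obtain ⟨i, rfl⟩ := hy
    refine ⟨Pi.single i (Submodule.Quotient.mk 1), ?_⟩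
    rw [LinearMap.sum_apply, Finset.sum_eq_single i]
    · rw [LinearMap.comp_apply, LinearMap.proj_apply, Pi.single_eq_same, Submodule.liftQ_apply,
        LinearMap.toSpanSingleton_apply, one_smul]
    · intro l _ hl
      rw [LinearMap.comp_apply, LinearMap.proj_apply, Pi.single_eq_of_ne hl, map_zero]
    · intro h; exact absurd (Finset.mem_univ _) h
  | zero => rw [map_zero]; exact zero_mem _
  | add y z _ _ hy hz => rw [map_add]; exact add_mem hy hz
  | smul c y _ hy => rw [map_smul]; exact Submodule.smul_mem _ _ hy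

/-- Formanek's step -/
theorem noeth_quot [Module.Finite A M] (P0 : Submodule A M)
    (h : ∀ a : A, ¬ (∀ x : M, a • x ∈ P0) → IsNoetherian A (M ⧸ (P0 ⊔ aM a))) :
    IsNoetherian A (M ⧸ P0) := by
  classical
  let G : Set (Submodule A M) := {N | P0 ≤ N ∧ ∀ a : A, (∀ x : M, a • x ∈ N) → ∀ x : M, a • x ∈ P0}
  obtain ⟨N, hPN, hmax⟩ := zorn_le_nonempty₀ G (by
    intro c hc hchain y hy
    refine ⟨sSup c, ⟨(hc hy).1.trans (le_sSup hy), ?_⟩, fun z hz => le_sSup hz⟩
    intro a ha
    have h1 : (aM a : Submodule A M) ≤ sSup c := aM_le.2 ha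
    have h2 := (Submodule.fg_iff_compact (aM a : Submodule A M)).1 (aM_fg a)
    obtain ⟨z, hz, hz'⟩ := (CompleteLattice.isCompactElement_iff_le_of_directed_sSup_le _ _).1 h2
      c ⟨y, hy⟩ hchain.directedOn h1
    exact (hc hz).2 a (aM_le.1 hz')) P0 ⟨le_rfl, fun a ha => ha⟩
  have hN := hmax.prop
  refine noeth_of_ann N P0 hN.2 ?_
  rw [isNoetherian_def]
  intro s
  by_cases hs : s = ⊥
  · rw [hs]; exact Submodule.fg_bot
  let N' := s.comap N.mkQ
  have hNN' : N ≤ N' := fun x hx => by
    show N.mkQ x ∈ s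
    have : N.mkQ x = 0 := (Submodule.Quotient.mk_eq_zero N).2 hx
    rw [this]; exact zero_mem _
  have hN'G : N' ∉ G := by
    intro hG
    apply hs
    have h1 : N' ≤ N := hmax.le_of_ge hG hNN'
    rw [eq_bot_iff]
    intro y hy
    obtain ⟨m, rfl⟩ := N.mkQ_surjective y
    exact (Submodule.mem_bot _).2 ((Submodule.Quotient.mk_eq_zero N).2 (h1 hy))
  have h2 : ∃ a : A, (∀ x : M, a • x ∈ N') ∧ ¬ ∀ x : M, a • x ∈ P0 := by
    by_contra h3
    push Not at h3
    exact hN'G ⟨hPN.trans hNN', h3⟩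
  obtain ⟨a, ha1, ha2⟩ := h2
  have h4 := h a ha2
  have h5 : IsNoetherian A (M ⧸ (N ⊔ aM a)) := by
    refine isNoetherian_of_surjective (f := Submodule.factor (sup_le_sup_right hPN (aM a))) ?_
    rw [LinearMap.range_eq_top]
    exact Submodule.factor_surjective _
  refine Submodule.fg_of_fg_map_of_fg_inf_ker
    (Submodule.factor (le_sup_left : N ≤ N ⊔ aM a)) (IsNoetherian.noetherian _) ?_
  have h6 : s ⊓ LinearMap.ker (Submodule.factor (le_sup_left : N ≤ N ⊔ aM a)) =
      (aM a : Submodule A M).map N.mkQ := by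
    apply le_antisymm
    · rintro y ⟨-, hy2⟩
      obtain ⟨m, rfl⟩ := N.mkQ_surjective y
      have h7 : m ∈ N ⊔ aM a := by
        rw [SetLike.mem_coe, LinearMap.mem_ker] at hy2
        exact (Submodule.Quotient.mk_eq_zero _).1 hy2
      obtain ⟨n, hn, z, hz, rfl⟩ := Submodule.mem_sup.1 h7
      refine ⟨z, hz, ?_⟩
      rw [map_add]
      have : N.mkQ n = 0 := (Submodule.Quotient.mk_eq_zero N).2 hn
      rw [this, zero_add]
    · rintro _ ⟨z, hz, rfl⟩
      refine ⟨aM_le.2 ha1 hz, ?_⟩
      rw [SetLike.mem_coe, LinearMap.mem_ker]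
      exact (Submodule.Quotient.mk_eq_zero _).2 (le_sup_right (a := N) hz)
  rw [h6]
  exact (aM_fg a).map _

/-- **Formanek**: a finite module with the ascending chain condition for the submodules `I M` is Noetherian -/
theorem noeth_of_acc [Module.Finite A M]
    (hacc : ∀ S : Set (Ideal A), S.Nonempty → ∃ I ∈ S, ∀ J ∈ S,
      I • (⊤ : Submodule A M) ≤ J • (⊤ : Submodule A M) →
        J • (⊤ : Submodule A M) ≤ I • (⊤ : Submodule A M)) : IsNoetherian A M := by
  by_contra hn
  obtain ⟨I, hI, hImax⟩ := hacc {I | ¬ IsNoetherian A (M ⧸ (I • (⊤ : Submodule A M)))} ⟨⊥, by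
    intro h0
    apply hn
    have h1 : (⊥ : Ideal A) • (⊤ : Submodule A M) = ⊥ := Submodule.bot_smul _
    rw [h1] at h0
    exact isNoetherian_of_linearEquiv (Submodule.quotEquivOfEqBot (⊥ : Submodule A M) rfl)⟩
  apply hI
  refine noeth_quot _ fun a ha => ?_
  by_contra h2
  have h3 : (I ⊔ Ideal.span {a}) • (⊤ : Submodule A M) = I • (⊤ : Submodule A M) ⊔ aM a := by
    rw [Submodule.sup_smul]
    congr 1
    apply le_antisymm
    · rw [Submodule.smul_le]
      intro r hr x _
      obtain ⟨b, rfl⟩ := Ideal.mem_span_singleton'.1 hr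
      rw [mul_smul]
      exact Submodule.smul_mem _ _ (mem_aM a x)
    · rw [aM_le]
      intro x
      exact Submodule.smul_mem_smul (Ideal.mem_span_singleton_self a) trivial
  have h4 := hImax (I ⊔ Ideal.span {a}) (by
    show ¬ IsNoetherian A (M ⧸ ((I ⊔ Ideal.span {a}) • (⊤ : Submodule A M)))
    rw [h3]; exact h2) (by rw [h3]; exact le_sup_left)
  apply ha
  rw [h3] at h4
  exact aM_le.1 (le_sup_right.trans h4)

/-- a ring with a faithful Noetherian module is Noetherian -/
theorem ring_of_faithful [IsNoetherian A M] (hf : ∀ a : A, (∀ x : M, a • x = 0) → a = 0) :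
    IsNoetherianRing A := by
  classical
  obtain ⟨n, x, hx⟩ := Module.Finite.exists_fin (R := A) (M := M)
  let g : A →ₗ[A] (Fin n → M) := LinearMap.pi fun i => LinearMap.toSpanSingleton A M (x i)
  refine isNoetherian_of_injective g ?_
  rw [injective_iff_map_eq_zero]
  intro a ha
  apply hf
  intro y
  have h1 : ∀ i, a • x i = 0 := fun i => by
    have h2 := congrFun ha i
    simpa [g] using h2
  have h3 : y ∈ Submodule.span A (Set.range x) := by rw [hx]; trivial
  induction h3 using Submodule.span_induction with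
  | mem y hy => obtain ⟨i, rfl⟩ := hy; exact h1 i
  | zero => rw [smul_zero]
  | add y z _ _ hy hz => rw [smul_add, hy, hz, add_zero]
  | smul c y _ hy => rw [smul_comm, hy, smul_zero]

/-- **Eakin-Nagata** for a left Noetherian algebra `R`, finite over a central subring `A`. -/
theorem eakin {A R : Type*} [CommRing A] [Ring R] [Algebra A R] [Module.Finite A R]
    [IsNoetherianRing R] (hinj : Function.Injective (algebraMap A R)) : IsNoetherianRing A := by
  have h1 : IsNoetherian A R := by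
    refine noeth_of_acc fun S hS => ?_
    have hmul : ∀ (I : Ideal A) (r x : R), x ∈ I • (⊤ : Submodule A R) →
        r * x ∈ I • (⊤ : Submodule A R) := by
      intro I r x hx
      induction hx using Submodule.smul_induction_on' with
      | smul a ha y _ =>
        rw [mul_smul_comm]
        exact Submodule.smul_mem_smul ha trivial
      | add x _ y _ hx hy => rw [mul_add]; exact add_mem hx hy
    let L : Ideal A → Submodule R R := fun I =>
      { carrier := (I • (⊤ : Submodule A R) : Submodule A R)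
        add_mem' := fun ha hb => add_mem ha hb
        zero_mem' := zero_mem _
        smul_mem' := fun r x hx => hmul I r x hx }
    obtain ⟨N, ⟨I, hI, rfl⟩, hN⟩ := WellFounded.has_min
      (wellFounded_gt (α := Submodule R R)) (L '' S) (hS.image L)
    refine ⟨I, hI, fun J hJ hIJ => ?_⟩
    have h2 : L I ≤ L J := fun x hx => hIJ hx
    have h3 : ¬ L I < L J := hN (L J) ⟨J, hJ, rfl⟩
    have h4 : L J ≤ L I := by
      by_contra h5
      exact h3 (lt_of_le_not_ge h2 h5)
    exact fun x hx => h4 hx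
  refine ring_of_faithful (M := R) fun a ha => ?_
  apply hinj
  have := ha 1
  rw [Algebra.smul_def, mul_one] at this
  rw [this, map_zero]

end Pool.Agent.Lib.MP_c37a72_al.NR.EAKM
end

section
/-!
# MP_c37a72_al, block NR, module N6: finiteness over the centre descends from `H_1` to `H`

`F0 / Z` finite Galois, `Φ : F0 → Q` over `Z`, `H_s = {h : Φ(y) h = h Φ(s y)}`, `H = ∑ H_s`, and `H ∩ Φ(F0)` is
Galois stable. If `H_1` is finite over its centre then `H` is finite over its centre.
-/
set_option autoImplicit false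

open scoped TensorProduct

namespace Pool.Agent.Lib.MP_c37a72_al.NR

universe u v w

namespace N6M

section Abs

variable {R A : Type*} [CommRing R] [CommRing A] [Algebra R A]

/-- Reynolds operator -/
theorem fix_noeth [IsNoetherianRing A] (ρ : A →ₗ[R] R) (h1 : ρ 1 = 1) : IsNoetherianRing R := by
  have key : ∀ (I : Ideal R), ∀ x ∈ Ideal.map (algebraMap R A) I, ∀ a : A, ρ (a * x) ∈ I := by
    intro I x hx
    unfold Ideal.map Ideal.span at hx
    induction hx using Submodule.span_induction with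
    | mem x hx =>
      obtain ⟨r, hr, rfl⟩ := hx
      intro a
      rw [mul_comm, ← Algebra.smul_def, map_smul, smul_eq_mul, mul_comm]
      exact I.mul_mem_left _ hr
    | zero => intro a; rw [mul_zero, map_zero]; exact zero_mem _
    | add x y _ _ hx hy => intro a; rw [mul_add, map_add]; exact add_mem (hx a) (hy a)
    | smul b x _ hx => intro a; rw [smul_eq_mul, ← mul_assoc]; exact hx (a * b)
  have hinj : Function.Injective (Ideal.map (algebraMap R A)) := by
    have h2 : ∀ I J : Ideal R, Ideal.map (algebraMap R A) I = Ideal.map (algebraMap R A) J →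
        I ≤ J := by
      intro I J hIJ r hr
      have h3 := key J (algebraMap R A r) (by rw [← hIJ]; exact Ideal.mem_map_of_mem _ hr) 1
      rw [one_mul, Algebra.algebraMap_eq_smul_one, map_smul, h1, smul_eq_mul, mul_one] at h3
      exact h3
    intro I J hIJ
    exact le_antisymm (h2 I J hIJ) (h2 J I hIJ.symm)
  have hmono : Monotone (Ideal.map (algebraMap R A)) := fun I J h => Ideal.map_mono h
  rw [isNoetherianRing_iff, isNoetherian_iff']
  exact (hmono.strictMono_of_injective hinj).wellFoundedGT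

end Abs

section Gal

variable {k : Type u} {Z F0 : Type v} [Field k] [Field Z] [Algebra k Z] [Field F0] [Algebra k F0]
  [Algebra Z F0] [IsScalarTower k Z F0]

/-- `B ∩ Z` -/
def RB (Z : Type v) [Field Z] [Algebra k Z] [Algebra Z F0] [IsScalarTower k Z F0]
    (B : Subalgebra k F0) : Subalgebra k Z := B.comap (IsScalarTower.toAlgHom k Z F0)

/-- the inclusion -/
def rb (Z : Type v) [Field Z] [Algebra k Z] [Algebra Z F0] [IsScalarTower k Z F0]
    (B : Subalgebra k F0) : RB Z B →ₐ[k] B :=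
  ((IsScalarTower.toAlgHom k Z F0).comp (RB Z B).val).codRestrict B (fun r => r.2)

theorem rb_coe (B : Subalgebra k F0) (r : RB Z B) : (rb Z B r : F0) = algebraMap Z F0 (r : Z) := rfl

variable [CharZero k] [FiniteDimensional Z F0] [IsGalois Z F0]

theorem galois_finite (B : Subalgebra k F0) (hstab : ∀ s : F0 ≃ₐ[Z] F0, ∀ b ∈ B, s b ∈ B)
    (hfrac : ∀ y : F0, ∃ c : Z, c ≠ 0 ∧ algebraMap Z F0 c * y ∈ B) (hB : IsNoetherianRing B) :
    IsNoetherianRing (RB Z B) ∧ ∃ (n : ℕ) (b : Fin n → B), ∀ x : B, ∃ r : Fin n → RB Z B,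
      x = ∑ i, rb Z B (r i) * b i := by
  classical
  let _ : Algebra (RB Z B) B := (rb Z B : RB Z B →+* B).toAlgebra
  have hsm : ∀ (r : RB Z B) (x : B), ((r • x : B) : F0) = (r : Z) • (x : F0) := by
    intro r x
    rw [Algebra.smul_def]
    show (rb Z B r : F0) * (x : F0) = _
    rw [rb_coe, Algebra.smul_def]
  have htr : ∀ x ∈ B, Algebra.trace Z F0 x ∈ RB Z B := by
    intro x hx
    show algebraMap Z F0 (Algebra.trace Z F0 x) ∈ B
    rw [trace_eq_sum_automorphisms]
    exact sum_mem fun s _ => hstab s x hx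
  let tr : B →ₗ[RB Z B] RB Z B :=
    { toFun := fun x => ⟨Algebra.trace Z F0 (x : F0), htr _ x.2⟩
      map_add' := fun x y => Subtype.ext (by
        show Algebra.trace Z F0 ((x : F0) + (y : F0)) = _
        rw [map_add]; rfl)
      map_smul' := fun r x => Subtype.ext (by
        show Algebra.trace Z F0 ((r • x : B) : F0) = _
        rw [hsm, map_smul]; rfl) }
  have htr' : ∀ x : B, (tr x : Z) = Algebra.trace Z F0 (x : F0) := fun x => rfl
  have hN : (Module.finrank Z F0 : k) ≠ 0 := by
    rw [Nat.cast_ne_zero]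
    exact Module.finrank_pos.ne'
  have hN1 : ((Module.finrank Z F0 : k))⁻¹ * (Module.finrank Z F0 : k) = 1 := inv_mul_cancel₀ hN
  have htr1 : Algebra.trace Z F0 (1 : F0) = (Module.finrank Z F0 : Z) := by
    rw [← map_one (algebraMap Z F0), Algebra.trace_algebraMap, nsmul_eq_mul, mul_one]
  have h1 : IsNoetherianRing (RB Z B) := by
    refine fix_noeth (A := B) ((algebraMap k (RB Z B) ((Module.finrank Z F0 : k))⁻¹) • tr) ?_
    apply Subtype.ext
    rw [LinearMap.smul_apply, smul_eq_mul]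
    show algebraMap k Z ((Module.finrank Z F0 : k))⁻¹ * Algebra.trace Z F0 (1 : F0) = 1
    rw [htr1, ← map_natCast (algebraMap k Z), ← map_mul, hN1, map_one]
  refine ⟨h1, ?_⟩
  have : CharZero Z := charZero_of_injective_algebraMap (algebraMap k Z).injective
  let y := Module.finBasis Z F0
  choose c hc0 hc using fun i => hfrac (y i)
  let T : B →ₗ[RB Z B] (Fin (Module.finrank Z F0) → RB Z B) :=
    LinearMap.pi fun i =>
      { toFun := fun x => tr (x * ⟨_, hc i⟩)
        map_add' := fun x x' => by rw [add_mul, map_add]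
        map_smul' := fun r x => by rw [smul_mul_assoc, map_smul]; rfl }
  have hT : ∀ x i, ((T x i : RB Z B) : Z) = c i * Algebra.trace Z F0 ((x : F0) * y i) := by
    intro x i
    show Algebra.trace Z F0 ((x : F0) * (algebraMap Z F0 (c i) * y i)) = _
    rw [mul_left_comm, ← Algebra.smul_def, map_smul, smul_eq_mul]
  have hTinj : Function.Injective T := by
    rw [injective_iff_map_eq_zero]
    intro x hx
    have h2 : ∀ i, Algebra.trace Z F0 ((x : F0) * y i) = 0 := by
      intro i
      have h3 := hT x i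
      rw [hx] at h3
      have h4 : c i * Algebra.trace Z F0 ((x : F0) * y i) = 0 := h3.symm
      exact (mul_eq_zero.1 h4).resolve_left (hc0 i)
    have h5 : ∀ w : F0, Algebra.trace Z F0 ((x : F0) * w) = 0 := by
      intro w
      rw [← y.sum_repr w, Finset.mul_sum, map_sum]
      refine Finset.sum_eq_zero fun i _ => ?_
      rw [mul_smul_comm, map_smul, h2, smul_zero]
    by_contra hx0
    have hx1 : (x : F0) ≠ 0 := fun h => hx0 (Subtype.ext h)
    have h6 := h5 (x : F0)⁻¹
    rw [mul_inv_cancel₀ hx1, htr1] at h6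
    exact Module.finrank_pos.ne' (Nat.cast_eq_zero.1 h6)
  have h7 : IsNoetherian (RB Z B) B := isNoetherian_of_injective T hTinj
  obtain ⟨n, b, hb⟩ := Module.Finite.exists_fin (R := RB Z B) (M := B)
  refine ⟨n, b, fun x => ?_⟩
  have h8 : x ∈ Submodule.span (RB Z B) (Set.range b) := by rw [hb]; trivial
  rw [Submodule.mem_span_range_iff_exists_fun] at h8
  obtain ⟨r, hr⟩ := h8
  exact ⟨r, hr.symm⟩

end Gal

section Ind

variable {Z F0 Q : Type*} [Field Z] [Field F0] [Algebra Z F0] [DivisionRing Q] [Algebra Z Q]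

/-- independence of the Galois conjugates, coefficients on the left -/
theorem indep [Fintype (F0 ≃ₐ[Z] F0)] (Φ : F0 →ₐ[Z] Q) (v : (F0 ≃ₐ[Z] F0) → Q)
    (h : ∀ y, ∑ s, v s * Φ (s y) = 0) : ∀ s, v s = 0 := by
  classical
  let _ : Module F0 Q :=
    { smul := fun f q => q * Φ f
      one_smul := fun q => by
        show q * Φ 1 = q
        rw [map_one, mul_one]
      mul_smul := fun f g q => by
        show q * Φ (f * g) = (q * Φ g) * Φ f
        rw [mul_comm f g, map_mul, mul_assoc]
      smul_zero := fun f => by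
        show (0 : Q) * Φ f = 0
        rw [zero_mul]
      smul_add := fun f q q' => by
        show (q + q') * Φ f = q * Φ f + q' * Φ f
        rw [add_mul]
      add_smul := fun f g q => by
        show q * Φ (f + g) = q * Φ f + q * Φ g
        rw [map_add, mul_add]
      zero_smul := fun q => by
        show q * Φ 0 = 0
        rw [map_zero, mul_zero] }
  have hsm : ∀ (f : F0) (q : Q), f • q = q * Φ f := fun f q => rfl
  let b := Module.Basis.ofVectorSpace F0 Q
  intro s
  apply b.repr.injective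
  rw [map_zero]
  ext i
  have h1 : ∀ y : F0, ∑ t, b.repr (v t) i * (t : F0 ≃ₐ[Z] F0) y = 0 := by
    intro y
    have h2 := congrArg (fun q => b.repr q i) (h y)
    simp only [map_zero, Finsupp.coe_zero, Pi.zero_apply, map_sum, Finsupp.coe_finsetSum,
      Finset.sum_apply] at h2
    rw [← h2]
    refine Finset.sum_congr rfl fun t _ => ?_
    rw [← hsm, map_smul, Finsupp.smul_apply, smul_eq_mul, mul_comm]
  have h3 := (linearIndependent_monoidHom F0 F0).comp
    (fun t : F0 ≃ₐ[Z] F0 => ((t : F0 →ₐ[Z] F0) : F0 →* F0)) (by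
      intro t t' htt
      ext y
      exact DFunLike.congr_fun htt y)
  have h4 := Fintype.linearIndependent_iff.1 h3 (fun t => b.repr (v t) i) (by
    funext y
    simp only [Finset.sum_apply, Pi.smul_apply, smul_eq_mul, Pi.zero_apply]
    exact h1 y)
  exact h4 s

end Ind

end N6M

open N6M

theorem n6 (hDCT : LB.SpecDCT.{v}) {k : Type u} {H Z Q : Type v} [Field k] [CharZero k] [Ring H]
    [IsDomain H] [Algebra k H] [IsNoetherianRing H] [Field Z] [Algebra k Z] [DivisionRing Q]
    [Algebra k Q] [Algebra Z Q] [IsScalarTower k Z Q] {ι : H →ₐ[k] Q} (hQ : IsCQ k H Z Q ι)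
    (hci : ∀ c : H, Cent c → ∀ q : Q, q * ι c = ι c * q)
    (F0 : Type v) [Field F0] [Algebra k F0] [Algebra Z F0] [IsScalarTower k Z F0]
    [FiniteDimensional Z F0] [IsGalois Z F0] (Φ : F0 →ₐ[Z] Q)
    (hgr : ∀ h : H, ∃ p : (F0 ≃ₐ[Z] F0) → H, h = ∑ s, p s ∧
      ∀ s y, Φ y * ι (p s) = ι (p s) * Φ (s y))
    (hst : ∀ y, (∃ h, ι h = Φ y) → ∀ s : F0 ≃ₐ[Z] F0, ∃ h, ι h = Φ (s y))
    (H1 : Subalgebra k H) (hH1 : ∀ h, h ∈ H1 ↔ ∀ y, Φ y * ι h = ι h * Φ y)
    (hfin : Module.Finite (Subalgebra.center k H1) H1) :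
    Module.Finite (Subalgebra.center k H) H := by
  classical
  have hfinQ := hQ.fin
  have hΦk : ∀ c : k, Φ (algebraMap k F0 c) = algebraMap k Q c := by
    intro c
    rw [IsScalarTower.algebraMap_apply k Z F0, AlgHom.commutes, ← IsScalarTower.algebraMap_apply]
  have hzc : ∀ (z : Z) (q : Q), algebraMap Z Q z * q = q * algebraMap Z Q z := fun z q =>
    Algebra.commutes z q
  -- uniqueness of the components
  have huniq : ∀ p : (F0 ≃ₐ[Z] F0) → H, (∀ s y, Φ y * ι (p s) = ι (p s) * Φ (s y)) →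
      ∑ s, p s = 0 → ∀ s, p s = 0 := by
    intro p hp h0 s
    apply hQ.inj
    rw [map_zero]
    refine indep Φ (fun s => ι (p s)) (fun y => ?_) s
    have h1 : Φ y * ι (∑ s, p s) = 0 := by rw [h0, map_zero, mul_zero]
    rw [map_sum, Finset.mul_sum] at h1
    rw [← h1]
    exact Finset.sum_congr rfl fun s _ => (hp s y).symm
  have hone : ∀ h ∈ H1, ∀ y, Φ y * ι h = ι h * Φ ((1 : F0 ≃ₐ[Z] F0) y) := fun h hh y =>
    (hH1 h).1 hh y
  -- `H_1` is left Noetherian
  have hN1 : IsNoetherianRing H1 := by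
    have key : ∀ (I : Ideal H1), ∀ z ∈ Ideal.map (H1.val : H1 →+* H) I, ∀ a : H,
        ∃ q : (F0 ≃ₐ[Z] F0) → H, a * z = ∑ s, q s ∧
          (∀ s y, Φ y * ι (q s) = ι (q s) * Φ (s y)) ∧ ∃ i ∈ I, (i : H) = q 1 := by
      intro I z hz
      unfold Ideal.map Ideal.span at hz
      induction hz using Submodule.span_induction with
      | mem x hx =>
        obtain ⟨i, hi, rfl⟩ := hx
        intro a
        obtain ⟨p, hp1, hp2⟩ := hgr a
        have hi1 : (i : H) ∈ H1 := i.2
        refine ⟨fun s => p s * (i : H), ?_, fun s y => ?_, ?_⟩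
        · show a * (i : H) = _
          conv_lhs => rw [hp1]
          rw [Finset.sum_mul]
        · rw [map_mul, ← mul_assoc, hp2, mul_assoc, (hH1 _).1 hi1, ← mul_assoc]
        · have h1 : p 1 ∈ H1 := (hH1 _).2 fun y => hp2 1 y
          exact ⟨⟨p 1, h1⟩ * i, I.mul_mem_left _ hi, rfl⟩
      | zero =>
        intro a
        refine ⟨fun _ => 0, by simp, fun s y => by simp, 0, zero_mem _, rfl⟩
      | add x x' _ _ hx hx' =>
        intro a
        obtain ⟨q, hq1, hq2, i, hi, hi'⟩ := hx a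
        obtain ⟨q', hq1', hq2', i', hi1, hi1'⟩ := hx' a
        refine ⟨fun s => q s + q' s, ?_, fun s y => ?_, i + i', add_mem hi hi1, ?_⟩
        · rw [mul_add, hq1, hq1', Finset.sum_add_distrib]
        · rw [map_add, mul_add, add_mul, hq2, hq2']
        · show (i : H) + (i' : H) = _
          rw [hi', hi1']
      | smul b x _ hx =>
        intro a
        obtain ⟨q, hq⟩ := hx (a * b)
        refine ⟨q, ?_, hq.2⟩
        rw [smul_eq_mul, ← mul_assoc]
        exact hq.1
    have hmem : ∀ (I : Ideal H1) (x : H1), (x : H) ∈ Ideal.map (H1.val : H1 →+* H) I → x ∈ I := by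
      intro I x hx
      obtain ⟨q, hq1, hq2, i, hi, hi'⟩ := key I _ hx 1
      have h1 : ∑ s, (q s - if s = 1 then (x : H) else 0) = 0 := by
        rw [Finset.sum_sub_distrib, ← hq1, one_mul]
        simp
      have h2 := huniq _ (fun s y => ?_) h1 1
      · rw [if_pos rfl, sub_eq_zero, ← hi'] at h2
        rwa [← Subtype.ext h2]
      · rw [map_sub, mul_sub, sub_mul, hq2]
        congr 1
        split_ifs with hs
        · rw [hs]; exact hone _ x.2 y
        · rw [map_zero, mul_zero, zero_mul]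
    have hinj : Function.Injective (Ideal.map (H1.val : H1 →+* H)) := by
      have h2 : ∀ I J : Ideal H1, Ideal.map (H1.val : H1 →+* H) I = Ideal.map (H1.val : H1 →+* H) J →
          I ≤ J := by
        intro I J hIJ x hx
        exact hmem J x (by rw [← hIJ]; exact Ideal.mem_map_of_mem (H1.val : H1 →+* H) hx)
      intro I J hIJ
      exact le_antisymm (h2 I J hIJ) (h2 J I hIJ.symm)
    have hmono : Monotone (Ideal.map (H1.val : H1 →+* H)) := fun I J h => Ideal.map_mono h
    rw [isNoetherianRing_iff, isNoetherian_iff']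
    have : WellFoundedGT (Ideal H) := isNoetherian_iff'.1 inferInstance
    exact (hmono.strictMono_of_injective hinj).wellFoundedGT
  -- `B = {y : Φ y ∈ H}`
  let B : Subalgebra k F0 :=
    { carrier := {y | ∃ h, ι h = Φ y}
      mul_mem' := fun {a b} ⟨x, hx⟩ ⟨y, hy⟩ => ⟨x * y, by rw [map_mul, hx, hy, map_mul]⟩
      add_mem' := fun {a b} ⟨x, hx⟩ ⟨y, hy⟩ => ⟨x + y, by rw [map_add, hx, hy, map_add]⟩
      algebraMap_mem' := fun c => ⟨algebraMap k H c, by rw [hΦk]; exact ι.commutes c⟩ }
  have hg0 : ∀ b : B, ∃ h : H1, ι (h : H) = Φ b := by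
    rintro ⟨b, h, hh⟩
    exact ⟨⟨h, (hH1 h).2 fun y => by rw [hh, ← map_mul, ← map_mul, mul_comm]⟩, hh⟩
  choose g hg using hg0
  have hι1 : ∀ x y : H1, ι (x : H) = ι (y : H) → x = y := fun x y h => Subtype.ext (hQ.inj h)
  let gh : B →+* H1 :=
    { toFun := g
      map_one' := hι1 _ _ (by rw [hg]; show Φ 1 = ι 1; rw [map_one, map_one])
      map_mul' := fun a b => hι1 _ _ (by
        rw [hg]
        show Φ ((a : F0) * (b : F0)) = ι ((g a : H) * (g b : H))
        rw [map_mul, map_mul, hg, hg])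
      map_zero' := hι1 _ _ (by rw [hg]; show Φ 0 = ι 0; rw [map_zero, map_zero])
      map_add' := fun a b => hι1 _ _ (by
        rw [hg]
        show Φ ((a : F0) + (b : F0)) = ι ((g a : H) + (g b : H))
        rw [map_add, map_add, hg, hg]) }
  have hgc : ∀ (b : B) (x : H1), gh b * x = x * gh b := by
    intro b x
    apply hι1
    show ι ((g b : H) * (x : H)) = ι ((x : H) * (g b : H))
    rw [map_mul, map_mul, hg]
    exact (hH1 _).1 x.2 _
  let _ : Algebra B H1 := gh.toAlgebra' hgc
  have hBsm : ∀ (b : B) (x : H1), b • x = g b * x := fun b x => rfl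
  -- the centre of `H_1`
  have hcen : ∀ a : H1, a ∈ Subalgebra.center k H1 → ∃ b : B, a = g b := by
    intro a ha
    have hf : IsField Φ.range := by
      have e := (AlgEquiv.ofInjective Φ Φ.toRingHom.injective).symm
      exact MulEquiv.isField (Field.toIsField F0) (e : Φ.range ≃* F0)
    obtain ⟨-, h2⟩ := hDCT Z Q hQ.cent Φ.range hf
    have h3 : ι (a : H) ∈ Subalgebra.centralizer Z (Φ.range : Set Q) := by
      rw [Subalgebra.mem_centralizer_iff]
      rintro _ ⟨y, rfl⟩
      exact (hH1 _).1 a.2 y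
    have h4 := h2 _ h3 (fun m hm => by
      obtain ⟨c, h, hc0, hc, hch⟩ := hQ.frac m
      have hc1 : ι c ≠ 0 := fun e => hc0 (hQ.inj (by rw [e, map_zero]))
      rw [Subalgebra.mem_centralizer_iff] at hm
      have hh : h ∈ H1 := (hH1 h).2 fun y => by
        rw [← hch, ← mul_assoc, hci c hc, mul_assoc, hm (Φ y) ⟨y, rfl⟩, mul_assoc]
      have h5 : ι h * ι (a : H) = ι (a : H) * ι h := by
        have h6 := (Subalgebra.mem_center_iff.1 ha) ⟨h, hh⟩
        have h7 := congrArg (fun x : H1 => ι (x : H)) h6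
        simpa using h7
      apply mul_left_cancel₀ hc1
      rw [← mul_assoc, hch, h5, ← hch, ← mul_assoc, hci c hc, mul_assoc])
    obtain ⟨y, hy⟩ := h4
    have hyB : y ∈ B := ⟨a, hy.symm⟩
    exact ⟨⟨y, hyB⟩, hι1 _ _ (by rw [hg]; exact hy.symm)⟩
  -- `H_1` is finite over `B`
  have hfB : Module.Finite B H1 := by
    obtain ⟨n, x, hx⟩ := Module.Finite.exists_fin (R := Subalgebra.center k H1) (M := H1)
    refine ⟨⟨Finset.univ.image x, ?_⟩⟩
    rw [Finset.coe_image, Finset.coe_univ, Set.image_univ, eq_top_iff]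
    rintro y -
    have h1 : y ∈ Submodule.span (Subalgebra.center k H1) (Set.range x) := by rw [hx]; trivial
    induction h1 using Submodule.span_induction with
    | mem y hy => exact Submodule.subset_span hy
    | zero => exact zero_mem _
    | add y z _ _ hy hz => exact add_mem hy hz
    | smul c y _ hy =>
      obtain ⟨b, hb⟩ := hcen (c : H1) c.2
      have h2 : c • y = b • y := by
        rw [hBsm, ← hb]; rfl
      rw [h2]
      exact Submodule.smul_mem _ _ hy
  have hBN : IsNoetherianRing B := by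
    refine EAKM.eakin (A := B) (R := H1) ?_
    intro b b' hbb
    have h1 : g b = g b' := hbb
    have h2 : Φ (b : F0) = Φ (b' : F0) := by rw [← hg, ← hg, h1]
    exact Subtype.ext (Φ.toRingHom.injective h2)
  obtain ⟨hRN, n, b, hb⟩ := galois_finite (Z := Z) B (fun s y hy => hst y hy s) (fun y => by
    obtain ⟨c, h, hc0, hc, hch⟩ := hQ.frac (Φ y)
    obtain ⟨z, hz⟩ := hQ.cent (ι c) (fun q => hci c hc q)
    refine ⟨z, fun h0 => hc0 (hQ.inj ?_), h, ?_⟩
    · rw [← hz, h0, map_zero, map_zero]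
    · rw [map_mul, AlgHom.commutes, hz, hch]) hBN
  -- the action of `R = B ∩ Z` on `H`
  have hrc : ∀ (r : RB Z B), (g (rb Z B r) : H) ∈ Subalgebra.center k H := by
    intro r
    rw [Subalgebra.mem_center_iff]
    intro x
    apply hQ.inj
    rw [map_mul, map_mul, hg, rb_coe, AlgHom.commutes]
    exact (hzc _ _).symm
  let c0 : RB Z B →+* Subalgebra.center k H :=
    { toFun := fun r => ⟨g (rb Z B r), hrc r⟩
      map_one' := Subtype.ext (by
        show ((gh (rb Z B 1) : H1) : H) = 1
        rw [map_one, map_one]; rfl)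
      map_mul' := fun a b => Subtype.ext (by
        show ((gh (rb Z B (a * b)) : H1) : H) = ((gh (rb Z B a) : H1) : H) * ((gh (rb Z B b) : H1) : H)
        rw [map_mul, map_mul]; rfl)
      map_zero' := Subtype.ext (by
        show ((gh (rb Z B 0) : H1) : H) = 0
        rw [map_zero, map_zero]; rfl)
      map_add' := fun a b => Subtype.ext (by
        show ((gh (rb Z B (a + b)) : H1) : H) = ((gh (rb Z B a) : H1) : H) + ((gh (rb Z B b) : H1) : H)
        rw [map_add, map_add]; rfl) }
  let _ : Algebra (RB Z B) (Subalgebra.center k H) := c0.toAlgebra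
  let _ : Module (RB Z B) H := Module.compHom H c0
  have hRsm : ∀ (r : RB Z B) (x : H), r • x = (g (rb Z B r) : H) * x := fun r x => rfl
  have hιR : ∀ (r : RB Z B) (x : H), ι (r • x) = algebraMap Z Q (r : Z) * ι x := by
    intro r x
    rw [hRsm, map_mul, hg, rb_coe, AlgHom.commutes]
  have htow : IsScalarTower (RB Z B) (Subalgebra.center k H) H :=
    ⟨fun r a x => by
      show ((c0 r * a : Subalgebra.center k H) : H) * x = (g (rb Z B r) : H) * ((a : H) * x)
      rw [← mul_assoc]; rfl⟩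
  -- `H_1` is contained in a finite `R`-module
  obtain ⟨m, x, hx⟩ := Module.Finite.exists_fin (R := B) (M := H1)
  let S1 : Submodule (RB Z B) H :=
    Submodule.span (RB Z B) (Set.range fun p : Fin n × Fin m => (g (b p.1) : H) * (x p.2 : H))
  have hS1 : ∀ h ∈ H1, h ∈ S1 := by
    intro h hh
    have h1 : (⟨h, hh⟩ : H1) ∈ Submodule.span B (Set.range x) := by rw [hx]; trivial
    rw [Submodule.mem_span_range_iff_exists_fun] at h1
    obtain ⟨c, hc⟩ := h1
    have h2 : h = ∑ i, (g (c i) : H) * (x i : H) := by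
      have h3 := congrArg (fun y : H1 => (y : H)) hc
      simp only [AddSubmonoidClass.coe_finsetSum] at h3
      rw [← h3]
      rfl
    rw [h2]
    refine sum_mem fun i _ => ?_
    obtain ⟨r, hr⟩ := hb (c i)
    have h4 : (g (c i) : H) = ∑ l, (g (rb Z B (r l)) : H) * (g (b l) : H) := by
      have h5 : gh (c i) = ∑ l, gh (rb Z B (r l)) * gh (b l) := by
        conv_lhs => rw [hr]
        rw [map_sum]
        exact Finset.sum_congr rfl fun l _ => map_mul _ _ _
      have h6 := congrArg (fun y : H1 => (y : H)) h5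
      simp only [AddSubmonoidClass.coe_finsetSum] at h6
      exact h6
    rw [h4, Finset.sum_mul]
    refine sum_mem fun l _ => ?_
    rw [mul_assoc]
    exact Submodule.smul_mem S1 (r l) (Submodule.subset_span ⟨(l, i), rfl⟩)
  have hS1N : IsNoetherian (RB Z B) S1 := by
    have : S1.FG := ⟨Finset.univ.image fun p : Fin n × Fin m => (g (b p.1) : H) * (x p.2 : H), by
      rw [Finset.coe_image, Finset.coe_univ, Set.image_univ]⟩
    exact isNoetherian_of_fg_of_noetherian S1 this
  -- the components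
  let Hs : (F0 ≃ₐ[Z] F0) → Submodule (RB Z B) H := fun s =>
    { carrier := {h | ∀ y, Φ y * ι h = ι h * Φ (s y)}
      add_mem' := fun {a b} ha hb y => by rw [map_add, mul_add, add_mul, ha y, hb y]
      zero_mem' := fun y => by rw [map_zero, mul_zero, zero_mul]
      smul_mem' := fun r a ha y => by
        rw [hιR, ← mul_assoc, ← hzc, mul_assoc, ha y, ← mul_assoc] }
  have hmul : ∀ s t (a b : H), a ∈ Hs s → b ∈ Hs t → a * b ∈ Hs (t * s) := by
    intro s t a b ha hb y
    rw [map_mul, ← mul_assoc, ha y, mul_assoc, hb (s y), ← mul_assoc]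
    rfl
  have hpow : ∀ s (a : H), a ∈ Hs s → ∀ e : ℕ, a ^ e ∈ Hs (s ^ e) := by
    intro s a ha e
    induction e with
    | zero =>
      intro y
      rw [pow_zero, pow_zero, map_one, mul_one, one_mul]; rfl
    | succ e ih =>
      have h1 := hmul (s ^ e) s (a ^ e) a ih ha
      rwa [← pow_succ, ← pow_succ'] at h1
  have hHsN : ∀ s, IsNoetherian (RB Z B) (Hs s) := by
    intro s
    by_cases h0 : ∃ a ∈ Hs s, a ≠ 0
    · obtain ⟨a, ha, ha0⟩ := h0
      have hcard : s ^ (Fintype.card (F0 ≃ₐ[Z] F0) - 1) * s = 1 := by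
        rw [← pow_succ, Nat.sub_add_cancel Fintype.card_pos, pow_card_eq_one]
      have h1 : ∀ u ∈ Hs s, u * a ^ (Fintype.card (F0 ≃ₐ[Z] F0) - 1) ∈ H1 := by
        intro u hu
        have h2 := hmul _ _ _ _ hu (hpow s a ha (Fintype.card (F0 ≃ₐ[Z] F0) - 1))
        rw [hcard] at h2
        exact (hH1 _).2 fun y => h2 y
      let f : Hs s →ₗ[RB Z B] S1 :=
        { toFun := fun u => ⟨(u : H) * a ^ (Fintype.card (F0 ≃ₐ[Z] F0) - 1), hS1 _ (h1 _ u.2)⟩
          map_add' := fun u u' => Subtype.ext (add_mul _ _ _)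
          map_smul' := fun r u => Subtype.ext (by
            show ((g (rb Z B r) : H) * (u : H)) * _ = (g (rb Z B r) : H) * ((u : H) * _)
            rw [mul_assoc]) }
      refine isNoetherian_of_injective f ?_
      intro u u' huu
      have h3 : (u : H) * a ^ (Fintype.card (F0 ≃ₐ[Z] F0) - 1) =
          (u' : H) * a ^ (Fintype.card (F0 ≃ₐ[Z] F0) - 1) := congrArg Subtype.val huu
      exact Subtype.ext (mul_right_cancel₀ (pow_ne_zero _ ha0) h3)
    · have h1 : Hs s = ⊥ := by
        rw [eq_bot_iff]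
        intro a ha
        rw [Submodule.mem_bot]
        by_contra ha0
        exact h0 ⟨a, ha, ha0⟩
      rw [h1]
      infer_instance
  have hsup : (⨆ s, Hs s) = ⊤ := by
    rw [eq_top_iff]
    rintro h -
    obtain ⟨p, hp1, hp2⟩ := hgr h
    rw [hp1]
    exact sum_mem fun s _ => Submodule.mem_iSup_of_mem s (hp2 s)
  have hHN : IsNoetherian (RB Z B) H := by
    have h1 : IsNoetherian (RB Z B) ↥(⨆ s, Hs s) := isNoetherian_iSup
    rw [hsup] at h1
    exact isNoetherian_top_iff.1 h1
  exact Module.Finite.of_restrictScalars_finite (RB Z B) (Subalgebra.center k H) H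

end Pool.Agent.Lib.MP_c37a72_al.NR
end

section
/-!
# MP_c37a72_al, block NR: module NFG

If `H_1` is finite over its centre then so is `H` (from `N6.lean`).
-/
set_option autoImplicit false

open scoped TensorProduct
open Coalgebra HopfAlgebra

namespace Pool.Agent.Lib.MP_c37a72_al.NR

universe u v w

namespace NFGM

theorem finite_range {k : Type u} {H1 H : Type v} [Field k] [Ring H1] [Algebra k H1] [Ring H]
    [Algebra k H] (i : H1 →ₐ[k] H) (hi : Function.Injective i)
    (hfin : Module.Finite (Subalgebra.center k H1) H1) :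
    Module.Finite (Subalgebra.center k ↥i.range) ↥i.range := by
  classical
  let e : H1 ≃ₐ[k] ↥i.range := AlgEquiv.ofInjective i hi
  obtain ⟨n, x, hx⟩ := Module.Finite.exists_fin (R := Subalgebra.center k H1) (M := H1)
  refine ⟨⟨Finset.univ.image fun j => e (x j), ?_⟩⟩
  rw [Finset.coe_image, Finset.coe_univ, Set.image_univ, eq_top_iff]
  rintro y -
  have key : ∀ z : H1, e z ∈ Submodule.span (Subalgebra.center k ↥i.range)
      (Set.range fun j => e (x j)) := by
    intro z
    have h1 : z ∈ Submodule.span (Subalgebra.center k H1) (Set.range x) := by rw [hx]; trivial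
    induction h1 using Submodule.span_induction with
    | mem y hy => obtain ⟨j, rfl⟩ := hy; exact Submodule.subset_span ⟨j, rfl⟩
    | zero => rw [map_zero]; exact zero_mem _
    | add y z _ _ hy hz => rw [map_add]; exact add_mem hy hz
    | smul c y _ hy =>
      have hc : e (c : H1) ∈ Subalgebra.center k ↥i.range := by
        rw [Subalgebra.mem_center_iff]
        intro b
        obtain ⟨b', rfl⟩ := e.surjective b
        rw [← map_mul, ← map_mul, (Subalgebra.mem_center_iff.1 c.2) b']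
      have h2 : e (c • y) = (⟨e (c : H1), hc⟩ : Subalgebra.center k ↥i.range) • e y := by
        show e ((c : H1) * y) = e (c : H1) * e y
        rw [map_mul]
      rw [h2]
      exact Submodule.smul_mem _ _ hy
  obtain ⟨z, rfl⟩ := e.surjective y
  exact key z

end NFGM

theorem specNFG (hDCT : LB.SpecDCT.{v}) (hHSM : SpecHSM.{u, v}) (hALS : SpecALS.{u, v}) :
    SpecNFG.{u, v} := by
  intro k H Z Q Y H1 _ _ _ _ _ _ _ _ _ _ ι _ _ _ _ Φ _ _ i hQ hY hi hN hfin
  have hdom : IsDomain H := hQ.inj.isDomain ι.toRingHom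
  have := hY.fin
  have := hY.gal
  obtain ⟨h1, -⟩ := hHSM k H Z Q Y ι Φ hQ hY
  obtain ⟨-, h2⟩ := hALS k H Z Q Y ι Φ hQ hY
  refine n6 hDCT hQ (fun c hc q => REGM.cent_image hQ hc q) Y Φ (fun h => ?_) h2 i.range
    (fun h => ?_) (NFGM.finite_range i hi.inj hfin)
  · obtain ⟨p, hp1, hp2⟩ := h1 h
    exact ⟨p, hp2, fun s y => hp1 s y⟩
  · have h3 := hi.range h
    rw [mem_Hs] at h3
    constructor
    · rintro ⟨x, hx⟩ y
      have := h3.2 ⟨x, hx⟩ y
      exact this
    · intro hh
      obtain ⟨x, hx⟩ := h3.1 (fun y => hh y)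
      exact ⟨x, hx⟩

end Pool.Agent.Lib.MP_c37a72_al.NR
end

section
set_option autoImplicit false

open scoped TensorProduct
open Coalgebra HopfAlgebra

namespace Pool.Agent.Lib.MP_c37a72_al.NR

universe u v

/-- **NID**: induction on `[Q : Z]`. -/
theorem specNID (hHX1 : SpecHX1.{u, v}) (hNTH : SpecNTH.{u, v}) (hQCE : SpecQCE.{u, v})
    (hNFG : SpecNFG.{u, v}) : SpecNID.{u, v} := by
  intro halt
  have key : ∀ (n : ℕ) (k : Type u) (H Z Q : Type v) [Field k] [IsAlgClosed k] [CharZero k]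
      [Ring H] [IsDomain H] [IsNoetherianRing H] [HopfAlgebra k H] [Field Z] [Algebra k Z]
      [DivisionRing Q] [Algebra k Q] [Algebra Z Q] [IsScalarTower k Z Q] (ι : H →ₐ[k] Q),
      IsCQ k H Z Q ι → Function.Bijective (antipode k (A := H)) → Module.finrank Z Q = n →
      Module.Finite (Subalgebra.center k H) H := by
    intro n
    induction n using Nat.strong_induction_on with
    | _ n ih =>
      intro k H Z Q _ _ _ _ _ _ _ _ _ _ _ _ _ ι hcq hbij hn
      rcases halt k H Z Q ι hcq hbij with h | ⟨Y, iY1, iY2, iY3, iY4, Φ, hYD⟩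
      · exact h
      · obtain ⟨H1, iH1, iH2, i, hi, hb1⟩ := hHX1 k H Z Q Y ι Φ hcq hbij hYD
        have hno : IsNoetherianRing H1 := hNTH k H Z Q Y H1 ι Φ i hcq hYD hi inferInstance
        have hdo : IsDomain H1 := Function.Injective.isDomain (i : H1 →+* H) hi.inj
        obtain ⟨Q1, iQ1, iQ2, iQ3, iQ4, ι1, c, hcq1, hlt, -, -⟩ :=
          hQCE k H Z Q Y H1 ι Φ i hcq hYD hi
        have hfin : Module.Finite (Subalgebra.center k H1) H1 :=
          ih (Module.finrank Y Q1) (by rw [← hn]; exact hlt) k H1 Y Q1 ι1 hcq1 hb1 rfl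
        exact hNFG k H Z Q Y H1 ι Φ i hcq hYD hi inferInstance hfin
  intro k H Z Q _ _ _ _ _ _ _ _ _ _ _ _ _ ι hcq hbij
  exact key (Module.finrank Z Q) k H Z Q ι hcq hbij rfl

end Pool.Agent.Lib.MP_c37a72_al.NR
end

section
/-!
# MP_c37a72_al, block NR, module NTH: `H_1` is Noetherian
-/
set_option autoImplicit false

open scoped TensorProduct
open Coalgebra HopfAlgebra
open Pool.Agent.Lib.MP_c37a72_al.EG Pool.Agent.Lib.MP_c37a72_al.CO

namespace Pool.Agent.Lib.MP_c37a72_al.NR

universe u v w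

theorem specNTH (hHSM : SpecHSM.{u, v}) : SpecNTH.{u, v} := by
  intro k H Z Q Y H1 _ _ _ _ _ _ _ _ _ ι _ _ _ _ Φ _ _ i hQ hY hi hN
  have hfin : Module.Finite Z Y := hY.fin
  have : Finite (Y ≃ₐ[Z] Y) := inferInstance
  have : Fintype (Y ≃ₐ[Z] Y) := Fintype.ofFinite _
  classical
  obtain ⟨hdec, hdir, hmul, -⟩ := hHSM k H Z Q Y ι Φ hQ hY
  have hi1 : ∀ x : H1, i x ∈ Hs ι Φ 1 := fun x => (hi.range _).2 ⟨x, rfl⟩
  -- `i(x) ∈ J^e` implies `x ∈ J`
  have key : ∀ (J : Submodule H1 H1) (x : H1), i x ∈ Submodule.span H (i '' (J : Set H1)) →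
      x ∈ J := by
    intro J x hx
    obtain ⟨n, f, g, hfg⟩ := (Submodule.mem_span_set' (R := H)).1 hx
    have hg : ∀ j, ∃ a ∈ J, i a = (g j : H) := fun j => (g j).2
    choose a haJ hia using hg
    choose p hp1 hp2 using fun j => hdec (f j)
    have hx1 : i x = ∑ s, ∑ j, p j s * i (a j) := by
      rw [← hfg, Finset.sum_comm]
      refine Finset.sum_congr rfl fun j _ => ?_
      rw [smul_eq_mul, ← hia j, ← Finset.sum_mul, ← hp2 j]
    let q : (Y ≃ₐ[Z] Y) → H := fun s => (∑ j, p j s * i (a j)) - if s = 1 then i x else 0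
    have hq1 : ∀ s, q s ∈ Hs ι Φ s := by
      intro s
      refine (Hs ι Φ s).sub_mem ((Hs ι Φ s).sum_mem fun j _ => ?_) ?_
      · have := hmul s 1 _ (hp1 j s) _ (hi1 (a j))
        rwa [one_mul] at this
      · split_ifs with h
        · rw [h]
          exact hi1 x
        · exact (Hs ι Φ s).zero_mem
    have hq2 : ∑ s, q s = 0 := by
      simp only [q]
      rw [Finset.sum_sub_distrib, ← hx1, Finset.sum_ite_eq' Finset.univ (1 : Y ≃ₐ[Z] Y),
        if_pos (Finset.mem_univ _), sub_self]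
    have h3 := hdir q hq1 hq2 1
    simp only [q, if_true] at h3
    rw [sub_eq_zero] at h3
    choose b hb using fun j => (hi.range (p j 1)).1 (hp1 j 1)
    have h4 : x = ∑ j, b j * a j := by
      apply hi.inj
      rw [← h3, map_sum]
      refine Finset.sum_congr rfl fun j _ => ?_
      rw [map_mul, hb j]
    rw [h4]
    exact J.sum_mem fun j _ => J.smul_mem (b j) (haJ j)
  rw [isNoetherianRing_iff, ← monotone_stabilizes_iff_noetherian]
  intro f
  let F : ℕ →o Submodule H H :=
    ⟨fun n => Submodule.span H (i '' (f n : Set H1)), fun m n hmn =>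
      Submodule.span_mono (Set.image_mono (f.monotone hmn))⟩
  obtain ⟨n, hn⟩ := monotone_stabilizes_iff_noetherian.2 (isNoetherianRing_iff.1 hN) F
  refine ⟨n, fun m hm => le_antisymm (f.monotone hm) fun x hx => ?_⟩
  apply key (f n) x
  have h1 : i x ∈ F m := Submodule.subset_span ⟨x, hx, rfl⟩
  rw [← hn m hm] at h1
  exact h1

end Pool.Agent.Lib.MP_c37a72_al.NR
end

section
/-!
# MP_c37a72_al, block NR, module PHI: the field `Y` and `Φ : Y → Q`
-/
set_option autoImplicit false

open scoped TensorProduct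
open Coalgebra HopfAlgebra
open Pool.Agent.Lib.MP_c37a72_al.EG Pool.Agent.Lib.MP_c37a72_al.CO

namespace Pool.Agent.Lib.MP_c37a72_al.NR

universe u v w

namespace PHIM

variable {Z Q L : Type v} [Field Z] [DivisionRing Q] [Algebra Z Q] [Field L] [Algebra Z L]

theorem gs_mul (s t : L ≃ₐ[Z] L) (x : Q ⊗[Z] L) : gs Q (s * t) x = gs Q s (gs Q t x) := by
  induction x using TensorProduct.induction_on with
  | zero => simp
  | add a b ha hb => rw [map_add, map_add, map_add, ha, hb]
  | tmul a p => rfl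

theorem gs_one (x : Q ⊗[Z] L) : gs Q (1 : L ≃ₐ[Z] L) x = x := by
  induction x using TensorProduct.induction_on with
  | zero => simp
  | add a b ha hb => rw [map_add, ha, hb]
  | tmul a p => rfl

/-- `1 ⊗ l` is central. -/
theorem comm_r (x : Q ⊗[Z] L) (l : L) : x * ((1 : Q) ⊗ₜ[Z] l) = ((1 : Q) ⊗ₜ[Z] l) * x := by
  induction x using TensorProduct.induction_on with
  | zero => simp
  | add a b ha hb => rw [add_mul, mul_add, ha, hb]
  | tmul a p =>
    rw [Algebra.TensorProduct.tmul_mul_tmul, Algebra.TensorProduct.tmul_mul_tmul, mul_one, one_mul,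
      mul_comm]

theorem r_mul (l l' : L) : ((1 : Q) ⊗ₜ[Z] l) * ((1 : Q) ⊗ₜ[Z] l') = (1 : Q) ⊗ₜ[Z] (l * l') := by
  rw [Algebra.TensorProduct.tmul_mul_tmul, mul_one]

/-- fixed points of `gs`. -/
theorem fixed [Module.Finite Z L] [IsGalois Z L] (x : Q ⊗[Z] L) (h : ∀ s : L ≃ₐ[Z] L, gs Q s x = x) :
    ∃ q : Q, q ⊗ₜ[Z] (1 : L) = x := by
  classical
  let b := Module.Basis.ofVectorSpace Z Q
  let E := TensorProduct.equivFinsuppOfBasisLeft (N := L) b
  have h1 : ∀ (s : L ≃ₐ[Z] L) (y : Q ⊗[Z] L) i, E (gs Q s y) i = s (E y i) := by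
    intro s y i
    induction y using TensorProduct.induction_on with
    | zero => simp
    | add a c ha hc => rw [map_add, map_add, map_add, Finsupp.add_apply, Finsupp.add_apply, map_add,
        ha, hc]
    | tmul a p =>
      rw [gs_tmul, TensorProduct.equivFinsuppOfBasisLeft_apply_tmul_apply,
        TensorProduct.equivFinsuppOfBasisLeft_apply_tmul_apply, map_smul]
  have h2 : ∀ i, ∃ z : Z, algebraMap Z L z = E x i := fun i =>
    (IsGalois.mem_range_algebraMap_iff_fixed (F := Z) (E x i)).2 fun s => by rw [← h1, h]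
  choose z hz using h2
  have hx : E.symm (E x) = x := E.symm_apply_apply x
  have h3 : E.symm (E x) = (E x).sum fun i m => b i ⊗ₜ[Z] m :=
    TensorProduct.equivFinsuppOfBasisLeft_symm_apply b (E x)
  rw [hx] at h3
  refine ⟨∑ i ∈ (E x).support, z i • b i, ?_⟩
  refine Eq.trans ?_ h3.symm
  rw [TensorProduct.sum_tmul, Finsupp.sum]
  refine Finset.sum_congr rfl fun i _ => ?_
  rw [← hz i, TensorProduct.smul_tmul, Algebra.smul_def, mul_one]

theorem incl_inj [Module.Finite Z L] : Function.Injective fun q : Q => q ⊗ₜ[Z] (1 : L) :=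
  Algebra.TensorProduct.includeLeft_injective (S := Z) (algebraMap Z L).injective

theorem rT_gs (T : Q →ₗ[Z] Q) (s : L ≃ₐ[Z] L) (x : Q ⊗[Z] L) :
    T.rTensor L (gs Q s x) = gs Q s (T.rTensor L x) := by
  induction x using TensorProduct.induction_on with
  | zero => simp
  | add a b ha hb => rw [map_add, map_add, map_add, map_add, ha, hb]
  | tmul a p => rfl

theorem rT_r (T : Q →ₗ[Z] Q) (x : Q ⊗[Z] L) (l : L) :
    T.rTensor L (x * ((1 : Q) ⊗ₜ[Z] l)) = T.rTensor L x * ((1 : Q) ⊗ₜ[Z] l) := by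
  induction x using TensorProduct.induction_on with
  | zero => simp
  | add a b ha hb => rw [add_mul, map_add, map_add, ha, hb, add_mul]
  | tmul a p =>
    rw [Algebra.TensorProduct.tmul_mul_tmul, mul_one, LinearMap.rTensor_tmul,
      LinearMap.rTensor_tmul, Algebra.TensorProduct.tmul_mul_tmul, mul_one]

variable [Fintype (L ≃ₐ[Z] L)]

/-- `∑ s(ε) (1 ⊗ s f)` -/
noncomputable def pp (ε : Q ⊗[Z] L) : L →ₗ[Z] Q ⊗[Z] L :=
  ∑ s : L ≃ₐ[Z] L, (LinearMap.mulLeft Z (gs Q s ε)) ∘ₗ
    (Algebra.TensorProduct.includeRight : L →ₐ[Z] Q ⊗[Z] L).toLinearMap ∘ₗ s.toLinearMap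

theorem pp_apply (ε : Q ⊗[Z] L) (f : L) :
    pp ε f = ∑ s : L ≃ₐ[Z] L, gs Q s ε * ((1 : Q) ⊗ₜ[Z] s f) := by
  rw [pp, LinearMap.sum_apply]
  rfl

theorem gs_pp (ε : Q ⊗[Z] L) (f : L) (t : L ≃ₐ[Z] L) : gs Q t (pp ε f) = pp ε f := by
  rw [pp_apply, map_sum]
  refine Fintype.sum_equiv (Equiv.mulLeft t) _ _ fun s => ?_
  rw [map_mul, ← gs_mul]
  rfl

theorem rT_pp (T : Q →ₗ[Z] Q) (ε : Q ⊗[Z] L) (f : L) :
    T.rTensor L (pp ε f) = pp (T.rTensor L ε) f := by
  rw [pp_apply, pp_apply, map_sum]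
  refine Finset.sum_congr rfl fun s _ => ?_
  rw [rT_r, rT_gs]

theorem pp_gs (ε : Q ⊗[Z] L) (r : L ≃ₐ[Z] L) (f : L) : pp (gs Q r ε) f = pp ε (r⁻¹ f) := by
  rw [pp_apply, pp_apply]
  refine Fintype.sum_equiv (Equiv.mulRight r) _ _ fun s => ?_
  rw [← gs_mul]
  show gs Q (s * r) ε * _ = gs Q (s * r) ε * (1 ⊗ₜ[Z] (s * r * r⁻¹) f)
  rw [mul_inv_cancel_right]

theorem pp_sum {ι : Type*} (S : Finset ι) (x : ι → Q ⊗[Z] L) (f : L) :
    pp (∑ i ∈ S, x i) f = ∑ i ∈ S, pp (x i) f := by
  simp only [pp_apply, map_sum, Finset.sum_mul]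
  rw [Finset.sum_comm]

theorem pp_smul {k : Type u} [Field k] [Algebra k Z] [Algebra k Q] [IsScalarTower k Z Q]
    (d : k) (x : Q ⊗[Z] L) (f : L) : pp (d • x) f = d • pp x f := by
  rw [pp_apply, pp_apply, Finset.smul_sum]
  refine Finset.sum_congr rfl fun t _ => ?_
  have h8 : gs Q t (d • x) = d • gs Q t x := by
    rw [← algebraMap_smul Z d, map_smul, algebraMap_smul]
  rw [h8, smul_mul_assoc]

theorem pp_mul {N : Subgroup (L ≃ₐ[Z] L)} {ε : Q ⊗[Z] L} (h1 : ε * ε = ε)
    (h2 : ∀ s ∈ N, gs Q s ε = ε) (h3 : ∀ s, s ∉ N → ε * gs Q s ε = 0) (f f' : L)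
    (hf' : ∀ s ∈ N, s f' = f') : pp ε f * pp ε f' = (Nat.card ↥N : Z) • pp ε (f * f') := by
  classical
  rw [pp_apply, pp_apply, Finset.sum_mul, pp_apply, Finset.smul_sum]
  refine Finset.sum_congr rfl fun s _ => ?_
  have h4 : ∀ t : L ≃ₐ[Z] L, gs Q s ε * ((1 : Q) ⊗ₜ[Z] s f) * (gs Q t ε * ((1 : Q) ⊗ₜ[Z] t f')) =
      gs Q s (ε * gs Q (s⁻¹ * t) ε) * ((1 : Q) ⊗ₜ[Z] (s f * t f')) := by
    intro t
    rw [map_mul, ← gs_mul, mul_inv_cancel_left, mul_assoc, ← mul_assoc ((1 : Q) ⊗ₜ[Z] s f),
      ← comm_r, mul_assoc (gs Q t ε), r_mul, mul_assoc]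
  rw [Finset.mul_sum, Finset.sum_congr rfl fun t _ => h4 t]
  rw [← Fintype.sum_equiv (Equiv.mulLeft s)
    (fun u => gs Q s (ε * gs Q u ε) * ((1 : Q) ⊗ₜ[Z] (s f * s (u f')))) _ fun u => by
      show _ = gs Q s (ε * gs Q (s⁻¹ * (s * u)) ε) * ((1 : Q) ⊗ₜ[Z] (s f * (s * u) f'))
      rw [inv_mul_cancel_left]
      rfl]
  rw [← Finset.sum_filter_add_sum_filter_not Finset.univ (fun u => u ∈ N)]
  rw [Finset.sum_congr (g := fun u => gs Q s ε * ((1 : Q) ⊗ₜ[Z] s (f * f'))) rfl fun u hu => by
      have hu' : u ∈ N := (Finset.mem_filter.1 hu).2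
      rw [h2 u hu', h1, hf' u hu', map_mul]]
  rw [Finset.sum_eq_zero (s := Finset.univ.filter fun u => ¬ u ∈ N) fun u hu => by
      rw [h3 u (Finset.mem_filter.1 hu).2, map_zero, zero_mul], add_zero, Finset.sum_const]
  have h5 : (Finset.univ.filter fun u : L ≃ₐ[Z] L => u ∈ N).card = Nat.card ↥N := by
    rw [Nat.card_eq_fintype_card, Fintype.card_subtype]
  rw [h5, Nat.cast_smul_eq_nsmul]

end PHIM

open PHIM

theorem specPHI : SpecPHI.{u, v} := by
  classical
  intro k Z Q L _ _ _ _ _ _ _ _ _ _ _ _ _ _ _ _ N _ hN ε h1 h2 h3 h4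
  have : CharZero Z := charZero_of_injective_algebraMap (algebraMap k Z).injective
  have hc : (Nat.card ↥N : Z) ≠ 0 := Nat.cast_ne_zero.2 Nat.card_pos.ne'
  set c : Z := (Nat.card ↥N : Z)⁻¹ with hcd
  let Y := IntermediateField.fixedField N
  have hY : ∀ y : Y, ∀ s ∈ N, s (y : L) = y := fun y =>
    (IntermediateField.mem_fixedField_iff N (y : L)).1 y.2
  let F : Y →ₐ[Z] Q ⊗[Z] L := AlgHom.ofLinearMap (c • (pp ε ∘ₗ Y.val.toLinearMap))
    (by
      show c • pp ε ((1 : Y) : L) = 1
      have h5 : pp ε ((1 : Y) : L) = (Nat.card ↥N : Z) • (1 : Q ⊗[Z] L) := by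
        rw [pp_apply]
        have h6 : ∀ s : L ≃ₐ[Z] L, gs Q s ε * ((1 : Q) ⊗ₜ[Z] s ((1 : Y) : L)) = gs Q s ε := by
          intro s
          show gs Q s ε * ((1 : Q) ⊗ₜ[Z] s (1 : L)) = _
          rw [map_one, ← Algebra.TensorProduct.one_def, mul_one]
        rw [Finset.sum_congr rfl fun s _ => h6 s, h4, Nat.cast_smul_eq_nsmul, nsmul_one]
      rw [h5, smul_smul, hcd, inv_mul_cancel₀ hc, one_smul])
    (fun f f' => by
      show c • pp ε ((f * f' : Y) : L) = c • pp ε (f : L) * c • pp ε (f' : L)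
      rw [smul_mul_smul_comm, pp_mul h1 h2 h3 _ _ (hY f'), smul_smul, mul_assoc, hcd,
        inv_mul_cancel₀ hc, mul_one]
      rfl)
  have hF : ∀ y : Y, F y = c • pp ε (y : L) := fun y => rfl
  let I : Q →ₐ[Z] Q ⊗[Z] L := Algebra.TensorProduct.includeLeft
  have hI : Function.Injective I := incl_inj
  have hr : ∀ y, F y ∈ I.range := by
    intro y
    obtain ⟨q, hq⟩ := fixed (F y) fun s => by rw [hF, map_smul, gs_pp]
    exact ⟨q, hq⟩
  let Φ : Y →ₐ[Z] Q := ((AlgEquiv.ofInjective I hI).symm : I.range →ₐ[Z] Q).comp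
    (F.codRestrict I.range hr)
  have hΦ : ∀ y, (Φ y) ⊗ₜ[Z] (1 : L) = F y := by
    intro y
    show I (Φ y) = F y
    have h5 := (AlgEquiv.ofInjective I hI).apply_symm_apply (F.codRestrict I.range hr y)
    exact congrArg Subtype.val h5
  refine ⟨Y, inferInstance, inferInstance, inferInstance, inferInstance, Φ, inferInstance,
    inferInstance, ?_, ?_⟩
  · -- degree
    have h5 : Module.finrank Z Y ≠ 1 := by
      intro h5
      apply hN
      have h6 : Y = ⊥ := IntermediateField.finrank_eq_one_iff.1 h5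
      have h7 : IntermediateField.fixingSubgroup (IntermediateField.fixedField N) = N :=
        IntermediateField.fixingSubgroup_fixedField N
      rw [← h7]
      show IntermediateField.fixingSubgroup Y = ⊤
      rw [h6, IntermediateField.fixingSubgroup_bot]
    have h6 : 0 < Module.finrank Z Y := Module.finrank_pos
    omega
  · rintro T ⟨d, hd⟩
    let e := Fintype.equivFin (L ≃ₐ[Z] L)
    refine ⟨Fintype.card (L ≃ₐ[Z] L), fun i => AlgEquiv.restrictNormal (e.symm i)⁻¹ Y,
      fun i => d (e.symm i), fun y => ?_⟩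
    apply hI
    show T (Φ y) ⊗ₜ[Z] (1 : L) = I (∑ i, _)
    have h5 : T (Φ y) ⊗ₜ[Z] (1 : L) = T.rTensor L (F y) := by
      rw [← hΦ, LinearMap.rTensor_tmul]
    rw [h5, hF, map_smul, rT_pp, hd, map_sum]
    have h6 : pp (∑ s, d s • gs Q s ε) (y : L) = ∑ s, d s • pp ε (s⁻¹ (y : L)) := by
      rw [pp_sum]
      refine Finset.sum_congr rfl fun s _ => ?_
      rw [pp_smul, pp_gs]
    rw [h6, Finset.smul_sum]
    rw [Fintype.sum_equiv e (fun s => c • d s • pp ε (s⁻¹ (y : L)))
      (fun i => c • d (e.symm i) • pp ε ((e.symm i)⁻¹ (y : L))) fun s => by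
        rw [Equiv.symm_apply_apply]]
    refine Finset.sum_congr rfl fun i _ => ?_
    have h9 : I (d (e.symm i) • Φ (AlgEquiv.restrictNormal (e.symm i)⁻¹ Y y)) =
        d (e.symm i) • F (AlgEquiv.restrictNormal (e.symm i)⁻¹ Y y) := by
      rw [← hΦ]
      rfl
    rw [h9, hF]
    have h10 : ((AlgEquiv.restrictNormal (e.symm i)⁻¹ Y y : Y) : L) = (e.symm i)⁻¹ (y : L) :=
      AlgEquiv.restrictNormal_commutes _ Y y
    rw [h10, smul_comm]

end Pool.Agent.Lib.MP_c37a72_al.NR
end
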