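import Pool.Agent.Lib.MP_c37a72_al.NR.Spec
import Pool.Agent.Lib.MP_c37a72_al.LB.Spec

/-! # QCE: the central quotient division ring of `H_1` -/

set_option autoImplicit false

open scoped TensorProduct
open Pool.Agent.Lib.MP_c37a72_al.EG Pool.Agent.Lib.MP_c37a72_al.CO

namespace Pool.Agent.Lib.MP_c37a72_al.NR

universe u v w

namespace QCEM

section A

variable {Z Q Y : Type v} [Field Z] [DivisionRing Q] [Algebra Z Q] [Field Y] [Algebra Z Y]

/-- the centralizer of `Φ(Y)` -/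
def QS (Φ : Y →ₐ[Z] Q) : Subalgebra Z Q := Subalgebra.centralizer Z (Set.range Φ)

theorem mem_QS (Φ : Y →ₐ[Z] Q) (q : Q) : q ∈ QS Φ ↔ ∀ y, Φ y * q = q * Φ y := by
  unfold QS
  rw [Subalgebra.mem_centralizer_iff]
  constructor
  · intro h y
    exact h _ ⟨y, rfl⟩
  · rintro h _ ⟨y, rfl⟩
    exact h y

theorem inv_mem (Φ : Y →ₐ[Z] Q) (q : Q) (h : q ∈ QS Φ) : q⁻¹ ∈ QS Φ := by
  rw [mem_QS] at h ⊢
  intro y
  have : Commute (Φ y) q := h y
  exact this.inv_right₀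

noncomputable instance instDiv (Φ : Y →ₐ[Z] Q) : DivisionRing ↥(QS Φ) :=
  { (QS Φ).toRing with
    inv := fun x => ⟨(x : Q)⁻¹, inv_mem Φ x x.2⟩
    exists_pair_ne := ⟨0, 1, fun h => zero_ne_one (congrArg Subtype.val h)⟩
    mul_inv_cancel := fun x hx => Subtype.ext (mul_inv_cancel₀ (fun h => hx (Subtype.ext h)))
    inv_zero := Subtype.ext inv_zero
    nnqsmul := _
    nnqsmul_def := fun _ _ => rfl
    qsmul := _
    qsmul_def := fun _ _ => rfl }

theorem Phi_mem (Φ : Y →ₐ[Z] Q) (y : Y) : Φ y ∈ QS Φ := by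
  rw [mem_QS]
  intro y'
  rw [← map_mul, ← map_mul, mul_comm]

/-- `Y → Q1` -/
noncomputable def toQ (Φ : Y →ₐ[Z] Q) : Y →+* ↥(QS Φ) where
  toFun y := ⟨Φ y, Phi_mem Φ y⟩
  map_one' := Subtype.ext (map_one Φ)
  map_mul' a b := Subtype.ext (map_mul Φ a b)
  map_zero' := Subtype.ext (map_zero Φ)
  map_add' a b := Subtype.ext (map_add Φ a b)

noncomputable instance instAlgY (Φ : Y →ₐ[Z] Q) : Algebra Y ↥(QS Φ) :=
  RingHom.toAlgebra' (toQ Φ) (fun y x => Subtype.ext ((mem_QS Φ x).mp x.2 y))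

theorem algebraMap_Y (Φ : Y →ₐ[Z] Q) (y : Y) : ((algebraMap Y ↥(QS Φ) y : ↥(QS Φ)) : Q) = Φ y := rfl

instance instTowerZ (Φ : Y →ₐ[Z] Q) : IsScalarTower Z Y ↥(QS Φ) := by
  apply IsScalarTower.of_algebraMap_eq
  intro z
  apply Subtype.ext
  rw [algebraMap_Y, AlgHom.commutes]
  rfl

end A

section B

variable {k : Type u} {H Z Q Y H1 : Type v} [Field k] [Ring H] [HopfAlgebra k H] [Field Z]
    [Algebra k Z] [DivisionRing Q] [Algebra k Q] [Algebra Z Q] [IsScalarTower k Z Q]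
    {ι : H →ₐ[k] Q} [Field Y] [Algebra k Y] [Algebra Z Y] [IsScalarTower k Z Y] {Φ : Y →ₐ[Z] Q}
    [Ring H1] [HopfAlgebra k H1] {i : H1 →ₐ[k] H}

omit [Algebra k Y] [IsScalarTower k Z Y] in
theorem algebraMap_k (Φ : Y →ₐ[Z] Q) (a : k) :
    ((algebraMap k ↥(QS Φ) a : ↥(QS Φ)) : Q) = algebraMap k Q a := rfl

instance instTowerk (Φ : Y →ₐ[Z] Q) : IsScalarTower k Y ↥(QS Φ) := by
  apply IsScalarTower.of_algebraMap_eq
  intro a
  apply Subtype.ext
  rw [algebraMap_Y, algebraMap_k, IsScalarTower.algebraMap_apply k Z Y, AlgHom.commutes,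
    IsScalarTower.algebraMap_apply k Z Q]

omit [Algebra k Y] [IsScalarTower k Z Y] in
theorem mem_of_Hs (h : H) : h ∈ Hs ι Φ 1 ↔ ι h ∈ QS Φ := by
  rw [mem_Hs, mem_QS]
  simp only [AlgEquiv.one_apply]

/-- `H1 → Q1` -/
noncomputable def iot (h1 : IsH1 ι Φ i) : H1 →ₐ[k] ↥(QS Φ) where
  toFun x := ⟨ι (i x), (mem_of_Hs _).mp ((h1.range _).mpr ⟨x, rfl⟩)⟩
  map_one' := Subtype.ext (by change ι (i 1) = 1; rw [map_one, map_one])
  map_mul' a b := Subtype.ext (by change ι (i (a * b)) = ι (i a) * ι (i b); rw [map_mul, map_mul])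
  map_zero' := Subtype.ext (by change ι (i 0) = 0; rw [map_zero, map_zero])
  map_add' a b := Subtype.ext (by change ι (i (a + b)) = ι (i a) + ι (i b); rw [map_add, map_add])
  commutes' a := Subtype.ext (by
    change ι (i (algebraMap k H1 a)) = algebraMap k Q a
    rw [AlgHom.commutes, AlgHom.commutes])

/-- `Q1 → Q` -/
noncomputable def inc (k : Type u) [Field k] [Algebra k Z] [Algebra k Q] [IsScalarTower k Z Q]
    (Φ : Y →ₐ[Z] Q) : ↥(QS Φ) →ₐ[k] Q where
  toFun x := x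
  map_one' := rfl
  map_mul' _ _ := rfl
  map_zero' := rfl
  map_add' _ _ := rfl
  commutes' _ := rfl

theorem cent_comm (hQ : IsCQ k H Z Q ι) {c : H} (hc : Cent c) (x : Q) : ι c * x = x * ι c := by
  obtain ⟨c', h', hc0, hc', he⟩ := hQ.frac x
  have hne : ι c' ≠ 0 := fun h => hc0 (hQ.inj (by rw [h, map_zero]))
  have h1 : ι c * ι c' = ι c' * ι c := by rw [← map_mul, ← map_mul, hc c']
  have h2 : ι c * ι h' = ι h' * ι c := by rw [← map_mul, ← map_mul, hc h']
  apply mul_left_cancel₀ hne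
  rw [← mul_assoc, ← h1, mul_assoc, he, h2, ← he, mul_assoc]

theorem isCQ (hDCT : LB.SpecDCT.{v}) (hQ : IsCQ k H Z Q ι) (h1 : IsH1 ι Φ i) [Module.Finite Z Q] :
    IsCQ k H1 Y ↥(QS Φ) (iot h1) where
  inj := by
    intro x y hxy
    exact h1.inj (hQ.inj (congrArg Subtype.val hxy))
  cent := by
    intro q hq
    have hf : IsField ↥Φ.range :=
      MulEquiv.isField (Field.toIsField Y) (AlgEquiv.ofInjective Φ Φ.toRingHom.injective).symm.toMulEquiv
    have hd := (hDCT Z Q hQ.cent Φ.range hf).2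
    have hset : ((Φ.range : Subalgebra Z Q) : Set Q) = Set.range Φ := by
      ext x; simp
    have hr := hd (q : Q) (by rw [hset]; exact q.2) (by
      intro m hm
      rw [hset] at hm
      exact congrArg Subtype.val (hq ⟨m, hm⟩))
    obtain ⟨y, hy⟩ := hr
    exact ⟨y, Subtype.ext hy⟩
  fin := by
    have : Module.Finite Z ↥(QS Φ) := inferInstance
    exact Module.Finite.of_restrictScalars_finite Z Y ↥(QS Φ)
  frac := by
    intro q
    obtain ⟨c, h, hc0, hc, he⟩ := hQ.frac (q : Q)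
    have hcm : ι c ∈ QS Φ := by
      rw [mem_QS]
      intro y
      exact (cent_comm hQ hc _).symm
    have hhm : ι h ∈ QS Φ := by
      rw [← he]
      exact (QS Φ).mul_mem hcm q.2
    obtain ⟨c1, hc1⟩ := (h1.range c).mp ((mem_of_Hs c).mpr hcm)
    obtain ⟨h2, hh2⟩ := (h1.range h).mp ((mem_of_Hs h).mpr hhm)
    refine ⟨c1, h2, ?_, ?_, ?_⟩
    · rintro rfl
      apply hc0
      rw [← hc1, map_zero]
    · intro x
      apply h1.inj
      rw [map_mul, map_mul, hc1]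
      exact hc (i x)
    · apply Subtype.ext
      change ι (i c1) * (q : Q) = ι (i h2)
      rw [hc1, hh2, he]

end B

end QCEM

theorem specQCE (hDCT : LB.SpecDCT.{v}) : SpecQCE.{u, v} := by
  intro k H Z Q Y H1 _ _ _ _ _ _ _ _ _ ι _ _ _ _ Φ _ _ i hQ hY h1
  have := hQ.fin
  have hfinY := hY.fin
  have hcq := QCEM.isCQ hDCT hQ h1
  refine ⟨↥(QCEM.QS Φ), inferInstance, inferInstance, inferInstance, inferInstance, QCEM.iot h1,
    QCEM.inc k Φ, hcq, ?_, fun y => rfl, fun x => rfl⟩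
  have hf1 := hcq.fin
  have e1 := Module.finrank_mul_finrank Z Y ↥(QCEM.QS Φ)
  have e2 : Module.finrank Z ↥(QCEM.QS Φ) ≤ Module.finrank Z Q :=
    Submodule.finrank_le (Subalgebra.toSubmodule (QCEM.QS Φ))
  have e3 := hY.lt
  have e4 : 0 < Module.finrank Y ↥(QCEM.QS Φ) := Module.finrank_pos
  nlinarith

end Pool.Agent.Lib.MP_c37a72_al.NR
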