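import Pool.Agent.Lib.MP_c37a72_al.NR.Spec

set_option autoImplicit false

open scoped TensorProduct
open Coalgebra HopfAlgebra
open Pool.Agent.Lib.MP_c37a72_al.EG Pool.Agent.Lib.MP_c37a72_al.CO

namespace Pool.Agent.Lib.MP_c37a72_al.NR

universe u v w

namespace RGUM

/-- the map `c ↦ (a ↦ ∑ τ_s(a) c_s)` -/
noncomputable def J {k : Type u} {AA : Type w} [Field k] [Ring AA] [Algebra k AA] {n : ℕ}
    (τ : Fin n → (AA ≃ₐ[k] AA)) : (Fin n → AA) →ₗ[k] (AA →ₗ[k] AA) where
  toFun c :=
    { toFun := fun a => ∑ s, τ s a * c s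
      map_add' := fun a b => by simp only [map_add, add_mul, Finset.sum_add_distrib]
      map_smul' := fun t a => by
        simp only [map_smul, smul_mul_assoc, Finset.smul_sum, RingHom.id_apply] }
  map_add' c d := by
    ext a
    simp only [Pi.add_apply, mul_add, Finset.sum_add_distrib, LinearMap.coe_mk, AddHom.coe_mk,
      LinearMap.add_apply]
  map_smul' t c := by
    ext a
    simp only [Pi.smul_apply, mul_smul_comm, Finset.smul_sum, LinearMap.coe_mk, AddHom.coe_mk,
      LinearMap.smul_apply, RingHom.id_apply]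

theorem J_apply {k : Type u} {AA : Type w} [Field k] [Ring AA] [Algebra k AA] {n : ℕ}
    (τ : Fin n → (AA ≃ₐ[k] AA)) (c : Fin n → AA) (a : AA) : J τ c a = ∑ s, τ s a * c s := rfl

theorem le_of_indep {k : Type u} {AA : Type w} [Field k] [Ring AA] [Algebra k AA]
    [Module.Finite k AA] (h0 : 0 < Module.finrank k AA) {n : ℕ} (τ : Fin n → (AA ≃ₐ[k] AA))
    (h : ∀ c : Fin n → AA, (∀ a, ∑ s, τ s a * c s = 0) → ∀ s, c s = 0) :
    n ≤ Module.finrank k AA := by
  have hinj : Function.Injective (J τ) := by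
    rw [← LinearMap.ker_eq_bot, LinearMap.ker_eq_bot']
    intro c hc
    funext s
    exact h c (fun a => by rw [← J_apply, hc, LinearMap.zero_apply]) s
  have h1 := LinearMap.finrank_le_finrank_of_injective hinj
  rw [Module.finrank_pi_fintype, Module.finrank_linearMap] at h1
  simp only [Finset.sum_const, Finset.card_univ, Fintype.card_fin, smul_eq_mul] at h1
  exact Nat.le_of_mul_le_mul_right h1 h0

end RGUM

open RGUM in
/-- **RGU**: regularity. -/
theorem specRGU (hIDA : SpecIDA.{u, v, w}) (hGBM : SpecGBM.{u, v, w}) : SpecRGU.{u, v, w} := by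
  intro k H Z Q _ _ _ _ _ _ _ _ _ _ ι AA P _ _ _ _ _ _ ρ ψ θ hQ hc
  have := hQ.fin
  have := hc.finA
  have := hc.finP
  have hfO : Module.Finite Z ↥(Opp k Z ι) :=
    inferInstanceAs (Module.Finite Z ↥(Subalgebra.toSubmodule (Opp k Z ι)))
  have h0 : 0 < Module.finrank k AA := by
    rw [hc.dim]
    exact Module.finrank_pos
  have hG := hGBM k H Z Q ι AA P ρ ψ θ hQ hc
  have key : ∀ S : Set (AA ≃ₐ[k] AA), S.Finite → (∀ τ ∈ S, ∀ h a, τ (ρ h a) = ρ h (τ a)) →
      S.ncard ≤ Module.finrank k AA := by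
    intro S hS hτ
    haveI : Fintype ↥S := hS.fintype
    have hcard : Fintype.card ↥S = S.ncard := by
      rw [← Nat.card_coe_set_eq, Nat.card_eq_fintype_card]
    let f : Fin (Fintype.card ↥S) ≃ ↥S := (Fintype.equivFin ↥S).symm
    rw [← hcard]
    refine le_of_indep h0 (fun i => (f i : AA ≃ₐ[k] AA)) ?_
    intro c hc'
    exact hIDA k H Z Q ι AA P ρ ψ θ hQ hc (Fintype.card ↥S) (fun i => (f i : AA ≃ₐ[k] AA))
      (fun i j hij => f.injective (Subtype.ext hij)) (fun s h a => hτ _ (f s).2 h a) c hc'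
  haveI : Finite (P ≃ₐ[Z] P) := inferInstance
  have hfin : (Set.range θ).Finite := Set.finite_range θ
  have hr : ∀ τ ∈ Set.range θ, ∀ h a, τ (ρ h a) = ρ h (τ a) := by
    rintro τ ⟨γ, rfl⟩ h a
    exact hc.thH γ h a
  have h1 := key (Set.range θ) hfin hr
  rw [Nat.card_coe_set_eq] at hG
  refine ⟨?_, ?_⟩
  · rw [Nat.card_coe_set_eq]
    exact le_antisymm h1 hG
  · intro τ hτ
    by_contra hcon
    have h2 := key (insert τ (Set.range θ)) (hfin.insert τ) (by
      intro τ' hτ' h a
      rcases hτ' with h' | h'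
      · rw [h']; exact hτ h a
      · exact hr τ' h' h a)
    rw [Set.ncard_insert_of_notMem hcon hfin] at h2
    omega

end Pool.Agent.Lib.MP_c37a72_al.NR
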