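import Pool.Agent.Lib.MP_c37a72_al.NR.Spec

/-!
# MP_c37a72_al, block NR, module YDX: the field `Y` in the non-reduced case
-/

set_option autoImplicit false

open scoped TensorProduct
open Coalgebra HopfAlgebra
open Pool.Agent.Lib.MP_c37a72_al.EG Pool.Agent.Lib.MP_c37a72_al.CO

namespace Pool.Agent.Lib.MP_c37a72_al.NR

universe u v w

namespace YDXM

section AntiHom

variable {k : Type u} {AA : Type w} {G : Type v} [Field k] [Ring AA] [Algebra k AA] [Group G]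

/-- An anti-homomorphism as a homomorphism to the opposite group. -/
def opHom (T : G → (AA ≃ₐ[k] AA)) (h1 : T 1 = 1) (hm : ∀ s t, T (s * t) = T t * T s) :
    G →* (AA ≃ₐ[k] AA)ᵐᵒᵖ where
  toFun s := MulOpposite.op (T s)
  map_one' := by rw [h1, MulOpposite.op_one]
  map_mul' s t := by rw [hm, MulOpposite.op_mul]

theorem mem_ker (T : G → (AA ≃ₐ[k] AA)) (h1 : T 1 = 1) (hm : ∀ s t, T (s * t) = T t * T s) (s : G) :
    s ∈ (opHom T h1 hm).ker ↔ T s = 1 := by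
  rw [MonoidHom.mem_ker]
  exact MulOpposite.op_eq_one_iff (T s)

/-- The invariants of `T(N)`. -/
def inv (T : G → (AA ≃ₐ[k] AA)) (N : Subgroup G) : Subalgebra k AA where
  carrier := {a | ∀ s ∈ N, T s a = a}
  mul_mem' := fun {a b} ha hb s hs => by rw [map_mul, ha s hs, hb s hs]
  add_mem' := fun {a b} ha hb s hs => by rw [map_add, ha s hs, hb s hs]
  algebraMap_mem' := fun c s _ => (T s).commutes c

theorem mem_inv (T : G → (AA ≃ₐ[k] AA)) (N : Subgroup G) (a : AA) :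
    a ∈ inv T N ↔ ∀ s ∈ N, T s a = a := Iff.rfl

theorem stab (T : G → (AA ≃ₐ[k] AA)) (hm : ∀ s t, T (s * t) = T t * T s) (N : Subgroup G)
    [hN : N.Normal] (t : G) {a : AA} (ha : a ∈ inv T N) : T t a ∈ inv T N := by
  intro n hn
  have h1 : T n (T t a) = T (t * n) a := by rw [hm]; rfl
  have h2 : t * n = (t * n * t⁻¹) * t := by group
  rw [h1, h2, hm]
  show T t (T (t * n * t⁻¹) a) = T t a
  rw [ha _ (hN.conj_mem n hn t)]

end AntiHom

end YDXM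

open YDXM

theorem specYDX (hTHX : SpecTHX.{u, v, w}) (hNDM : SpecNDM.{u, v, w}) (hAXX : SpecAXX.{u, v, w})
    (hAYY : SpecAYY.{u, v, w}) (hAXC : SpecAXC.{u, v, w}) (hCCB : SpecCCB.{u, v})
    (hPHI : SpecPHI.{u, v}) : SpecYDX.{u, v, w} := by
  classical
  intro k H Z Q _ _ _ _ _ _ _ _ _ _ _ ι AA P _ _ _ _ _ _ ρ ψ θ sQ sZ hQ hS hs hC L _ _ _ _ _ _
    e e' he he' hred
  have hfA := hC.finA
  obtain ⟨Tx, hx1, hx2, hx3, hx4, hx5⟩ := hTHX k H Z Q ι AA P ρ ψ θ hC L e AlgEquiv.refl he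
  obtain ⟨Ty, hy1, hy2, hy3, hy4, hy5⟩ := hTHX k H Z Q ι AA P ρ ψ θ hC L e' sZ he'
  have hNX : ∀ s, NX θ e s ↔ Tx s = 1 := fun s =>
    ⟨fun ⟨γ, hγ, h1⟩ => by rw [hx1 s γ hγ, h1], fun h => by
      obtain ⟨γ, hγ, h1⟩ := hx2 s
      exact ⟨γ, hγ, by rw [← h1, h]⟩⟩
  have hNY : ∀ s, NX θ e' s ↔ Ty s = 1 := fun s =>
    ⟨fun ⟨γ, hγ, h1⟩ => by rw [hy1 s γ hγ, h1], fun h => by
      obtain ⟨γ, hγ, h1⟩ := hy2 s
      exact ⟨γ, hγ, by rw [← h1, h]⟩⟩
  -- the group `N`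
  obtain ⟨N, hNn, hNx, hNy, hNt⟩ : ∃ N : Subgroup (L ≃ₐ[Z] L), N.Normal ∧ (∀ s, Tx s = 1 → s ∈ N) ∧
      (∀ s, Ty s = 1 → s ∈ N) ∧ N ≠ ⊤ := by
    refine ⟨(opHom Tx hx3 hx4).ker ⊔ (opHom Ty hy3 hy4).ker, inferInstance, fun s hs =>
      (le_sup_left : _ ≤ (opHom Tx hx3 hx4).ker ⊔ (opHom Ty hy3 hy4).ker) ((mem_ker _ _ _ _).2 hs),
      fun s hs => (le_sup_right : _ ≤ (opHom Tx hx3 hx4).ker ⊔ (opHom Ty hy3 hy4).ker)
        ((mem_ker _ _ _ _).2 hs), fun htop => hred fun s => ?_⟩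
    have h1 : s ∈ (opHom Tx hx3 hx4).ker ⊔ (opHom Ty hy3 hy4).ker := by
      rw [htop]
      exact Subgroup.mem_top s
    rw [← SetLike.mem_coe, Subgroup.mul_normal] at h1
    obtain ⟨a, ha, b, hb, hab⟩ := Set.mem_mul.1 h1
    exact ⟨a, b, hab.symm, (hNX a).2 ((mem_ker _ _ _ _).1 ha), (hNY b).2 ((mem_ker _ _ _ _).1 hb)⟩
  have hdx := hNDM k H Z Q ι AA P ρ ψ θ hQ hC L Tx hx3 hx4 hx5 N hNx
    (Subalgebra.toSubmodule (inv Tx N)) (fun a => Iff.rfl)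
  have hdy := hNDM k H Z Q ι AA P ρ ψ θ hQ hC L Ty hy3 hy4 hy5 N hNy
    (Subalgebra.toSubmodule (inv Ty N)) (fun a => Iff.rfl)
  obtain ⟨ax, hax⟩ := hAXX k H Z Q ι AA P ρ ψ θ hQ hC L e he
  obtain ⟨ay, hay⟩ := hAYY k H Z Q ι AA P ρ ψ θ sQ sZ hQ hS hs hC L e' he'
  have hcom := hAXC k H Z Q ι AA P ρ ψ θ sQ sZ hQ hS hs hC L e e' ax ay hax hay
  have hincl : Function.Injective fun a : AA => a ⊗ₜ[k] (1 : L) :=
    Algebra.TensorProduct.includeLeft_injective (S := k) (A := AA) (B := L)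
      (algebraMap k L).injective
  have hinj : ∀ f : AA →ₗ[k] Q ⊗[Z] L, Function.Injective (lf f) → Function.Injective f := by
    intro f hf a b hab
    apply hincl
    apply hf
    show f a * ((1 : Q) ⊗ₜ[Z] 1) = f b * ((1 : Q) ⊗ₜ[Z] 1)
    rw [hab]
  have hxi := hinj ax hax.inj
  have hyi := hinj ay hay.inj
  -- Galois action
  have gx : ∀ s a, gs Q s (ax (Tx s a)) = ax a := fun s a => by
    obtain ⟨γ, hγ, h1⟩ := hx2 s
    rw [h1]
    exact hax.gal s γ hγ a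
  have gy : ∀ s a, gs Q s (ay (Ty s a)) = ay a := fun s a => by
    obtain ⟨γ, hγ, h1⟩ := hy2 s
    rw [h1]
    exact hay.gal s γ hγ a
  have gx' : ∀ s a, gs Q s (ax a) = ax (Tx s⁻¹ a) := fun s a => by
    have h1 : Tx s (Tx s⁻¹ a) = a := by
      have h2 := hx4 s⁻¹ s
      rw [inv_mul_cancel, hx3] at h2
      exact (congrArg (fun t : AA ≃ₐ[k] AA => t a) h2).symm
    rw [← gx s (Tx s⁻¹ a), h1]
  have gy' : ∀ s a, gs Q s (ay a) = ay (Ty s⁻¹ a) := fun s a => by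
    have h1 : Ty s (Ty s⁻¹ a) = a := by
      have h2 := hy4 s⁻¹ s
      rw [inv_mul_cancel, hy3] at h2
      exact (congrArg (fun t : AA ≃ₐ[k] AA => t a) h2).symm
    rw [← gy s (Ty s⁻¹ a), h1]
  -- the two subalgebras
  have hcx : ∀ c : k, ax (algebraMap k AA c) = algebraMap k (Q ⊗[Z] L) c := fun c => by
    rw [Algebra.algebraMap_eq_smul_one, map_smul, hax.one, ← Algebra.algebraMap_eq_smul_one]
  have hcy : ∀ c : k, ay (algebraMap k AA c) = algebraMap k (Q ⊗[Z] L) c := fun c => by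
    rw [Algebra.algebraMap_eq_smul_one, map_smul, hay.one, ← Algebra.algebraMap_eq_smul_one]
  obtain ⟨B, hB⟩ : ∃ B : Subalgebra k (Q ⊗[Z] L), ∀ x, x ∈ B ↔ ∃ a ∈ inv Tx N, ax a = x :=
    ⟨{ carrier := {x | ∃ a ∈ inv Tx N, ax a = x}
       mul_mem' := by
         rintro _ _ ⟨a, ha, rfl⟩ ⟨b, hb, rfl⟩
         exact ⟨a * b, mul_mem ha hb, hax.mul a b⟩
       add_mem' := by
         rintro _ _ ⟨a, ha, rfl⟩ ⟨b, hb, rfl⟩
         exact ⟨a + b, add_mem ha hb, map_add ax a b⟩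
       algebraMap_mem' := fun c => ⟨algebraMap k AA c, Subalgebra.algebraMap_mem _ c, hcx c⟩ },
      fun x => Iff.rfl⟩
  obtain ⟨B', hB'⟩ : ∃ B' : Subalgebra k (Q ⊗[Z] L), ∀ x, x ∈ B' ↔ ∃ a ∈ inv Ty N, ay a = x :=
    ⟨{ carrier := {x | ∃ a ∈ inv Ty N, ay a = x}
       mul_mem' := by
         rintro _ _ ⟨a, ha, rfl⟩ ⟨b, hb, rfl⟩
         exact ⟨b * a, mul_mem hb ha, hay.mul b a⟩
       add_mem' := by
         rintro _ _ ⟨a, ha, rfl⟩ ⟨b, hb, rfl⟩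
         exact ⟨a + b, add_mem ha hb, map_add ay a b⟩
       algebraMap_mem' := fun c => ⟨algebraMap k AA c, Subalgebra.algebraMap_mem _ c, hcy c⟩ },
      fun x => Iff.rfl⟩
  have hBm : Subalgebra.toSubmodule B = (Subalgebra.toSubmodule (inv Tx N)).map ax := by
    ext x
    exact hB x
  have hBm' : Subalgebra.toSubmodule B' = (Subalgebra.toSubmodule (inv Ty N)).map ay := by
    ext x
    exact hB' x
  let ex := Submodule.equivMapOfInjective ax hxi (Subalgebra.toSubmodule (inv Tx N))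
  let ey := Submodule.equivMapOfInjective ay hyi (Subalgebra.toSubmodule (inv Ty N))
  have hfB : Module.Finite k B := by
    have h1 : Module.Finite k (Subalgebra.toSubmodule B) := by
      rw [hBm]
      exact Module.Finite.equiv ex
    exact h1
  have hfB' : Module.Finite k B' := by
    have h1 : Module.Finite k (Subalgebra.toSubmodule B') := by
      rw [hBm']
      exact Module.Finite.equiv ey
    exact h1
  have hrB : Module.finrank k (Subalgebra.toSubmodule (inv Tx N)) = Module.finrank k B := by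
    rw [← Subalgebra.finrank_toSubmodule B, hBm]
    exact ex.finrank_eq
  have hrB' : Module.finrank k (Subalgebra.toSubmodule (inv Ty N)) = Module.finrank k B' := by
    rw [← Subalgebra.finrank_toSubmodule B', hBm']
    exact ey.finrank_eq
  let _ : Fintype (L ≃ₐ[Z] L) := Fintype.ofFinite _
  obtain ⟨hBB, ε, hεB, hεε, hεN, hεn, hεs, hεc⟩ := hCCB k Z Q L N B B' hfB hfB'
    (by
      intro b hb b' hb'
      obtain ⟨a, -, rfl⟩ := (hB b).1 hb
      obtain ⟨a', -, rfl⟩ := (hB' b').1 hb'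
      exact hcom a a')
    (by
      intro s c hc
      obtain ⟨a, ha, rfl⟩ := (hB c).1 hc
      exact (hB _).2 ⟨_, stab Tx hx4 N s⁻¹ ha, (gx' s a).symm⟩)
    (by
      intro s c hc
      obtain ⟨a, ha, rfl⟩ := (hB' c).1 hc
      exact (hB' _).2 ⟨_, stab Ty hy4 N s⁻¹ ha, (gy' s a).symm⟩)
    (by
      intro s hs c hc
      obtain ⟨a, ha, rfl⟩ := (hB c).1 hc
      rw [gx', ha _ (inv_mem hs)])
    (by
      intro s hs c hc
      obtain ⟨a, ha, rfl⟩ := (hB' c).1 hc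
      rw [gy', ha _ (inv_mem hs)])
    (by rw [← hrB]; exact hdx) (by rw [← hrB']; exact hdy)
  obtain ⟨Y, _, _, _, _, Φ, hY1, hY2, hY3, hY4⟩ := hPHI k Z Q L N hNt ε hεε hεN hεn hεs
  refine ⟨Y, inferInstance, inferInstance, inferInstance, inferInstance, Φ, hY1, hY2, hY3,
    fun h => hY4 _ (hεc _ ?_), fun h => hY4 _ (hεc _ ?_)⟩
  · obtain ⟨a, ha, hae⟩ := (hB ε).1 hεB
    rw [← hae, hax.act]
    refine (hB _).2 ⟨_, fun s hs => ?_, rfl⟩
    obtain ⟨γ, -, h1⟩ := hx2 s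
    rw [h1, hC.thH, ← h1, ha s hs]
  · obtain ⟨h', rfl⟩ := hS.2 h
    rw [hBB] at hεB
    obtain ⟨a, ha, hae⟩ := (hB' ε).1 hεB
    rw [← hae, hay.act, hBB]
    refine (hB' _).2 ⟨_, fun s hs => ?_, rfl⟩
    obtain ⟨γ, -, h1⟩ := hy2 s
    rw [h1, hC.thH, ← h1, ha s hs]

end Pool.Agent.Lib.MP_c37a72_al.NR
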