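import Mathlib
import Pool.Agent.Lib.MP_c37a72_al.NR.Spec
import Pool.Agent.Lib.MP_c37a72_al.NR.NDM
import Pool.Agent.Lib.MP_c37a72_al.NR.IDA
import Pool.Agent.Lib.MP_c37a72_al.NR.RGU
import Pool.Agent.Lib.MP_c37a72_al.NR.FXD
import Pool.Agent.Lib.MP_c37a72_al.NR.CCS
import Pool.Agent.Lib.MP_c37a72_al.NR.PHI
import Pool.Agent.Lib.MP_c37a72_al.NR.YDX
import Pool.Agent.Lib.MP_c37a72_al.NR.HX1
import Pool.Agent.Lib.MP_c37a72_al.NR.QCE
import Pool.Agent.Lib.MP_c37a72_al.KC.All
import Pool.Agent.Lib.MP_c37a72_al.CO.All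

section
/-!
# MP_c37a72_al, block NR, brick SHA: the Hopf algebra structure of a subalgebra

`K ≤ H` a subalgebra of a Hopf algebra over a field with `Δ(K) ⊆ K ⊗ K` and `S(K) ⊆ K`:
`subHopf K hΔ hS : HopfAlgebra k K`, with `coe_comul`, `coe_counit`, `coe_antipode`.
-/
set_option autoImplicit false

open scoped TensorProduct
open Coalgebra HopfAlgebra

namespace Pool.Agent.Lib.MP_c37a72_al.NR

universe u v

section SubHopf

variable {k : Type u} {H : Type v} [Field k] [Ring H] [HopfAlgebra k H] (K : Subalgebra k H)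

/-- `K ⊗ K → H ⊗ H`. -/
noncomputable def vv : ↥K ⊗[k] ↥K →ₐ[k] H ⊗[k] H := Algebra.TensorProduct.map K.val K.val

@[simp] theorem vv_tmul (a b : K) : vv K (a ⊗ₜ[k] b) = (a : H) ⊗ₜ[k] (b : H) := rfl

theorem vv_inj : Function.Injective (vv K) := by
  have h : Function.Injective (TensorProduct.map K.val.toLinearMap K.val.toLinearMap) :=
    TensorProduct.map_injective_of_flat_flat _ _ Subtype.val_injective Subtype.val_injective
  exact h

/-- `K ⊗ (K ⊗ K) → H ⊗ (H ⊗ H)`. -/
noncomputable def vvv : ↥K ⊗[k] (↥K ⊗[k] ↥K) →ₐ[k] H ⊗[k] (H ⊗[k] H) :=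
  Algebra.TensorProduct.map K.val (vv K)

theorem vvv_inj : Function.Injective (vvv K) := by
  have h : Function.Injective (TensorProduct.map K.val.toLinearMap (vv K).toLinearMap) :=
    TensorProduct.map_injective_of_flat_flat _ _ Subtype.val_injective (vv_inj K)
  exact h

variable (hΔ : ∀ x ∈ K, comul (R := k) x ∈ (vv K).range)

/-- The coproduct of `K`. -/
noncomputable def comulK : ↥K →ₐ[k] ↥K ⊗[k] ↥K :=
  (AlgEquiv.ofInjective (vv K) (vv_inj K)).symm.toAlgHom.comp
    (((Bialgebra.comulAlgHom k H).comp K.val).codRestrict (vv K).range fun x => hΔ x x.2)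

theorem vv_comulK (x : K) : vv K (comulK K hΔ x) = comul (R := k) (x : H) := by
  have h := (AlgEquiv.ofInjective (vv K) (vv_inj K)).apply_symm_apply
    ((((Bialgebra.comulAlgHom k H).comp K.val).codRestrict (vv K).range fun x => hΔ x x.2) x)
  have h' := congrArg (fun y : (vv K).range => (y : H ⊗[k] H)) h
  exact h'

/-- The counit of `K`. -/
noncomputable def counitK : ↥K →ₐ[k] k := (Bialgebra.counitAlgHom k H).comp K.val

@[simp] theorem counitK_apply (x : K) : counitK K x = counit (R := k) (x : H) := rfl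

theorem map_comulK_id :
    (vvv K).comp ((Algebra.TensorProduct.assoc k k k ↥K ↥K ↥K).toAlgHom.comp
      (Algebra.TensorProduct.map (comulK K hΔ) (AlgHom.id k ↥K))) =
    ((Algebra.TensorProduct.assoc k k k H H H).toAlgHom.comp
      (Algebra.TensorProduct.map (Bialgebra.comulAlgHom k H) (AlgHom.id k H))).comp (vv K) := by
  refine Algebra.TensorProduct.ext' fun a b => ?_
  have key : ∀ t : ↥K ⊗[k] ↥K, vvv K (Algebra.TensorProduct.assoc k k k ↥K ↥K ↥K (t ⊗ₜ[k] b)) =
      Algebra.TensorProduct.assoc k k k H H H (vv K t ⊗ₜ[k] (b : H)) := by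
    intro t
    induction t with
    | zero => simp
    | tmul x y => rfl
    | add x y hx hy =>
      rw [TensorProduct.add_tmul, map_add, map_add, hx, hy, map_add, TensorProduct.add_tmul,
        map_add]
  have h := key (comulK K hΔ a)
  rw [vv_comulK] at h
  exact h

theorem map_id_comulK :
    (vvv K).comp (Algebra.TensorProduct.map (AlgHom.id k ↥K) (comulK K hΔ)) =
    (Algebra.TensorProduct.map (AlgHom.id k H) (Bialgebra.comulAlgHom k H)).comp (vv K) := by
  refine Algebra.TensorProduct.ext' fun a b => ?_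
  show (a : H) ⊗ₜ[k] vv K (comulK K hΔ b) = (a : H) ⊗ₜ[k] comul (R := k) (b : H)
  rw [vv_comulK]

/-- The bialgebra structure of `K`. -/
@[reducible] noncomputable def subBialgebra : Bialgebra k ↥K :=
  Bialgebra.ofAlgHom (comulK K hΔ) (counitK K)
    (by
      refine AlgHom.ext fun x => vvv_inj K ?_
      have h1 := DFunLike.congr_fun (map_comulK_id K hΔ) (comulK K hΔ x)
      have h2 := DFunLike.congr_fun (map_id_comulK K hΔ) (comulK K hΔ x)
      have h3 : Algebra.TensorProduct.assoc k k k H H H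
          (Algebra.TensorProduct.map (Bialgebra.comulAlgHom k H) (AlgHom.id k H)
            (comul (R := k) (x : H))) =
          Algebra.TensorProduct.map (AlgHom.id k H) (Bialgebra.comulAlgHom k H)
            (comul (R := k) (x : H)) := Coalgebra.coassoc_apply (x : H)
      refine h1.trans (Eq.trans ?_ h2.symm)
      show Algebra.TensorProduct.assoc k k k H H H
          (Algebra.TensorProduct.map (Bialgebra.comulAlgHom k H) (AlgHom.id k H)
            (vv K (comulK K hΔ x))) =
          Algebra.TensorProduct.map (AlgHom.id k H) (Bialgebra.comulAlgHom k H)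
            (vv K (comulK K hΔ x))
      rw [vv_comulK, h3])
    (by
      refine AlgHom.ext fun x => ?_
      have hinj : Function.Injective (Algebra.TensorProduct.map (AlgHom.id k k) K.val) := by
        have h : Function.Injective (TensorProduct.map (LinearMap.id : k →ₗ[k] k)
            K.val.toLinearMap) :=
          TensorProduct.map_injective_of_flat_flat _ _ (fun _ _ h => h) Subtype.val_injective
        exact h
      refine hinj ?_
      have key : (Algebra.TensorProduct.map (AlgHom.id k k) K.val).comp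
          (Algebra.TensorProduct.map (counitK K) (AlgHom.id k ↥K)) =
          (Algebra.TensorProduct.map (Bialgebra.counitAlgHom k H) (AlgHom.id k H)).comp (vv K) := by
        refine Algebra.TensorProduct.ext' fun a b => ?_
        rfl
      have h1 := DFunLike.congr_fun key (comulK K hΔ x)
      refine h1.trans ?_
      show Algebra.TensorProduct.map (Bialgebra.counitAlgHom k H) (AlgHom.id k H)
          (vv K (comulK K hΔ x)) = _
      rw [vv_comulK]
      exact Coalgebra.rTensor_counit_comul (x : H))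
    (by
      refine AlgHom.ext fun x => ?_
      have hinj : Function.Injective (Algebra.TensorProduct.map K.val (AlgHom.id k k)) := by
        have h : Function.Injective (TensorProduct.map K.val.toLinearMap
            (LinearMap.id : k →ₗ[k] k)) :=
          TensorProduct.map_injective_of_flat_flat _ _ Subtype.val_injective (fun _ _ h => h)
        exact h
      refine hinj ?_
      have key : (Algebra.TensorProduct.map K.val (AlgHom.id k k)).comp
          (Algebra.TensorProduct.map (AlgHom.id k ↥K) (counitK K)) =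
          (Algebra.TensorProduct.map (AlgHom.id k H) (Bialgebra.counitAlgHom k H)).comp (vv K) := by
        refine Algebra.TensorProduct.ext' fun a b => ?_
        rfl
      have h1 := DFunLike.congr_fun key (comulK K hΔ x)
      refine h1.trans ?_
      show Algebra.TensorProduct.map (AlgHom.id k H) (Bialgebra.counitAlgHom k H)
          (vv K (comulK K hΔ x)) = _
      rw [vv_comulK]
      exact Coalgebra.lTensor_counit_comul (x : H))

variable (hS : ∀ x ∈ K, antipode k x ∈ K)

/-- The antipode of `K`. -/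
noncomputable def antiK : ↥K →ₗ[k] ↥K :=
  ((antipode k (A := H)) ∘ₗ K.val.toLinearMap).codRestrict (Subalgebra.toSubmodule K)
    fun x => hS x x.2

@[simp] theorem coe_antiK (x : K) : (antiK K hS x : H) = antipode k (x : H) := rfl

/-- The Hopf algebra structure of `K`. -/
@[reducible] noncomputable def subHopf : HopfAlgebra k ↥K where
  toBialgebra := subBialgebra K hΔ
  antipode := antiK K hS
  mul_antipode_rTensor_comul := by
    refine LinearMap.ext fun x => Subtype.val_injective ?_
    have key : ∀ t : ↥K ⊗[k] ↥K, ((LinearMap.mul' k ↥K ((antiK K hS).rTensor ↥K t) : ↥K) : H) =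
        LinearMap.mul' k H ((antipode k (A := H)).rTensor H (vv K t)) := by
      intro t
      induction t with
      | zero => simp
      | tmul a b => rfl
      | add a b ha hb => rw [map_add, map_add, map_add, map_add, map_add, ← ha, ← hb]; rfl
    have h := key (comulK K hΔ x)
    rw [vv_comulK, mul_antipode_rTensor_comul_apply] at h
    exact h
  mul_antipode_lTensor_comul := by
    refine LinearMap.ext fun x => Subtype.val_injective ?_
    have key : ∀ t : ↥K ⊗[k] ↥K, ((LinearMap.mul' k ↥K ((antiK K hS).lTensor ↥K t) : ↥K) : H) =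
        LinearMap.mul' k H ((antipode k (A := H)).lTensor H (vv K t)) := by
      intro t
      induction t with
      | zero => simp
      | tmul a b => rfl
      | add a b ha hb => rw [map_add, map_add, map_add, map_add, map_add, ← ha, ← hb]; rfl
    have h := key (comulK K hΔ x)
    rw [vv_comulK, mul_antipode_lTensor_comul_apply] at h
    exact h

end SubHopf

end Pool.Agent.Lib.MP_c37a72_al.NR
end

section
/-!
# MP_c37a72_al, block NR, module SUB: Hopf subalgebras
-/
set_option autoImplicit false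

open scoped TensorProduct
open Coalgebra HopfAlgebra

namespace Pool.Agent.Lib.MP_c37a72_al.NR

universe u v

theorem specSUB : SpecSUB.{u, v} := by
  intro k H _ _ _ K hΔ hS
  have hΔ' : ∀ x ∈ K, comul (R := k) x ∈ (vv K).range := by
    intro x hx
    obtain ⟨t, ht⟩ := hΔ x hx
    exact ⟨t, ht⟩
  refine ⟨↥K, inferInstance, subHopf K hΔ' hS, K.val, Subtype.val_injective, ?_, ?_, ?_, ?_⟩
  · intro h
    exact ⟨fun hh => ⟨⟨h, hh⟩, rfl⟩, fun ⟨x, hx⟩ => hx ▸ x.2⟩
  · intro x
    exact vv_comulK K hΔ' x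
  · intro x
    rfl
  · intro x
    rfl

end Pool.Agent.Lib.MP_c37a72_al.NR
end

section
/-!
# MP_c37a72_al, block NR: module THM (helper60)

`θ` is determined by `ψ` and is an anti-homomorphism.
-/
set_option autoImplicit false

open scoped TensorProduct
open Coalgebra HopfAlgebra
open Pool.Agent.Lib.MP_c37a72_al.EG Pool.Agent.Lib.MP_c37a72_al.CO

namespace Pool.Agent.Lib.MP_c37a72_al.NR

universe u v w

namespace THMM

section

variable {k : Type u} [Field k] {B : Type*} [Ring B] [Algebra k B] {AA : Type w} {P : Type v}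
  [Ring AA] [Algebra k AA] [Field P] [Algebra k P]

theorem uniq (ψ : B →ₐ[k] AA ⊗[k] P)
    (hspan : Submodule.span k {y : AA ⊗[k] P | ∃ x p, y = ψ x * (1 ⊗ₜ[k] p)} = ⊤)
    (τ τ' : AA ≃ₐ[k] AA)
    (h : ∀ x, Algebra.TensorProduct.map τ.toAlgHom (AlgHom.id k P) (ψ x) =
        Algebra.TensorProduct.map τ'.toAlgHom (AlgHom.id k P) (ψ x)) : τ = τ' := by
  have h1 : (Algebra.TensorProduct.map τ.toAlgHom (AlgHom.id k P)).toLinearMap =
      (Algebra.TensorProduct.map τ'.toAlgHom (AlgHom.id k P)).toLinearMap := by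
    refine LinearMap.ext_on_range (v := fun y : {y : AA ⊗[k] P | ∃ x p, y = ψ x * (1 ⊗ₜ[k] p)} =>
      (y : AA ⊗[k] P)) ?_ ?_
    · rw [Subtype.range_coe]; exact hspan
    · rintro ⟨y, x, p, rfl⟩
      simp only [AlgHom.toLinearMap_apply]
      rw [map_mul, map_mul, h x]
      congr 1
      simp
  have hinj : Function.Injective
      (Algebra.TensorProduct.includeLeft : AA →ₐ[k] AA ⊗[k] P) :=
    Algebra.TensorProduct.includeLeft_injective (algebraMap k P).injective
  ext a
  apply hinj
  have h2 := LinearMap.congr_fun h1 (a ⊗ₜ[k] (1 : P))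
  simpa using h2

end

end THMM

theorem specTHM : SpecTHM.{u, v, w} := by
  intro k H Z Q _ _ _ _ _ _ _ _ _ ι AA P _ _ _ _ _ _ ρ ψ θ hC
  have hu := THMM.uniq ψ hC.span
  refine ⟨hu, hu _ _ fun x => ?_, fun γ γ' => hu _ _ fun x => ?_⟩
  · rw [← hC.thP 1 x]
    have e1 : ((1 : P ≃ₐ[Z] P).toAlgHom.restrictScalars k) = AlgHom.id k P := by
      ext p; rfl
    have e2 : (1 : AA ≃ₐ[k] AA).toAlgHom = AlgHom.id k AA := by
      ext p; rfl
    rw [e1, e2]
  · rw [← hC.thP (γ * γ') x]
    have e1 : Algebra.TensorProduct.map (AlgHom.id k AA)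
        ((γ * γ' : P ≃ₐ[Z] P).toAlgHom.restrictScalars k) =
        (Algebra.TensorProduct.map (AlgHom.id k AA) (γ.toAlgHom.restrictScalars k)).comp
        (Algebra.TensorProduct.map (AlgHom.id k AA) (γ'.toAlgHom.restrictScalars k)) := by
      ext p <;> simp
    have e2 : Algebra.TensorProduct.map ((θ γ' * θ γ).toAlgHom) (AlgHom.id k P) =
        (Algebra.TensorProduct.map ((θ γ').toAlgHom) (AlgHom.id k P)).comp
        (Algebra.TensorProduct.map ((θ γ).toAlgHom) (AlgHom.id k P)) := by
      ext p <;> simp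
    have e3 : (Algebra.TensorProduct.map (AlgHom.id k AA)
          (γ.toAlgHom.restrictScalars k)).comp
        (Algebra.TensorProduct.map ((θ γ').toAlgHom) (AlgHom.id k P)) =
        (Algebra.TensorProduct.map ((θ γ').toAlgHom) (AlgHom.id k P)).comp
        (Algebra.TensorProduct.map (AlgHom.id k AA) (γ.toAlgHom.restrictScalars k)) := by
      ext p <;> simp
    rw [e1, AlgHom.comp_apply, hC.thP γ' x, ← AlgHom.comp_apply, e3, AlgHom.comp_apply,
      hC.thP γ x, ← AlgHom.comp_apply, e2]

end Pool.Agent.Lib.MP_c37a72_al.NR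
end

section
set_option autoImplicit false

open scoped TensorProduct
open Coalgebra HopfAlgebra
open Pool.Agent.Lib.MP_c37a72_al.EG Pool.Agent.Lib.MP_c37a72_al.CO

namespace Pool.Agent.Lib.MP_c37a72_al.NR

universe u v w

namespace THXM

theorem galois_twist {Z L : Type*} [Field Z] [Field L] [A1 : Algebra Z L] [hG : IsGalois Z L]
    (σ : Z ≃+* Z) :
    @IsGalois Z _ L _ ((algebraMap Z L).comp (σ : Z →+* Z)).toAlgebra := by
  refine @IsGalois.of_equiv_equiv Z L _ _ A1 Z L _ _
    ((algebraMap Z L).comp (σ : Z →+* Z)).toAlgebra hG σ.symm (RingEquiv.refl L) ?_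
  ext z
  show algebraMap Z L (σ (σ.symm z)) = algebraMap Z L z
  rw [RingEquiv.apply_symm_apply]

/-- Restriction and lift of automorphisms, for a normal extension `j : Z → L` and `e : P → L`. -/
theorem key1 {Z P L : Type*} [Field Z] [Field P] [Field L] [Algebra Z P] [Normal Z P]
    (j : Z →+* L) (e : P →+* L) (hje : ∀ z, e (algebraMap Z P z) = j z)
    (hN : @Normal Z L _ _ j.toAlgebra) :
    (∀ s : L ≃+* L, (∀ z, s (j z) = j z) → ∃ γ : P ≃ₐ[Z] P, ∀ p, s (e p) = e (γ p)) ∧
    ∀ γ : P ≃ₐ[Z] P, ∃ s : L ≃+* L, (∀ z, s (j z) = j z) ∧ ∀ p, s (e p) = e (γ p) := by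
  let A1 : Algebra Z L := j.toAlgebra
  let A2 : Algebra P L := e.toAlgebra
  have : IsScalarTower Z P L := IsScalarTower.of_algebraMap_eq (fun z => (hje z).symm)
  have : Normal Z L := hN
  constructor
  · intro s hs
    let s' : L ≃ₐ[Z] L := AlgEquiv.ofRingEquiv (f := s) hs
    refine ⟨s'.restrictNormal P, fun p => ?_⟩
    exact (AlgEquiv.restrictNormal_commutes s' P p).symm
  · intro γ
    let s' : L ≃ₐ[Z] L := γ.liftNormal L
    refine ⟨s'.toRingEquiv, fun z => s'.commutes z, fun p => ?_⟩
    exact AlgEquiv.liftNormal_commutes γ L p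

end THXM

open THXM in
/-- **THX**: the action of `Gal(L / Z)` on `A`. -/
theorem specTHX (hTHM : SpecTHM.{u, v, w}) : SpecTHX.{u, v, w} := by
  intro k H Z Q _ _ _ _ _ _ _ _ _ ι AA P _ _ _ _ _ _ ρ ψ θ hc L _ _ _ _ _ _ e σ heσ
  obtain ⟨-, h1, hmul⟩ := hTHM k H Z Q ι AA P ρ ψ θ hc
  have := hc.gal
  have hinj : Function.Injective e := e.toRingHom.injective
  have hG := galois_twist (Z := Z) (L := L) σ.toRingEquiv
  have hN : @Normal Z L _ _ ((algebraMap Z L).comp (σ.toRingEquiv : Z →+* Z)).toAlgebra :=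
    @IsGalois.to_normal Z _ L _ ((algebraMap Z L).comp (σ.toRingEquiv : Z →+* Z)).toAlgebra hG
  obtain ⟨hr, hl⟩ := key1 (Z := Z) (P := P) (L := L)
    ((algebraMap Z L).comp (σ.toRingEquiv : Z →+* Z)) (e : P →+* L) (fun z => heσ z) hN
  have hr' : ∀ s : L ≃ₐ[Z] L, ∃ γ : P ≃ₐ[Z] P, ∀ p, s (e p) = e (γ p) := by
    intro s
    exact hr s.toRingEquiv (fun z => s.commutes _)
  choose g hg using hr'
  have huniq : ∀ (s : L ≃ₐ[Z] L) (γ : P ≃ₐ[Z] P), (∀ p, s (e p) = e (γ p)) → γ = g s := by
    intro s γ hγ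
    ext p
    apply hinj
    rw [← hγ, ← hg]
  refine ⟨fun s => θ (g s), ?_, ?_, ?_, ?_, ?_⟩
  · intro s γ hγ
    rw [huniq s γ hγ]
  · intro s
    exact ⟨g s, hg s, rfl⟩
  · have h2 : (1 : P ≃ₐ[Z] P) = g 1 := huniq 1 1 (fun p => rfl)
    show θ (g 1) = 1
    rw [← h2, h1]
  · intro s t
    have h2 : g s * g t = g (s * t) := by
      apply huniq (s * t) (g s * g t)
      intro p
      show s (t (e p)) = e (g s (g t p))
      rw [hg, hg]
    show θ (g (s * t)) = θ (g t) * θ (g s)
    rw [← h2, hmul]
  · ext τ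
    constructor
    · rintro ⟨s, rfl⟩
      exact ⟨g s, rfl⟩
    · rintro ⟨γ, rfl⟩
      obtain ⟨s, hs, hs'⟩ := hl γ
      have hfix : ∀ z, s (algebraMap Z L z) = algebraMap Z L z := by
        intro z
        have h3 := hs (σ.symm z)
        have h4 : ((algebraMap Z L).comp (σ.toRingEquiv : Z →+* Z)) (σ.symm z)
            = algebraMap Z L z := by
          show algebraMap Z L (σ (σ.symm z)) = _
          rw [AlgEquiv.apply_symm_apply]
        rwa [h4] at h3
      let s' : L ≃ₐ[Z] L := AlgEquiv.ofRingEquiv (f := s) hfix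
      refine ⟨s', ?_⟩
      have h5 : γ = g s' := huniq s' γ hs'
      show θ (g s') = θ γ
      rw [← h5]

end Pool.Agent.Lib.MP_c37a72_al.NR
end

section
/-!
# MP_c37a72_al, block NR: assembly of all the modules (non-reduced case)
-/
set_option autoImplicit false

namespace Pool.Agent.Lib.MP_c37a72_al.NR

universe u v w

theorem allTHM : SpecTHM.{u, v, w} := specTHM
theorem allDSC : SpecDSC.{u, v, w} := specDSC
theorem allGBM : SpecGBM.{u, v, w} := specGBM allTHM allDSC
theorem allIDA : SpecIDA.{u, v, w} := specIDA CO.allCOP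
theorem allRGU : SpecRGU.{u, v, w} := specRGU allIDA allGBM
theorem allTHX : SpecTHX.{u, v, w} := specTHX allTHM
theorem allNDM : SpecNDM.{u, v, w} := specNDM specFXD allIDA allRGU
theorem allAXX : SpecAXX.{u, v, w} := specAXX specEMB EG.allOPP
theorem allAYY : SpecAYY.{u, v, w} := specAYY specEMB EG.allOPP CO.allADS
theorem allAXC : SpecAXC.{u, v, w} := specAXC CO.allDIM CO.allADS
theorem allCCM : SpecCCM.{u, v} := specCCM specCCS
theorem allCCD : SpecCCD.{u, v} := specCCD allCCM
theorem allCCB : SpecCCB.{u, v} := specCCB allCCM allCCD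
theorem allYDX : SpecYDX.{u, v, w} := specYDX allTHX allNDM allAXX allAYY allAXC allCCB specPHI
theorem allLMX : SpecLMX.{u, v} := specLMX specDDK
theorem allHSM : SpecHSM.{u, v} := specHSM specDDK allLMX EG.allADB
theorem allHSC : SpecHSC.{u, v} := specHSC specDDK allLMX EG.allADB
theorem allALS : SpecALS.{u, v} := specALS specDDK allLMX allHSM EG.allADB
theorem allSH1 : SpecSH1.{u, v} := specSH1 allHSC EG.allADB specHAN
theorem allHX1 : SpecHX1.{u, v} := specHX1 allHSC allSH1 specSUB
theorem allNTH : SpecNTH.{u, v} := specNTH allHSM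
theorem allQCE : SpecQCE.{u, v} := specQCE LB.specDCT
theorem allNFG : SpecNFG.{u, v} := specNFG LB.specDCT allHSM allALS
theorem allNID : SpecNID.{u, v} := specNID allHX1 allNTH allQCE allNFG

end Pool.Agent.Lib.MP_c37a72_al.NR
end
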