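import Pool.Agent.Lib.MP_c37a72_al.SpecP
import Pool.Agent.Lib.MP_c37a72_al.CO.All
import Pool.Agent.Lib.MP_c37a72_al.KTK
import Pool.Agent.Lib.MP_c37a72_al.NR.IDA
import Pool.Agent.Lib.MP_c37a72_al.KAP
import Pool.Agent.Lib.MP_c37a72_al.CEN
import Pool.Agent.Lib.MP_c37a72_al.KC.KCA
import Pool.Agent.Lib.MP_c37a72_al.NR.Spec
import Pool.Agent.Lib.MP_c37a72_al.LP.Spec
import Pool.Agent.Lib.MP_c37a72_al.NI.SpecN

section
/-!
# Module FRC of MP_c37a72_al: the Ore division ring of fractions
-/
set_option autoImplicit false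

namespace Pool.Agent.Lib.MP_c37a72_al

universe u v w

open nonZeroDivisors OreLocalization in
theorem specFRC : SpecFRC.{u, v} := by
  classical
  intro k H _ _ _ _ hO
  have hL : ∀ (r : H) (s : nonZeroDivisors H), ∃ (r' : H) (s' : nonZeroDivisors H),
      (s' : H) * r = r' * s := by
    intro r s
    by_cases hr : r = 0
    · exact ⟨0, 1, by simp [hr]⟩
    · obtain ⟨x, y, hxy, hne⟩ := (hO r s hr (nonZeroDivisors.coe_ne_zero s)).2
      have hx : x ≠ 0 := fun h => hne (by rw [h, zero_mul])
      exact ⟨y, ⟨x, mem_nonZeroDivisors_of_ne_zero hx⟩, hxy⟩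
  let _ : OreLocalization.OreSet (nonZeroDivisors H) :=
    (OreLocalization.nonempty_oreSet_iff_of_noZeroDivisors.2 hL).some
  have hinj : Function.Injective
      (OreLocalization.numeratorHom : H → OreLocalization (nonZeroDivisors H) H) :=
    OreLocalization.numeratorHom_inj (fun x hx => hx.1)
  let ι : H →ₐ[k] OreLocalization (nonZeroDivisors H) H :=
    { OreLocalization.numeratorRingHom with
      commutes' := fun r => rfl }
  have hι : ∀ h : H, ι h = OreLocalization.numeratorHom h := fun h => rfl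
  have hleft : ∀ q : OreLocalization (nonZeroDivisors H) H, ∃ s h : H, s ≠ 0 ∧ ι s * q = ι h := by
    intro q
    induction q using OreLocalization.ind with | _ r s
    refine ⟨s, r, nonZeroDivisors.coe_ne_zero s, ?_⟩
    rw [hι, hι, OreLocalization.numeratorHom_apply, OreLocalization.numeratorHom_apply]
    exact OreLocalization.mul_cancel
  refine ⟨OreLocalization (nonZeroDivisors H) H, inferInstance, inferInstance, ι, ⟨?_, hleft, ?_⟩⟩
  · exact hinj
  · intro q
    obtain ⟨s, h, hs, hq⟩ := hleft q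
    by_cases hh : h = 0
    · refine ⟨1, 0, one_ne_zero, ?_⟩
      rw [map_one, mul_one, map_zero]
      rw [hh, map_zero] at hq
      have hs' : ι s ≠ 0 := by
        intro h0
        exact hs (hinj (by rw [← hι, h0, ← hι, map_zero]))
      exact (mul_eq_zero.1 hq).resolve_left hs'
    · obtain ⟨x, y, hxy, hne⟩ := (hO s h hs hh).1
      have hy : y ≠ 0 := fun h0 => hne (by rw [hxy, h0, mul_zero])
      refine ⟨y, x, hy, ?_⟩
      have hs' : ι s ≠ 0 := by
        intro h0
        exact hs (hinj (by rw [← hι, h0, ← hι, map_zero]))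
      apply mul_left_cancel₀ hs'
      rw [← mul_assoc, hq, ← map_mul, ← map_mul, hxy]

end Pool.Agent.Lib.MP_c37a72_al
end

section
/-!
# Module ML of MP_c37a72_al: multilinearisation of a polynomial identity
-/
set_option autoImplicit false

namespace Pool.Agent.Lib.MP_c37a72_al

universe u v w

namespace MLM

open Finset

/-- A sum over surjective self-maps is a sum over permutations. -/
theorem sum_surj {M : Type*} [AddCommMonoid M] {N : ℕ} (F : (Fin N → Fin N) → M) :
    ∑ r : Fin N → Fin N, (if Function.Surjective r then F r else 0) =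
      ∑ σ : Equiv.Perm (Fin N), F σ := by
  classical
  rw [← Finset.sum_filter]
  symm
  refine Finset.sum_bij (fun σ _ => (σ : Fin N → Fin N)) ?_ ?_ ?_ ?_
  · intro σ _
    simp only [Finset.mem_filter, Finset.mem_univ, true_and]
    exact σ.surjective
  · intro σ _ τ _ h
    exact DFunLike.coe_injective h
  · intro r hr
    simp only [Finset.mem_filter, Finset.mem_univ, true_and] at hr
    exact ⟨Equiv.ofBijective r (Finite.surjective_iff_bijective.1 hr), Finset.mem_univ _, rfl⟩
  · intro σ _
    rfl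

/-- Inclusion and exclusion. -/
theorem incl_excl {l N : ℕ} (r : Fin l → Fin N) :
    ∑ T : Finset (Fin N), (if ∀ p, r p ∉ T then ((-1 : ℤ)) ^ T.card else 0) =
      if Function.Surjective r then 1 else 0 := by
  classical
  rw [← Finset.sum_filter]
  have h1 : (Finset.univ : Finset (Finset (Fin N))).filter (fun T => ∀ p, r p ∉ T) =
      (Finset.univ.filter (fun j => j ∉ Set.range r)).powerset := by
    ext T
    simp only [Finset.mem_filter, Finset.mem_univ, true_and, Finset.mem_powerset]
    constructor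
    · intro h j hj
      simp only [Finset.mem_filter, Finset.mem_univ, true_and]
      rintro ⟨p, rfl⟩
      exact h p hj
    · intro h p hp
      have := h hp
      simp only [Finset.mem_filter, Finset.mem_univ, true_and] at this
      exact this ⟨p, rfl⟩
  rw [h1, Finset.sum_powerset_neg_one_pow_card]
  congr 1
  rw [Finset.filter_eq_empty_iff]
  simp only [Finset.mem_univ, true_implies, not_not, eq_iff_iff]
  constructor
  · intro h j
    exact @h j
  · intro h j
    exact h j

variable {k : Type u} {H : Type v} [Field k] [Ring H] [Algebra k H]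

/-- The substitution `x_i ↦ ∑_{j ∉ T, c j = i} a_j`. -/
noncomputable def sub {n N : ℕ} (c : Fin N → Fin n) (a : Fin N → H) (T : Finset (Fin N))
    (i : Fin n) : H :=
  ∑ j : Fin N, if c j = i ∧ j ∉ T then a j else 0

omit [Algebra k H] [Field k] in
theorem prod_ite {l : ℕ} (P : Fin l → Prop) [DecidablePred P] (b : Fin l → H) :
    (List.ofFn fun p => if P p then b p else 0).prod =
      if ∀ p, P p then (List.ofFn b).prod else 0 := by
  classical
  by_cases h : ∀ p, P p
  · rw [if_pos h]
    congr 2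
    funext p
    rw [if_pos (h p)]
  · rw [if_neg h]
    push Not at h
    obtain ⟨p, hp⟩ := h
    have := MultilinearMap.map_coord_zero (MultilinearMap.mkPiAlgebraFin ℤ l H)
      (m := fun p => if P p then b p else 0) p (by simp only [if_neg hp])
    rwa [MultilinearMap.mkPiAlgebraFin_apply] at this

omit [Algebra k H] [Field k] in
/-- Expansion of the product of a word. -/
theorem prod_sub {n N l : ℕ} (c : Fin N → Fin n) (a : Fin N → H) (T : Finset (Fin N))
    (v : Fin l → Fin n) :
    (List.ofFn fun p => sub c a T (v p)).prod =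
      ∑ r : Fin l → Fin N, if ∀ p, (c (r p) = v p ∧ r p ∉ T) then
        (List.ofFn fun p => a (r p)).prod else 0 := by
  classical
  have h := MultilinearMap.map_sum (MultilinearMap.mkPiAlgebraFin ℤ l H)
    (fun (p : Fin l) (j : Fin N) => if c j = v p ∧ j ∉ T then a j else 0)
  rw [MultilinearMap.mkPiAlgebraFin_apply] at h
  unfold sub
  rw [h]
  refine Finset.sum_congr rfl fun r _ => ?_
  rw [MultilinearMap.mkPiAlgebraFin_apply]
  exact prod_ite (fun p => c (r p) = v p ∧ r p ∉ T) (fun p => a (r p))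

omit [Algebra k H] [Field k] in
/-- The alternating sum of the products of a word. -/
theorem alt_sum {n N l : ℕ} (c : Fin N → Fin n) (a : Fin N → H) (v : Fin l → Fin n) :
    ∑ T : Finset (Fin N), ((-1 : ℤ)) ^ T.card • (List.ofFn fun p => sub c a T (v p)).prod =
      ∑ r : Fin l → Fin N, if Function.Surjective r then
        (if c ∘ r = v then (List.ofFn fun p => a (r p)).prod else 0) else 0 := by
  classical
  simp_rw [prod_sub, Finset.smul_sum]
  rw [Finset.sum_comm]
  refine Finset.sum_congr rfl fun r _ => ?_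
  by_cases hv : c ∘ r = v
  · rw [if_pos hv]
    have h1 : ∀ T : Finset (Fin N), ((-1 : ℤ)) ^ T.card • (if ∀ p, (c (r p) = v p ∧ r p ∉ T) then
        (List.ofFn fun p => a (r p)).prod else 0) =
        (if ∀ p, r p ∉ T then ((-1 : ℤ)) ^ T.card else 0) • (List.ofFn fun p => a (r p)).prod := by
      intro T
      have h2 : (∀ p, (c (r p) = v p ∧ r p ∉ T)) ↔ ∀ p, r p ∉ T :=
        ⟨fun h p => (h p).2, fun h p => ⟨congrFun hv p, h p⟩⟩
      by_cases h3 : ∀ p, r p ∉ T
      · rw [if_pos (h2.2 h3), if_pos h3]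
      · rw [if_neg (fun h => h3 (h2.1 h)), if_neg h3, smul_zero, zero_smul]
    simp_rw [h1]
    rw [← Finset.sum_smul, incl_excl]
    by_cases h4 : Function.Surjective r
    · rw [if_pos h4, if_pos h4, one_smul]
    · rw [if_neg h4, if_neg h4, zero_smul]
  · rw [if_neg hv]
    have h5 : ¬ ∀ p, c (r p) = v p := fun h => hv (funext h)
    rw [ite_self]
    refine Finset.sum_eq_zero fun T _ => ?_
    rw [if_neg (fun h => h5 fun p => (h p).1), smul_zero]

omit [Algebra k H] [Field k] in
/-- The alternating sum for a word of length at most `N`. -/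
theorem alt_sum_word {n N : ℕ} (c : Fin N → Fin n) (a : Fin N → H) (w : List (Fin n))
    (hw : w.length ≤ N) :
    ∑ T : Finset (Fin N), ((-1 : ℤ)) ^ T.card • (w.map (sub c a T)).prod =
      ∑ σ : Equiv.Perm (Fin N), if w = List.ofFn (c ∘ σ) then
        (List.ofFn fun i => a (σ i)).prod else 0 := by
  classical
  obtain ⟨l, v, rfl⟩ : ∃ (l : ℕ) (v : Fin l → Fin n), w = List.ofFn v :=
    ⟨w.length, w.get, (List.ofFn_get w).symm⟩
  rw [List.length_ofFn] at hw
  have h0 : ∀ T : Finset (Fin N), ((List.ofFn v).map (sub c a T)).prod =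
      (List.ofFn fun p => sub c a T (v p)).prod := by
    intro T
    rw [List.map_ofFn]
    rfl
  simp_rw [h0]
  rw [alt_sum]
  rcases hw.lt_or_eq with hlt | rfl
  · have h1 : ∀ r : Fin l → Fin N, ¬ Function.Surjective r := by
      intro r hr
      have := Fintype.card_le_of_surjective r hr
      simp only [Fintype.card_fin] at this
      omega
    rw [Finset.sum_eq_zero (fun r _ => if_neg (h1 r))]
    symm
    refine Finset.sum_eq_zero fun σ _ => ?_
    rw [if_neg]
    intro h
    have := congrArg List.length h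
    rw [List.length_ofFn, List.length_ofFn] at this
    omega
  · rw [sum_surj]
    refine Finset.sum_congr rfl fun σ _ => ?_
    by_cases h : c ∘ σ = v
    · rw [if_pos h, if_pos (by rw [h])]
    · rw [if_neg h, if_neg]
      intro h'
      exact h (List.ofFn_injective h').symm

/-- Evaluation of an element of the free algebra through its coefficients. -/
theorem lift_eq {n : ℕ} (b : Fin n → H) (f : FreeAlgebra k (Fin n)) :
    FreeAlgebra.lift k b f =
      (FreeAlgebra.equivMonoidAlgebraFreeMonoid f).coeff.sum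
        (fun w t => t • ((FreeMonoid.toList w).map b).prod) := by
  have h : FreeAlgebra.lift k b =
      (MonoidAlgebra.lift k H (FreeMonoid (Fin n)) (FreeMonoid.lift b)).comp
        (FreeAlgebra.equivMonoidAlgebraFreeMonoid (R := k) (X := Fin n)).toAlgHom := by
    ext i
    simp [FreeAlgebra.equivMonoidAlgebraFreeMonoid]
  rw [h]
  simp only [AlgHom.coe_comp, Function.comp_apply]
  rw [MonoidAlgebra.lift_apply]
  refine Finsupp.sum_congr fun w _ => ?_
  rw [FreeMonoid.lift_apply]

end MLM

open MLM in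
theorem specML : SpecML.{u, v} := by
  classical
  intro k H _ _ _ hPI
  obtain ⟨n, f, hf, hid⟩ := hPI
  set g := (FreeAlgebra.equivMonoidAlgebraFreeMonoid (R := k) (X := Fin n) f).coeff with hg
  have hg0 : g ≠ 0 := by
    intro h0
    apply hf
    have h1 : FreeAlgebra.equivMonoidAlgebraFreeMonoid (R := k) (X := Fin n) f = 0 := by
      apply MonoidAlgebra.coeff_injective
      exact h0
    exact (map_eq_zero_iff _ (FreeAlgebra.equivMonoidAlgebraFreeMonoid (R := k)
      (X := Fin n)).injective).1 h1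
  have hne : g.support.Nonempty := Finsupp.support_nonempty_iff.2 hg0
  obtain ⟨w0, hw0, hmax⟩ := g.support.exists_max_image
    (fun w => (FreeMonoid.toList w).length) hne
  set N := (FreeMonoid.toList w0).length with hN
  set c : Fin N → Fin n := (FreeMonoid.toList w0).get with hc
  have hc0 : List.ofFn c = FreeMonoid.toList w0 := List.ofFn_get _
  refine ⟨N, fun σ => (g w0)⁻¹ * g (FreeMonoid.ofList (List.ofFn (c ∘ σ))), ?_, ?_⟩
  · have h1 : FreeMonoid.ofList (List.ofFn (c ∘ ((1 : Equiv.Perm (Fin N)) : Fin N → Fin N))) =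
        w0 := by
      have : (c ∘ ((1 : Equiv.Perm (Fin N)) : Fin N → Fin N)) = c := by
        funext i
        simp
      rw [this, hc0]
      exact FreeMonoid.ofList_toList w0
    simp only [h1]
    exact inv_mul_cancel₀ (Finsupp.mem_support_iff.1 hw0)
  · intro a
    have h2 : ∀ T : Finset (Fin N),
        g.sum (fun w t => t • ((FreeMonoid.toList w).map (sub c a T)).prod) = 0 := by
      intro T
      rw [← lift_eq]
      exact hid _
    have h3 : ∑ T : Finset (Fin N), ((-1 : ℤ)) ^ T.card •
        g.sum (fun w t => t • ((FreeMonoid.toList w).map (sub c a T)).prod) = 0 :=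
      Finset.sum_eq_zero fun T _ => by rw [h2, smul_zero]
    have h4 : ∑ T : Finset (Fin N), ((-1 : ℤ)) ^ T.card •
        g.sum (fun w t => t • ((FreeMonoid.toList w).map (sub c a T)).prod) =
        ∑ σ : Equiv.Perm (Fin N), g (FreeMonoid.ofList (List.ofFn (c ∘ σ))) •
          (List.ofFn fun i => a (σ i)).prod := by
      simp only [Finsupp.sum, Finset.smul_sum]
      rw [Finset.sum_comm]
      have h5 : ∀ w ∈ g.support, ∑ T : Finset (Fin N), ((-1 : ℤ)) ^ T.card •
          (g w • ((FreeMonoid.toList w).map (sub c a T)).prod) =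
          ∑ σ : Equiv.Perm (Fin N), if w = FreeMonoid.ofList (List.ofFn (c ∘ σ)) then
            g w • (List.ofFn fun i => a (σ i)).prod else 0 := by
        intro w hw
        have h6 := alt_sum_word c a (FreeMonoid.toList w) (hmax w hw)
        have h7 : ∀ T : Finset (Fin N), ((-1 : ℤ)) ^ T.card •
            (g w • ((FreeMonoid.toList w).map (sub c a T)).prod) =
            g w • (((-1 : ℤ)) ^ T.card • ((FreeMonoid.toList w).map (sub c a T)).prod) :=
          fun T => smul_comm _ _ _
        simp_rw [h7]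
        rw [← Finset.smul_sum, h6, Finset.smul_sum]
        refine Finset.sum_congr rfl fun σ _ => ?_
        by_cases h8 : w = FreeMonoid.ofList (List.ofFn (c ∘ σ))
        · rw [if_pos h8, if_pos]
          rw [h8]
          exact FreeMonoid.toList_ofList _
        · rw [if_neg h8, if_neg, smul_zero]
          intro h9
          apply h8
          rw [← h9]
          exact (FreeMonoid.ofList_toList w).symm
      rw [Finset.sum_congr rfl h5, Finset.sum_comm]
      refine Finset.sum_congr rfl fun σ _ => ?_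
      rw [Finset.sum_ite_eq' ]
      by_cases h10 : FreeMonoid.ofList (List.ofFn (c ∘ σ)) ∈ g.support
      · rw [if_pos h10]
      · rw [if_neg h10, Finsupp.notMem_support_iff.1 h10, zero_smul]
    rw [h4] at h3
    have h11 : ∀ σ : Equiv.Perm (Fin N),
        ((g w0)⁻¹ * g (FreeMonoid.ofList (List.ofFn (c ∘ σ)))) •
          (List.ofFn fun i => a (σ i)).prod = (g w0)⁻¹ •
          (g (FreeMonoid.ofList (List.ofFn (c ∘ σ))) • (List.ofFn fun i => a (σ i)).prod) :=
      fun σ => mul_smul _ _ _
    simp_rw [h11]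
    rw [← Finset.smul_sum, h3, smul_zero]

end Pool.Agent.Lib.MP_c37a72_al
end

section
/-!
# Module ORE of MP_c37a72_al: a domain with a multilinear identity satisfies the Ore conditions
-/
set_option autoImplicit false

namespace Pool.Agent.Lib.MP_c37a72_al

universe u v w

namespace OREM

open Finset

variable {k : Type u} {H : Type v} [Field k] [Ring H] [Algebra k H]

omit [Algebra k H] [Field k] in
/-- Right independence of `a^i b`. -/
theorem indep [IsDomain H] (a b : H) (ha : a ≠ 0) (hb : b ≠ 0)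
    (hab : ∀ x y : H, a * x = b * y → a * x = 0) :
    ∀ (m : ℕ) (g : ℕ → H), ∑ i ∈ range m, a ^ i * b * g i = 0 → ∀ i < m, g i = 0 := by
  intro m
  induction m with
  | zero => intro g _ i hi; omega
  | succ m ih =>
    intro g hg
    rw [Finset.sum_range_succ'] at hg
    have h1 : ∑ i ∈ range m, a ^ (i + 1) * b * g (i + 1) =
        a * ∑ i ∈ range m, a ^ i * b * g (i + 1) := by
      rw [Finset.mul_sum]
      refine Finset.sum_congr rfl fun i _ => ?_
      rw [pow_succ']
      simp only [mul_assoc]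
    rw [h1, pow_zero, one_mul] at hg
    have h2 : a * (∑ i ∈ range m, a ^ i * b * g (i + 1)) = b * (- g 0) := by
      rw [mul_neg]
      exact eq_neg_of_add_eq_zero_left hg
    have h3 := hab _ _ h2
    have h4 : g 0 = 0 := by
      rw [h3, zero_add] at hg
      exact (mul_eq_zero.1 hg).resolve_left hb
    have h5 := ih (fun i => g (i + 1)) ((mul_eq_zero.1 h3).resolve_left ha)
    intro i hi
    rcases i with _ | i
    · exact h4
    · exact h5 i (by omega)

/-- Independence of the words in `a^i b`. -/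
theorem words [IsDomain H] (a b : H) (ha : a ≠ 0) (hb : b ≠ 0)
    (hab : ∀ x y : H, a * x = b * y → a * x = 0) (N : ℕ) :
    ∀ (n : ℕ) (c : (Fin n → Fin N) → k),
      ∑ w : Fin n → Fin N, c w • (List.ofFn fun p => a ^ (w p : ℕ) * b).prod = 0 → ∀ w, c w = 0 := by
  intro n
  induction n with
  | zero =>
    intro c hc w
    rw [Fintype.sum_unique] at hc
    simp only [List.ofFn_zero, List.prod_nil] at hc
    have h1 : c default = 0 := by
      by_contra h
      have h2 := congrArg (fun x => (c default)⁻¹ • x) hc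
      simp only [smul_smul, inv_mul_cancel₀ h, one_smul, smul_zero] at h2
      exact one_ne_zero h2
    rw [Subsingleton.elim w default]
    exact h1
  | succ n ih =>
    intro c hc w
    have h1 : ∑ w : Fin (n + 1) → Fin N, c w • (List.ofFn fun p => a ^ (w p : ℕ) * b).prod =
        ∑ i : Fin N, a ^ (i : ℕ) * b * (∑ w' : Fin n → Fin N,
          c (Fin.cons i w') • (List.ofFn fun p => a ^ (w' p : ℕ) * b).prod) := by
      rw [← (Fin.consEquiv (fun _ => Fin N)).sum_comp, Fintype.sum_prod_type]
      refine Finset.sum_congr rfl fun i _ => ?_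
      rw [Finset.mul_sum]
      refine Finset.sum_congr rfl fun w' _ => ?_
      simp only [Fin.consEquiv_apply, List.ofFn_succ, Fin.cons_zero, Fin.cons_succ,
        List.prod_cons]
      rw [mul_smul_comm]
      rfl
    rw [h1] at hc
    set G : Fin N → H := fun i => ∑ w' : Fin n → Fin N,
          c (Fin.cons i w') • (List.ofFn fun p => a ^ (w' p : ℕ) * b).prod with hG
    have h2 : ∑ i ∈ range N, a ^ i * b * (if h : i < N then G ⟨i, h⟩ else 0) = 0 := by
      rw [Finset.sum_range]
      rw [← hc]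
      refine Finset.sum_congr rfl fun i _ => ?_
      rw [dif_pos i.2]
    have h3 := indep a b ha hb hab N _ h2
    have h4 : G (w 0) = 0 := by
      have := h3 (w 0) (w 0).2
      rwa [dif_pos (w 0).2] at this
    have h5 := ih (fun w' => c (Fin.cons (w 0) w')) h4 (Fin.tail w)
    rwa [Fin.cons_self_tail] at h5

/-- The right Ore condition. -/
theorem right [IsDomain H] {N : ℕ} (hN : MLI k H N) (a b : H) (ha : a ≠ 0) (hb : b ≠ 0) :
    ∃ x y : H, a * x = b * y ∧ a * x ≠ 0 := by
  classical
  by_contra hcon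
  have hab : ∀ x y : H, a * x = b * y → a * x = 0 := by
    intro x y hxy
    by_contra h
    exact hcon ⟨x, y, hxy, h⟩
  obtain ⟨α, h1, hα⟩ := hN
  have h2 := hα (fun i => a ^ (i : ℕ) * b)
  have h3 : ∑ w : Fin N → Fin N, (if h : Function.Bijective w then α (Equiv.ofBijective w h)
      else 0) • (List.ofFn fun p => a ^ (w p : ℕ) * b).prod = 0 := by
    rw [← h2]
    refine Eq.trans ?_ ((MLM.sum_surj (fun w : Fin N → Fin N =>
      (if h : Function.Bijective w then α (Equiv.ofBijective w h)
      else 0) • (List.ofFn fun p => a ^ (w p : ℕ) * b).prod)).trans ?_)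
    · refine Finset.sum_congr rfl fun w _ => ?_
      by_cases h : Function.Surjective w
      · rw [if_pos h]
      · rw [if_neg h, dif_neg (fun h' => h h'.2), zero_smul]
    · refine Finset.sum_congr rfl fun σ _ => ?_
      rw [dif_pos σ.bijective]
      congr 2
      ext i
      rfl
  have h4 := words (k := k) a b ha hb hab N N _ h3 id
  rw [dif_pos Function.bijective_id] at h4
  have h5 : Equiv.ofBijective (id : Fin N → Fin N) Function.bijective_id = 1 := by
    ext i
    rfl
  rw [h5, h1] at h4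
  exact one_ne_zero h4

/-- The opposite ring satisfies an identity. -/
theorem mli_op {N : ℕ} (hN : MLI k H N) : MLI k Hᵐᵒᵖ N := by
  classical
  obtain ⟨α, h1, hα⟩ := hN
  let e : Equiv.Perm (Equiv.Perm (Fin N)) :=
    { toFun := fun σ => Fin.revPerm * σ * Fin.revPerm
      invFun := fun σ => Fin.revPerm * σ * Fin.revPerm
      left_inv := by
        intro σ
        ext i
        simp
      right_inv := by
        intro σ
        ext i
        simp }
  refine ⟨fun σ => α (e σ), ?_, ?_⟩
  · have : e 1 = 1 := by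
      ext i
      simp [e]
    show α (e 1) = 1
    rw [this, h1]
  · intro a
    apply MulOpposite.unop_injective
    rw [MulOpposite.unop_zero, ← hα (fun j => (a (Fin.rev j)).unop), Finset.unop_sum]
    rw [← Equiv.sum_comp e (fun σ => α σ • (List.ofFn fun i => (a (Fin.rev (σ i))).unop).prod)]
    refine Finset.sum_congr rfl fun σ _ => ?_
    rw [MulOpposite.unop_smul, MulOpposite.unop_list_prod, List.map_ofFn]
    congr 2
    apply List.ext_getElem
    · simp
    · intro i hi hi'
      have hiN : i < N := by simpa using hi'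
      have h2 : (⟨N - 1 - i, by omega⟩ : Fin N) = Fin.rev ⟨i, hiN⟩ := by
        ext
        simp only [Fin.val_rev]
        omega
      simp [e, List.getElem_reverse, h2]

end OREM

open OREM in
theorem specORE : SpecORE.{u, v} := by
  intro k H _ _ _ _ hN a b ha hb
  obtain ⟨N, hN⟩ := hN
  refine ⟨right hN a b ha hb, ?_⟩
  obtain ⟨x, y, hxy, hne⟩ := right (mli_op hN) (MulOpposite.op a) (MulOpposite.op b)
    (by simpa using ha) (by simpa using hb)
  refine ⟨x.unop, y.unop, ?_, ?_⟩
  · have := congrArg MulOpposite.unop hxy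
    simpa using this
  · intro h
    apply hne
    apply MulOpposite.unop_injective
    simpa using h

end Pool.Agent.Lib.MP_c37a72_al
end

section
/-!
# MP_c37a72_al: final assembly

`SpecHF0`: `[Z : F₀] < ∞` for every Noetherian Hopf domain with central quotient division ring and
bijective antipode. `brown`: `SpecHF0` implies the full answer to Q1.
-/
set_option autoImplicit false

namespace Pool.Agent.Lib.MP_c37a72_al

universe u v

/-- **HF0**: `[Z : F₀] < ∞` (labels and nilpotent step). -/
def SpecHF0 : Prop :=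
  ∀ (k : Type u) (H Z Q : Type v) [Field k] [IsAlgClosed k] [CharZero k] [Ring H] [IsDomain H]
    [IsNoetherianRing H] [HopfAlgebra k H] [Field Z] [Algebra k Z] [DivisionRing Q] [Algebra k Q]
    [Algebra Z Q] [IsScalarTower k Z Q] (ι : H →ₐ[k] Q), IsCQ k H Z Q ι →
    Function.Bijective (HopfAlgebra.antipode k (A := H)) → EG.HF0 k Z ι

/-- A PI domain over an infinite field has a central quotient division ring. -/
theorem allCFR : SpecCFR.{u, v} :=
  specCFR specML specORE specFRC specKAP (specCEN (specCAP specAWL))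

/-- Finiteness over the centre from `HF0`. -/
theorem finite_of_HF0 (k : Type u) (H Z Q : Type v) [Field k] [IsAlgClosed k] [CharZero k] [Ring H]
    [IsDomain H] [IsNoetherianRing H] [HopfAlgebra k H] [Field Z] [Algebra k Z] [DivisionRing Q]
    [Algebra k Q] [Algebra Z Q] [IsScalarTower k Z Q] (ι : H →ₐ[k] Q) (hι : IsCQ k H Z Q ι)
    (hS : Function.Bijective (HopfAlgebra.antipode k (A := H))) (h0 : EG.HF0 k Z ι) :
    Module.Finite (Subalgebra.center k H) H := by
  obtain ⟨AA, P, _, _, _, _, _, _, ρ, ψ, θ, hp⟩ := CO.allCPK k H Z Q ι hι hS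
  exact EG.allEND specKTK k H Z Q ι hι hS h0 AA P ρ ψ θ hp

/-- Brown's question, from `SpecHF0`. -/
theorem brown (h : SpecHF0.{u, v}) (k : Type u) [Field k] [IsAlgClosed k] [CharZero k]
    (H : Type v) [Ring H] [HopfAlgebra k H]
    (hS : Function.Bijective (HopfAlgebra.antipode k (A := H)))
    (hN : IsNoetherianRing H)
    (hPI : ∃ (n : ℕ) (f : FreeAlgebra k (Fin n)), f ≠ 0 ∧
      ∀ a : Fin n → H, FreeAlgebra.lift k a f = 0)
    (hD : IsDomain H) :
    Module.Finite (Subalgebra.center k H) H := by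
  obtain ⟨Z, Q, _, _, _, _, _, _, ι, hι⟩ := allCFR.{u, v} k H hPI
  exact finite_of_HF0 k H Z Q ι hι hS (h k H Z Q ι hι hS)

end Pool.Agent.Lib.MP_c37a72_al
end

section
/-!
# MP_c37a72_al: assembly, reduced case

`hf0_of_red`: in the reduced case (`KC.RedF`) the blocks KC (input from constancy), LP (labels), NI
(nilpotent step) give `EG.HF0`. `specRHF`: the same in the form `NR.SpecRHF` (used by `NR/FNC.lean`).
-/
set_option autoImplicit false

open scoped TensorProduct
open Coalgebra HopfAlgebra

namespace Pool.Agent.Lib.MP_c37a72_al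

universe u v w

/-- The output of the labels as `NI.IsDel`. -/
theorem isDel_of_lp {k : Type u} {Z Q F2 R2 : Type v} [Field k] [Field Z] [Algebra k Z]
    [DivisionRing Q] [Algebra k Q] [Algebra Z Q] [Field F2] [Algebra k F2] [Ring R2] [Algebra k R2]
    [Algebra F2 R2] [IsScalarTower k F2 R2] (D : Q →ₐ[k] R2) (K : Subalgebra F2 R2)
    (E : Subalgebra k Z) (hE : IsField E) (hfin : Module.Finite E Z) (δ : E →ₐ[k] K)
    (hδ : ∀ f : E, IsNilpotent (D (algebraMap Z Q f) - (δ f : R2))) :
    ∃ (E' : IntermediateField k Z) (δ' : E' →ₐ[k] R2), NI.IsDel D K E' δ' := by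
  let i : (E.toIntermediateField' hE) →ₐ[k] E :=
    { toFun := fun x => ⟨x.1, x.2⟩
      map_one' := rfl
      map_mul' := fun _ _ => rfl
      map_zero' := rfl
      map_add' := fun _ _ => rfl
      commutes' := fun _ => rfl }
  exact ⟨E.toIntermediateField' hE, ((K.val.restrictScalars k).comp δ).comp i, ⟨hfin, fun f => (δ (i f)).2,
    fun f => hδ (i f)⟩⟩

/-- The reduced case. -/
theorem hf0_of_red (hR2X : LB.SpecR2X.{u, v}) (hMK : LB.SpecMK.{u, v})
    (hFLD : KC.SpecFLD.{u, v, w}) (hCDM : KC.SpecCDM.{u, v})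
    (hTHG : KC.SpecTHG.{u, v, w}) (hPSB : KC.SpecPSB.{u, v, w}) (hKTH : KC.SpecKTH.{u, v, w})
    (hKDT : KC.SpecKDT.{u, v}) (hKCL : KC.SpecKCL.{u, v}) (hDES : CO.SpecDES.{u, v})
    (hLP : LP.SpecLP.{u, v}) (hNIS : NI.SpecNIS.{u, v})
    (k : Type u) (H Z Q : Type v) [Field k] [IsAlgClosed k] [CharZero k] [Ring H]
    [IsDomain H] [HopfAlgebra k H]
    [Field Z] [Algebra k Z] [DivisionRing Q] [Algebra k Q] [Algebra Z Q] [IsScalarTower k Z Q]
    (ι : H →ₐ[k] Q) (sQ : Q →ₗ[k] Q) (sZ : Z ≃ₐ[k] Z)
    (AA : Type w) (P : Type v) [Ring AA] [Algebra k AA] [Field P] [Algebra k P] [Algebra Z P]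
    [IsScalarTower k Z P] (ρ : H →ₗ[k] Module.End k AA) (ψ : ↥(EG.Opp k Z ι) →ₐ[k] AA ⊗[k] P)
    (θ : (P ≃ₐ[Z] P) → (AA ≃ₐ[k] AA))
    (hQ : IsCQ k H Z Q ι) (hS : Function.Bijective (antipode k (A := H)))
    (hs : CO.IsSQ k Z ι sQ sZ) (hC : EG.CPkg k Z ι ρ ψ θ)
    (F : Type v) [Field F] [IsAlgClosed F] [Algebra k F] [Algebra Z F] [IsScalarTower k Z F]
    [Algebra.IsAlgebraic Z F] (hred : KC.RedF θ sZ F) : EG.HF0 k Z ι := by
  obtain ⟨F2, _, _, R2, _, _, _, _, jF, j, D, hR⟩ := hR2X k H Z Q ι hQ
  have hK := hFLD k H Z Q F2 R2 ι jF j D AA P ρ ψ θ hQ hR hS hC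
  have hCC := hCDM k H Z Q F2 R2 ι jF j D hQ hR hS hK
  have hKP := KC.kpa hTHG hPSB hKTH hKDT hKCL hDES k H Z Q F2 R2 ι jF j D sQ sZ AA P ρ ψ θ hQ hR
    hS hs hC F hred
  obtain ⟨E, hE, hfin, δ, hδ⟩ := hLP k H Z Q F2 R2 ι jF j D hQ hR hS hK hCC
    ⟨F, inferInstance, inferInstance, inferInstance, inferInstance, inferInstance, inferInstance, hKP⟩
  obtain ⟨E', δ', hd⟩ := isDel_of_lp D (LB.K2 Z F2 ι j D) E hE hfin δ hδ
  exact hNIS k H Z Q F2 R2 ι jF j D hQ hR hS (hMK k H Z Q F2 R2 ι jF j D hQ hR hK hCC) E' δ' hd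

/-- `HF0` in the reduced case, in the form used by the final assembly (`NR/FNC.lean`). -/
theorem specRHF (hR2X : LB.SpecR2X.{u, v}) (hMK : LB.SpecMK.{u, v})
    (hKCA : KC.SpecKCA.{u, v, max u v}) (hLP : LP.SpecLP.{u, v}) (hNIS : NI.SpecNIS.{u, v}) :
    NR.SpecRHF.{u, v} := by
  intro k H Z Q _ _ _ _ _ _ _ _ _ _ _ _ _ ι hQ hS AA P _ _ _ _ _ _ ρ ψ θ sQ sZ hs hC L _ _ _ _ _ _
    e e' he he' hred
  obtain ⟨F2, _, _, R2, _, _, _, _, jF, j, D, hR⟩ := hR2X k H Z Q ι hQ
  obtain ⟨hK, hCC, hKP⟩ := hKCA k H Z Q F2 R2 ι jF j D hQ hR hS AA P ρ ψ θ sQ sZ hs hC L e e' he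
    he' hred
  obtain ⟨E, hE, hfin, δ, hδ⟩ := hLP k H Z Q F2 R2 ι jF j D hQ hR hS hK hCC hKP
  obtain ⟨E', δ', hd⟩ := isDel_of_lp D (LB.K2 Z F2 ι j D) E hE hfin δ hδ
  exact hNIS k H Z Q F2 R2 ι jF j D hQ hR hS (hMK k H Z Q F2 R2 ι jF j D hQ hR hK hCC) E' δ' hd

end Pool.Agent.Lib.MP_c37a72_al
end

section
/-!
# FNC: the last assembly, reduced case + non-reduced case
-/
set_option autoImplicit false

open scoped TensorProduct
open Coalgebra HopfAlgebra
open Pool.Agent.Lib.MP_c37a72_al.EG Pool.Agent.Lib.MP_c37a72_al.CO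

namespace Pool.Agent.Lib.MP_c37a72_al.NR

universe u v w

/-- Finiteness over the centre for every Noetherian Hopf domain with central quotient division ring
and bijective antipode. -/
theorem finC (hYDX : SpecYDX.{u, v, max u v}) (hLEX : SpecLEX.{u, v}) (hNID : SpecNID.{u, v})
    (hRHF : SpecRHF.{u, v}) (k : Type u) (H Z Q : Type v) [Field k] [IsAlgClosed k] [CharZero k]
    [Ring H] [IsDomain H] [IsNoetherianRing H] [HopfAlgebra k H] [Field Z] [Algebra k Z]
    [DivisionRing Q] [Algebra k Q] [Algebra Z Q] [IsScalarTower k Z Q] (ι : H →ₐ[k] Q)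
    (hQ : IsCQ k H Z Q ι) (hS : Function.Bijective (antipode k (A := H))) :
    Module.Finite (Subalgebra.center k H) H := by
  refine hNID ?_ k H Z Q ι hQ hS
  intro k H Z Q _ _ _ _ _ _ _ _ _ _ _ _ _ ι hQ hS
  obtain ⟨AA, P, _, _, _, _, _, _, ρ, ψ, θ, hp⟩ := CO.allCPK k H Z Q ι hQ hS
  obtain ⟨sQ, sZ, hs⟩ := CO.specSQX k H Z Q ι hQ hS
  have := hp.finP
  obtain ⟨L, _, _, _, _, e, e', hL1, hL2, he, he'⟩ := hLEX k Z P sZ
  by_cases hr : RED θ e e'
  · exact Or.inl (finite_of_HF0 k H Z Q ι hQ hS
      (hRHF k H Z Q ι hQ hS AA P ρ ψ θ sQ sZ hs hp L e e' he he' hr))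
  · exact Or.inr (hYDX k H Z Q ι AA P ρ ψ θ sQ sZ hQ hS hs hp L e e' he he' hr)

/-- Brown's question, from the modules which are not landed yet. -/
theorem brown2 (hYDX : SpecYDX.{u, v, max u v}) (hLEX : SpecLEX.{u, v}) (hNID : SpecNID.{u, v})
    (hRHF : SpecRHF.{u, v}) (k : Type u) [Field k] [IsAlgClosed k] [CharZero k]
    (H : Type v) [Ring H] [HopfAlgebra k H]
    (hS : Function.Bijective (HopfAlgebra.antipode k (A := H)))
    (hN : IsNoetherianRing H)
    (hPI : ∃ (n : ℕ) (f : FreeAlgebra k (Fin n)), f ≠ 0 ∧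
      ∀ a : Fin n → H, FreeAlgebra.lift k a f = 0)
    (hD : IsDomain H) :
    Module.Finite (Subalgebra.center k H) H := by
  obtain ⟨Z, Q, _, _, _, _, _, _, ι, hι⟩ := allCFR.{u, v} k H hPI
  exact finC hYDX hLEX hNID hRHF k H Z Q ι hι hS

end Pool.Agent.Lib.MP_c37a72_al.NR
end
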